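import Pool.Agent.Lib_helper81.Dir.Defs

/-!
Blaschke products (module H3).
-/

namespace Pool.Agent.Lib_helper81.Dir

open Complex Metric Set Filter Topology

/-- The Blaschke factor with zero `a`. -/
noncomputable def bl (a w : ℂ) : ℂ :=
  if a = 0 then w else ((‖a‖ : ℂ) / a) * (a - w) / (1 - (starRingEnd ℂ) a * w)

theorem one_sub_norm_le_den {a w : ℂ} (ha : ‖a‖ < 1) :
    1 - ‖w‖ ≤ ‖1 - (starRingEnd ℂ) a * w‖ := by
  have h1 : ‖(1 : ℂ)‖ - ‖(starRingEnd ℂ) a * w‖ ≤ ‖1 - (starRingEnd ℂ) a * w‖ :=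
    norm_sub_norm_le _ _
  have h2 : ‖(starRingEnd ℂ) a * w‖ ≤ ‖w‖ := by
    rw [norm_mul, RCLike.norm_conj]
    nlinarith [norm_nonneg w, norm_nonneg a]
  rw [norm_one] at h1
  linarith

theorem den_ne_zero {a w : ℂ} (ha : ‖a‖ < 1) (hw : ‖w‖ < 1) :
    1 - (starRingEnd ℂ) a * w ≠ 0 := by
  have := one_sub_norm_le_den (w := w) ha
  intro h
  rw [h, norm_zero] at this
  linarith

theorem norm_sub_le_norm_den {a w : ℂ} (ha : ‖a‖ < 1) (hw : ‖w‖ < 1) :
    ‖a - w‖ ≤ ‖1 - (starRingEnd ℂ) a * w‖ := by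
  have ha2 : ‖a‖ ^ 2 < 1 := by nlinarith [norm_nonneg a]
  have hw2 : ‖w‖ ^ 2 < 1 := by nlinarith [norm_nonneg w]
  have h : ‖1 - (starRingEnd ℂ) a * w‖ ^ 2 - ‖a - w‖ ^ 2 = (1 - ‖a‖ ^ 2) * (1 - ‖w‖ ^ 2) := by
    simp only [Complex.sq_norm, Complex.normSq_apply, Complex.sub_re, Complex.sub_im,
      Complex.mul_re, Complex.mul_im, Complex.conj_re, Complex.conj_im, Complex.one_re,
      Complex.one_im]
    ring
  have h3 : ‖a - w‖ ^ 2 ≤ ‖1 - (starRingEnd ℂ) a * w‖ ^ 2 := by nlinarith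
  exact le_of_sq_le_sq h3 (norm_nonneg _)

theorem norm_bl_le_one {a w : ℂ} (ha : ‖a‖ < 1) (hw : ‖w‖ < 1) : ‖bl a w‖ ≤ 1 := by
  unfold bl
  split_ifs with h
  · exact hw.le
  · have hd := den_ne_zero ha hw
    have hd' : 0 < ‖1 - (starRingEnd ℂ) a * w‖ := norm_pos_iff.2 hd
    have ha' : 0 < ‖a‖ := norm_pos_iff.2 h
    rw [norm_div, norm_mul, norm_div, Complex.norm_real, norm_norm, div_self ha'.ne', one_mul,
      div_le_one hd']
    exact norm_sub_le_norm_den ha hw

theorem norm_one_sub_bl_le {a w : ℂ} (ha : ‖a‖ < 1) (hw : ‖w‖ < 1) :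
    ‖1 - bl a w‖ ≤ (1 - ‖a‖) * ((1 + ‖w‖) / (1 - ‖w‖)) := by
  have hw' : 0 < 1 - ‖w‖ := by linarith
  unfold bl
  split_ifs with h
  · subst h
    rw [norm_zero, sub_zero, one_mul, le_div_iff₀ hw']
    have h1 : ‖1 - w‖ ≤ 1 + ‖w‖ := by
      have := norm_sub_le (1 : ℂ) w
      rwa [norm_one] at this
    nlinarith [norm_nonneg (1 - w), norm_nonneg w]
  · have hd := den_ne_zero ha hw
    have ha' : 0 < ‖a‖ := norm_pos_iff.2 h
    have haC : (‖a‖ : ℂ) ^ 2 = (starRingEnd ℂ) a * a := by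
      rw [← Complex.normSq_eq_conj_mul_self, Complex.normSq_eq_norm_sq]
      push_cast
      rfl
    have key : 1 - ((‖a‖ : ℂ) / a) * (a - w) / (1 - (starRingEnd ℂ) a * w)
        = (1 - (‖a‖ : ℂ)) * (1 + (‖a‖ : ℂ) / a * w) / (1 - (starRingEnd ℂ) a * w) := by
      rw [eq_div_iff hd, sub_mul, div_mul_cancel₀ _ hd]
      have e1 : (‖a‖ : ℂ) / a * a = ‖a‖ := div_mul_cancel₀ _ h
      have e2 : (‖a‖ : ℂ) * ((‖a‖ : ℂ) / a) = (starRingEnd ℂ) a := by
        rw [mul_div_assoc', ← sq, haC, mul_div_assoc, div_self h, mul_one]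
      linear_combination (-1 : ℂ) * e1 + w * e2
    rw [key, norm_div, norm_mul]
    have h1 : ‖(1 : ℂ) - (‖a‖ : ℂ)‖ = 1 - ‖a‖ := by
      have : (1 : ℂ) - (‖a‖ : ℂ) = ((1 - ‖a‖ : ℝ) : ℂ) := by push_cast; rfl
      rw [this, Complex.norm_real, Real.norm_of_nonneg (by linarith)]
    have h2 : ‖1 + (‖a‖ : ℂ) / a * w‖ ≤ 1 + ‖w‖ := by
      refine (norm_add_le _ _).trans ?_
      rw [norm_one, norm_mul, norm_div, Complex.norm_real, norm_norm, div_self ha'.ne', one_mul]
    rw [h1, mul_div_assoc]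
    refine mul_le_mul_of_nonneg_left ?_ (by linarith)
    exact div_le_div₀ (by positivity) h2 hw' (one_sub_norm_le_den ha)

theorem differentiableAt_bl {a w : ℂ} (ha : ‖a‖ < 1) (hw : ‖w‖ < 1) :
    DifferentiableAt ℂ (bl a) w := by
  have hd := den_ne_zero ha hw
  by_cases h : a = 0
  · have : bl a = fun w => w := by funext w; simp [bl, h]
    rw [this]; exact differentiableAt_id
  · have : bl a = fun w => ((‖a‖ : ℂ) / a) * (a - w) / (1 - (starRingEnd ℂ) a * w) := by
      funext w; simp [bl, h]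
    rw [this]
    exact DifferentiableAt.div (by fun_prop) (by fun_prop) hd

theorem differentiableOn_bl {a : ℂ} (ha : ‖a‖ < 1) : DifferentiableOn ℂ (bl a) (ball 0 1) :=
  fun w hw => (differentiableAt_bl ha (by simpa using hw)).differentiableWithinAt

theorem hasDerivAt_bl {a w : ℂ} (ha : ‖a‖ < 1) (hw : ‖w‖ < 1) :
    ∃ d : ℂ, HasDerivAt (bl a) d w ∧
      ‖d‖ = (1 - ‖a‖ ^ 2) / ‖1 - (starRingEnd ℂ) a * w‖ ^ 2 := by
  have hd := den_ne_zero ha hw
  by_cases h : a = 0
  · have : bl a = fun w => w := by funext w; simp [bl, h]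
    rw [this]
    refine ⟨1, hasDerivAt_id w, by simp [h]⟩
  · have hf : bl a = fun w => ((‖a‖ : ℂ) / a) * (a - w) / (1 - (starRingEnd ℂ) a * w) := by
      funext w; simp [bl, h]
    have ha' : 0 < ‖a‖ := norm_pos_iff.2 h
    rw [hf]
    have h1 : HasDerivAt (fun w : ℂ => ((‖a‖ : ℂ) / a) * (a - w)) (((‖a‖ : ℂ) / a) * (-1)) w :=
      ((hasDerivAt_id w).const_sub a).const_mul _
    have h2 : HasDerivAt (fun w : ℂ => 1 - (starRingEnd ℂ) a * w) (-((starRingEnd ℂ) a * 1)) w :=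
      ((hasDerivAt_id w).const_mul _).const_sub 1
    have h3 := h1.div h2 hd
    refine ⟨_, h3, ?_⟩
    have haC : (starRingEnd ℂ) a * a = (‖a‖ : ℂ) ^ 2 := by
      rw [← Complex.normSq_eq_conj_mul_self, Complex.normSq_eq_norm_sq]
      push_cast
      rfl
    have e : ((‖a‖ : ℂ) / a) * (-1) * (1 - (starRingEnd ℂ) a * w)
        - ((‖a‖ : ℂ) / a) * (a - w) * (-((starRingEnd ℂ) a * 1))
        = ((‖a‖ : ℂ) / a) * (-(((1 - ‖a‖ ^ 2 : ℝ)) : ℂ)) := by
      push_cast
      linear_combination ((‖a‖ : ℂ) / a) * haC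
    rw [e, norm_div, norm_mul, norm_div, Complex.norm_real, norm_norm, div_self ha'.ne', one_mul,
      norm_neg, Complex.norm_real, norm_pow, Real.norm_of_nonneg (by nlinarith [norm_nonneg a])]

theorem analyticAt_bl {a w : ℂ} (ha : ‖a‖ < 1) (hw : ‖w‖ < 1) : AnalyticAt ℂ (bl a) w := by
  have hw' : w ∈ ball (0 : ℂ) 1 := by simpa using hw
  exact (differentiableOn_bl ha).analyticAt (isOpen_ball.mem_nhds hw')

theorem bl_eq_zero_iff {a w : ℂ} (ha : ‖a‖ < 1) (hw : ‖w‖ < 1) : bl a w = 0 ↔ w = a := by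
  have hd := den_ne_zero ha hw
  unfold bl
  split_ifs with h
  · rw [h]
  · have ha' : (‖a‖ : ℂ) ≠ 0 := by
      rw [Ne, Complex.ofReal_eq_zero, norm_eq_zero]; exact h
    rw [div_eq_zero_iff, mul_eq_zero, div_eq_zero_iff]
    simp only [hd, h, ha', or_false, false_or]
    rw [sub_eq_zero, eq_comm]

theorem analyticOrderAt_bl_self {a : ℂ} (ha : ‖a‖ < 1) : analyticOrderAt (bl a) a = 1 := by
  obtain ⟨d, hd, hn⟩ := hasDerivAt_bl ha ha
  refine (analyticAt_bl ha ha).analyticOrderAt_eq_one_of_zero_deriv_ne_zero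
    ((bl_eq_zero_iff ha ha).2 rfl) ?_
  rw [hd.deriv, ← norm_pos_iff, hn]
  have h1 := norm_pos_iff.2 (den_ne_zero ha ha)
  have h2 : 0 < 1 - ‖a‖ ^ 2 := by nlinarith [norm_nonneg a]
  positivity


/-! ### Infinite products -/

theorem hasProdLocallyUniformlyOn_bl {ι : Type*} (z : ι → ℂ) (hz : ∀ i, ‖z i‖ < 1)
    (hs : Summable fun i => 1 - ‖z i‖) :
    HasProdLocallyUniformlyOn (fun i w => bl (z i) w) (fun w => ∏' i, bl (z i) w)
      (ball (0 : ℂ) 1) := by
  have h : HasProdLocallyUniformlyOn (fun i w => 1 + (bl (z i) w - 1))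
      (fun w => ∏' i, (1 + (bl (z i) w - 1))) (ball (0 : ℂ) 1) := by
    apply hasProdLocallyUniformlyOn_of_forall_compact Metric.isOpen_ball
    intro K hK hcK
    have hu : ∃ r : ℝ, 0 ≤ r ∧ r < 1 ∧ ∀ w ∈ K, ‖w‖ ≤ r := by
      rcases K.eq_empty_or_nonempty with hN | hN
      · exact ⟨0, le_rfl, one_pos, by simp [hN]⟩
      · obtain ⟨q₀, hq₀, _, HB⟩ := hcK.exists_sSup_image_eq_and_ge hN
          (show ContinuousOn (fun q : ℂ ↦ ‖q‖) K by fun_prop)
        exact ⟨‖q₀‖, norm_nonneg _, by simpa using hK hq₀, fun w hw => HB w hw⟩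
    obtain ⟨r, hr0, hr1, hr⟩ := hu
    refine (hs.mul_right ((1 + r) / (1 - r))).hasProdUniformlyOn_one_add hcK
      (.of_forall fun i w hw => ?_) (fun i => ?_)
    · have hw1 : ‖w‖ < 1 := by simpa using hK hw
      rw [← norm_neg, neg_sub]
      refine (norm_one_sub_bl_le (hz i) hw1).trans ?_
      refine mul_le_mul_of_nonneg_left ?_ (by linarith [hz i])
      exact div_le_div₀ (by positivity) (by linarith [hr w hw]) (by linarith)
        (by linarith [hr w hw])
    · exact (((differentiableOn_bl (hz i)).continuousOn.mono hK).sub continuousOn_const)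
  simpa using h

theorem summable_norm_bl_sub_one {ι : Type*} (z : ι → ℂ) (hz : ∀ i, ‖z i‖ < 1)
    (hs : Summable fun i => 1 - ‖z i‖) {w : ℂ} (hw : ‖w‖ < 1) :
    Summable fun i => ‖bl (z i) w - 1‖ := by
  refine (hs.mul_right ((1 + ‖w‖) / (1 - ‖w‖))).of_nonneg_of_le (fun _ => norm_nonneg _) fun i => ?_
  rw [← norm_neg, neg_sub]
  exact norm_one_sub_bl_le (hz i) hw

theorem multipliable_bl {ι : Type*} (z : ι → ℂ) (hz : ∀ i, ‖z i‖ < 1)
    (hs : Summable fun i => 1 - ‖z i‖) {w : ℂ} (hw : ‖w‖ < 1) :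
    Multipliable fun i => bl (z i) w := by
  have := multipliable_one_add_of_summable (summable_norm_bl_sub_one z hz hs hw)
  simpa using this

theorem differentiableOn_tprod_bl {ι : Type*} (z : ι → ℂ) (hz : ∀ i, ‖z i‖ < 1)
    (hs : Summable fun i => 1 - ‖z i‖) :
    DifferentiableOn ℂ (fun w => ∏' i, bl (z i) w) (ball (0 : ℂ) 1) :=
  (hasProdLocallyUniformlyOn_bl z hz hs).differentiableOn
    (.of_forall fun _ ↦ by
      simpa [Finset.prod_fn] using
        DifferentiableOn.finsetProd (fun i _ ↦ differentiableOn_bl (hz i))) Metric.isOpen_ball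

theorem tprod_bl_ne_zero {ι : Type*} (z : ι → ℂ) (hz : ∀ i, ‖z i‖ < 1)
    (hs : Summable fun i => 1 - ‖z i‖) {w : ℂ} (hw : ‖w‖ < 1) (hne : ∀ i, z i ≠ w) :
    ∏' i, bl (z i) w ≠ 0 := by
  have := tprod_one_add_ne_zero_of_summable (f := fun i => bl (z i) w - 1)
    (fun i => by
      simp only [add_sub_cancel]
      rw [Ne, bl_eq_zero_iff (hz i) hw]
      exact fun h => hne i h.symm) (summable_norm_bl_sub_one z hz hs hw)
  simpa using this

theorem finite_eq {ι : Type*} (z : ι → ℂ) (hs : Summable fun i => 1 - ‖z i‖) {w : ℂ}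
    (hw : ‖w‖ < 1) : {i | z i = w}.Finite := by
  have h := hs.tendsto_cofinite_zero
  have h2 : ∀ᶠ i in cofinite, 1 - ‖z i‖ < 1 - ‖w‖ :=
    h.eventually (gt_mem_nhds (by linarith))
  have h3 : {i | ¬ (1 - ‖z i‖ < 1 - ‖w‖)}.Finite := h2
  refine h3.subset fun i hi => ?_
  simp only [Set.mem_ofPred_eq] at hi ⊢
  rw [hi]
  exact lt_irrefl _

theorem analyticAt_prod_bl {ι : Type*} (z : ι → ℂ) (hz : ∀ i, ‖z i‖ < 1) (s : Finset ι) {w : ℂ}
    (hw : ‖w‖ < 1) : AnalyticAt ℂ (fun w => ∏ i ∈ s, bl (z i) w) w := by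
  have h : DifferentiableOn ℂ (fun w => ∏ i ∈ s, bl (z i) w) (ball 0 1) :=
    DifferentiableOn.fun_finsetProd fun i _ => differentiableOn_bl (hz i)
  exact h.analyticAt (isOpen_ball.mem_nhds (by simpa using hw))

theorem analyticOrderAt_prod_bl {ι : Type*} (z : ι → ℂ) (hz : ∀ i, ‖z i‖ < 1) {w : ℂ}
    (hw : ‖w‖ < 1) (s : Finset ι) (hs : ∀ i ∈ s, z i = w) :
    analyticOrderAt (fun w => ∏ i ∈ s, bl (z i) w) w = s.card := by
  classical
  induction s using Finset.induction_on with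
  | empty =>
    simp only [Finset.prod_empty, Finset.card_empty, Nat.cast_zero]
    rw [analyticOrderAt_eq_zero]
    right
    exact one_ne_zero
  | insert a s ha ih =>
    have h1 : (fun w => ∏ i ∈ insert a s, bl (z i) w)
        = bl (z a) * (fun w => ∏ i ∈ s, bl (z i) w) := by
      funext w
      simp [Finset.prod_insert ha]
    rw [h1, analyticOrderAt_mul (analyticAt_bl (hz a) hw) (analyticAt_prod_bl z hz s hw),
      ih fun i hi => hs i (Finset.mem_insert_of_mem hi), Finset.card_insert_of_notMem ha]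
    have h2 : z a = w := hs a (Finset.mem_insert_self _ _)
    have h3 : analyticOrderAt (bl (z a)) w = 1 := by
      rw [← h2]
      exact analyticOrderAt_bl_self (hz a)
    rw [h3]
    push_cast
    rw [add_comm]

theorem analyticOrderAt_tprod_bl {ι : Type*} (z : ι → ℂ) (hz : ∀ i, ‖z i‖ < 1)
    (hs : Summable fun i => 1 - ‖z i‖) {w : ℂ} (hw : ‖w‖ < 1) :
    analyticOrderAt (fun w => ∏' i, bl (z i) w) w = {i | z i = w}.encard := by
  classical
  set S : Set ι := {i | z i = w} with hS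
  have hfin : S.Finite := finite_eq z hs hw
  set s : Finset ι := hfin.toFinset with hsdef
  have hmem : ∀ i, i ∈ s ↔ z i = w := by intro i; simp [hsdef, hS]
  have hz' : ∀ i : ↥((s : Set ι)ᶜ), ‖z i‖ < 1 := fun i => hz i
  have hs' : Summable fun i : ↥((s : Set ι)ᶜ) => 1 - ‖z i‖ := hs.subtype _
  have hdec : ∀ v ∈ ball (0 : ℂ) 1, ∏' i, bl (z i) v
      = (∏ i ∈ s, bl (z i) v) * ∏' i : ↥((s : Set ι)ᶜ), bl (z i) v := by
    intro v hv
    have hv' : ‖v‖ < 1 := by simpa using hv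
    have hc := multipliable_bl (fun i : ↥((s : Set ι)ᶜ) => z i) hz' hs' hv'
    have hc2 : Multipliable ((fun i => bl (z i) v) ∘ ((↑) : ↥(s : Set ι) → ι)) :=
      (Set.toFinite (s : Set ι)).multipliable _
    rw [← hc2.tprod_mul_tprod_compl hc]
    congr 1
    exact Finset.tprod_subtype s (fun i => bl (z i) v)
  have hev : (fun w => ∏' i, bl (z i) w) =ᶠ[𝓝 w]
      (fun w => ∏ i ∈ s, bl (z i) w) * (fun v => ∏' i : ↥((s : Set ι)ᶜ), bl (z i) v) := by
    filter_upwards [isOpen_ball.mem_nhds (show w ∈ ball (0 : ℂ) 1 by simpa using hw)] with v hv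
    exact hdec v hv
  have han : AnalyticAt ℂ (fun v => ∏' i : ↥((s : Set ι)ᶜ), bl (z i) v) w :=
    (differentiableOn_tprod_bl (fun i : ↥((s : Set ι)ᶜ) => z i) hz' hs').analyticAt
      (isOpen_ball.mem_nhds (by simpa using hw))
  rw [analyticOrderAt_congr hev, analyticOrderAt_mul (analyticAt_prod_bl z hz s hw) han,
    analyticOrderAt_prod_bl z hz hw s fun i hi => (hmem i).1 hi]
  have h0 : analyticOrderAt (fun v => ∏' i : ↥((s : Set ι)ᶜ), bl (z i) v) w = 0 := by
    rw [analyticOrderAt_eq_zero]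
    right
    refine tprod_bl_ne_zero (fun i : ↥((s : Set ι)ᶜ) => z i) hz' hs' hw fun i hi => ?_
    exact i.2 ((hmem i).2 hi)
  rw [h0, add_zero, hfin.encard_eq_coe_toFinset_card]

/-- **Blaschke products.** -/
theorem exists_blaschke {ι : Type*} (z : ι → ℂ) (hz : ∀ i, ‖z i‖ < 1)
    (hs : Summable fun i => 1 - ‖z i‖) :
    ∃ B : ℂ → ℂ, DifferentiableOn ℂ B (ball 0 1) ∧ (∀ w ∈ ball (0 : ℂ) 1, ‖B w‖ ≤ 1) ∧
      (∀ w ∈ ball (0 : ℂ) 1, analyticOrderAt B w = {i | z i = w}.encard) ∧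
      ∀ w ∈ ball (0 : ℂ) 1,
        Tendsto (fun s : Finset ι => ∏ i ∈ s, bl (z i) w) atTop (𝓝 (B w)) := by
  have hT : ∀ w ∈ ball (0 : ℂ) 1,
      Tendsto (fun s : Finset ι => ∏ i ∈ s, bl (z i) w) atTop (𝓝 (∏' i, bl (z i) w)) := by
    intro w hw
    exact (multipliable_bl z hz hs (by simpa using hw)).hasProd
  refine ⟨fun w => ∏' i, bl (z i) w, differentiableOn_tprod_bl z hz hs, ?_, ?_, hT⟩
  · intro w hw
    refine le_of_tendsto (hT w hw).norm (.of_forall fun s => ?_)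
    rw [norm_prod]
    exact Finset.prod_le_one (fun _ _ => norm_nonneg _)
      fun i _ => norm_bl_le_one (hz i) (by simpa using hw)
  · intro w hw
    exact analyticOrderAt_tprod_bl z hz hs (by simpa using hw)

theorem norm_prod_bl_le_one {ι : Type*} (z : ι → ℂ) (hz : ∀ i, ‖z i‖ < 1) (s : Finset ι) {w : ℂ}
    (hw : w ∈ ball (0 : ℂ) 1) : ‖∏ i ∈ s, bl (z i) w‖ ≤ 1 := by
  rw [norm_prod]
  exact Finset.prod_le_one (fun _ _ => norm_nonneg _)
    fun i _ => norm_bl_le_one (hz i) (by simpa using hw)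

theorem norm_deriv_prod_bl_le {ι : Type*} (z : ι → ℂ) (hz : ∀ i, ‖z i‖ < 1) (s : Finset ι) (w : ℂ)
    (hw : w ∈ ball (0 : ℂ) 1) :
    ‖deriv (fun w => ∏ i ∈ s, bl (z i) w) w‖
      ≤ ∑ i ∈ s, (1 - ‖z i‖ ^ 2) / ‖1 - (starRingEnd ℂ) (z i) * w‖ ^ 2 := by
  classical
  have hw' : ‖w‖ < 1 := by simpa using hw
  induction s using Finset.induction_on with
  | empty => simp
  | insert a s ha ih =>
    have h1 : (fun w => ∏ i ∈ insert a s, bl (z i) w)
        = bl (z a) * (fun w => ∏ i ∈ s, bl (z i) w) := by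
      funext w
      simp [Finset.prod_insert ha]
    obtain ⟨d, hd, hn⟩ := hasDerivAt_bl (hz a) hw'
    have h2 : DifferentiableAt ℂ (fun w => ∏ i ∈ s, bl (z i) w) w :=
      (analyticAt_prod_bl z hz s hw').differentiableAt
    rw [h1, (hd.mul h2.hasDerivAt).deriv, Finset.sum_insert ha]
    refine (norm_add_le _ _).trans ?_
    rw [norm_mul, norm_mul]
    have h3 := norm_prod_bl_le_one z hz s hw
    have h4 := norm_bl_le_one (hz a) hw'
    refine add_le_add ?_ ?_
    · rw [hn]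
      exact mul_le_of_le_one_right (by rw [← hn]; exact norm_nonneg _) h3
    · exact (mul_le_of_le_one_left (norm_nonneg _) h4).trans ih

/-! ### Division by finitely many zeros -/

theorem analyticAt_prod_sub {ι : Type*} (z : ι → ℂ) (s : Finset ι) (w : ℂ) :
    AnalyticAt ℂ (fun w => ∏ i ∈ s, (w - z i)) w := by
  have h : Differentiable ℂ (fun w => ∏ i ∈ s, (w - z i)) := by fun_prop
  exact h.analyticAt w

open Classical in
theorem analyticOrderAt_prod_sub {ι : Type*} (z : ι → ℂ) (s : Finset ι) (w : ℂ) :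
    analyticOrderAt (fun w => ∏ i ∈ s, (w - z i)) w = ({i ∈ s | z i = w}.card : ℕ∞) := by
  induction s using Finset.induction_on with
  | empty =>
    simp only [Finset.prod_empty, Finset.filter_empty, Finset.card_empty, Nat.cast_zero]
    rw [analyticOrderAt_eq_zero]
    right
    exact one_ne_zero
  | insert a s ha ih =>
    have h1 : (fun w => ∏ i ∈ insert a s, (w - z i))
        = (fun w => w - z a) * (fun w => ∏ i ∈ s, (w - z i)) := by
      funext w
      simp [Finset.prod_insert ha]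
    rw [h1, analyticOrderAt_mul (by fun_prop) (analyticAt_prod_sub z s w), ih]
    by_cases h : z a = w
    · have h3 : analyticOrderAt (fun w => w - z a) w = 1 := by
        rw [← h]
        exact analyticOrderAt_id_sub_const_self
      rw [h3, Finset.filter_insert, if_pos h,
        Finset.card_insert_of_notMem (fun hh => ha (Finset.mem_filter.1 hh).1)]
      push_cast
      rw [add_comm]
    · have h3 : analyticOrderAt (fun w => w - z a) w = 0 := by
        rw [analyticOrderAt_eq_zero]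
        right
        exact sub_ne_zero.2 (Ne.symm h)
      rw [h3, Finset.filter_insert, if_neg h, zero_add]

open Classical in
theorem exists_quotient {ι : Type*} (z : ι → ℂ) (hz : ∀ i, ‖z i‖ < 1) (f : ℂ → ℂ)
    (hf : DifferentiableOn ℂ f (ball 0 1)) (s : Finset ι)
    (hord : ∀ w ∈ ball (0 : ℂ) 1, ({i ∈ s | z i = w}.card : ℕ∞) ≤ analyticOrderAt f w) :
    ∃ h : ℂ → ℂ, DifferentiableOn ℂ h (ball 0 1) ∧
      ∀ w ∈ ball (0 : ℂ) 1, f w = (∏ i ∈ s, (w - z i)) * h w := by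
  induction s using Finset.induction_on with
  | empty => exact ⟨f, hf, fun w _ => by simp⟩
  | insert a s ha ih =>
    obtain ⟨h, hh, hfh⟩ := ih fun w hw => by
      refine le_trans ?_ (hord w hw)
      exact_mod_cast Finset.card_le_card
        (Finset.filter_subset_filter _ (Finset.subset_insert a s))
    have ha1 : z a ∈ ball (0 : ℂ) 1 := by simpa using hz a
    have hnhds := isOpen_ball.mem_nhds ha1
    have hev : f =ᶠ[𝓝 (z a)] (fun w => ∏ i ∈ s, (w - z i)) * h := by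
      filter_upwards [hnhds] with v hv
      exact hfh v hv
    have hha : AnalyticAt ℂ h (z a) := hh.analyticAt hnhds
    have ho := hord (z a) ha1
    rw [analyticOrderAt_congr hev, analyticOrderAt_mul (analyticAt_prod_sub z s _) hha,
      analyticOrderAt_prod_sub, Finset.filter_insert, if_pos rfl,
      Finset.card_insert_of_notMem (fun hh => ha (Finset.mem_filter.1 hh).1)] at ho
    push_cast at ho
    have h1 : (1 : ℕ∞) ≤ analyticOrderAt h (z a) :=
      (ENat.add_le_add_iff_left (ENat.natCast_ne_top _)).1 ho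
    have h0 : h (z a) = 0 := by
      apply apply_eq_zero_of_analyticOrderAt_ne_zero
      intro h2
      rw [h2] at h1
      exact absurd h1 (by simp)
    refine ⟨dslope h (z a), (Complex.differentiableOn_dslope hnhds).2 hh, fun w hw => ?_⟩
    rw [hfh w hw, Finset.prod_insert ha]
    have h2 := sub_smul_dslope h (z a) w
    rw [h0, sub_zero, smul_eq_mul] at h2
    rw [← h2]
    ring

end Pool.Agent.Lib_helper81.Dir
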