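import Pool.Agent.Lib_helper81.Dir.Tree2

/-!
Zero sets of the Dirichlet space: elementary geometry of the disc.
-/

namespace Pool.Agent.Lib_helper81.Dir

open Complex Metric Set

lemma norm_ex (x : ℝ) : ‖ex x‖ = 1 := by
  rw [ex]; exact Complex.norm_exp_ofReal_mul_I _

lemma ex_add (x y : ℝ) : ex (x + y) = ex x * ex y := by
  rw [ex, ex, ex, ← Complex.exp_add]; congr 1; push_cast; ring

lemma ex_zero : ex 0 = 1 := by simp [ex]

lemma ex_int (N : ℤ) : ex N = 1 := by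
  rw [ex, Complex.exp_eq_one_iff]
  exact ⟨N, by push_cast; ring⟩

lemma ex_add_int (x : ℝ) (N : ℤ) : ex (x + N) = ex x := by
  rw [ex_add, ex_int, mul_one]

lemma conj_ex (x : ℝ) : (starRingEnd ℂ) (ex x) = ex (-x) := by
  rw [ex, ex, ← Complex.exp_conj, map_mul, Complex.conj_I, Complex.conj_ofReal]
  congr 1
  push_cast
  ring

lemma ex_ne_zero (x : ℝ) : ex x ≠ 0 := Complex.exp_ne_zero _

lemma continuous_ex : Continuous ex := by
  unfold ex; fun_prop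

/-- `|1 - ex s| = 2 |sin (π s)|`. -/
lemma norm_one_sub_ex (s : ℝ) : ‖1 - ex s‖ = 2 * |Real.sin (Real.pi * s)| := by
  have h := Complex.norm_exp_I_mul_ofReal_sub_one (2 * Real.pi * s)
  rw [ex, norm_sub_rev, mul_comm, h]
  rw [Real.norm_eq_abs, abs_mul, abs_of_pos (by norm_num : (0:ℝ) < 2)]
  congr 3; ring

lemma norm_one_sub_ex_le (s : ℝ) (N : ℤ) : ‖1 - ex s‖ ≤ 2 * Real.pi * |s - N| := by
  have h : ex s = ex (s - N) := by
    have := ex_add_int (s - N) N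
    rwa [sub_add_cancel] at this
  rw [h, norm_one_sub_ex]
  have := Real.abs_sin_le_abs (x := Real.pi * (s - N))
  rw [abs_mul, abs_of_pos Real.pi_pos] at this
  linarith

/-- Lower bound for `|1 - ex s|` when `s` is at distance at least `δ` from all integers. -/
lemma le_norm_one_sub_ex (s δ : ℝ) (h : ∀ N : ℤ, δ ≤ |s - N|) : 4 * δ ≤ ‖1 - ex s‖ := by
  set N : ℤ := round s with hN
  have h1 : ex s = ex (s - N) := by
    have := ex_add_int (s - N) N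
    rwa [sub_add_cancel] at this
  have h2 : |s - N| ≤ 1 / 2 := abs_sub_round s
  rw [h1, norm_one_sub_ex]
  have h3 : 2 * |s - N| ≤ |Real.sin (Real.pi * (s - N))| := by
    have h4 : |Real.sin (Real.pi * (s - N))| = Real.sin (Real.pi * |s - N|) := by
      rcases le_or_gt 0 (s - N) with h | h
      · rw [abs_of_nonneg h, abs_of_nonneg]
        apply Real.sin_nonneg_of_nonneg_of_le_pi (by positivity)
        have : s - N ≤ 1 := by
          have := le_abs_self (s - N); linarith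
        nlinarith [Real.pi_pos]
      · rw [abs_of_neg h, mul_neg, Real.sin_neg, abs_of_nonpos]
        rw [← neg_nonneg, ← Real.sin_neg, ← mul_neg]
        apply Real.sin_nonneg_of_nonneg_of_le_pi
        · have : 0 < -(s - N) := by linarith
          positivity
        · have : -(s - N) ≤ 1 := by
            have := neg_abs_le (s - N); linarith
          nlinarith [Real.pi_pos]
    rw [h4]
    have h5 := Real.mul_le_sin (x := Real.pi * |s - N|) (by positivity)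
      (by nlinarith [Real.pi_pos])
    have h6 : 2 / Real.pi * (Real.pi * |s - N|) = 2 * |s - N| := by
      field_simp
    linarith
  have := h N
  linarith

/-- `1 - conj w z` in polar coordinates. -/
lemma one_sub_conj_mul (ρ r x y : ℝ) :
    1 - (starRingEnd ℂ) ((ρ : ℂ) * ex y) * ((r : ℂ) * ex x) =
      1 - ((ρ * r : ℝ) : ℂ) * ex (x - y) := by
  rw [map_mul, conj_ex, Complex.conj_ofReal, sub_eq_add_neg x y, ex_add]
  push_cast; ring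

lemma norm_one_sub_mul_ge (ρ s : ℝ) (hρ0 : 0 ≤ ρ) (hρ1 : ρ ≤ 1) :
    1 - ρ ≤ ‖1 - (ρ : ℂ) * ex s‖ ∧ ‖1 - ex s‖ ≤ 2 * ‖1 - (ρ : ℂ) * ex s‖ := by
  have h1 : 1 - ρ ≤ ‖1 - (ρ : ℂ) * ex s‖ := by
    have := norm_sub_norm_le (1 : ℂ) ((ρ : ℂ) * ex s)
    rwa [norm_one, norm_mul, norm_ex, mul_one, Complex.norm_real, Real.norm_of_nonneg hρ0] at this
  refine ⟨h1, ?_⟩
  have h2 : ‖(ρ : ℂ) * ex s - ex s‖ = 1 - ρ := by
    have : (ρ : ℂ) * ex s - ex s = ((ρ - 1 : ℝ) : ℂ) * ex s := by push_cast; ring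
    rw [this, norm_mul, norm_ex, mul_one, Complex.norm_real, Real.norm_of_nonpos (by linarith)]
    ring
  have h3 : ‖1 - ex s‖ ≤ ‖1 - (ρ : ℂ) * ex s‖ + ‖(ρ : ℂ) * ex s - ex s‖ := by
    have := norm_add_le (1 - (ρ : ℂ) * ex s) ((ρ : ℂ) * ex s - ex s)
    rwa [sub_add_sub_cancel] at this
  linarith

lemma norm_one_sub_mul_le (ρ s : ℝ) (hρ1 : ρ ≤ 1) (N : ℤ) :
    ‖1 - (ρ : ℂ) * ex s‖ ≤ (1 - ρ) + 2 * Real.pi * |s - N| := by
  have h2 : ‖ex s - (ρ : ℂ) * ex s‖ = 1 - ρ := by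
    have : ex s - (ρ : ℂ) * ex s = ((1 - ρ : ℝ) : ℂ) * ex s := by push_cast; ring
    rw [this, norm_mul, norm_ex, mul_one, Complex.norm_real, Real.norm_of_nonneg (by linarith)]
  have h3 : ‖1 - (ρ : ℂ) * ex s‖ ≤ ‖1 - ex s‖ + ‖ex s - (ρ : ℂ) * ex s‖ := by
    have := norm_add_le (1 - ex s) (ex s - (ρ : ℂ) * ex s)
    rwa [sub_add_sub_cancel] at this
  have := norm_one_sub_ex_le s N
  linarith

/-- Position of a point with respect to the coarser dyadic intervals. -/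
lemma coarse_mem (n j : ℕ) (k : ℤ) (x : ℝ) (hj : j ≤ n)
    (h1 : (k : ℝ) * 2⁻¹ ^ n ≤ x) (h2 : x < ((k : ℝ) + 1) * 2⁻¹ ^ n) :
    ((k / 2 ^ j : ℤ) : ℝ) * 2⁻¹ ^ (n - j) ≤ x ∧ x < (((k / 2 ^ j : ℤ) : ℝ) + 1) * 2⁻¹ ^ (n - j) := by
  have hn : (2⁻¹ : ℝ) ^ n = 2⁻¹ ^ (n - j) * 2⁻¹ ^ j := by
    rw [← pow_add]; congr 1; omega
  have hp : (0 : ℝ) < 2⁻¹ ^ (n - j) := by positivity
  have hj2 : (2 : ℝ) ^ j * 2⁻¹ ^ j = 1 := by rw [← mul_pow]; norm_num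
  have hj3 : (0 : ℝ) < 2⁻¹ ^ j := by positivity
  have hz : (0 : ℤ) < 2 ^ j := by positivity
  have a1 : 2 ^ j * (k / 2 ^ j) ≤ k := Int.mul_ediv_self_le hz.ne'
  have a2 : k < 2 ^ j * (k / 2 ^ j) + 2 ^ j := Int.lt_mul_ediv_self_add hz
  have a2' : k + 1 ≤ 2 ^ j * (k / 2 ^ j) + 2 ^ j := a2
  have b1 : (2 : ℝ) ^ j * ((k / 2 ^ j : ℤ) : ℝ) ≤ k := by exact_mod_cast a1
  have b2 : (k : ℝ) + 1 ≤ 2 ^ j * ((k / 2 ^ j : ℤ) : ℝ) + 2 ^ j := by exact_mod_cast a2'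
  constructor
  · calc ((k / 2 ^ j : ℤ) : ℝ) * 2⁻¹ ^ (n - j)
        = (2 ^ j * ((k / 2 ^ j : ℤ) : ℝ)) * (2⁻¹ ^ (n - j) * 2⁻¹ ^ j) := by
          linear_combination -((k / 2 ^ j : ℤ) : ℝ) * 2⁻¹ ^ (n - j) * hj2
      _ ≤ k * (2⁻¹ ^ (n - j) * 2⁻¹ ^ j) := mul_le_mul_of_nonneg_right b1 (by positivity)
      _ ≤ x := by rw [← hn]; exact h1
  · calc x < ((k : ℝ) + 1) * (2⁻¹ ^ (n - j) * 2⁻¹ ^ j) := by rw [← hn]; exact h2
      _ ≤ (2 ^ j * ((k / 2 ^ j : ℤ) : ℝ) + 2 ^ j) * (2⁻¹ ^ (n - j) * 2⁻¹ ^ j) :=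
          mul_le_mul_of_nonneg_right b2 (by positivity)
      _ = (((k / 2 ^ j : ℤ) : ℝ) + 1) * 2⁻¹ ^ (n - j) := by
          linear_combination (((k / 2 ^ j : ℤ) : ℝ) + 1) * 2⁻¹ ^ (n - j) * hj2

/-- **Key geometric lemma.** Relative to a point `z = (1 - 2⁻ⁿ) ex x` over the arc `(n, k)`, each
dyadic arc `(p, l)` is inside a neighbour of an ancestor `(n - j, k / 2 ^ j)`, and points `w` of
its box have `|1 - conj w z| ≥ 2⁻⁽ⁿ⁻ʲ⁾ / 2`. -/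
lemma key_geom (n : ℕ) (k : ℤ) (x : ℝ) (h1 : (k : ℝ) * 2⁻¹ ^ n ≤ x)
    (h2 : x < ((k : ℝ) + 1) * 2⁻¹ ^ n) (p : ℕ) (l : ℤ) (hl0 : 0 ≤ l) (hl1 : l < 2 ^ p) :
    ∃ j ≤ n, ∃ s : ℤ, (s = -1 ∨ s = 0 ∨ s = 1) ∧ n - j ≤ p ∧
      (∃ N : ℤ, l / 2 ^ (p - (n - j)) = k / 2 ^ j + s + N * 2 ^ (n - j)) ∧
      ∀ (ρ y : ℝ), (l : ℝ) * 2⁻¹ ^ p ≤ y → y < ((l : ℝ) + 1) * 2⁻¹ ^ p → 0 ≤ ρ →
        ρ ≤ 1 - 2⁻¹ ^ (p + 1) →
        2⁻¹ ^ (n - j) / 2 ≤
          ‖1 - (starRingEnd ℂ) ((ρ : ℂ) * ex y) * (((1 - 2⁻¹ ^ n : ℝ) : ℂ) * ex x)‖ := by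
  classical
  let Q : ℕ → Prop := fun j => j ≤ n ∧ n - j ≤ p ∧ ∃ s : ℤ, (s = -1 ∨ s = 0 ∨ s = 1) ∧
    ∃ N : ℤ, l / 2 ^ (p - (n - j)) = k / 2 ^ j + s + N * 2 ^ (n - j)
  have hQn : Q n := by
    refine ⟨le_rfl, by omega, 0, by tauto, -(k / 2 ^ n), ?_⟩
    rw [Nat.sub_self, Nat.sub_zero, pow_zero, Int.ediv_eq_zero_of_lt hl0 hl1]
    ring
  have hex : ∃ j, Q j := ⟨n, hQn⟩
  set j := Nat.find hex with hj
  obtain ⟨q1, q2, s, hs, hN⟩ : Q j := Nat.find_spec hex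
  refine ⟨j, q1, s, hs, q2, hN, ?_⟩
  intro ρ y hy1 hy2 hρ0 hρ1
  have hr0 : (0 : ℝ) ≤ 1 - 2⁻¹ ^ n := by
    have : (2⁻¹ : ℝ) ^ n ≤ 1 := pow_le_one₀ (by norm_num) (by norm_num)
    linarith
  have hr1 : (1 : ℝ) - 2⁻¹ ^ n ≤ 1 := by
    have : (0 : ℝ) < 2⁻¹ ^ n := by positivity
    linarith
  have hρ2 : ρ ≤ 1 := by
    have : (0 : ℝ) < 2⁻¹ ^ (p + 1) := by positivity
    linarith
  rw [one_sub_conj_mul]
  have hρr0 : 0 ≤ ρ * (1 - 2⁻¹ ^ n) := mul_nonneg hρ0 hr0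
  have hρr1 : ρ * (1 - 2⁻¹ ^ n) ≤ 1 := mul_le_one₀ hρ2 hr0 hr1
  obtain ⟨g1, g2⟩ := norm_one_sub_mul_ge (ρ * (1 - 2⁻¹ ^ n)) (x - y) hρr0 hρr1
  rcases Nat.eq_zero_or_pos j with h0 | hpos
  · refine le_trans ?_ g1
    rw [h0, Nat.sub_zero]
    have : (0 : ℝ) < 2⁻¹ ^ n := by positivity
    nlinarith
  · have hnot : ¬ Q (j - 1) := Nat.find_min hex (by omega)
    by_cases hp : p < n - (j - 1)
    · have hpe : n - j = p := by omega
      refine le_trans ?_ g1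
      rw [hpe]
      have e1 : (2⁻¹ : ℝ) ^ (p + 1) = 2⁻¹ ^ p / 2 := by rw [pow_succ]; ring
      rw [e1] at hρ1
      nlinarith
    · push Not at hp
      set p' := n - (j - 1) with hp'
      have hfar : ∀ N : ℤ, (2⁻¹ : ℝ) ^ p' ≤ |x - y - N| := by
        intro N
        by_contra hcon
        push Not at hcon
        apply hnot
        refine ⟨by omega, hp, ?_⟩
        obtain ⟨c1, c2⟩ := coarse_mem n (j - 1) k x (by omega) h1 h2
        obtain ⟨d1, d2⟩ := coarse_mem p (p - p') l y (by omega) hy1 hy2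
        have e1 : p - (p - p') = p' := by omega
        rw [e1] at d1 d2
        rw [← hp'] at c1 c2
        set k' := k / 2 ^ (j - 1) with hk'
        set l' := l / 2 ^ (p - p') with hl'
        obtain ⟨f1, f2⟩ := abs_lt.1 hcon
        have hpp : (0 : ℝ) < 2⁻¹ ^ p' := by positivity
        have hpp2 : (2 : ℝ) ^ p' * 2⁻¹ ^ p' = 1 := by rw [← mul_pow]; norm_num
        have u1 : (k' : ℝ) - l' - N * 2 ^ p' < 2 := by
          have : ((k' : ℝ) - l' - N * 2 ^ p') * 2⁻¹ ^ p' < 2 * 2⁻¹ ^ p' := by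
            have e2 : ((k' : ℝ) - l' - N * 2 ^ p') * 2⁻¹ ^ p' =
              k' * 2⁻¹ ^ p' - l' * 2⁻¹ ^ p' - N := by linear_combination -(N : ℝ) * hpp2
            rw [e2]; nlinarith
          exact lt_of_mul_lt_mul_right this hpp.le
        have u2 : -2 < (k' : ℝ) - l' - N * 2 ^ p' := by
          have : (-2) * 2⁻¹ ^ p' < ((k' : ℝ) - l' - N * 2 ^ p') * 2⁻¹ ^ p' := by
            have e2 : ((k' : ℝ) - l' - N * 2 ^ p') * 2⁻¹ ^ p' =
              k' * 2⁻¹ ^ p' - l' * 2⁻¹ ^ p' - N := by linear_combination -(N : ℝ) * hpp2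
            rw [e2]; nlinarith
          exact lt_of_mul_lt_mul_right this hpp.le
        have v1 : k' - l' - N * 2 ^ p' < 2 := by exact_mod_cast u1
        have v2 : -2 < k' - l' - N * 2 ^ p' := by exact_mod_cast u2
        refine ⟨-(k' - l' - N * 2 ^ p'), by omega, -N, ?_⟩
        ring
      have g3 := le_norm_one_sub_ex (x - y) (2⁻¹ ^ p') hfar
      have e3 : n - j + 1 = p' := by omega
      have e4 : (2⁻¹ : ℝ) ^ p' = 2⁻¹ ^ (n - j) / 2 := by rw [← e3, pow_succ]; ring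
      have hpos' : (0 : ℝ) < 2⁻¹ ^ (n - j) := by positivity
      linarith

end Pool.Agent.Lib_helper81.Dir
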