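import Pool.Agent.Lib_helper81.Dir.Defs

/-!
The Poisson integral formula and the Poisson-Jensen inequality on the unit disc, for the
parametrisation `ex x = exp (2 π i x)` of the circle.
-/

namespace Pool.Agent.Lib_helper81.Dir

open Complex Metric Set Filter Topology MeasureTheory

lemma pj_ex_eq_circleMap (x : ℝ) : ex x = circleMap 0 1 (2 * Real.pi * x) := by
  simp [ex, circleMap]

lemma pj_norm_ex (x : ℝ) : ‖ex x‖ = 1 := by
  rw [pj_ex_eq_circleMap]; simp

/-- The circle average as an integral over `[0, 1]`. -/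
lemma pj_integral_ex_eq_circleAverage {E : Type*} [NormedAddCommGroup E] [NormedSpace ℝ E]
    (f : ℂ → E) : ∫ x in (0 : ℝ)..1, f (ex x) = Real.circleAverage f 0 1 := by
  simp only [pj_ex_eq_circleMap]
  have h := intervalIntegral.integral_comp_mul_left (a := 0) (b := 1)
    (fun θ => f (circleMap 0 1 θ)) (c := 2 * Real.pi) (by positivity)
  rw [h, Real.circleAverage_def]
  simp

lemma pj_intervalIntegrable_ex {E : Type*} [NormedAddCommGroup E] [NormedSpace ℝ E]
    {f : ℂ → E} (hf : CircleIntegrable f 0 1) :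
    IntervalIntegrable (fun x => f (ex x)) volume 0 1 := by
  simp only [pj_ex_eq_circleMap]
  have h : IntervalIntegrable (fun θ => f (circleMap 0 1 θ)) volume 0 (2 * Real.pi) := hf
  have h2 := h.comp_mul_left (c := 2 * Real.pi)
  simpa using h2

lemma pj_kernel_eq {w z : ℂ} (hz : ‖z‖ = 1) :
    (1 - ‖w‖ ^ 2) / ‖z - w‖ ^ 2 = poissonKernel 0 w z := by
  simp [poissonKernel_def, hz]

lemma pj_poissonKernel_nonneg {w z : ℂ} (hw : w ∈ ball (0 : ℂ) 1) (hz : ‖z‖ = 1) :
    0 ≤ poissonKernel 0 w z := by
  rw [← pj_kernel_eq hz]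
  have : ‖w‖ < 1 := by simpa using hw
  have : ‖w‖ ^ 2 ≤ 1 := by
    have := norm_nonneg w
    nlinarith
  positivity

lemma pj_continuousOn_poissonKernel {w : ℂ} (hw : w ∈ ball (0 : ℂ) 1) :
    ContinuousOn (poissonKernel 0 w) (sphere 0 |1|) := by
  rw [poissonKernel_eq_re_herglotzRieszKernel]
  exact Complex.continuous_re.comp_continuousOn (continuousOn_herglotzRieszKernel_sphere hw)

/-- Poisson integral formula. -/
theorem poisson_formula (F : ℂ → ℂ) (hF : AnalyticOnNhd ℂ F (Metric.closedBall 0 1)) (w : ℂ)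
    (hw : w ∈ Metric.ball (0 : ℂ) 1) :
    ∫ x in (0 : ℝ)..1, ((1 - ‖w‖ ^ 2) / ‖ex x - w‖ ^ 2 : ℝ) • F (ex x) = F w := by
  have h1 : DiffContOnCl ℂ F (ball 0 1) := by
    apply DifferentiableOn.diffContOnCl
    rw [closure_ball (0 : ℂ) one_ne_zero]
    exact hF.differentiableOn
  have h2 := h1.circleAverage_poissonKernel_smul hw
  rw [← pj_integral_ex_eq_circleAverage] at h2
  rw [← h2]
  refine intervalIntegral.integral_congr fun x _ => ?_
  simp only [Pi.smul_apply']
  rw [pj_kernel_eq (pj_norm_ex x)]

lemma pj_circleIntegrable_poisson {w : ℂ} (hw : w ∈ ball (0 : ℂ) 1) {f : ℂ → ℝ}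
    (hf : CircleIntegrable f 0 1) : CircleIntegrable (poissonKernel 0 w • f) 0 1 :=
  hf.continuousOn_smul (pj_continuousOn_poissonKernel hw)

lemma pj_circleAverage_poisson_log_sub {u w : ℂ} (hu : u ∈ closedBall (0 : ℂ) 1)
    (hw : w ∈ ball (0 : ℂ) 1) (huw : u ≠ w) :
    Real.log ‖w - u‖ ≤
      Real.circleAverage (poissonKernel 0 w • fun z => Real.log ‖z - u‖) 0 1 := by
  have hu1 : ‖u‖ ≤ 1 := by simpa using hu
  have hw1 : ‖w‖ < 1 := by simpa using hw
  rcases hu1.lt_or_eq with hu2 | hu2
  · -- interior zero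
    have key : Real.circleAverage (poissonKernel 0 w • fun z => Real.log ‖z - u‖) 0 1 =
        Real.log ‖1 - (starRingEnd ℂ) u * w‖ := by
      have e1 : Set.EqOn (poissonKernel 0 w • fun z => Real.log ‖z - u‖)
          (poissonKernel 0 w • fun z => Real.log ‖1 - (starRingEnd ℂ) u * z‖)
          (sphere (0 : ℂ) |1|) := by
        intro z hz
        have hz1 : ‖z‖ = 1 := by simpa using hz
        have : ‖z - u‖ = ‖1 - (starRingEnd ℂ) u * z‖ := by
          have hzz : (starRingEnd ℂ) z * z = 1 := by
            rw [← Complex.normSq_eq_conj_mul_self, Complex.normSq_eq_norm_sq, hz1]; norm_num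
          have : ‖z - u‖ = ‖(starRingEnd ℂ) (z - u) * z‖ := by
            rw [norm_mul, hz1, mul_one, RCLike.norm_conj]
          rw [this, map_sub, sub_mul, hzz]
        simp only [Pi.smul_apply', this]
      rw [Real.circleAverage_congr_sphere e1]
      apply InnerProductSpace.HarmonicOnNhd.circleAverage_poissonKernel_smul _ hw
      intro z hz
      have hz1 : ‖z‖ ≤ 1 := by simpa using hz
      apply AnalyticAt.harmonicAt_log_norm (by fun_prop)
      intro h0
      have h1 : (1 : ℂ) = (starRingEnd ℂ) u * z := sub_eq_zero.mp h0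
      have h2 : (1 : ℝ) = ‖u‖ * ‖z‖ := by
        have := congrArg norm h1
        simpa using this
      nlinarith [norm_nonneg u, norm_nonneg z]
    rw [key]
    apply Real.log_le_log
    · rw [norm_pos_iff, sub_ne_zero]; exact huw.symm
    · have h1 : Complex.normSq (w - u) ≤ Complex.normSq (1 - (starRingEnd ℂ) u * w) := by
        have hu3 : Complex.normSq u ≤ 1 := by
          rw [Complex.normSq_eq_norm_sq]; nlinarith [norm_nonneg u]
        have hw3 : Complex.normSq w ≤ 1 := by
          rw [Complex.normSq_eq_norm_sq]; nlinarith [norm_nonneg w]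
        have h5 : Complex.normSq (1 - (starRingEnd ℂ) u * w) - Complex.normSq (w - u) =
            (1 - Complex.normSq u) * (1 - Complex.normSq w) := by
          simp only [Complex.normSq_apply, Complex.sub_re, Complex.sub_im, Complex.mul_re,
            Complex.mul_im, Complex.conj_re, Complex.conj_im, Complex.one_re, Complex.one_im]
          ring
        nlinarith [mul_nonneg (sub_nonneg.mpr hu3) (sub_nonneg.mpr hw3)]
      rw [Complex.normSq_eq_norm_sq, Complex.normSq_eq_norm_sq] at h1
      exact le_of_sq_le_sq h1 (norm_nonneg _)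
  · -- boundary zero
    have h := circleAverage_re_herglotzRieszKernel_mul_log (w := w) (ρ := u) (c := 0) (R := 1)
      (by simpa using hu2) hw
    rw [← poissonKernel_eq_re_herglotzRieszKernel] at h
    exact h.symm.le

/-- `log |F|` is integrable over the unit circle. -/
theorem intervalIntegrable_log_norm (F : ℂ → ℂ)
    (hF : AnalyticOnNhd ℂ F (Metric.closedBall 0 1)) :
    IntervalIntegrable (fun x => Real.log ‖F (ex x)‖) volume 0 1 := by
  have h : CircleIntegrable (fun z => Real.log ‖F z‖) 0 1 := by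
    apply MeromorphicOn.circleIntegrable_log_norm
    intro z hz
    exact (hF z (by simpa using (sphere_subset_closedBall hz))).meromorphicAt
  exact pj_intervalIntegrable_ex h

/-- Poisson-Jensen inequality, with circle averages. -/
lemma poisson_jensen_circleAverage (F : ℂ → ℂ)
    (hF : AnalyticOnNhd ℂ F (Metric.closedBall 0 1)) (w : ℂ)
    (hw : w ∈ Metric.ball (0 : ℂ) 1) (hFw : F w ≠ 0) :
    Real.log ‖F w‖ ≤
      Real.circleAverage (poissonKernel 0 w • fun z => Real.log ‖F z‖) 0 1 := by
  set U : Set ℂ := closedBall (0 : ℂ) 1 with hU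
  have hwU : w ∈ U := ball_subset_closedBall hw
  have hmer : MeromorphicOn F U := hF.meromorphicOn
  -- orders are finite
  have hpre : IsPreconnected U := (convex_closedBall (0 : ℂ) 1).isPreconnected
  have h0 : meromorphicOrderAt F w = 0 := by
    rw [(hF w hwU).meromorphicOrderAt_eq, (hF w hwU).analyticOrderAt_eq_zero.mpr hFw]
    rfl
  have hordw : meromorphicOrderAt F w ≠ ⊤ := by
    rw [h0]; simp
  have hord : ∀ u : U, meromorphicOrderAt F u ≠ ⊤ := fun u =>
    hmer.meromorphicOrderAt_ne_top_of_isPreconnected hpre hwU u.2 hordw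
  have hfin : (MeromorphicOn.divisor F U).support.Finite :=
    (MeromorphicOn.divisor F U).finiteSupport (isCompact_closedBall _ _)
  have hDw : MeromorphicOn.divisor F U w = 0 := by
    rw [MeromorphicOn.divisor_apply hmer hwU, h0]; simp
  obtain ⟨g, hg1, hg2, hg3⟩ := hmer.extract_zeros_poles hord hfin
  set D := MeromorphicOn.divisor F U with hD
  have hDnn : ∀ u, 0 ≤ D u := by
    have := MeromorphicOn.AnalyticOnNhd.divisor_nonneg hF
    intro u
    exact this u
  have hDU : ∀ u, D u ≠ 0 → u ∈ U := fun u hu => D.supportWithinDomain hu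
  have hacc : AccPt w (𝓟 U) := by
    apply accPt_iff_frequently_nhdsNE.mpr
    apply compl_notMem
    apply mem_nhdsWithin.mpr
    refine ⟨ball 0 1, isOpen_ball, hw, ?_⟩
    intro z hz
    have hz1 : z ∈ U := ball_subset_closedBall hz.1
    simpa using hz1
  -- value at w
  have hval : Real.log ‖F w‖ = ∑ᶠ u, (D u : ℝ) * Real.log ‖w - u‖ + Real.log ‖g w‖ := by
    have h1 := MeromorphicOn.log_norm_meromorphicTrailingCoeffAt_extract_zeros_poles
      (x := w) (f := F) (g := g) (D := D) hfin hwU hacc
      (hmer w hwU) (hg1 w hwU) (hg2 ⟨w, hwU⟩) hg3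
    rw [(hF w hwU).meromorphicTrailingCoeffAt_of_ne_zero hFw] at h1
    exact h1
  have hlog := MeromorphicOn.extract_zeros_poles_log hg2 hg3
  have hsumfun : (∑ᶠ u, ((D u : ℂ → ℝ) * fun z => Real.log ‖z - u‖)) =
      ∑ u ∈ hfin.toFinset, fun z => (D u : ℝ) * Real.log ‖z - u‖ := by
    rw [finsum_eq_sum_of_support_subset (s := hfin.toFinset)]
    · rfl
    · intro u hu
      simp only [Finite.coe_toFinset, Function.mem_support]
      intro h
      apply hu
      ext z
      simp [h]
  have hsumval : ∑ᶠ u, (D u : ℝ) * Real.log ‖w - u‖ =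
      ∑ u ∈ hfin.toFinset, (D u : ℝ) * Real.log ‖w - u‖ := by
    apply finsum_eq_sum_of_support_subset
    intro u hu
    simp only [Finite.coe_toFinset, Function.mem_support]
    intro h
    apply hu
    simp [h]
  -- the circle average
  have hav : Real.circleAverage (poissonKernel 0 w • fun z => Real.log ‖F z‖) 0 1 =
      ∑ u ∈ hfin.toFinset, (D u : ℝ) *
        Real.circleAverage (poissonKernel 0 w • fun z => Real.log ‖z - u‖) 0 1 +
      Real.circleAverage (poissonKernel 0 w • fun z => Real.log ‖g z‖) 0 1 := by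
    have e1 : Real.circleAverage (poissonKernel 0 w • fun z => Real.log ‖F z‖) 0 1 =
        Real.circleAverage ((∑ u ∈ hfin.toFinset,
          ((D u : ℝ) • (poissonKernel 0 w • fun z => Real.log ‖z - u‖))) +
          (poissonKernel 0 w • fun z => Real.log ‖g z‖)) 0 1 := by
      apply Real.circleAverage_congr_codiscreteWithin _ one_ne_zero
      have h2 := hlog.filter_mono (codiscreteWithin_mono
        (show sphere (0 : ℂ) |1| ⊆ U by
          rw [abs_one]; exact sphere_subset_closedBall))
      filter_upwards [h2] with z hz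
      have h3 : (∑ᶠ u, ((D u : ℂ → ℝ) * fun z => Real.log ‖z - u‖)) z =
          ∑ u ∈ hfin.toFinset, (D u : ℝ) * Real.log ‖z - u‖ := by
        rw [hsumfun]; simp
      have h4 : Real.log ‖F z‖ =
          (∑ u ∈ hfin.toFinset, (D u : ℝ) * Real.log ‖z - u‖) + Real.log ‖g z‖ := by
        rw [← h3]; exact hz
      simp only [Pi.add_apply, Finset.sum_apply, Pi.smul_apply, Pi.smul_apply', smul_eq_mul]
      rw [h4, mul_add, Finset.mul_sum]
      congr 1
      apply Finset.sum_congr rfl
      intro u _
      show poissonKernel 0 w z * ((D u : ℝ) * Real.log ‖z - u‖) =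
        (D u : ℝ) * (poissonKernel 0 w z * Real.log ‖z - u‖)
      ring
    have hi : ∀ u, CircleIntegrable (poissonKernel 0 w • fun z => Real.log ‖z - u‖) 0 1 :=
      fun u => pj_circleIntegrable_poisson hw (circleIntegrable_log_norm_sub_const 1)
    have hig : CircleIntegrable (poissonKernel 0 w • fun z => Real.log ‖g z‖) 0 1 := by
      apply pj_circleIntegrable_poisson hw
      apply MeromorphicOn.circleIntegrable_log_norm
      intro z hz
      exact (hg1 z (by simpa [hU] using (sphere_subset_closedBall hz))).meromorphicAt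
    rw [e1, Real.circleAverage_add _ hig, Real.circleAverage_sum]
    · congr 1
      apply Finset.sum_congr rfl
      intro u _
      rw [Real.circleAverage_smul, smul_eq_mul]
    · intro u _
      exact (hi u).const_smul
    · apply CircleIntegrable.sum
      intro u _
      exact (hi u).const_smul
  have hgw : Real.circleAverage (poissonKernel 0 w • fun z => Real.log ‖g z‖) 0 1 =
      Real.log ‖g w‖ := by
    apply InnerProductSpace.HarmonicOnNhd.circleAverage_poissonKernel_smul _ hw
    intro z hz
    exact (hg1 z hz).harmonicAt_log_norm (hg2 ⟨z, hz⟩)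
  rw [hval, hav, hgw, hsumval]
  refine add_le_add (Finset.sum_le_sum fun u hu => ?_) le_rfl
  have hu' : D u ≠ 0 := by simpa using hu
  apply mul_le_mul_of_nonneg_left _ (by exact_mod_cast hDnn u)
  apply pj_circleAverage_poisson_log_sub (hDU u hu') hw
  rintro rfl
  exact hu' hDw

/-- Poisson-Jensen inequality. -/
theorem poisson_jensen (F : ℂ → ℂ) (hF : AnalyticOnNhd ℂ F (Metric.closedBall 0 1)) (w : ℂ)
    (hw : w ∈ Metric.ball (0 : ℂ) 1) (hFw : F w ≠ 0) :
    Real.log ‖F w‖ ≤
      ∫ x in (0 : ℝ)..1, (1 - ‖w‖ ^ 2) / ‖ex x - w‖ ^ 2 * Real.log ‖F (ex x)‖ := by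
  refine (poisson_jensen_circleAverage F hF w hw hFw).trans (le_of_eq ?_)
  rw [← pj_integral_ex_eq_circleAverage]
  refine intervalIntegral.integral_congr fun x _ => ?_
  simp only [Pi.smul_apply', smul_eq_mul]
  rw [pj_kernel_eq (pj_norm_ex x)]

/-- The integrand of `poisson_jensen` is integrable. -/
theorem intervalIntegrable_poisson_log (F : ℂ → ℂ)
    (hF : AnalyticOnNhd ℂ F (Metric.closedBall 0 1)) (w : ℂ)
    (hw : w ∈ Metric.ball (0 : ℂ) 1) :
    IntervalIntegrable
      (fun x => (1 - ‖w‖ ^ 2) / ‖ex x - w‖ ^ 2 * Real.log ‖F (ex x)‖) volume 0 1 := by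
  have h : CircleIntegrable (fun z => Real.log ‖F z‖) 0 1 := by
    apply MeromorphicOn.circleIntegrable_log_norm
    intro z hz
    exact (hF z (by simpa using (sphere_subset_closedBall hz))).meromorphicAt
  have h2 := pj_intervalIntegrable_ex (pj_circleIntegrable_poisson hw h)
  refine h2.congr ?_
  intro x _
  simp only [Pi.smul_apply', smul_eq_mul]
  rw [pj_kernel_eq (pj_norm_ex x)]

end Pool.Agent.Lib_helper81.Dir
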