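import Mathlib
import Pool.Agent.Lib_helper81.Dir.Geom
import Pool.Agent.Lib_helper81.Dir.PoissonJensen

/-!
Counting lemma for the necessity part (by helper95): a weighted count of the sets on which a
function analytic on the closed disc is small.
-/

namespace Pool.Agent.Lib_helper81.Dir

open Complex Metric Set Filter Topology MeasureTheory

namespace Cnt

/-- The Poisson kernel in the parametrisation by `ex`. -/
noncomputable def P (w : ℂ) (y : ℝ) : ℝ := (1 - ‖w‖ ^ 2) / ‖ex y - w‖ ^ 2

theorem sub_pos' {w : ℂ} (hw : ‖w‖ < 1) (y : ℝ) : 0 < ‖ex y - w‖ := by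
  have h1 := norm_sub_norm_le (ex y) w
  rw [norm_ex] at h1
  linarith

theorem P_pos {w : ℂ} (hw : ‖w‖ < 1) (y : ℝ) : 0 < P w y := by
  unfold P
  have h1 := sub_pos' hw y
  have h2 : 0 < 1 - ‖w‖ ^ 2 := by nlinarith [norm_nonneg w]
  positivity

theorem continuous_P {w : ℂ} (hw : ‖w‖ < 1) : Continuous (P w) := by
  unfold P
  refine continuous_const.div ((continuous_ex.sub continuous_const).norm.pow 2) fun y => ?_
  have := sub_pos' hw y
  positivity

theorem ex_eq_circleMap (x : ℝ) : ex x = circleMap 0 1 (2 * Real.pi * x) := by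
  unfold ex circleMap
  simp

theorem integral_P {w : ℂ} (hw : ‖w‖ < 1) : ∫ y in (0 : ℝ)..1, P w y = 1 := by
  have hh : InnerProductSpace.HarmonicOnNhd (fun _ : ℂ => (1 : ℝ)) (closedBall (0 : ℂ) 1) :=
    InnerProductSpace.harmonicOnNhd_const (1 : ℝ)
  have hw' : w ∈ ball (0 : ℂ) 1 := by simpa using hw
  have h1 := hh.circleAverage_poissonKernel_smul hw'
  unfold Real.circleAverage at h1
  have hsub := intervalIntegral.smul_integral_comp_mul_left (a := (0 : ℝ)) (b := 1)
      (fun θ : ℝ => (poissonKernel 0 w • fun _ : ℂ => (1 : ℝ)) (circleMap 0 1 θ)) (2 * Real.pi)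
  rw [mul_zero, mul_one] at hsub
  rw [← hsub, smul_smul, inv_mul_cancel₀ (by positivity), one_smul] at h1
  refine Eq.trans (intervalIntegral.integral_congr fun y _ => ?_) h1
  simp only [Pi.smul_apply', smul_eq_mul, mul_one]
  rw [← ex_eq_circleMap, poissonKernel_def]
  simp only [sub_zero, norm_ex, one_pow]
  rfl

theorem log_four_thirds : (2 : ℝ) / 7 < Real.log (4 / 3) := by
  rw [Real.lt_log_iff_exp_lt (by norm_num)]
  have h1 : Real.exp (2 / 7) ^ 7 < (4 / 3 : ℝ) ^ 7 := by
    rw [← Real.exp_nat_mul]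
    have : ((7 : ℕ) : ℝ) * (2 / 7) = 1 + 1 := by norm_num
    rw [this, Real.exp_add]
    have := Real.exp_one_lt_d9
    have h0 := Real.exp_pos 1
    norm_num
    nlinarith
  exact lt_of_pow_lt_pow_left₀ 7 (by norm_num) h1

/-- The number of naturals below `N` that are smaller than `y`. -/
theorem card_lt (y : ℝ) (hy : 0 ≤ y) (N : ℕ) :
    ∑ i ∈ Finset.range N, (if (i : ℝ) < y then (1 : ℝ) else 0) ≤ y + 1 := by
  rw [← Finset.sum_filter]
  simp only [Finset.sum_const, nsmul_eq_mul, mul_one]
  have h : (Finset.range N).filter (fun i : ℕ => (i : ℝ) < y) ⊆ Finset.range (⌊y⌋₊ + 1) := by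
    intro i hi
    rw [Finset.mem_filter] at hi
    rw [Finset.mem_range]
    have := Nat.le_floor hi.2.le
    omega
  have h2 := Finset.card_le_card h
  rw [Finset.card_range] at h2
  have h3 : (((Finset.range N).filter (fun i : ℕ => (i : ℝ) < y)).card : ℝ) ≤ (⌊y⌋₊ + 1 : ℕ) := by
    exact_mod_cast h2
  have h4 := Nat.floor_le hy
  push_cast at h3
  linarith

theorem pointwise (g A : ℝ) (hg : 0 < g) (hA : 0 < A) (N : ℕ) :
    ∑ i ∈ Finset.range N, (if g < A * (3 / 4) ^ i then (1 : ℝ) else 0) ≤
      1 + 7 / 2 * Real.posLog (A / g) := by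
  have hle : ∀ i ∈ Finset.range N, (if g < A * (3 / 4) ^ i then (1 : ℝ) else 0) ≤
      (if (i : ℝ) < 7 / 2 * Real.posLog (A / g) then (1 : ℝ) else 0) := by
    intro i _
    split_ifs with h1 h2 h2
    · exact le_rfl
    · exfalso
      apply h2
      have h3 : (4 / 3 : ℝ) ^ i < A / g := by
        rw [lt_div_iff₀ hg]
        have : (4 / 3 : ℝ) ^ i * (3 / 4) ^ i = 1 := by
          rw [← mul_pow]; norm_num
        have h43 : (0 : ℝ) < (4 / 3) ^ i := by positivity
        nlinarith [mul_lt_mul_of_pos_left h1 h43]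
      have h4 : (i : ℝ) * Real.log (4 / 3) < Real.log (A / g) := by
        rw [← Real.log_pow]
        exact Real.log_lt_log (by positivity) h3
      have h5 : Real.log (A / g) ≤ Real.posLog (A / g) := le_max_right _ _
      have h6 := log_four_thirds
      have h7 : (0 : ℝ) ≤ i := Nat.cast_nonneg i
      nlinarith
    · exact zero_le_one
    · exact le_rfl
  refine (Finset.sum_le_sum hle).trans ?_
  have := card_lt (7 / 2 * Real.posLog (A / g)) (by
    have := Real.posLog_nonneg (x := A / g)
    positivity) N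
  linarith

theorem analyticAt_ex (x : ℝ) : AnalyticAt ℝ ex x := by
  unfold ex
  have h1 : AnalyticAt ℝ (fun x : ℝ => (2 * Real.pi * x : ℝ)) x := by fun_prop
  have h2 : AnalyticAt ℝ (fun x : ℝ => ((2 * Real.pi * x : ℝ) : ℂ)) x :=
    (Complex.ofRealCLM.analyticAt _).comp h1
  have h3 : AnalyticAt ℝ (fun x : ℝ => ((2 * Real.pi * x : ℝ) : ℂ) * I) x := h2.mul analyticAt_const
  exact (analyticAt_cexp.restrictScalars (𝕜 := ℝ)).comp h3

/-- A function analytic on the closed disc and non zero at a point of the disc has almost no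
zeros on the circle. -/
theorem ae_ne_zero {F : ℂ → ℂ} (hF : AnalyticOnNhd ℂ F (closedBall 0 1)) {w : ℂ} (hw : ‖w‖ < 1)
    (hFw : F w ≠ 0) : ∀ᵐ x : ℝ, F (ex x) ≠ 0 := by
  have hu : AnalyticOnNhd ℝ (fun x : ℝ => F (ex x)) univ := by
    intro x _
    have h1 : AnalyticAt ℂ F (ex x) := hF _ (by simp [norm_ex])
    exact (h1.restrictScalars (𝕜 := ℝ)).comp (analyticAt_ex x)
  rcases hu.eqOn_zero_or_eventually_ne_zero_of_preconnected isPreconnected_univ with h0 | hne
  · exfalso
    have hd : DiffContOnCl ℂ F (ball 0 1) := by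
      refine ⟨hF.differentiableOn.mono ball_subset_closedBall, ?_⟩
      rw [closure_ball _ one_ne_zero]
      exact hF.continuousOn
    have := Complex.norm_le_of_forall_mem_frontier_norm_le (isBounded_ball) hd (C := 0)
      (fun z hz => by
        rw [frontier_ball _ one_ne_zero, mem_sphere_zero_iff_norm] at hz
        obtain ⟨θ, hθ⟩ : ∃ x : ℝ, ex x = z := by
          refine ⟨Complex.arg z / (2 * Real.pi), ?_⟩
          unfold ex
          have hpi : (2 * Real.pi) ≠ 0 := by positivity
          rw [mul_div_cancel₀ _ hpi]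
          have := Complex.norm_mul_exp_arg_mul_I z
          rw [hz] at this
          simpa using this
        have h2 := h0 (mem_univ θ)
        simp only [Pi.zero_apply, hθ] at h2
        rw [h2, norm_zero]) (subset_closure (show w ∈ ball (0 : ℂ) 1 by simpa using hw))
    exact hFw (norm_le_zero_iff.1 this)
  · have h1 := ae_restrict_le_codiscreteWithin (μ := (volume : Measure ℝ)) MeasurableSet.univ hne
    rw [Measure.restrict_univ] at h1
    exact h1

theorem continuous_F {F : ℂ → ℂ} (hF : AnalyticOnNhd ℂ F (closedBall 0 1)) :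
    Continuous fun x : ℝ => F (ex x) :=
  hF.continuousOn.comp_continuous continuous_ex fun x => by simp [norm_ex]

end Cnt

open Cnt in
/-- The counting lemma, from the Poisson-Jensen inequality. -/
theorem count_le_aux (F : ℂ → ℂ) (hF : AnalyticOnNhd ℂ F (closedBall 0 1)) (w : ℂ)
    (hw : ‖w‖ < 1) (hFw : F w ≠ 0) (α β c0 A : ℝ) (hα : 0 ≤ α) (hαβ : α < β) (hβ : β ≤ 1)
    (hc0 : 0 < c0) (hA : 0 < A)
    (hpk : ∀ x ∈ Icc α β, 1 / (c0 * (β - α)) ≤ (1 - ‖w‖ ^ 2) / ‖ex x - w‖ ^ 2) (N : ℕ)
    (hint : IntervalIntegrable (fun x : ℝ => Real.log ‖F (ex x)‖) volume 0 1)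
    (hPJ : Real.log ‖F w‖ ≤
      ∫ x in (0 : ℝ)..1, (1 - ‖w‖ ^ 2) / ‖ex x - w‖ ^ 2 * Real.log ‖F (ex x)‖) :
    ∑ i ∈ Finset.range N,
        MeasureTheory.volume.real {x | x ∈ Icc α β ∧ ‖F (ex x)‖ < A * (3 / 4) ^ i} ≤
      (β - α) * (1 + 7 / 2 * c0 * (Real.log (A / ‖F w‖) +
        (∫ y in (0 : ℝ)..1, (1 - ‖w‖ ^ 2) / ‖ex y - w‖ ^ 2 * ‖F (ex y)‖) / A)) := by
  have hcF := continuous_F hF
  have hcg : Continuous fun x : ℝ => ‖F (ex x)‖ := hcF.norm
  set g : ℝ → ℝ := fun x => ‖F (ex x)‖ with hg
  have hg0 : ∀ x, 0 ≤ g x := fun x => norm_nonneg _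
  have hcpl : Continuous fun x : ℝ => Real.posLog (g x / A) :=
    Real.continuous_posLog.comp (hcg.div_const A)
  set H : ℝ → ℝ := fun x => Real.log A - Real.log (g x) + Real.posLog (g x / A) with hH
  have hae := ae_ne_zero hF hw hFw
  have hHpl : ∀ x, F (ex x) ≠ 0 → H x = Real.posLog (A / g x) := by
    intro x hx
    have hgx : 0 < g x := norm_pos_iff.2 hx
    have h1 := Real.posLog_sub_posLog_inv (x := A / g x)
    rw [inv_div, Real.log_div hA.ne' hgx.ne'] at h1
    simp only [hH]
    linarith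
  have hHint : IntervalIntegrable H volume 0 1 :=
    ((intervalIntegrable_const (c := Real.log A)).sub hint).add (hcpl.intervalIntegrable _ _)
  have hHnn : ∀ᵐ x : ℝ, 0 ≤ H x := by
    filter_upwards [hae] with x hx
    rw [hHpl x hx]
    exact Real.posLog_nonneg
  have hPc := continuous_P hw
  have hPH : IntervalIntegrable (fun x => P w x * H x) volume 0 1 :=
    hHint.continuousOn_mul hPc.continuousOn
  -- the total integral of `P * H`
  have e1 : ∫ x in (0 : ℝ)..1, P w x * H x = Real.log A -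
      (∫ x in (0 : ℝ)..1, P w x * Real.log (g x)) +
      ∫ x in (0 : ℝ)..1, P w x * Real.posLog (g x / A) := by
    have ha : IntervalIntegrable (fun x => P w x * Real.log A) volume 0 1 :=
      (hPc.mul continuous_const).intervalIntegrable _ _
    have hb : IntervalIntegrable (fun x => P w x * Real.log (g x)) volume 0 1 :=
      hint.continuousOn_mul hPc.continuousOn
    have hc : IntervalIntegrable (fun x => P w x * Real.posLog (g x / A)) volume 0 1 :=
      (hPc.mul hcpl).intervalIntegrable _ _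
    have : (fun x => P w x * H x) = fun x => (P w x * Real.log A - P w x * Real.log (g x)) +
        P w x * Real.posLog (g x / A) := by
      funext x
      simp only [hH]
      ring
    rw [this, intervalIntegral.integral_add (ha.sub hb) hc, intervalIntegral.integral_sub ha hb,
      intervalIntegral.integral_mul_const, integral_P hw, one_mul]
  have e2 : ∫ x in (0 : ℝ)..1, P w x * Real.posLog (g x / A) ≤
      (∫ x in (0 : ℝ)..1, P w x * g x) / A := by
    rw [← intervalIntegral.integral_div]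
    refine intervalIntegral.integral_mono_on zero_le_one
      ((hPc.mul hcpl).intervalIntegrable _ _)
      (((hPc.mul hcg).div_const A).intervalIntegrable _ _) fun x _ => ?_
    rw [mul_div_assoc]
    refine mul_le_mul_of_nonneg_left ?_ (P_pos hw x).le
    have h1 : 0 ≤ g x / A := div_nonneg (hg0 x) hA.le
    rw [Real.posLog_apply]
    refine max_le h1 ?_
    exact (Real.log_le_self h1)
  have hFw0 : 0 < ‖F w‖ := norm_pos_iff.2 hFw
  have e3 : ∫ x in (0 : ℝ)..1, P w x * H x ≤ Real.log (A / ‖F w‖) +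
      (∫ x in (0 : ℝ)..1, P w x * g x) / A := by
    rw [e1, Real.log_div hA.ne' hFw0.ne']
    have : Real.log ‖F w‖ ≤ ∫ x in (0 : ℝ)..1, P w x * Real.log (g x) := hPJ
    linarith
  -- the integral over the arc
  have hsub : Icc α β ⊆ Icc (0 : ℝ) 1 := Icc_subset_Icc hα hβ
  have hPHI : IntegrableOn (fun x => P w x * H x) (Icc 0 1) := by
    rw [← intervalIntegrable_iff_integrableOn_Icc_of_le zero_le_one]
    exact hPH
  have hHI : IntegrableOn H (Icc α β) := by
    have : IntegrableOn H (Icc 0 1) := by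
      rw [← intervalIntegrable_iff_integrableOn_Icc_of_le zero_le_one]
      exact hHint
    exact this.mono_set hsub
  have hba : 0 < β - α := sub_pos.2 hαβ
  have e4 : ∫ x in Icc α β, H x ≤ c0 * (β - α) * ∫ x in (0 : ℝ)..1, P w x * H x := by
    rw [intervalIntegral.integral_of_le zero_le_one, ← integral_Icc_eq_integral_Ioc]
    calc ∫ x in Icc α β, H x ≤ ∫ x in Icc α β, c0 * (β - α) * (P w x * H x) := by
          refine setIntegral_mono_on_ae hHI ((hPHI.mono_set hsub).const_mul _) measurableSet_Icc ?_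
          filter_upwards [hHnn] with x hx hxI
          have h1 := hpk x hxI
          have h2 : 1 / (c0 * (β - α)) ≤ P w x := h1
          have h3 : 0 < c0 * (β - α) := by positivity
          rw [div_le_iff₀ h3] at h2
          nlinarith
      _ = c0 * (β - α) * ∫ x in Icc α β, P w x * H x := integral_const_mul _ _
      _ ≤ c0 * (β - α) * ∫ x in Icc 0 1, P w x * H x := by
          refine mul_le_mul_of_nonneg_left ?_ (by positivity)
          refine setIntegral_mono_set hPHI ?_ (Eventually.of_forall hsub)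
          refine ae_restrict_of_ae ?_
          filter_upwards [hHnn] with x hx
          exact mul_nonneg (P_pos hw x).le hx
  -- the sum of the measures
  have hmeas : ∀ i : ℕ, MeasurableSet {x | g x < A * (3 / 4) ^ i} := fun i =>
    measurableSet_lt hcg.measurable measurable_const
  have e5 : ∀ i : ℕ, MeasureTheory.volume.real {x | x ∈ Icc α β ∧ ‖F (ex x)‖ < A * (3 / 4) ^ i} =
      ∫ x in Icc α β, (if g x < A * (3 / 4) ^ i then (1 : ℝ) else 0) := by
    intro i
    have h1 : (fun x => if g x < A * (3 / 4) ^ i then (1 : ℝ) else 0) =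
        {x | g x < A * (3 / 4) ^ i}.indicator fun _ => (1 : ℝ) := by
      funext x
      simp [indicator]
    rw [h1, setIntegral_indicator (hmeas i), setIntegral_const, smul_eq_mul, mul_one]
    rfl
  have hone : ∀ i : ℕ, IntegrableOn (fun x => if g x < A * (3 / 4) ^ i then (1 : ℝ) else 0)
      (Icc α β) := by
    intro i
    have h1 : (fun x => if g x < A * (3 / 4) ^ i then (1 : ℝ) else 0) =
        {x | g x < A * (3 / 4) ^ i}.indicator fun _ => (1 : ℝ) := by
      funext x
      simp [indicator]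
    rw [h1]
    exact (integrableOn_const (by simp)).indicator (hmeas i)
  calc ∑ i ∈ Finset.range N,
        MeasureTheory.volume.real {x | x ∈ Icc α β ∧ ‖F (ex x)‖ < A * (3 / 4) ^ i}
      = ∑ i ∈ Finset.range N, ∫ x in Icc α β, (if g x < A * (3 / 4) ^ i then (1 : ℝ) else 0) :=
        Finset.sum_congr rfl fun i _ => e5 i
    _ = ∫ x in Icc α β, ∑ i ∈ Finset.range N, (if g x < A * (3 / 4) ^ i then (1 : ℝ) else 0) :=
        (integral_finsetSum _ fun i _ => hone i).symm
    _ ≤ ∫ x in Icc α β, (1 + 7 / 2 * H x) := by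
        refine setIntegral_mono_on_ae (integrable_finsetSum _ fun i _ => hone i)
          ((integrableOn_const (by simp)).add (hHI.const_mul _)) measurableSet_Icc ?_
        filter_upwards [hae] with x hx _
        rw [hHpl x hx]
        exact pointwise (g x) A (norm_pos_iff.2 hx) hA N
    _ = (β - α) + 7 / 2 * ∫ x in Icc α β, H x := by
        have hc1 : Integrable (fun _ : ℝ => (1 : ℝ)) (volume.restrict (Icc α β)) :=
          integrableOn_const (by simp)
        have hc2 : Integrable (fun x : ℝ => 7 / 2 * H x) (volume.restrict (Icc α β)) :=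
          hHI.const_mul _
        rw [integral_add hc1 hc2, integral_const_mul,
          setIntegral_const, smul_eq_mul, mul_one, Real.volume_real_Icc_of_le hαβ.le]
    _ ≤ (β - α) + 7 / 2 * (c0 * (β - α) * (Real.log (A / ‖F w‖) +
          (∫ x in (0 : ℝ)..1, P w x * g x) / A)) := by
        have h3 : 0 < c0 * (β - α) := by positivity
        have := mul_le_mul_of_nonneg_left e3 h3.le
        linarith
    _ = _ := by
        simp only [P, hg]
        ring

/-- The counting lemma. -/
theorem count_le (F : ℂ → ℂ) (hF : AnalyticOnNhd ℂ F (closedBall 0 1)) (w : ℂ)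
    (hw : ‖w‖ < 1) (hFw : F w ≠ 0) (α β c0 A : ℝ) (hα : 0 ≤ α) (hαβ : α < β) (hβ : β ≤ 1)
    (hc0 : 0 < c0) (hA : 0 < A)
    (hpk : ∀ x ∈ Icc α β, 1 / (c0 * (β - α)) ≤ (1 - ‖w‖ ^ 2) / ‖ex x - w‖ ^ 2) (N : ℕ) :
    ∑ i ∈ Finset.range N,
        MeasureTheory.volume.real {x | x ∈ Icc α β ∧ ‖F (ex x)‖ < A * (3 / 4) ^ i} ≤
      (β - α) * (1 + 7 / 2 * c0 * (Real.log (A / ‖F w‖) +
        (∫ y in (0 : ℝ)..1, (1 - ‖w‖ ^ 2) / ‖ex y - w‖ ^ 2 * ‖F (ex y)‖) / A)) :=
  count_le_aux F hF w hw hFw α β c0 A hα hαβ hβ hc0 hA hpk N (intervalIntegrable_log_norm F hF)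
    (poisson_jensen F hF w (by simpa using hw) hFw)

end Pool.Agent.Lib_helper81.Dir
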