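import Pool.Agent.Lib_helper81.Dir.Tree

/-!
Zero sets of the Dirichlet space: two lemmas on sums over the dyadic tree (helper84).
-/

namespace Pool.Agent.Lib_helper81.Dir

open Finset

/-- Closed form of the sum over the descendants. -/
theorem ts_eq (F : ℕ → ℤ → ℝ) (d : ℕ) : ∀ (n : ℕ) (k : ℤ),
    ts F d n k = ∑ i ∈ range d, ∑ l ∈ range (2 ^ i), F (n + i) (2 ^ i * k + l) := by
  induction d with
  | zero => intro n k; simp [ts]
  | succ d ih =>
    intro n k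
    rw [ts, ih, ih, sum_range_succ', add_assoc, ← sum_add_distrib, add_comm]
    congr 1
    · refine sum_congr rfl fun i _ => ?_
      have h2 : (2 : ℕ) ^ (i + 1) = 2 ^ i + 2 ^ i := by ring
      rw [h2, sum_range_add]
      refine congrArg₂ _ (sum_congr rfl fun l _ => ?_) (sum_congr rfl fun l _ => ?_)
      · rw [show n + 1 + i = n + (i + 1) by ring,
          show (2 : ℤ) ^ i * (2 * k) + l = 2 ^ (i + 1) * k + l by ring]
      · rw [show n + 1 + i = n + (i + 1) by ring,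
          show (2 : ℤ) ^ i * (2 * k + 1) + l = 2 ^ (i + 1) * k + ((2 ^ i + l : ℕ) : ℤ) by
            push_cast; ring]
    · simp

namespace Cover

theorem geom_le (r : ℝ) (h0 : 0 ≤ r) (h1 : r < 1) (N : ℕ) :
    ∑ j ∈ range N, r ^ j ≤ (1 - r)⁻¹ := by
  have h2 : 0 < 1 - r := by linarith
  have h3 : ∑ j ∈ range N, r ^ j = (1 - r ^ N) * (1 - r)⁻¹ := by
    induction N with
    | zero => simp
    | succ N ih =>
      rw [sum_range_succ, ih]
      field_simp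
      ring
  rw [h3]
  have h4 : 0 ≤ r ^ N := by positivity
  have h5 : 0 < (1 - r)⁻¹ := by positivity
  nlinarith

theorem cs_weights (a : ℕ → ℝ) (N : ℕ) :
    (∑ j ∈ range N, (2⁻¹ : ℝ) ^ j * a j) ^ 2 ≤ 4 * ∑ j ∈ range N, (3⁻¹ : ℝ) ^ j * a j ^ 2 := by
  have h := Finset.sum_sq_le_sum_mul_sum_of_sq_le_mul (range N)
    (r := fun j => (2⁻¹ : ℝ) ^ j * a j) (f := fun j => (3 / 4 : ℝ) ^ j)
    (g := fun j => (3⁻¹ : ℝ) ^ j * a j ^ 2) (fun j _ => by positivity) (fun j _ => by positivity)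
    (fun j _ => by
      have e1 : ((2⁻¹ : ℝ) ^ j) ^ 2 = (3 / 4) ^ j * (3⁻¹) ^ j := by
        rw [← mul_pow, ← pow_mul, mul_comm, pow_mul]
        norm_num
      rw [mul_pow, e1]
      exact le_of_eq (by ring))
  refine h.trans (mul_le_mul_of_nonneg_right ?_ (sum_nonneg fun j _ => by positivity))
  refine (geom_le (3 / 4) (by norm_num) (by norm_num) N).trans ?_
  norm_num

theorem sum_div (f : ℕ → ℝ) (b : ℕ) (hb : 0 < b) (a : ℕ) :
    ∑ k ∈ range (a * b), f (k / b) = b * ∑ q ∈ range a, f q := by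
  induction a with
  | zero => simp
  | succ a ih =>
    rw [Nat.succ_mul, sum_range_add, ih, sum_range_succ, mul_add]
    congr 1
    rw [sum_congr rfl (g := fun _ => f a)]
    · simp
    · intro x hx
      rw [mem_range] at hx
      congr 1
      rw [Nat.mul_comm a b, Nat.mul_add_div hb, Nat.div_eq_of_lt hx, add_zero]

theorem sum_shift (g : ℤ → ℝ) (P : ℕ) (hg : g P = g 0) :
    ∑ q ∈ range P, g (q + 1) = ∑ q ∈ range P, g q := by
  have h1 := sum_range_succ (fun q : ℕ => g q) P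
  have h2 := sum_range_succ' (fun q : ℕ => g q) P
  push_cast at h1 h2
  rw [h1] at h2
  rw [hg] at h2
  linarith

theorem sum_shift' (g : ℤ → ℝ) (P : ℕ) (hg : ∀ k, g (k + P) = g k) :
    ∑ q ∈ range P, g (q - 1) = ∑ q ∈ range P, g q := by
  have h := sum_shift (fun q => g (q - 1)) P (by
    have := hg (-1)
    rw [show (-1 : ℤ) + P = P - 1 by ring] at this
    rw [this]
    simp)
  simp only [add_sub_cancel_right] at h
  exact h.symm

/-- the three neighbours at distance `j` above generation `n` -/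
theorem sum_gen (ψ : ℕ → ℤ → ℝ) (hp : ∀ n k, ψ n (k + 2 ^ n) = ψ n k) (n j : ℕ) (hj : j ≤ n) :
    ∑ k ∈ range (2 ^ n), (ψ (n - j) ((k : ℤ) / 2 ^ j - 1) + ψ (n - j) ((k : ℤ) / 2 ^ j) +
      ψ (n - j) ((k : ℤ) / 2 ^ j + 1)) ^ 2
      ≤ 9 * 2 ^ j * ∑ q ∈ range (2 ^ (n - j)), ψ (n - j) q ^ 2 := by
  have h1 : ∀ k ∈ range (2 ^ n), (ψ (n - j) ((k : ℤ) / 2 ^ j - 1) + ψ (n - j) ((k : ℤ) / 2 ^ j) +
      ψ (n - j) ((k : ℤ) / 2 ^ j + 1)) ^ 2
      ≤ (fun q : ℕ => 3 * (ψ (n - j) ((q : ℤ) - 1) ^ 2 + ψ (n - j) (q : ℤ) ^ 2 +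
        ψ (n - j) ((q : ℤ) + 1) ^ 2)) (k / 2 ^ j) := by
    intro k _
    have hc : ((k / 2 ^ j : ℕ) : ℤ) = (k : ℤ) / 2 ^ j := by push_cast; rfl
    simp only [hc]
    set a := ψ (n - j) ((k : ℤ) / 2 ^ j - 1)
    set b := ψ (n - j) ((k : ℤ) / 2 ^ j)
    set c := ψ (n - j) ((k : ℤ) / 2 ^ j + 1)
    nlinarith [sq_nonneg (a - b), sq_nonneg (b - c), sq_nonneg (a - c)]
  refine (sum_le_sum h1).trans ?_
  have h2 : (2 : ℕ) ^ n = 2 ^ (n - j) * 2 ^ j := by rw [← pow_add, Nat.sub_add_cancel hj]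
  rw [h2, sum_div (fun q : ℕ => 3 * (ψ (n - j) ((q : ℤ) - 1) ^ 2 + ψ (n - j) (q : ℤ) ^ 2 +
        ψ (n - j) ((q : ℤ) + 1) ^ 2)) _ (by positivity)]
  rw [← mul_sum, sum_add_distrib, sum_add_distrib]
  have hper : ∀ k : ℤ, ψ (n - j) (k + ((2 ^ (n - j) : ℕ) : ℤ)) ^ 2 = ψ (n - j) k ^ 2 := by
    intro k
    have := hp (n - j) k
    push_cast
    rw [this]
  rw [sum_shift' (fun q => ψ (n - j) q ^ 2) _ hper, sum_shift (fun q => ψ (n - j) q ^ 2) _ (by
    have := hper 0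
    rwa [zero_add] at this)]
  push_cast
  apply le_of_eq
  ring

end Cover

open Cover in
/-- Every arc of the generation `n` is charged with the values of `ψ` at its ancestors and their
neighbours. -/
theorem neighbour_sum (ψ : ℕ → ℤ → ℝ) (_h0 : ∀ n k, 0 ≤ ψ n k)
    (hp : ∀ n k, ψ n (k + 2 ^ n) = ψ n k) (N : ℕ) :
    ∑ n ∈ range N, ∑ k ∈ range (2 ^ n), (∑ j ∈ range (n + 1), (2⁻¹ : ℝ) ^ j *
      (ψ (n - j) ((k : ℤ) / 2 ^ j - 1) + ψ (n - j) ((k : ℤ) / 2 ^ j) +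
        ψ (n - j) ((k : ℤ) / 2 ^ j + 1))) ^ 2
      ≤ 108 * ∑ n ∈ range N, ∑ k ∈ range (2 ^ n), ψ n k ^ 2 := by
  set S : ℕ → ℝ := fun p => ∑ q ∈ range (2 ^ p), ψ p q ^ 2 with hS
  have hS0 : ∀ p, 0 ≤ S p := fun p => sum_nonneg fun _ _ => sq_nonneg _
  have h1 : ∀ n ∈ range N, ∑ k ∈ range (2 ^ n), (∑ j ∈ range (n + 1), (2⁻¹ : ℝ) ^ j *
      (ψ (n - j) ((k : ℤ) / 2 ^ j - 1) + ψ (n - j) ((k : ℤ) / 2 ^ j) +
        ψ (n - j) ((k : ℤ) / 2 ^ j + 1))) ^ 2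
      ≤ ∑ j ∈ range (n + 1), (36 * (2 / 3 : ℝ) ^ j) * S (n - j) := by
    intro n _
    refine (sum_le_sum fun k _ => cs_weights _ (n + 1)).trans ?_
    rw [← mul_sum, sum_comm, mul_sum]
    refine sum_le_sum fun j hj => ?_
    rw [mem_range] at hj
    rw [← mul_sum]
    have h2 := sum_gen ψ hp n j (by omega)
    have h3 : (0 : ℝ) ≤ 4 * 3⁻¹ ^ j := by positivity
    have h4 := mul_le_mul_of_nonneg_left h2 h3
    rw [← mul_assoc]
    refine h4.trans (le_of_eq ?_)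
    have h5 : (2 / 3 : ℝ) ^ j = 3⁻¹ ^ j * 2 ^ j := by rw [← mul_pow]; norm_num
    rw [h5]
    ring
  refine (sum_le_sum h1).trans ?_
  rw [sum_range_diag_flip N (fun j p => (36 * (2 / 3 : ℝ) ^ j) * S p)]
  have h2 : ∀ j ∈ range N, ∑ p ∈ range (N - j), 36 * (2 / 3 : ℝ) ^ j * S p
      ≤ 36 * (2 / 3 : ℝ) ^ j * ∑ p ∈ range N, S p := by
    intro j _
    rw [← mul_sum]
    refine mul_le_mul_of_nonneg_left ?_ (by positivity)
    exact sum_le_sum_of_subset_of_nonneg (range_subset_range.2 (Nat.sub_le _ _))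
      (fun p _ _ => hS0 p)
  refine (sum_le_sum h2).trans ?_
  rw [← sum_mul, ← mul_sum]
  refine mul_le_mul_of_nonneg_right ?_ (sum_nonneg fun p _ => hS0 p)
  have := geom_le (2 / 3) (by norm_num) (by norm_num) N
  norm_num at this ⊢
  linarith

namespace Cover

open scoped Classical in
theorem gen_cover (x : ℤ → ℝ) (h0 : ∀ k, 0 ≤ x k) (q i : ℕ)
    (hp : ∀ k, x (k + 2 ^ (q + i)) = x k) (a : ℤ) :
    ∑ l ∈ range (2 ^ (q + i)), (if ∃ N : ℤ, (l : ℤ) / 2 ^ i = a + N * 2 ^ q then x l else 0)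
      ≤ ∑ l ∈ range (2 ^ i), x (2 ^ i * a + l) := by
  classical
  rw [← sum_filter]
  have hper : ∀ (k N : ℤ), x (k + N * 2 ^ (q + i)) = x k := by
    intro k N
    have h : Function.Periodic x ((2 : ℤ) ^ (q + i)) := fun k => hp k
    have := h.int_mul N k
    simpa using this
  have h1 : ∀ l ∈ (range (2 ^ (q + i))).filter
      (fun l : ℕ => ∃ N : ℤ, (l : ℤ) / 2 ^ i = a + N * 2 ^ q),
      x l = (fun r : ℕ => x (2 ^ i * a + r)) (l % 2 ^ i) := by
    intro l hl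
    rw [mem_filter] at hl
    obtain ⟨_, N, hN⟩ := hl
    have h2 : (l : ℤ) = 2 ^ i * ((l : ℤ) / 2 ^ i) + ((l % 2 ^ i : ℕ) : ℤ) := by
      push_cast
      exact (Int.mul_ediv_add_emod _ _).symm
    rw [hN] at h2
    have h3 : x l = x ((2 ^ i * a + ((l % 2 ^ i : ℕ) : ℤ)) + N * 2 ^ (q + i)) := by
      congr 1
      rw [pow_add]
      linarith
    rw [h3, hper]
  rw [sum_congr rfl h1]
  have hinj : Set.InjOn (fun l : ℕ => l % 2 ^ i) (((range (2 ^ (q + i))).filter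
      (fun l : ℕ => ∃ N : ℤ, (l : ℤ) / 2 ^ i = a + N * 2 ^ q) : Finset ℕ) : Set ℕ) := by
    intro l1 hl1 l2 hl2 h12
    rw [mem_coe, mem_filter, mem_range] at hl1 hl2
    obtain ⟨b1, N1, e1⟩ := hl1
    obtain ⟨b2, N2, e2⟩ := hl2
    simp only at h12
    have c1 : l1 / 2 ^ i < 2 ^ q := Nat.div_lt_of_lt_mul (by rwa [← pow_add, add_comm])
    have c2 : l2 / 2 ^ i < 2 ^ q := Nat.div_lt_of_lt_mul (by rwa [← pow_add, add_comm])
    have c1' : (l1 : ℤ) / 2 ^ i < 2 ^ q := by exact_mod_cast c1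
    have c2' : (l2 : ℤ) / 2 ^ i < 2 ^ q := by exact_mod_cast c2
    have d1 : 0 ≤ (l1 : ℤ) / 2 ^ i := by positivity
    have d2 : 0 ≤ (l2 : ℤ) / 2 ^ i := by positivity
    have hq : (0 : ℤ) < 2 ^ q := by positivity
    have e : (l1 : ℤ) / 2 ^ i = (l2 : ℤ) / 2 ^ i := by
      rw [← Int.emod_eq_of_lt d1 c1', ← Int.emod_eq_of_lt d2 c2', e1, e2]
      simp
    have e' : l1 / 2 ^ i = l2 / 2 ^ i := by exact_mod_cast e
    rw [← Nat.div_add_mod l1 (2 ^ i), ← Nat.div_add_mod l2 (2 ^ i), e', h12]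
  rw [← sum_image (f := fun r : ℕ => x (2 ^ i * a + r)) hinj]
  refine sum_le_sum_of_subset_of_nonneg ?_ (fun r _ _ => h0 _)
  intro r hr
  rw [mem_image] at hr
  obtain ⟨l, _, rfl⟩ := hr
  rw [mem_range]
  exact Nat.mod_lt _ (by positivity)

open scoped Classical in
theorem tree_cover (x : ℕ → ℤ → ℝ) (h0 : ∀ n k, 0 ≤ x n k)
    (hp : ∀ n k, x n (k + 2 ^ n) = x n k) (D q : ℕ) (a : ℤ) :
    ∑ p ∈ range D, ∑ l ∈ range (2 ^ p),
      (if q ≤ p ∧ ∃ N : ℤ, (l : ℤ) / 2 ^ (p - q) = a + N * 2 ^ q then x p l else 0)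
      ≤ ts x (D - q) q a := by
  classical
  rw [ts_eq]
  have hz : ∀ p < q, ∑ l ∈ range (2 ^ p),
      (if q ≤ p ∧ ∃ N : ℤ, (l : ℤ) / 2 ^ (p - q) = a + N * 2 ^ q then x p l else 0) = 0 := by
    intro p hpq
    refine sum_eq_zero fun l _ => ?_
    rw [if_neg]
    rintro ⟨h, _⟩
    omega
  rcases le_or_gt q D with hqD | hqD
  · obtain ⟨e, rfl⟩ := Nat.exists_eq_add_of_le hqD
    rw [sum_range_add, sum_eq_zero (fun p hp' => hz p (mem_range.1 hp')), zero_add,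
      Nat.add_sub_cancel_left]
    refine sum_le_sum fun i _ => ?_
    have h1 := gen_cover (x (q + i)) (h0 _) q i (hp (q + i)) a
    refine le_trans (le_of_eq ?_) h1
    refine sum_congr rfl fun l _ => ?_
    rw [Nat.add_sub_cancel_left]
    simp
  · rw [sum_eq_zero (fun p hp' => hz p (lt_trans (mem_range.1 hp') hqD)),
      Nat.sub_eq_zero_of_le hqD.le]
    simp

end Cover

open Cover in
/-- If the kernel `K` decays with the distance to the arc `(n, k)`, the sum over the whole tree is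
controlled by the sums below the ancestors of `(n, k)` and their neighbours. -/
theorem cover_sum (x : ℕ → ℤ → ℝ) (h0 : ∀ n k, 0 ≤ x n k)
    (hp : ∀ n k, x n (k + 2 ^ n) = x n k) (D n : ℕ) (k : ℤ) (K : ℕ → ℕ → ℝ) (c : ℝ) (hc : 0 ≤ c)
    (hK : ∀ p < D, ∀ l : ℕ, l < 2 ^ p → ∃ j ≤ n, ∃ s : ℤ, (s = -1 ∨ s = 0 ∨ s = 1) ∧ n - j ≤ p ∧
      (∃ N : ℤ, (l : ℤ) / 2 ^ (p - (n - j)) = k / 2 ^ j + s + N * 2 ^ (n - j)) ∧
      K p l ≤ c * 4 ^ (n - j)) :
    ∑ p ∈ range D, ∑ l ∈ range (2 ^ p), x p l * K p l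
      ≤ c * ∑ j ∈ range (n + 1), 4 ^ (n - j) *
        (ts x (D - (n - j)) (n - j) (k / 2 ^ j - 1) + ts x (D - (n - j)) (n - j) (k / 2 ^ j) +
          ts x (D - (n - j)) (n - j) (k / 2 ^ j + 1)) := by
  classical
  set A : ℕ → ℤ → ℕ → ℕ → ℝ := fun j s p l =>
    if n - j ≤ p ∧ ∃ N : ℤ, (l : ℤ) / 2 ^ (p - (n - j)) = (k / 2 ^ j + s) + N * 2 ^ (n - j)
      then x p l else 0 with hA
  have hA0 : ∀ j s p l, 0 ≤ A j s p l := by
    intro j s p l
    simp only [hA]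
    split_ifs
    · exact h0 _ _
    · exact le_rfl
  have h1 : ∀ p ∈ range D, ∀ l ∈ range (2 ^ p), x p l * K p l
      ≤ ∑ j ∈ range (n + 1), c * 4 ^ (n - j) * (A j (-1) p l + A j 0 p l + A j 1 p l) := by
    intro p hp' l hl
    obtain ⟨j, hj, s, hs, hq, hN, hKb⟩ := hK p (mem_range.1 hp') l (mem_range.1 hl)
    have h2 : A j s p l = x p l := by
      simp only [hA]
      rw [if_pos ⟨hq, hN⟩]
    have h3 : x p l ≤ A j (-1) p l + A j 0 p l + A j 1 p l := by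
      have a1 := hA0 j (-1) p l
      have a2 := hA0 j 0 p l
      have a3 := hA0 j 1 p l
      rcases hs with rfl | rfl | rfl <;> linarith
    have h4 : x p l * K p l ≤ c * 4 ^ (n - j) * (A j (-1) p l + A j 0 p l + A j 1 p l) := by
      calc x p l * K p l ≤ x p l * (c * 4 ^ (n - j)) :=
            mul_le_mul_of_nonneg_left hKb (h0 _ _)
        _ = c * 4 ^ (n - j) * x p l := by ring
        _ ≤ _ := mul_le_mul_of_nonneg_left h3 (by positivity)
    refine h4.trans ?_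
    exact single_le_sum (f := fun j => c * 4 ^ (n - j) * (A j (-1) p l + A j 0 p l + A j 1 p l))
      (fun i _ => mul_nonneg (by positivity)
        (add_nonneg (add_nonneg (hA0 _ _ _ _) (hA0 _ _ _ _)) (hA0 _ _ _ _)))
      (mem_range.2 (by omega))
  refine (sum_le_sum fun p hp' => sum_le_sum fun l hl => h1 p hp' l hl).trans ?_
  have h2 : ∑ p ∈ range D, ∑ l ∈ range (2 ^ p), ∑ j ∈ range (n + 1),
      c * 4 ^ (n - j) * (A j (-1) p l + A j 0 p l + A j 1 p l)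
      = ∑ j ∈ range (n + 1), c * 4 ^ (n - j) * (∑ p ∈ range D, ∑ l ∈ range (2 ^ p), A j (-1) p l +
        ∑ p ∈ range D, ∑ l ∈ range (2 ^ p), A j 0 p l +
        ∑ p ∈ range D, ∑ l ∈ range (2 ^ p), A j 1 p l) := by
    have e1 : ∀ p, ∑ l ∈ range (2 ^ p), ∑ j ∈ range (n + 1),
        c * 4 ^ (n - j) * (A j (-1) p l + A j 0 p l + A j 1 p l)
        = ∑ j ∈ range (n + 1), ∑ l ∈ range (2 ^ p),
          c * 4 ^ (n - j) * (A j (-1) p l + A j 0 p l + A j 1 p l) := fun p => sum_comm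
    rw [sum_congr rfl (fun p _ => e1 p), sum_comm]
    refine sum_congr rfl fun j _ => ?_
    rw [← sum_add_distrib, ← sum_add_distrib, mul_sum]
    refine sum_congr rfl fun p _ => ?_
    rw [← sum_add_distrib, ← sum_add_distrib, mul_sum]
  rw [h2, mul_sum]
  refine sum_le_sum fun j _ => ?_
  rw [mul_assoc]
  refine mul_le_mul_of_nonneg_left (mul_le_mul_of_nonneg_left ?_ (by positivity)) hc
  have b1 := tree_cover x h0 hp D (n - j) (k / 2 ^ j - 1)
  have b2 := tree_cover x h0 hp D (n - j) (k / 2 ^ j)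
  have b3 := tree_cover x h0 hp D (n - j) (k / 2 ^ j + 1)
  have c1 : ∑ p ∈ range D, ∑ l ∈ range (2 ^ p), A j (-1) p l
      ≤ ts x (D - (n - j)) (n - j) (k / 2 ^ j - 1) := b1
  have c2 : ∑ p ∈ range D, ∑ l ∈ range (2 ^ p), A j 0 p l
      ≤ ts x (D - (n - j)) (n - j) (k / 2 ^ j) := by
    refine le_trans (le_of_eq ?_) b2
    simp only [hA, add_zero]
  have c3 : ∑ p ∈ range D, ∑ l ∈ range (2 ^ p), A j 1 p l
      ≤ ts x (D - (n - j)) (n - j) (k / 2 ^ j + 1) := b3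
  linarith

end Pool.Agent.Lib_helper81.Dir
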