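import Mathlib

/-!
Zero sets of the Dirichlet space: definitions shared by all files.
-/

namespace Pool.Agent.Lib_helper81.Dir

open Complex Metric Set

/-- `ex x = exp (2 π i x)`. -/
noncomputable def ex (x : ℝ) : ℂ := Complex.exp ((2 * Real.pi * x : ℝ) * Complex.I)

/-- `f` belongs to the Dirichlet space: on the unit disc it is the sum of a power series
`∑ c k z ^ k` with `∑ (k + 1) |c k| ^ 2 < ∞`. -/
def InDirichlet (f : ℂ → ℂ) : Prop :=
  ∃ c : ℕ → ℂ, Summable (fun k : ℕ => ((k : ℝ) + 1) * ‖c k‖ ^ 2) ∧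
    ∀ w ∈ ball (0 : ℂ) 1, HasSum (fun k : ℕ => c k * w ^ k) (f w)

/-- The family `z` is a zero set for the Dirichlet space: some function of the Dirichlet space,
not identically zero on the disc, has at each point `w` of the disc a zero whose order is the
number of indices `i` with `z i = w`. -/
def IsZeroSet {ι : Type*} (z : ι → ℂ) : Prop :=
  ∃ f : ℂ → ℂ, InDirichlet f ∧ (∃ w ∈ ball (0 : ℂ) 1, f w ≠ 0) ∧
    ∀ w ∈ ball (0 : ℂ) 1, analyticOrderAt f w = {i | z i = w}.encard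

/-- The box over the dyadic arc `{ex x : k / 2 ^ n ≤ x < (k + 1) / 2 ^ n}`: the points `w` of the
disc with `w = |w| ex x` for some such `x` and `1 - 2⁻ⁿ ≤ |w| < 1 - 2⁻⁽ⁿ⁺¹⁾`. -/
def box (n : ℕ) (k : ℤ) : Set ℂ :=
  {w | 1 - (2⁻¹ : ℝ) ^ n ≤ ‖w‖ ∧ ‖w‖ < 1 - (2⁻¹ : ℝ) ^ (n + 1) ∧
    ∃ x : ℝ, (k : ℝ) * 2⁻¹ ^ n ≤ x ∧ x < ((k : ℝ) + 1) * 2⁻¹ ^ n ∧ w = (‖w‖ : ℂ) * ex x}

/-- The number of members of the family `z` in the box `box n k`. -/
noncomputable def cnt {ι : Type*} (z : ι → ℂ) (n : ℕ) (k : ℤ) : ℕ := Nat.card {i // z i ∈ box n k}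

/-- From the pairs `(t, M)` of the two halves of a dyadic arc of length `len` and the number `m`
of points in its box to the pair of the arc. -/
noncomputable def join (κ len : ℝ) (m : ℕ) (p q : ℝ × ℝ) : ℝ × ℝ :=
  if m ≠ 0 ∨ 1 ≤ p.1 / (1 + κ * p.1) + q.1 / (1 + κ * q.1) ∨ len ≤ κ * (p.2 + q.2 + m * len)
  then (1, p.2 + q.2 + m * len + len)
  else (p.1 / (1 + κ * p.1) + q.1 / (1 + κ * q.1), p.2 + q.2 + m * len)

/-- The pair `(t, M)` of the dyadic arc `(n, k)`, computed from the boxes of the generations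
`n, …, n + d - 1`. -/
noncomputable def pair (κ : ℝ) (m : ℕ → ℤ → ℕ) : ℕ → ℕ → ℤ → ℝ × ℝ
  | 0, _, _ => (0, 0)
  | d + 1, n, k =>
      join κ (2⁻¹ ^ n) (m n k) (pair κ m d (n + 1) (2 * k)) (pair κ m d (n + 1) (2 * k + 1))

/-- The condition on the points: each box holds finitely many of them, and the second
components of the pairs of the whole circle stay bounded. -/
def Criterion {ι : Type*} (κ : ℝ) (z : ι → ℂ) : Prop :=
  (∀ (n : ℕ) (k : ℤ), {i | z i ∈ box n k}.Finite) ∧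
    ∃ C : ℝ, ∀ d : ℕ, (pair κ (cnt z) d 0 0).2 ≤ C

end Pool.Agent.Lib_helper81.Dir
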