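import Pool.Agent.Lib_helper81.Dir.Geom

/-!
The local Dirichlet integrals of a boundary function (necessity, analytic part).
-/

namespace Pool.Agent.Lib_helper81.Dir

open Complex Metric Set MeasureTheory

noncomputable def qf (g : ℝ → ℂ) (x y : ℝ) : ℝ := ‖g x - g y‖ ^ 2 / ‖ex x - ex y‖ ^ 2

noncomputable def Phi (g : ℝ → ℂ) (x : ℝ) : ℝ := ∫ y in (0:ℝ)..1, qf g x y

noncomputable def Hm (g : ℝ → ℂ) (n : ℕ) (k : ℤ) : ℝ :=
  2 ^ n * ∫ x in ((k:ℝ) * 2⁻¹ ^ n)..(((k:ℝ) + 1) * 2⁻¹ ^ n), ‖g x‖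

noncomputable def ep (g : ℝ → ℂ) (n : ℕ) (k : ℤ) : ℝ :=
  40 * (∫ x in ((k:ℝ) * 2⁻¹ ^ n)..(((k:ℝ) + 1) * 2⁻¹ ^ n),
    ∫ y in ((k:ℝ) * 2⁻¹ ^ n)..(((k:ℝ) + 1) * 2⁻¹ ^ n), qf g x y) +
  ∫ x in ((k:ℝ) * 2⁻¹ ^ n)..(((k:ℝ) + 1) * 2⁻¹ ^ n), Phi g x

noncomputable def pk (w : ℂ) (x : ℝ) : ℝ := (1 - ‖w‖ ^ 2) / ‖ex x - w‖ ^ 2

/-! ### Bounded measurable kernels -/

lemma ii_of_bdd {f : ℝ → ℝ} (hf : Measurable f) {C : ℝ} (h : ∀ x, ‖f x‖ ≤ C) (a b : ℝ) :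
    IntervalIntegrable f volume a b := by
  refine (intervalIntegrable_const (c := C)).mono_fun hf.aestronglyMeasurable
    (ae_of_all _ fun x => ?_)
  exact (h x).trans (le_abs_self C)

lemma meas_int {F : ℝ → ℝ → ℝ} (hF : Measurable (fun p : ℝ × ℝ => F p.1 p.2)) (a b : ℝ)
    (hab : a ≤ b) : Measurable (fun x => ∫ y in a..b, F x y) := by
  simp only [intervalIntegral.integral_of_le hab]
  exact (hF.stronglyMeasurable.integral_prod_right (ν := volume.restrict (Ioc a b))).measurable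

lemma int_bdd {F : ℝ → ℝ → ℝ} {C : ℝ} (h : ∀ x y, ‖F x y‖ ≤ C) (a b : ℝ) (x : ℝ) :
    ‖∫ y in a..b, F x y‖ ≤ C * |b - a| :=
  intervalIntegral.norm_integral_le_of_norm_le_const fun y _ => h x y

lemma ii_int {F : ℝ → ℝ → ℝ} (hF : Measurable (fun p : ℝ × ℝ => F p.1 p.2)) {C : ℝ}
    (h : ∀ x y, ‖F x y‖ ≤ C) {a b : ℝ} (hab : a ≤ b) (c d : ℝ) :
    IntervalIntegrable (fun x => ∫ y in a..b, F x y) volume c d :=
  ii_of_bdd (meas_int hF a b hab) (int_bdd h a b) c d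

lemma meas_snd {F : ℝ → ℝ → ℝ} (hF : Measurable (fun p : ℝ × ℝ => F p.1 p.2)) (x : ℝ) :
    Measurable (F x) := hF.comp measurable_prodMk_left

/-! ### The kernel -/

lemma qf_nonneg (g : ℝ → ℂ) (x y : ℝ) : 0 ≤ qf g x y := by unfold qf; positivity

section

variable {g : ℝ → ℂ} {L : ℝ}

lemma qf_le (hL : ∀ x y, ‖g x - g y‖ ≤ L * ‖ex x - ex y‖) (x y : ℝ) : qf g x y ≤ L ^ 2 := by
  unfold qf
  rcases eq_or_ne ‖ex x - ex y‖ 0 with h | h
  · rw [h]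
    simp only [ne_eq, OfNat.ofNat_ne_zero, not_false_eq_true, zero_pow, div_zero]
    positivity
  · have hp : 0 < ‖ex x - ex y‖ := lt_of_le_of_ne (norm_nonneg _) (Ne.symm h)
    rw [div_le_iff₀ (by positivity), ← mul_pow]
    exact pow_le_pow_left₀ (norm_nonneg _) (hL x y) 2

lemma norm_qf_le (hL : ∀ x y, ‖g x - g y‖ ≤ L * ‖ex x - ex y‖) (x y : ℝ) :
    ‖qf g x y‖ ≤ L ^ 2 := by
  rw [Real.norm_of_nonneg (qf_nonneg g x y)]
  exact qf_le hL x y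

lemma measurable_qf (hg : Continuous g) : Measurable (fun p : ℝ × ℝ => qf g p.1 p.2) := by
  unfold qf
  have h1 : Measurable (fun p : ℝ × ℝ => ‖g p.1 - g p.2‖ ^ 2) := by
    have : Continuous (fun p : ℝ × ℝ => ‖g p.1 - g p.2‖ ^ 2) := by fun_prop
    exact this.measurable
  have h2 : Measurable (fun p : ℝ × ℝ => ‖ex p.1 - ex p.2‖ ^ 2) := by
    have hc := continuous_ex
    have : Continuous (fun p : ℝ × ℝ => ‖ex p.1 - ex p.2‖ ^ 2) := by fun_prop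
    exact this.measurable
  exact h1.div h2

/-- `|g x - g y|² = q(x,y) |ex x - ex y|²`, also at the points with `ex x = ex y`. -/
lemma sq_eq_qf (hL : ∀ x y, ‖g x - g y‖ ≤ L * ‖ex x - ex y‖) (x y : ℝ) :
    ‖g x - g y‖ ^ 2 = qf g x y * ‖ex x - ex y‖ ^ 2 := by
  unfold qf
  rcases eq_or_ne ‖ex x - ex y‖ 0 with h | h
  · have h1 := hL x y
    rw [h, mul_zero] at h1
    have h2 : ‖g x - g y‖ = 0 := le_antisymm h1 (norm_nonneg _)
    rw [h, h2]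
    simp
  · rw [div_mul_cancel₀]
    exact pow_ne_zero 2 h

lemma norm_ex_sub_ex_le (x y : ℝ) : ‖ex x - ex y‖ ≤ 2 * Real.pi * |x - y| := by
  have h1 : ex x - ex y = -(ex y * (1 - ex (x - y))) := by
    have : ex x = ex y * ex (x - y) := by rw [← ex_add]; congr 1; ring
    rw [this]; ring
  rw [h1, norm_neg, norm_mul, norm_ex, one_mul]
  have := norm_one_sub_ex_le (x - y) 0
  simpa using this

lemma Phi_nonneg (g : ℝ → ℂ) (x : ℝ) : 0 ≤ Phi g x :=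
  intervalIntegral.integral_nonneg zero_le_one fun y _ => qf_nonneg g x y

lemma measurable_Phi (hg : Continuous g) : Measurable (Phi g) :=
  meas_int (measurable_qf hg) 0 1 zero_le_one

lemma Phi_le (hL : ∀ x y, ‖g x - g y‖ ≤ L * ‖ex x - ex y‖) (x : ℝ) : Phi g x ≤ L ^ 2 := by
  have := int_bdd (norm_qf_le hL) 0 1 x
  rw [sub_zero, abs_one, mul_one] at this
  exact (le_abs_self _).trans this

lemma ii_Phi (hg : Continuous g) (hL : ∀ x y, ‖g x - g y‖ ≤ L * ‖ex x - ex y‖) (a b : ℝ) :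
    IntervalIntegrable (Phi g) volume a b :=
  ii_of_bdd (measurable_Phi hg) (C := L ^ 2)
    (fun x => by rw [Real.norm_of_nonneg (Phi_nonneg g x)]; exact Phi_le hL x) a b

lemma ii_qf (hg : Continuous g) (hL : ∀ x y, ‖g x - g y‖ ≤ L * ‖ex x - ex y‖) (x a b : ℝ) :
    IntervalIntegrable (qf g x) volume a b :=
  ii_of_bdd (meas_snd (measurable_qf hg) x) (norm_qf_le hL x) a b

lemma ii_qf2 (hg : Continuous g) (hL : ∀ x y, ‖g x - g y‖ ≤ L * ‖ex x - ex y‖) {a b : ℝ}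
    (hab : a ≤ b) (c d : ℝ) :
    IntervalIntegrable (fun x => ∫ y in a..b, qf g x y) volume c d :=
  ii_int (measurable_qf hg) (norm_qf_le hL) hab c d

lemma int_qf_nonneg (g : ℝ → ℂ) {a b : ℝ} (hab : a ≤ b) (x : ℝ) : 0 ≤ ∫ y in a..b, qf g x y :=
  intervalIntegral.integral_nonneg hab fun y _ => qf_nonneg g x y

lemma int_int_qf_nonneg (g : ℝ → ℂ) {a b c d : ℝ} (hab : a ≤ b) (hcd : c ≤ d) :
    0 ≤ ∫ x in c..d, ∫ y in a..b, qf g x y :=
  intervalIntegral.integral_nonneg hcd fun x _ => int_qf_nonneg g hab x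

/-- The cross term: a lower bound by the difference of the means. -/
lemma cross_le (hg : Continuous g) (hL : ∀ x y, ‖g x - g y‖ ≤ L * ‖ex x - ex y‖) {s : ℝ}
    (hs : 0 < s) (a b u v : ℝ) (hab : b - a = s) (huv : v - u = s) (D : ℝ)
    (hD : ∀ x ∈ Icc a b, ∀ y ∈ Icc u v, |x - y| ≤ 2 * s)
    (hδ : s * D = (∫ x in a..b, ‖g x‖) - ∫ x in u..v, ‖g x‖) :
    D ^ 2 ≤ 16 * Real.pi ^ 2 * ∫ x in a..b, ∫ y in u..v, qf g x y := by
  have hpi := Real.pi_pos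
  set K : ℝ := (16 * Real.pi ^ 2 * s ^ 2)⁻¹ with hK
  have hKpos : 0 < K := by positivity
  have hab' : a ≤ b := by linarith
  have huv' : u ≤ v := by linarith
  have hgn : Continuous fun x => ‖g x‖ := hg.norm
  have hpt : ∀ x ∈ Icc a b, ∀ y ∈ Icc u v,
      K * (2 * D * (‖g x‖ - ‖g y‖) - D ^ 2) ≤ qf g x y := by
    intro x hx y hy
    have h1 := sq_eq_qf hL x y
    have h2 : ‖ex x - ex y‖ ≤ 2 * Real.pi * (2 * s) :=
      (norm_ex_sub_ex_le x y).trans (mul_le_mul_of_nonneg_left (hD x hx y hy) (by positivity))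
    have h3 : ‖ex x - ex y‖ ^ 2 ≤ 16 * Real.pi ^ 2 * s ^ 2 := by
      have := pow_le_pow_left₀ (norm_nonneg _) h2 2
      nlinarith [this]
    have h4 : (‖g x‖ - ‖g y‖) ^ 2 ≤ ‖g x - g y‖ ^ 2 := by
      rw [← sq_abs]
      exact pow_le_pow_left₀ (abs_nonneg _) (abs_norm_sub_norm_le _ _) 2
    have h5 : 2 * D * (‖g x‖ - ‖g y‖) - D ^ 2 ≤ (‖g x‖ - ‖g y‖) ^ 2 := by
      nlinarith [sq_nonneg (D - (‖g x‖ - ‖g y‖))]
    have h6 : (‖g x‖ - ‖g y‖) ^ 2 ≤ qf g x y * (16 * Real.pi ^ 2 * s ^ 2) :=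
      (h4.trans h1.le).trans (mul_le_mul_of_nonneg_left h3 (qf_nonneg g x y))
    rw [hK, inv_mul_le_iff₀ (by positivity)]
    linarith
  have hin : ∀ x ∈ Icc a b, K * (2 * D * (s * ‖g x‖ - ∫ y in u..v, ‖g y‖) - s * D ^ 2)
      ≤ ∫ y in u..v, qf g x y := by
    intro x hx
    have h1 : ∫ y in u..v, K * (2 * D * (‖g x‖ - ‖g y‖) - D ^ 2)
        = K * (2 * D * (s * ‖g x‖ - ∫ y in u..v, ‖g y‖) - s * D ^ 2) := by
      rw [intervalIntegral.integral_const_mul, intervalIntegral.integral_sub,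
        intervalIntegral.integral_const_mul, intervalIntegral.integral_sub,
        intervalIntegral.integral_const, intervalIntegral.integral_const, smul_eq_mul,
        smul_eq_mul, huv]
      · exact continuous_const.intervalIntegrable _ _
      · exact hgn.intervalIntegrable _ _
      · exact (continuous_const.mul (continuous_const.sub hgn)).intervalIntegrable _ _
      · exact continuous_const.intervalIntegrable _ _
    rw [← h1]
    refine intervalIntegral.integral_mono_on huv' ?_ (ii_qf hg hL x u v) (hpt x hx)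
    exact (continuous_const.mul ((continuous_const.mul (continuous_const.sub hgn)).sub
      continuous_const)).intervalIntegrable _ _
  have hout : K * (s ^ 2 * D ^ 2) ≤ ∫ x in a..b, ∫ y in u..v, qf g x y := by
    have h1 : ∫ x in a..b, K * (2 * D * (s * ‖g x‖ - ∫ y in u..v, ‖g y‖) - s * D ^ 2)
        = K * (2 * D * (s * (∫ x in a..b, ‖g x‖) - s * ∫ y in u..v, ‖g y‖) - s * (s * D ^ 2)) := by
      rw [intervalIntegral.integral_const_mul, intervalIntegral.integral_sub,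
        intervalIntegral.integral_const_mul, intervalIntegral.integral_sub,
        intervalIntegral.integral_const, intervalIntegral.integral_const,
        intervalIntegral.integral_const_mul, smul_eq_mul,
        smul_eq_mul, hab]
      · exact (continuous_const.mul hgn).intervalIntegrable _ _
      · exact continuous_const.intervalIntegrable _ _
      · exact (continuous_const.mul ((continuous_const.mul hgn).sub
          continuous_const)).intervalIntegrable _ _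
      · exact continuous_const.intervalIntegrable _ _
    have h2 : K * (s ^ 2 * D ^ 2)
        = K * (2 * D * (s * (∫ x in a..b, ‖g x‖) - s * ∫ y in u..v, ‖g y‖) - s * (s * D ^ 2)) := by
      rw [← mul_sub, ← hδ]
      ring
    rw [h2, ← h1]
    refine intervalIntegral.integral_mono_on hab' ?_ (ii_qf2 hg hL huv' a b) hin
    exact (continuous_const.mul ((continuous_const.mul ((continuous_const.mul hgn).sub
      continuous_const)).sub continuous_const)).intervalIntegrable _ _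
  have h3 : K * (s ^ 2 * D ^ 2) = D ^ 2 / (16 * Real.pi ^ 2) := by
    rw [hK]
    field_simp
  rw [h3, div_le_iff₀ (by positivity)] at hout
  linarith


lemma ep_nonneg (g : ℝ → ℂ) (n : ℕ) (k : ℤ) : 0 ≤ ep g n k := by
  have hab : (k:ℝ) * 2⁻¹ ^ n ≤ ((k:ℝ) + 1) * 2⁻¹ ^ n :=
    mul_le_mul_of_nonneg_right (by linarith) (by positivity)
  have h1 := int_int_qf_nonneg g hab hab
  have h2 : 0 ≤ ∫ x in ((k:ℝ) * 2⁻¹ ^ n)..(((k:ℝ) + 1) * 2⁻¹ ^ n), Phi g x :=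
    intervalIntegral.integral_nonneg hab fun x _ => Phi_nonneg g x
  unfold ep
  positivity

lemma Phi_le_ep (g : ℝ → ℂ) (n : ℕ) (k : ℤ) :
    ∫ x in ((k:ℝ) * 2⁻¹ ^ n)..(((k:ℝ) + 1) * 2⁻¹ ^ n), Phi g x ≤ ep g n k := by
  have hab : (k:ℝ) * 2⁻¹ ^ n ≤ ((k:ℝ) + 1) * 2⁻¹ ^ n :=
    mul_le_mul_of_nonneg_right (by linarith) (by positivity)
  have h1 := int_int_qf_nonneg g hab hab
  unfold ep
  linarith

lemma ep_zero_le (g : ℝ → ℂ) : ep g 0 0 ≤ 41 * ∫ x in (0:ℝ)..1, Phi g x := by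
  unfold ep
  simp only [Int.cast_zero, pow_zero, mul_one, zero_add]
  have : ∫ x in (0:ℝ)..1, ∫ y in (0:ℝ)..1, qf g x y = ∫ x in (0:ℝ)..1, Phi g x := rfl
  rw [this]
  linarith

theorem ep_super (hg : Continuous g) (hL : ∀ x y, ‖g x - g y‖ ≤ L * ‖ex x - ex y‖) (n : ℕ)
    (k : ℤ) :
    ep g (n + 1) (2 * k) + ep g (n + 1) (2 * k + 1) + (Hm g n k - Hm g (n + 1) (2 * k)) ^ 2
      + (Hm g n k - Hm g (n + 1) (2 * k + 1)) ^ 2 ≤ ep g n k := by
  set s : ℝ := 2⁻¹ ^ (n + 1) with hs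
  have hs0 : 0 < s := by positivity
  set a : ℝ := (k:ℝ) * 2⁻¹ ^ n with ha
  set c : ℝ := ((k:ℝ) + 1) * 2⁻¹ ^ n with hc
  set b : ℝ := a + s with hb
  have h2s : (2⁻¹ : ℝ) ^ n = 2 * s := by rw [hs, pow_succ]; ring
  have e1 : ((2 * k : ℤ) : ℝ) * s = a := by rw [ha, h2s]; push_cast; ring
  have e2 : (((2 * k : ℤ) : ℝ) + 1) * s = b := by rw [hb, ha, h2s]; push_cast; ring
  have e3 : ((2 * k + 1 : ℤ) : ℝ) * s = b := by rw [hb, ha, h2s]; push_cast; ring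
  have e4 : (((2 * k + 1 : ℤ) : ℝ) + 1) * s = c := by rw [hc, h2s]; push_cast; ring
  have hcb : c = b + s := by rw [hb, ha, hc, h2s]; ring
  have hab : a ≤ b := by linarith
  have hbc : b ≤ c := by linarith
  have hac : a ≤ c := by linarith
  have hgn : Continuous fun x => ‖g x‖ := hg.norm
  have h2n : (2 : ℝ) ^ (n + 1) * s = 1 := by rw [hs, ← mul_pow]; norm_num
  have h2n' : (2 : ℝ) ^ (n + 1) = 2 * 2 ^ n := by rw [pow_succ]; ring
  -- the means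
  set G1 : ℝ := ∫ x in a..b, ‖g x‖ with hG1
  set G2 : ℝ := ∫ x in b..c, ‖g x‖ with hG2
  have hH1 : Hm g (n + 1) (2 * k) = 2 ^ (n + 1) * G1 := by
    unfold Hm; rw [← hs, e1, e2]
  have hH2 : Hm g (n + 1) (2 * k + 1) = 2 ^ (n + 1) * G2 := by
    unfold Hm; rw [← hs, e3, e4]
  have hH : Hm g n k = 2 ^ n * (G1 + G2) := by
    unfold Hm
    rw [← ha, ← hc, hG1, hG2, intervalIntegral.integral_add_adjacent_intervals
      (hgn.intervalIntegrable _ _) (hgn.intervalIntegrable _ _)]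
  -- the double integrals
  have hq := fun x u v => ii_qf hg hL x u v
  have hsplit : ∀ u v, u ≤ v → ∫ x in u..v, ∫ y in a..c, qf g x y
      = (∫ x in u..v, ∫ y in a..b, qf g x y) + ∫ x in u..v, ∫ y in b..c, qf g x y := by
    intro u v _
    rw [← intervalIntegral.integral_add (ii_qf2 hg hL hab u v) (ii_qf2 hg hL hbc u v)]
    congr 1
    funext x
    exact (intervalIntegral.integral_add_adjacent_intervals (hq x a b) (hq x b c)).symm
  have hsp2 : ∫ x in a..c, ∫ y in a..c, qf g x y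
      = (∫ x in a..b, ∫ y in a..b, qf g x y) + (∫ x in a..b, ∫ y in b..c, qf g x y)
        + ((∫ x in b..c, ∫ y in a..b, qf g x y) + ∫ x in b..c, ∫ y in b..c, qf g x y) := by
    rw [← hsplit a b hab, ← hsplit b c hbc, intervalIntegral.integral_add_adjacent_intervals
      (ii_qf2 hg hL hac a b) (ii_qf2 hg hL hac b c)]
  have hPhi : ∫ x in a..c, Phi g x = (∫ x in a..b, Phi g x) + ∫ x in b..c, Phi g x :=
    (intervalIntegral.integral_add_adjacent_intervals (ii_Phi hg hL a b) (ii_Phi hg hL b c)).symm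
  set D : ℝ := 2 ^ (n + 1) * G1 - 2 ^ (n + 1) * G2 with hD
  have hsD : s * D = G1 - G2 := by
    rw [hD, ← mul_sub, ← mul_assoc, mul_comm s, h2n, one_mul]
  have c1 : D ^ 2 ≤ 16 * Real.pi ^ 2 * ∫ x in a..b, ∫ y in b..c, qf g x y := by
    refine cross_le hg hL hs0 a b b c (by linarith) (by linarith) D ?_ hsD
    intro x hx y hy
    rw [abs_le]
    constructor <;> linarith [hx.1, hx.2, hy.1, hy.2]
  have c2 : D ^ 2 ≤ 16 * Real.pi ^ 2 * ∫ x in b..c, ∫ y in a..b, qf g x y := by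
    have := cross_le hg hL hs0 b c a b (by linarith) (by linarith) (-D) (fun x hx y hy => by
      rw [abs_le]
      constructor <;> linarith [hx.1, hx.2, hy.1, hy.2]) (by rw [mul_neg, hsD]; ring)
    rwa [neg_sq] at this
  have hpi2 : Real.pi ^ 2 ≤ 10 := by
    have h1 := Real.pi_lt_d2
    have h2 := Real.pi_pos
    nlinarith
  have n1 := int_int_qf_nonneg g hbc hab
  have n2 := int_int_qf_nonneg g hab hbc
  have d1 : 16 * Real.pi ^ 2 * (∫ x in a..b, ∫ y in b..c, qf g x y)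
      ≤ 160 * ∫ x in a..b, ∫ y in b..c, qf g x y :=
    mul_le_mul_of_nonneg_right (by linarith) n1
  have d2 : 16 * Real.pi ^ 2 * (∫ x in b..c, ∫ y in a..b, qf g x y)
      ≤ 160 * ∫ x in b..c, ∫ y in a..b, qf g x y :=
    mul_le_mul_of_nonneg_right (by linarith) n2
  have hm1 : (Hm g n k - Hm g (n + 1) (2 * k)) ^ 2 = D ^ 2 / 4 := by
    rw [hH, hH1, hD, h2n']; ring
  have hm2 : (Hm g n k - Hm g (n + 1) (2 * k + 1)) ^ 2 = D ^ 2 / 4 := by
    rw [hH, hH2, hD, h2n']; ring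
  rw [hm1, hm2]
  unfold ep
  rw [← hs, e1, e2, e3, e4, ← ha, ← hc, hsp2, hPhi]
  linarith

/-! ### Poisson averages -/

lemma pk_den_pos (w : ℂ) (x : ℝ) : 1 - ‖w‖ ≤ ‖ex x - w‖ := by
  have := norm_sub_norm_le (ex x) w
  rwa [norm_ex] at this

lemma pk_nonneg {w : ℂ} (hw : ‖w‖ < 1) (x : ℝ) : 0 ≤ pk w x := by
  unfold pk
  have : 0 ≤ 1 - ‖w‖ ^ 2 := by nlinarith [norm_nonneg w]
  positivity

lemma continuous_pk {w : ℂ} (hw : ‖w‖ < 1) : Continuous (pk w) := by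
  unfold pk
  refine Continuous.div continuous_const ((continuous_ex.sub continuous_const).norm.pow 2) ?_
  intro x
  have := pk_den_pos w x
  have h : 0 < ‖ex x - w‖ := by linarith
  exact (pow_pos h 2).ne'

/-- The two pointwise consequences of the variance identity. -/
theorem variance_le (hg : Continuous g) (hL : ∀ x y, ‖g x - g y‖ ≤ L * ‖ex x - ex y‖) (w : ℂ)
    (hw : ‖w‖ < 1) (b : ℂ) (h1 : ∫ y in (0:ℝ)..1, pk w y = 1)
    (hb : ∫ y in (0:ℝ)..1, (pk w y : ℂ) * g y = b) (x c : ℝ)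
    (hc : ‖ex x - w‖ ≤ c * (1 - ‖w‖)) :
    (∫ y in (0:ℝ)..1, pk w y * ‖g y‖ ^ 2) - ‖b‖ ^ 2 ≤ (1 - ‖w‖ ^ 2) * (c + 1) ^ 2 * Phi g x ∧
      ‖g x - b‖ ^ 2 ≤ (1 - ‖w‖ ^ 2) * (c + 1) ^ 2 * Phi g x := by
  have hcp := continuous_pk hw
  have hw0 := norm_nonneg w
  have hw2 : 0 ≤ 1 - ‖w‖ ^ 2 := by nlinarith
  have hcpC : Continuous fun y => (pk w y : ℂ) := Complex.continuous_ofReal.comp hcp
  -- second moments
  have key : ∀ a : ℂ, ∫ y in (0:ℝ)..1, pk w y * ‖a - g y‖ ^ 2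
      = ‖a - b‖ ^ 2 + ((∫ y in (0:ℝ)..1, pk w y * ‖g y‖ ^ 2) - ‖b‖ ^ 2) := by
    intro a
    have hpt : ∀ y, pk w y * ‖a - g y‖ ^ 2 = ‖a‖ ^ 2 * pk w y
        - 2 * ((starRingEnd ℂ) a * ((pk w y : ℂ) * g y)).re + pk w y * ‖g y‖ ^ 2 := by
      intro y
      have e : ‖a - g y‖ ^ 2 = ‖a‖ ^ 2 - 2 * ((starRingEnd ℂ) a * g y).re + ‖g y‖ ^ 2 := by
        simp only [Complex.sq_norm, Complex.normSq_apply, Complex.sub_re, Complex.sub_im,
          Complex.mul_re, Complex.conj_re, Complex.conj_im]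
        ring
      have e2 : ((starRingEnd ℂ) a * ((pk w y : ℂ) * g y)).re
          = pk w y * ((starRingEnd ℂ) a * g y).re := by
        rw [mul_left_comm, Complex.re_ofReal_mul]
      rw [e, e2]
      ring
    have hre : ∫ y in (0:ℝ)..1, ((starRingEnd ℂ) a * ((pk w y : ℂ) * g y)).re
        = ((starRingEnd ℂ) a * b).re := by
      rw [← hb, ← intervalIntegral.integral_const_mul]
      have hii : IntervalIntegrable (fun y => (starRingEnd ℂ) a * ((pk w y : ℂ) * g y))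
          volume 0 1 := (continuous_const.mul (hcpC.mul hg)).intervalIntegrable _ _
      exact Complex.reCLM.intervalIntegral_comp_comm hii
    have c1 : Continuous fun y => ‖a‖ ^ 2 * pk w y := continuous_const.mul hcp
    have c2 : Continuous fun y => 2 * ((starRingEnd ℂ) a * ((pk w y : ℂ) * g y)).re :=
      continuous_const.mul (Complex.continuous_re.comp (continuous_const.mul (hcpC.mul hg)))
    have c3 : Continuous fun y => pk w y * ‖g y‖ ^ 2 := hcp.mul (hg.norm.pow 2)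
    have c12 : Continuous fun y => ‖a‖ ^ 2 * pk w y
        - 2 * ((starRingEnd ℂ) a * ((pk w y : ℂ) * g y)).re := c1.sub c2
    simp only [hpt]
    rw [intervalIntegral.integral_add (c12.intervalIntegrable _ _)
      (c3.intervalIntegrable _ _), intervalIntegral.integral_sub (c1.intervalIntegrable _ _)
      (c2.intervalIntegrable _ _), intervalIntegral.integral_const_mul, h1,
      intervalIntegral.integral_const_mul, hre]
    have e : ‖a - b‖ ^ 2 = ‖a‖ ^ 2 - 2 * ((starRingEnd ℂ) a * b).re + ‖b‖ ^ 2 := by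
      simp only [Complex.sq_norm, Complex.normSq_apply, Complex.sub_re, Complex.sub_im,
        Complex.mul_re, Complex.conj_re, Complex.conj_im]
      ring
    rw [e]
    ring
  have hvar : 0 ≤ (∫ y in (0:ℝ)..1, pk w y * ‖g y‖ ^ 2) - ‖b‖ ^ 2 := by
    have h := key b
    rw [sub_self, norm_zero] at h
    have h2 : 0 ≤ ∫ y in (0:ℝ)..1, pk w y * ‖b - g y‖ ^ 2 :=
      intervalIntegral.integral_nonneg zero_le_one fun y _ =>
        mul_nonneg (pk_nonneg hw y) (by positivity)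
    rw [h] at h2
    simpa using h2
  have hV : ∫ y in (0:ℝ)..1, pk w y * ‖g x - g y‖ ^ 2
      ≤ (1 - ‖w‖ ^ 2) * (c + 1) ^ 2 * Phi g x := by
    unfold Phi
    rw [← intervalIntegral.integral_const_mul]
    refine intervalIntegral.integral_mono_on zero_le_one ?_ ?_ fun y _ => ?_
    · exact (hcp.mul ((continuous_const.sub hg).norm.pow 2)).intervalIntegrable _ _
    · exact (ii_qf hg hL x 0 1).const_mul _
    · rw [sq_eq_qf hL x y]
      have d1 := pk_den_pos w y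
      have d1' : 0 < ‖ex y - w‖ := by linarith
      have d2 := pk_den_pos w x
      have hc1 : 1 ≤ c := by
        by_contra hcon
        push Not at hcon
        nlinarith
      have h3 : ‖ex x - ex y‖ ≤ (c + 1) * ‖ex y - w‖ := by
        have h4 : ‖ex x - ex y‖ ≤ ‖ex x - w‖ + ‖w - ex y‖ := norm_sub_le_norm_sub_add_norm_sub _ _ _
        rw [norm_sub_rev w] at h4
        nlinarith
      have h5 : ‖ex x - ex y‖ ^ 2 ≤ (c + 1) ^ 2 * ‖ex y - w‖ ^ 2 := by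
        rw [← mul_pow]
        exact pow_le_pow_left₀ (norm_nonneg _) h3 2
      have h6 : pk w y * ‖ex x - ex y‖ ^ 2 ≤ (1 - ‖w‖ ^ 2) * (c + 1) ^ 2 := by
        unfold pk
        rw [div_mul_eq_mul_div, div_le_iff₀ (by positivity), mul_assoc]
        exact mul_le_mul_of_nonneg_left h5 hw2
      calc pk w y * (qf g x y * ‖ex x - ex y‖ ^ 2)
          = (pk w y * ‖ex x - ex y‖ ^ 2) * qf g x y := by ring
        _ ≤ _ := mul_le_mul_of_nonneg_right h6 (qf_nonneg g x y)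
  have hk := key (g x)
  rw [hk] at hV
  constructor
  · nlinarith [sq_nonneg ‖g x - b‖]
  · linarith


/-- `|g|² ` averaged over an arc dominates the square of the mean. -/
lemma sq_mean_le (hg : Continuous g) {a b s : ℝ} (hs : 0 < s) (hab : b - a = s) :
    (s⁻¹ * ∫ x in a..b, ‖g x‖) ^ 2 ≤ s⁻¹ * ∫ x in a..b, ‖g x‖ ^ 2 := by
  have hgn : Continuous fun x => ‖g x‖ := hg.norm
  set h : ℝ := s⁻¹ * ∫ x in a..b, ‖g x‖ with hh
  have hG : ∫ x in a..b, ‖g x‖ = s * h := by rw [hh]; field_simp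
  have h1 : ∫ x in a..b, (2 * h * ‖g x‖ - h ^ 2) = s * h ^ 2 := by
    rw [intervalIntegral.integral_sub, intervalIntegral.integral_const_mul,
      intervalIntegral.integral_const, smul_eq_mul, hab, hG]
    · ring
    · exact (continuous_const.mul hgn).intervalIntegrable _ _
    · exact continuous_const.intervalIntegrable _ _
  have h2 : s * h ^ 2 ≤ ∫ x in a..b, ‖g x‖ ^ 2 := by
    rw [← h1]
    refine intervalIntegral.integral_mono_on (by linarith) ?_ ?_ fun x _ => ?_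
    · exact ((continuous_const.mul hgn).sub continuous_const).intervalIntegrable _ _
    · exact (hgn.pow 2).intervalIntegrable _ _
    · nlinarith [sq_nonneg (‖g x‖ - h)]
  calc h ^ 2 = s⁻¹ * (s * h ^ 2) := by field_simp
    _ ≤ _ := mul_le_mul_of_nonneg_left h2 (by positivity)

lemma Hm_eq (g : ℝ → ℂ) (n : ℕ) (k : ℤ) : Hm g n k = ((2⁻¹ : ℝ) ^ n)⁻¹ *
    ∫ x in ((k:ℝ) * 2⁻¹ ^ n)..(((k:ℝ) + 1) * 2⁻¹ ^ n), ‖g x‖ := by
  unfold Hm
  rw [inv_pow, inv_inv]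

lemma Hm_sq_le_int (hg : Continuous g) (n : ℕ) (k : ℤ) : Hm g n k ^ 2 ≤ ((2⁻¹ : ℝ) ^ n)⁻¹ *
    ∫ x in ((k:ℝ) * 2⁻¹ ^ n)..(((k:ℝ) + 1) * 2⁻¹ ^ n), ‖g x‖ ^ 2 := by
  rw [Hm_eq]
  exact sq_mean_le hg (by positivity) (by ring)

/-- Upper bound for the integral over an arc of a constant dominated by `C 2⁻ⁿ Φ`. -/
lemma le_int_Phi (hg : Continuous g) (hL : ∀ x y, ‖g x - g y‖ ≤ L * ‖ex x - ex y‖) {a b s C X : ℝ}
    (hs : 0 < s) (hab : b - a = s) (h : ∀ x ∈ Icc a b, X ≤ C * s * Phi g x) :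
    X ≤ C * ∫ x in a..b, Phi g x := by
  have h1 : ∫ _x in a..b, X = s * X := by
    rw [intervalIntegral.integral_const, smul_eq_mul, hab]
  have h2 : s * X ≤ C * s * ∫ x in a..b, Phi g x := by
    rw [← h1, ← intervalIntegral.integral_const_mul]
    refine intervalIntegral.integral_mono_on (by linarith) ?_ ?_ h
    · exact continuous_const.intervalIntegrable _ _
    · exact (ii_Phi hg hL a b).const_mul _
  have h3 : s * X ≤ s * (C * ∫ x in a..b, Phi g x) := by linarith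
  exact le_of_mul_le_mul_left h3 hs

/-- The centre of the box, in polar coordinates. -/
lemma norm_centre (ρ y : ℝ) (hρ : 0 ≤ ρ) : ‖(ρ : ℂ) * ex y‖ = ρ := by
  rw [norm_mul, norm_ex, mul_one, Complex.norm_real, Real.norm_of_nonneg hρ]

lemma norm_ex_sub_le (ρ x y : ℝ) (hρ1 : ρ ≤ 1) :
    ‖ex x - (ρ : ℂ) * ex y‖ ≤ (1 - ρ) + 2 * Real.pi * |x - y| := by
  have h1 : ex x - (ρ : ℂ) * ex y = (ex x - ex y) + ((1 - ρ : ℝ) : ℂ) * ex y := by
    push_cast; ring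
  rw [h1]
  refine (norm_add_le _ _).trans ?_
  rw [norm_centre _ _ (by linarith), add_comm]
  linarith [norm_ex_sub_ex_le x y]

lemma half_arc {n : ℕ} {k : ℤ} {x : ℝ}
    (hx : x ∈ Icc ((k:ℝ) * 2⁻¹ ^ n) (((k:ℝ) + 1) * 2⁻¹ ^ n)) :
    |x - ((k:ℝ) + 1 / 2) * 2⁻¹ ^ n| ≤ 2⁻¹ ^ n / 2 := by
  rw [abs_le]
  constructor <;> nlinarith [hx.1, hx.2]

lemma norm_ex_sub_centre_le {n : ℕ} {k : ℤ} {x : ℝ}
    (hx : x ∈ Icc ((k:ℝ) * 2⁻¹ ^ n) (((k:ℝ) + 1) * 2⁻¹ ^ n)) :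
    ‖ex x - ((1 - (2⁻¹:ℝ) ^ n : ℝ) : ℂ) * ex (((k:ℝ) + 1 / 2) * 2⁻¹ ^ n)‖
      ≤ (1 + Real.pi) * 2⁻¹ ^ n := by
  have h0 : (0 : ℝ) < 2⁻¹ ^ n := by positivity
  refine (norm_ex_sub_le _ _ _ (by linarith)).trans ?_
  have h1 := half_arc hx
  have h2 : 2 * Real.pi * |x - ((k:ℝ) + 1 / 2) * 2⁻¹ ^ n| ≤ 2 * Real.pi * (2⁻¹ ^ n / 2) :=
    mul_le_mul_of_nonneg_left h1 (by positivity)
  linarith

lemma norm_centre_eq (n : ℕ) (k : ℤ) :
    ‖((1 - (2⁻¹:ℝ) ^ n : ℝ) : ℂ) * ex (((k:ℝ) + 1 / 2) * 2⁻¹ ^ n)‖ = 1 - 2⁻¹ ^ n := by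
  have h1 : (2⁻¹ : ℝ) ^ n ≤ 1 := pow_le_one₀ (by norm_num) (by norm_num)
  exact norm_centre _ _ (by linarith)

lemma norm_centre_lt (n : ℕ) (k : ℤ) :
    ‖((1 - (2⁻¹:ℝ) ^ n : ℝ) : ℂ) * ex (((k:ℝ) + 1 / 2) * 2⁻¹ ^ n)‖ < 1 := by
  rw [norm_centre_eq]
  have h0 : (0 : ℝ) < 2⁻¹ ^ n := by positivity
  linarith

/-- On the arc of `v` the Poisson kernel of the centre `w_v` is at least `2 ^ n / 18`. -/
lemma pk_ge {n : ℕ} {k : ℤ} {x : ℝ}
    (hx : x ∈ Icc ((k:ℝ) * 2⁻¹ ^ n) (((k:ℝ) + 1) * 2⁻¹ ^ n)) :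
    ((2⁻¹ : ℝ) ^ n)⁻¹ / 18 ≤
      pk (((1 - (2⁻¹:ℝ) ^ n : ℝ) : ℂ) * ex (((k:ℝ) + 1 / 2) * 2⁻¹ ^ n)) x := by
  have h0 : (0 : ℝ) < 2⁻¹ ^ n := by positivity
  have h1 : (2⁻¹ : ℝ) ^ n ≤ 1 := pow_le_one₀ (by norm_num) (by norm_num)
  have h2 := norm_ex_sub_centre_le hx
  have h3 := pk_den_pos (((1 - (2⁻¹:ℝ) ^ n : ℝ) : ℂ) * ex (((k:ℝ) + 1 / 2) * 2⁻¹ ^ n)) x
  unfold pk
  rw [norm_centre_eq] at h3 ⊢
  set t : ℝ := 2⁻¹ ^ n with ht
  set N : ℝ := ‖ex x - ((1 - t : ℝ) : ℂ) * ex (((k:ℝ) + 1 / 2) * t)‖ with hN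
  have hN0 : 0 < N := by linarith
  have hpi := Real.pi_lt_d2
  have hpi0 := Real.pi_pos
  have h4 : N ^ 2 ≤ 18 * t ^ 2 := by
    have := pow_le_pow_left₀ hN0.le h2 2
    have h5 : (1 + Real.pi) ^ 2 ≤ 18 := by nlinarith
    rw [mul_pow] at this
    nlinarith [sq_nonneg t]
  rw [le_div_iff₀ (by positivity)]
  calc t⁻¹ / 18 * N ^ 2 ≤ t⁻¹ / 18 * (18 * t ^ 2) := mul_le_mul_of_nonneg_left h4 (by positivity)
    _ = t := by field_simp
    _ ≤ 1 - (1 - t) ^ 2 := by nlinarith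

theorem mean_variance (hg : Continuous g) (hL : ∀ x y, ‖g x - g y‖ ≤ L * ‖ex x - ex y‖)
    (n : ℕ) (k : ℤ) (b : ℂ)
    (h1 : ∫ y in (0:ℝ)..1,
      pk (((1 - (2⁻¹:ℝ) ^ n : ℝ) : ℂ) * ex (((k:ℝ) + 1 / 2) * 2⁻¹ ^ n)) y = 1)
    (hb : ∫ y in (0:ℝ)..1,
      (pk (((1 - (2⁻¹:ℝ) ^ n : ℝ) : ℂ) * ex (((k:ℝ) + 1 / 2) * 2⁻¹ ^ n)) y : ℂ) * g y = b) :
    (∫ y in (0:ℝ)..1,
      pk (((1 - (2⁻¹:ℝ) ^ n : ℝ) : ℂ) * ex (((k:ℝ) + 1 / 2) * 2⁻¹ ^ n)) y * ‖g y‖ ^ 2)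
        - ‖b‖ ^ 2 ≤
      54 * ∫ x in ((k:ℝ) * 2⁻¹ ^ n)..(((k:ℝ) + 1) * 2⁻¹ ^ n), Phi g x := by
  have h0 : (0 : ℝ) < 2⁻¹ ^ n := by positivity
  have h1' : (2⁻¹ : ℝ) ^ n ≤ 1 := pow_le_one₀ (by norm_num) (by norm_num)
  refine le_int_Phi hg hL h0 (by ring) fun x hx => ?_
  have h2 := norm_ex_sub_centre_le hx
  have h3 := (variance_le hg hL _ (norm_centre_lt n k) b h1 hb x (1 + Real.pi) (by
    rw [norm_centre_eq]; linarith)).1
  refine h3.trans (mul_le_mul_of_nonneg_right ?_ (Phi_nonneg g x))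
  rw [norm_centre_eq]
  have hpi := Real.pi_lt_d2
  have hpi0 := Real.pi_pos
  have h5 : (1 + Real.pi + 1) ^ 2 ≤ 27 := by nlinarith
  have h6 : 1 - (1 - (2⁻¹:ℝ) ^ n) ^ 2 ≤ 2 * 2⁻¹ ^ n := by nlinarith
  have h7 : 0 ≤ 1 - (1 - (2⁻¹:ℝ) ^ n) ^ 2 := by nlinarith
  calc (1 - (1 - (2⁻¹:ℝ) ^ n) ^ 2) * (1 + Real.pi + 1) ^ 2
      ≤ (2 * 2⁻¹ ^ n) * 27 := mul_le_mul h6 h5 (by positivity) (by positivity)
    _ = 54 * 2⁻¹ ^ n := by ring

theorem Hm_sq_le (hg : Continuous g) (n : ℕ) (k : ℤ) (hk0 : 0 ≤ k) (hk1 : k < 2 ^ n) :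
    Hm g n k ^ 2 ≤ 18 * ∫ y in (0:ℝ)..1,
      pk (((1 - (2⁻¹:ℝ) ^ n : ℝ) : ℂ) * ex (((k:ℝ) + 1 / 2) * 2⁻¹ ^ n)) y * ‖g y‖ ^ 2 := by
  have h0 : (0 : ℝ) < 2⁻¹ ^ n := by positivity
  set w : ℂ := ((1 - (2⁻¹:ℝ) ^ n : ℝ) : ℂ) * ex (((k:ℝ) + 1 / 2) * 2⁻¹ ^ n) with hw
  have hw1 : ‖w‖ < 1 := norm_centre_lt n k
  set a : ℝ := (k:ℝ) * 2⁻¹ ^ n with ha
  set c : ℝ := ((k:ℝ) + 1) * 2⁻¹ ^ n with hc
  have hk0' : (0 : ℝ) ≤ k := by exact_mod_cast hk0
  have hk1' : (k : ℝ) + 1 ≤ 2 ^ n := by exact_mod_cast hk1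
  have ha0 : 0 ≤ a := by positivity
  have hc1 : c ≤ 1 := by
    have : (2 : ℝ) ^ n * 2⁻¹ ^ n = 1 := by rw [← mul_pow]; norm_num
    calc c ≤ 2 ^ n * 2⁻¹ ^ n := mul_le_mul_of_nonneg_right hk1' h0.le
      _ = 1 := this
  have hac : a ≤ c := mul_le_mul_of_nonneg_right (by linarith) h0.le
  have hcont : Continuous fun y => pk w y * ‖g y‖ ^ 2 := (continuous_pk hw1).mul (hg.norm.pow 2)
  refine (Hm_sq_le_int hg n k).trans ?_
  rw [← ha, ← hc, ← intervalIntegral.integral_const_mul]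
  have h1 : ∫ x in a..c, ((2⁻¹ : ℝ) ^ n)⁻¹ * ‖g x‖ ^ 2
      ≤ ∫ x in a..c, 18 * (pk w x * ‖g x‖ ^ 2) := by
    refine intervalIntegral.integral_mono_on hac ?_ ?_ fun x hx => ?_
    · exact (continuous_const.mul (hg.norm.pow 2)).intervalIntegrable _ _
    · exact (continuous_const.mul hcont).intervalIntegrable _ _
    · have := pk_ge hx
      rw [← hw] at this
      rw [← mul_assoc]
      refine mul_le_mul_of_nonneg_right ?_ (by positivity)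
      linarith
  have h2 : ∫ x in a..c, 18 * (pk w x * ‖g x‖ ^ 2)
      = 18 * ∫ x in a..c, pk w x * ‖g x‖ ^ 2 := intervalIntegral.integral_const_mul _ _
  have h3 : ∫ x in a..c, pk w x * ‖g x‖ ^ 2 ≤ ∫ x in (0:ℝ)..1, pk w x * ‖g x‖ ^ 2 := by
    refine intervalIntegral.integral_mono_interval ha0 hac hc1 ?_ (hcont.intervalIntegrable _ _)
    exact Filter.Eventually.of_forall fun x => mul_nonneg (pk_nonneg hw1 x) (by positivity)
  linarith

theorem Hm_sq_le_of_zero (hg : Continuous g) (hL : ∀ x y, ‖g x - g y‖ ≤ L * ‖ex x - ex y‖)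
    (n : ℕ) (k : ℤ) (ρ y : ℝ) (hρ0 : 0 ≤ ρ) (hρ1 : 2⁻¹ ^ n / 4 ≤ 1 - ρ)
    (hρ2 : 1 - ρ ≤ 2⁻¹ ^ n) (hy : y ∈ Icc ((k:ℝ) * 2⁻¹ ^ n) (((k:ℝ) + 1) * 2⁻¹ ^ n))
    (h1 : ∫ u in (0:ℝ)..1, pk ((ρ : ℂ) * ex y) u = 1)
    (hz : ∫ u in (0:ℝ)..1, (pk ((ρ : ℂ) * ex y) u : ℂ) * g u = 0) :
    Hm g n k ^ 2 ≤
      1825 * ∫ x in ((k:ℝ) * 2⁻¹ ^ n)..(((k:ℝ) + 1) * 2⁻¹ ^ n), Phi g x := by
  have h0 : (0 : ℝ) < 2⁻¹ ^ n := by positivity
  set t : ℝ := 2⁻¹ ^ n with ht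
  have hw : ‖(ρ : ℂ) * ex y‖ = ρ := norm_centre _ _ hρ0
  have hpi := Real.pi_lt_d2
  have hpi0 := Real.pi_pos
  have hpt : ∀ x ∈ Icc ((k:ℝ) * t) (((k:ℝ) + 1) * t), ‖g x‖ ^ 2 ≤ 1825 * t * Phi g x := by
    intro x hx
    have h2 : ‖ex x - (ρ : ℂ) * ex y‖ ≤ (1 + 8 * Real.pi) * (1 - ‖(ρ : ℂ) * ex y‖) := by
      rw [hw]
      refine (norm_ex_sub_le _ _ _ (by linarith)).trans ?_
      have h3 : |x - y| ≤ t := by
        rw [abs_le]
        constructor <;> nlinarith [hx.1, hx.2, hy.1, hy.2]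
      have h4 : 2 * Real.pi * |x - y| ≤ 2 * Real.pi * t :=
        mul_le_mul_of_nonneg_left h3 (by positivity)
      nlinarith
    have h5 := (variance_le hg hL _ (by rw [hw]; linarith) 0 h1 hz x _ h2).2
    rw [sub_zero, hw] at h5
    refine h5.trans (mul_le_mul_of_nonneg_right ?_ (Phi_nonneg g x))
    have h6 : (1 + 8 * Real.pi + 1) ^ 2 ≤ 740 := by nlinarith
    have h7 : 1 - ρ ^ 2 ≤ 2 * t := by nlinarith
    calc (1 - ρ ^ 2) * (1 + 8 * Real.pi + 1) ^ 2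
        ≤ (2 * t) * 740 := mul_le_mul h7 h6 (by positivity) (by positivity)
      _ ≤ 1825 * t := by linarith
  refine (Hm_sq_le_int hg n k).trans ?_
  rw [← ht]
  have hab : (k:ℝ) * t ≤ ((k:ℝ) + 1) * t := mul_le_mul_of_nonneg_right (by linarith) h0.le
  have h8 : ∫ x in ((k:ℝ) * t)..(((k:ℝ) + 1) * t), ‖g x‖ ^ 2
      ≤ ∫ x in ((k:ℝ) * t)..(((k:ℝ) + 1) * t), 1825 * t * Phi g x := by
    refine intervalIntegral.integral_mono_on hab ?_ ?_ hpt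
    · exact (hg.norm.pow 2).intervalIntegrable _ _
    · exact (ii_Phi hg hL _ _).const_mul _
  rw [intervalIntegral.integral_const_mul] at h8
  calc t⁻¹ * ∫ x in ((k:ℝ) * t)..(((k:ℝ) + 1) * t), ‖g x‖ ^ 2
      ≤ t⁻¹ * (1825 * t * ∫ x in ((k:ℝ) * t)..(((k:ℝ) + 1) * t), Phi g x) :=
        mul_le_mul_of_nonneg_left h8 (by positivity)
    _ = _ := by field_simp

end

end Pool.Agent.Lib_helper81.Dir
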