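import Pool.Agent.Lib_helper81.Dir.Parseval
import Pool.Agent.Lib_helper81.Dir.Phi

/-!
Zero sets of the Dirichlet space: dilations of a function of the Dirichlet space.
-/

namespace Pool.Agent.Lib_helper81.Dir

open Complex Metric Set MeasureTheory Filter Topology

namespace Dil

variable {c : ℕ → ℂ}

lemma norm_le (hc : Summable (fun k : ℕ => ((k : ℝ) + 1) * ‖c k‖ ^ 2)) :
    ∃ B : ℝ, 0 ≤ B ∧ ∀ k, ‖c k‖ ≤ B := by
  refine ⟨1 + ∑' k : ℕ, ((k : ℝ) + 1) * ‖c k‖ ^ 2, ?_, fun k => ?_⟩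
  · have : 0 ≤ ∑' k : ℕ, ((k : ℝ) + 1) * ‖c k‖ ^ 2 := tsum_nonneg fun k => by positivity
    linarith
  · have h1 : ((k : ℝ) + 1) * ‖c k‖ ^ 2 ≤ ∑' k : ℕ, ((k : ℝ) + 1) * ‖c k‖ ^ 2 :=
      hc.le_tsum k fun j _ => by positivity
    have h2 : ‖c k‖ ^ 2 ≤ ((k : ℝ) + 1) * ‖c k‖ ^ 2 := by
      have : (0 : ℝ) ≤ k := by positivity
      nlinarith [sq_nonneg ‖c k‖]
    nlinarith [sq_nonneg (‖c k‖ - 1), norm_nonneg (c k)]

lemma summable_mul_pow (hc : Summable (fun k : ℕ => ((k : ℝ) + 1) * ‖c k‖ ^ 2)) {r : ℝ}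
    (hr0 : 0 ≤ r) (hr1 : r < 1) : Summable fun k : ℕ => ((k : ℝ) + 1) * ‖c k * (r : ℂ) ^ k‖ := by
  obtain ⟨B, hB0, hB⟩ := norm_le hc
  have h1 : Summable fun k : ℕ => (k : ℝ) ^ 1 * r ^ k :=
    summable_pow_mul_geometric_of_norm_lt_one 1 (by rwa [Real.norm_of_nonneg hr0])
  have h2 : Summable fun k : ℕ => r ^ k := summable_geometric_of_lt_one hr0 hr1
  refine Summable.of_nonneg_of_le (fun k => by positivity) (fun k => ?_)
    ((h1.add h2).mul_left B)
  rw [norm_mul, norm_pow, Complex.norm_real, Real.norm_of_nonneg hr0, pow_one]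
  have h3 : 0 ≤ ((k : ℝ) + 1) * r ^ k := by positivity
  calc ((k : ℝ) + 1) * (‖c k‖ * r ^ k) = ‖c k‖ * (((k : ℝ) + 1) * r ^ k) := by ring
    _ ≤ B * (((k : ℝ) + 1) * r ^ k) := mul_le_mul_of_nonneg_right (hB k) h3
    _ = _ := by ring

lemma differentiableOn_of (hc : Summable (fun k : ℕ => ((k : ℝ) + 1) * ‖c k‖ ^ 2)) (f : ℂ → ℂ)
    (hf : ∀ w ∈ ball (0 : ℂ) 1, HasSum (fun k : ℕ => c k * w ^ k) (f w)) :
    DifferentiableOn ℂ f (ball 0 1) := by
  have key : ∀ r : ℝ, 0 ≤ r → r < 1 → DifferentiableOn ℂ f (ball 0 r) := by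
    intro r hr0 hr1
    have h1 : Summable fun k : ℕ => ‖c k * (r : ℂ) ^ k‖ := by
      refine Summable.of_nonneg_of_le (fun k => norm_nonneg _) (fun k => ?_)
        (summable_mul_pow hc hr0 hr1)
      have : (0 : ℝ) ≤ (k : ℝ) * ‖c k * (r : ℂ) ^ k‖ := by positivity
      linarith
    have h2 : DifferentiableOn ℂ (fun w => ∑' k : ℕ, c k * w ^ k) (ball 0 r) := by
      refine differentiableOn_tsum_of_summable_norm h1 (fun k => ?_) isOpen_ball
        (fun k w hw => ?_)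
      · exact (differentiable_const _).mul (differentiable_id.pow k) |>.differentiableOn
      · rw [norm_mul, norm_mul, norm_pow, norm_pow, Complex.norm_real, Real.norm_of_nonneg hr0]
        have hw' : ‖w‖ ≤ r := by
          have := mem_ball_zero_iff.1 hw
          linarith
        exact mul_le_mul_of_nonneg_left (pow_le_pow_left₀ (norm_nonneg _) hw' k) (norm_nonneg _)
    refine h2.congr fun w hw => ?_
    have hw' : w ∈ ball (0 : ℂ) 1 := ball_subset_ball hr1.le hw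
    exact (hf w hw').tsum_eq.symm
  intro w hw
  have hw' : ‖w‖ < 1 := by simpa using hw
  have h1 := key ((1 + ‖w‖) / 2) (by positivity) (by linarith)
  have h2 : w ∈ ball (0 : ℂ) ((1 + ‖w‖) / 2) := by
    rw [mem_ball_zero_iff]; linarith
  exact (h1.differentiableAt (isOpen_ball.mem_nhds h2)).differentiableWithinAt

end Dil

/-- Dilations of a function of the Dirichlet space. -/
theorem dilate (f : ℂ → ℂ) (c : ℕ → ℂ) (hc : Summable (fun k : ℕ => ((k : ℝ) + 1) * ‖c k‖ ^ 2))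
    (hf : ∀ w ∈ ball (0 : ℂ) 1, HasSum (fun k : ℕ => c k * w ^ k) (f w)) (r : ℝ) (hr0 : 0 < r)
    (hr1 : r < 1) :
    (DifferentiableOn ℂ f (ball 0 1)) ∧
    AnalyticOnNhd ℂ (fun u : ℂ => f (r * u)) (closedBall 0 1) ∧
    Continuous (fun x => f (r * ex x)) ∧
    (∃ L, ∀ x y, ‖f (r * ex x) - f (r * ex y)‖ ≤ L * ‖ex x - ex y‖) ∧
    (∫ x in (0:ℝ)..1, Phi (fun x => f (r * ex x)) x) ≤ ∑' k : ℕ, ((k : ℝ) + 1) * ‖c k‖ ^ 2 ∧
    (∫ x in (0:ℝ)..1, ‖f (r * ex x)‖ ^ 2) ≤ ∑' k : ℕ, ((k : ℝ) + 1) * ‖c k‖ ^ 2 := by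
  have hd := Dil.differentiableOn_of hc f hf
  have ha := Dil.summable_mul_pow hc hr0.le hr1
  have ha1 : Summable fun k : ℕ => ‖c k * (r : ℂ) ^ k‖ := by
    refine Summable.of_nonneg_of_le (fun k => norm_nonneg _) (fun k => ?_) ha
    have : (0 : ℝ) ≤ (k : ℝ) * ‖c k * (r : ℂ) ^ k‖ := by positivity
    linarith
  have hmem : ∀ x : ℝ, (r : ℂ) * ex x ∈ ball (0 : ℂ) 1 := by
    intro x
    rw [mem_ball_zero_iff, norm_mul, Complex.norm_real, Real.norm_of_nonneg hr0.le]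
    have : ‖ex x‖ = 1 := by
      unfold ex; exact Complex.norm_exp_ofReal_mul_I _
    rw [this, mul_one]
    exact hr1
  have heq : ∀ x : ℝ, f (r * ex x) = ∑' k, c k * (r : ℂ) ^ k * ex x ^ k := by
    intro x
    rw [← (hf _ (hmem x)).tsum_eq]
    congr 1
    ext k
    rw [mul_pow]
    ring
  have hfun : (fun x : ℝ => f (r * ex x)) = fun x => ∑' k, c k * (r : ℂ) ^ k * ex x ^ k :=
    funext heq
  have hle : ∀ k : ℕ, ‖c k * (r : ℂ) ^ k‖ ^ 2 ≤ ‖c k‖ ^ 2 := by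
    intro k
    rw [norm_mul, norm_pow, Complex.norm_real, Real.norm_of_nonneg hr0.le]
    have h1 : r ^ k ≤ 1 := pow_le_one₀ hr0.le hr1.le
    have h2 : 0 ≤ r ^ k := by positivity
    exact pow_le_pow_left₀ (by positivity) (mul_le_of_le_one_right (norm_nonneg _) h1) 2
  refine ⟨hd, ?_, ?_, ?_, ?_, ?_⟩
  · intro u hu
    have hu' : ‖u‖ ≤ 1 := by simpa using hu
    have h1 : (r : ℂ) * u ∈ ball (0 : ℂ) 1 := by
      rw [mem_ball_zero_iff, norm_mul, Complex.norm_real, Real.norm_of_nonneg hr0.le]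
      nlinarith [norm_nonneg u]
    have h2 : AnalyticAt ℂ f ((r : ℂ) * u) := hd.analyticAt (isOpen_ball.mem_nhds h1)
    have h3 : AnalyticAt ℂ (fun u : ℂ => (r : ℂ) * u) u := analyticAt_const.mul analyticAt_id
    exact h2.fun_comp h3
  · rw [hfun]
    exact continuous_bd _ ha1
  · refine ⟨∑' k : ℕ, (k : ℝ) * ‖c k * (r : ℂ) ^ k‖, fun x y => ?_⟩
    rw [heq, heq]
    exact lipschitz_bd _ ha x y
  · have h1 := douglas (fun k => c k * (r : ℂ) ^ k) ha
    rw [hfun]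
    refine le_trans h1 ?_
    have h2 : Summable fun k : ℕ => (k : ℝ) * ‖c k * (r : ℂ) ^ k‖ ^ 2 := by
      refine Summable.of_nonneg_of_le (fun k => by positivity) (fun k => ?_) hc
      have := hle k
      have h3 : (0 : ℝ) ≤ k := by positivity
      nlinarith [sq_nonneg ‖c k‖]
    refine h2.tsum_le_tsum (fun k => ?_) hc
    have := hle k
    have h3 : (0 : ℝ) ≤ k := by positivity
    nlinarith [sq_nonneg ‖c k‖]
  · have h1 := parseval (fun k => c k * (r : ℂ) ^ k) ha1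
    simp_rw [heq]
    rw [h1]
    have h2 : Summable fun k : ℕ => ‖c k * (r : ℂ) ^ k‖ ^ 2 := by
      refine Summable.of_nonneg_of_le (fun k => by positivity) (fun k => ?_) hc
      have := hle k
      have h3 : (0 : ℝ) ≤ k := by positivity
      nlinarith [sq_nonneg ‖c k‖]
    refine h2.tsum_le_tsum (fun k => ?_) hc
    have := hle k
    have h3 : (0 : ℝ) ≤ k := by positivity
    nlinarith [sq_nonneg ‖c k‖]

end Pool.Agent.Lib_helper81.Dir
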