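import Pool.Agent.Lib_helper81.Dir.Fd

/-!
Zero sets of the Dirichlet space: the energy of the function of depth `D`.
-/

namespace Pool.Agent.Lib_helper81.Dir

open Complex Metric Set MeasureTheory

variable {ι : Type*} {κ : ℝ}

lemma psi_nonneg (hκ : 0 < κ) (m : ℕ → ℤ → ℕ) (D n : ℕ) (k : ℤ) : 0 ≤ psi κ m D n k :=
  mul_nonneg (dens_nonneg hκ D n k) (Real.exp_pos _).le

lemma wt_periodic {m : ℕ → ℤ → ℕ} (hm : ∀ n k, m n (k + 2 ^ n) = m n k) (D n : ℕ) (k : ℤ) :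
    wt κ m D n (k + 2 ^ n) = wt κ m D n k := by
  rw [wt, wt, pair_periodic hm, hm]

lemma ediv_add_pow (n p : ℕ) (hp : p ≤ n) (k : ℤ) :
    (k + 2 ^ n) / 2 ^ (n - p) = k / 2 ^ (n - p) + 2 ^ p := by
  have h1 : (2 : ℤ) ^ n = 2 ^ p * 2 ^ (n - p) := by rw [← pow_add]; congr 1; omega
  rw [h1]
  exact Int.add_mul_ediv_right k (2 ^ p) (by positivity)

lemma lam_periodic {m : ℕ → ℤ → ℕ} (hm : ∀ n k, m n (k + 2 ^ n) = m n k) (D n : ℕ) (k : ℤ) :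
    lam κ m D n (k + 2 ^ n) = lam κ m D n k := by
  rw [lam, lam]
  refine Finset.sum_congr rfl fun p hp => ?_
  have hp' : p ≤ n := Nat.lt_succ_iff.1 (Finset.mem_range.1 hp)
  rw [ediv_add_pow n p hp', pair_periodic hm]

lemma psi_periodic {m : ℕ → ℤ → ℕ} (hm : ∀ n k, m n (k + 2 ^ n) = m n k) (D n : ℕ) (k : ℤ) :
    psi κ m D n (k + 2 ^ n) = psi κ m D n k := by
  rw [psi, psi, lam_periodic hm, dens, dens, ts_periodic (fun n k => wt_periodic hm D n k)]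

lemma psi_eq_zero (κ : ℝ) (m : ℕ → ℤ → ℕ) {D n : ℕ} (h : D ≤ n) (k : ℤ) : psi κ m D n k = 0 := by
  have : D - n = 0 := by omega
  rw [psi, dens, this]
  simp [ts]

/-- The constant of the energy bound. -/
lemma dens_zero_le (hκ : 0 < κ) (hκ1 : κ ≤ 2 / 5) {m : ℕ → ℤ → ℕ}
    (hm : ∀ n k, m n (k + 2 ^ n) = m n k) {C : ℝ} (hC : ∀ d, (pair κ m d 0 0).2 ≤ C) (D : ℕ)
    (k : ℤ) : dens κ m D 0 k ≤ 4 + 6 * C := by
  have h0 : dens κ m D 0 k = dens κ m D 0 0 := by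
    rw [dens, dens]
    have := periodic_int (F := fun n k => ts (wt κ m D) (D - n) n k)
      (fun n k => ts_periodic (fun n k => wt_periodic hm D n k) (D - n) n k) 0 0 k
    simp only [pow_zero, mul_one, zero_add, Nat.sub_zero] at this ⊢
    rw [this]
  rw [h0, dens]
  have h1 := ts_wt_le (m := m) hκ hκ1 D D 0 0 (by omega)
  have h2 := pair_fst_le_one (m := m) hκ D 0 0
  have h3 := hC D
  simp only [Nat.sub_zero, pow_zero, mul_one] at h1 ⊢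
  linarith

lemma sum_psi_sq_le (hκ : 0 < κ) (hκ1 : κ ≤ 2 / 5) {m : ℕ → ℤ → ℕ}
    (hm : ∀ n k, m n (k + 2 ^ n) = m n k) {C : ℝ} (hC : ∀ d, (pair κ m d 0 0).2 ≤ C)
    (D N : ℕ) :
    ∑ n ∈ Finset.range N, ∑ k ∈ Finset.range (2 ^ n), psi κ m D n k ^ 2 ≤
      8 * (4 + 12 / κ + 6 * C) ^ 2 := by
  have hC0 : 0 ≤ C := le_trans (pair_snd_nonneg hκ 0 0 0) (hC 0)
  have h1 : ∑ n ∈ Finset.range N, ∑ k ∈ Finset.range (2 ^ n), psi κ m D n k ^ 2 ≤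
      ∑ n ∈ Finset.range D, ∑ k ∈ Finset.range (2 ^ n), psi κ m D n k ^ 2 := by
    have h2 : ∀ n ∉ Finset.range D, ∑ k ∈ Finset.range (2 ^ n), psi κ m D n k ^ 2 = 0 := by
      intro n hn
      refine Finset.sum_eq_zero fun k _ => ?_
      rw [psi_eq_zero κ m (by simpa using hn), zero_pow two_ne_zero]
    rcases le_total N D with h | h
    · exact Finset.sum_le_sum_of_subset_of_nonneg (Finset.range_mono h)
        fun n _ _ => Finset.sum_nonneg fun k _ => sq_nonneg _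
    · rw [← Finset.sum_subset (Finset.range_mono h) fun n _ hn => h2 n hn]
  refine h1.trans ?_
  have h3 := ts_psi_sq_le (m := m) hκ hκ1 D (4 + 12 / κ + 6 * C) (by linarith)
    (fun k => (dens_zero_le hκ hκ1 hm hC D k).trans (by
      have : 0 ≤ 12 / κ := by positivity
      linarith))
  rw [ts_eq] at h3
  simpa using h3

/-- **The energy of the function of depth `D`.** -/
theorem energy_fd_le (hκ : 0 < κ) (hκ1 : κ ≤ 2 / 5) (z : ι → ℂ) (hz : ∀ i, ‖z i‖ < 1)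
    (hfin : ∀ (n : ℕ) (k : ℤ), {i | z i ∈ box n k}.Finite) {C : ℝ}
    (hC : ∀ d, (pair κ (cnt z) d 0 0).2 ≤ C) (D N : ℕ) :
    ∑ n ∈ Finset.range N, (2⁻¹ : ℝ) ^ n *
      ∫ x in (0 : ℝ)..1, ‖deriv (fd κ z hfin D) ((1 - (2⁻¹ : ℝ) ^ n : ℝ) * ex x)‖ ^ 2 ≤
      4608 ^ 2 * (108 * (8 * (4 + 12 / κ + 6 * C) ^ 2)) := by
  have hm := cnt_periodic z
  set S : ℕ → ℤ → ℝ := fun n k => ∑ j ∈ Finset.range (n + 1), (2⁻¹ : ℝ) ^ j *
        (psi κ (cnt z) D (n - j) (k / 2 ^ j - 1) + psi κ (cnt z) D (n - j) (k / 2 ^ j) +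
          psi κ (cnt z) D (n - j) (k / 2 ^ j + 1)) with hS
  have hS0 : ∀ n k, 0 ≤ S n k := by
    intro n k
    rw [hS]
    refine Finset.sum_nonneg fun j _ => ?_
    have a1 := psi_nonneg hκ (cnt z) D (n - j) (k / 2 ^ j - 1)
    have a2 := psi_nonneg hκ (cnt z) D (n - j) (k / 2 ^ j)
    have a3 := psi_nonneg hκ (cnt z) D (n - j) (k / 2 ^ j + 1)
    positivity
  have hcont : ∀ n : ℕ, Continuous fun x : ℝ =>
      ‖deriv (fd κ z hfin D) ((1 - (2⁻¹ : ℝ) ^ n : ℝ) * ex x)‖ ^ 2 := by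
    intro n
    have h1 : ContinuousOn (deriv (fd κ z hfin D)) (ball 0 1) :=
      ((differentiableOn_fd z hz hfin D).deriv isOpen_ball).continuousOn
    have h2 : Continuous fun x : ℝ => ((1 - (2⁻¹ : ℝ) ^ n : ℝ) : ℂ) * ex x :=
      continuous_const.mul continuous_ex
    refine (h1.comp_continuous h2 fun x => ?_).norm.pow 2
    have hn0 := pow_half_pos n
    have hn1 := pow_half_le_one n
    rw [mem_ball_zero_iff, norm_mul, norm_ex, mul_one, Complex.norm_real,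
      Real.norm_of_nonneg (by linarith)]
    linarith
  have hone : ∀ n : ℕ, (2⁻¹ : ℝ) ^ n *
      ∫ x in (0 : ℝ)..1, ‖deriv (fd κ z hfin D) ((1 - (2⁻¹ : ℝ) ^ n : ℝ) * ex x)‖ ^ 2 ≤
      4608 ^ 2 * ∑ k ∈ Finset.range (2 ^ n), S n k ^ 2 := by
    intro n
    have hp : (2 : ℝ) ^ n * 2⁻¹ ^ n = 1 := by rw [← mul_pow]; norm_num
    have hn0 := pow_half_pos n
    have hsplit := intervalIntegral.sum_integral_adjacent_intervals (μ := volume)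
      (a := fun k : ℕ => (k : ℝ) * 2⁻¹ ^ n) (n := 2 ^ n)
      (f := fun x : ℝ => ‖deriv (fd κ z hfin D) ((1 - (2⁻¹ : ℝ) ^ n : ℝ) * ex x)‖ ^ 2)
      (fun k _ => (hcont n).intervalIntegrable _ _)
    have e0 : ((0 : ℕ) : ℝ) * 2⁻¹ ^ n = 0 := by simp
    have e1 : (((2 ^ n : ℕ) : ℕ) : ℝ) * 2⁻¹ ^ n = 1 := by push_cast; exact hp
    rw [e0, e1] at hsplit
    rw [← hsplit, Finset.mul_sum, Finset.mul_sum]
    refine Finset.sum_le_sum fun k _ => ?_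
    have hle : (k : ℝ) * 2⁻¹ ^ n ≤ ((k + 1 : ℕ) : ℝ) * 2⁻¹ ^ n := by
      push_cast; nlinarith
    have hmono : ∫ x in ((k : ℝ) * 2⁻¹ ^ n)..(((k + 1 : ℕ) : ℝ) * 2⁻¹ ^ n),
        ‖deriv (fd κ z hfin D) ((1 - (2⁻¹ : ℝ) ^ n : ℝ) * ex x)‖ ^ 2 ≤
        ∫ _x in ((k : ℝ) * 2⁻¹ ^ n)..(((k + 1 : ℕ) : ℝ) * 2⁻¹ ^ n),
          (4608 * 2 ^ n * S n k) ^ 2 := by
      refine intervalIntegral.integral_mono_on_of_le_Ioo hle
        ((hcont n).intervalIntegrable _ _) (continuous_const.intervalIntegrable _ _) ?_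
      intro x hx
      refine pow_le_pow_left₀ (norm_nonneg _) ?_ 2
      exact norm_deriv_fd_le hκ z hz hfin D n k x (by exact_mod_cast hx.1.le)
        (by exact_mod_cast hx.2)
    rw [intervalIntegral.integral_const, smul_eq_mul] at hmono
    have e2 : ((k + 1 : ℕ) : ℝ) * 2⁻¹ ^ n - (k : ℝ) * 2⁻¹ ^ n = 2⁻¹ ^ n := by push_cast; ring
    rw [e2] at hmono
    calc (2⁻¹ : ℝ) ^ n * ∫ x in ((k : ℝ) * 2⁻¹ ^ n)..(((k + 1 : ℕ) : ℝ) * 2⁻¹ ^ n),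
        ‖deriv (fd κ z hfin D) ((1 - (2⁻¹ : ℝ) ^ n : ℝ) * ex x)‖ ^ 2
        ≤ (2⁻¹ : ℝ) ^ n * (2⁻¹ ^ n * (4608 * 2 ^ n * S n k) ^ 2) :=
          mul_le_mul_of_nonneg_left hmono hn0.le
      _ = ((2 : ℝ) ^ n * 2⁻¹ ^ n) ^ 2 * (4608 ^ 2 * S n k ^ 2) := by ring
      _ = 4608 ^ 2 * S n k ^ 2 := by rw [hp]; ring
  calc ∑ n ∈ Finset.range N, (2⁻¹ : ℝ) ^ n *
      ∫ x in (0 : ℝ)..1, ‖deriv (fd κ z hfin D) ((1 - (2⁻¹ : ℝ) ^ n : ℝ) * ex x)‖ ^ 2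
      ≤ ∑ n ∈ Finset.range N, 4608 ^ 2 * ∑ k ∈ Finset.range (2 ^ n), S n k ^ 2 :=
        Finset.sum_le_sum fun n _ => hone n
    _ = 4608 ^ 2 * ∑ n ∈ Finset.range N, ∑ k ∈ Finset.range (2 ^ n), S n k ^ 2 := by
        rw [Finset.mul_sum]
    _ ≤ 4608 ^ 2 * (108 * ∑ n ∈ Finset.range N, ∑ k ∈ Finset.range (2 ^ n),
          psi κ (cnt z) D n k ^ 2) := by
        apply mul_le_mul_of_nonneg_left _ (by norm_num)
        exact neighbour_sum (fun n k => psi κ (cnt z) D n k)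
          (fun n k => psi_nonneg hκ (cnt z) D n k) (fun n k => psi_periodic hm D n k) N
    _ ≤ _ := by
        apply mul_le_mul_of_nonneg_left _ (by norm_num)
        apply mul_le_mul_of_nonneg_left _ (by norm_num)
        exact sum_psi_sq_le hκ hκ1 hm hC D N

end Pool.Agent.Lib_helper81.Dir
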