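import Pool.Agent.Lib_helper81.Dir.Kern
import Pool.Agent.Lib_helper81.Dir.Cover
import Pool.Agent.Lib_helper81.Dir.Blaschke

/-!
Zero sets of the Dirichlet space: the functions attached to the truncated trees.
-/

namespace Pool.Agent.Lib_helper81.Dir

open Complex Metric Set

variable {ι : Type*} {κ : ℝ}

/-- The exponent `G` of depth `D`. -/
noncomputable def Gd (κ : ℝ) (m : ℕ → ℤ → ℕ) (D : ℕ) (w : ℂ) : ℂ :=
  ∑ p ∈ Finset.range D, ∑ q ∈ Finset.range (2 ^ p),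
    ((576 * (pair κ m (D - p) p q).1 : ℝ) : ℂ) * kern p q w

lemma Gd_re (κ : ℝ) (m : ℕ → ℤ → ℕ) (D : ℕ) (w : ℂ) : (Gd κ m D w).re =
    ∑ p ∈ Finset.range D, ∑ q ∈ Finset.range (2 ^ p),
      576 * (pair κ m (D - p) p q).1 * (kern p q w).re := by
  simp only [Gd, Complex.re_sum, Complex.re_ofReal_mul]

lemma Gd_re_nonneg (hκ : 0 < κ) (m : ℕ → ℤ → ℕ) (D : ℕ) {w : ℂ} (hw : ‖w‖ < 1) :
    0 ≤ (Gd κ m D w).re := by
  rw [Gd_re]
  refine Finset.sum_nonneg fun p _ => Finset.sum_nonneg fun q _ => ?_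
  have h1 := pair_fst_nonneg (m := m) hκ (D - p) p q
  have h2 := kern_re_nonneg p q hw
  positivity

lemma hasDerivAt_Gd (κ : ℝ) (m : ℕ → ℤ → ℕ) (D : ℕ) {w : ℂ} (hw : ‖w‖ < 1) :
    HasDerivAt (Gd κ m D) (∑ p ∈ Finset.range D, ∑ q ∈ Finset.range (2 ^ p),
      ((576 * (pair κ m (D - p) p q).1 : ℝ) : ℂ) * deriv (kern p q) w) w := by
  unfold Gd
  refine HasDerivAt.fun_sum fun p _ => HasDerivAt.fun_sum fun q _ => ?_
  exact (differentiableAt_kern p q hw).hasDerivAt.const_mul _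

/-- A natural representative. -/
lemma exists_rep (p : ℕ) (q : ℤ) : ∃ q' : ℕ, q' < 2 ^ p ∧ ∃ N : ℤ, q = q' + N * 2 ^ p := by
  have hpos : (0 : ℤ) < 2 ^ p := by positivity
  refine ⟨(q % 2 ^ p).toNat, ?_, q / 2 ^ p, ?_⟩
  · have h1 := Int.emod_lt_of_pos q hpos
    have h0 := Int.emod_nonneg q hpos.ne'
    zify
    rw [Int.toNat_of_nonneg h0]
    exact h1
  · have h0 := Int.emod_nonneg q hpos.ne'
    rw [Int.toNat_of_nonneg h0]
    have := Int.emod_add_mul_ediv q (2 ^ p)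
    linarith

lemma periodic_int {α : Type*} {F : ℕ → ℤ → α} (hF : ∀ n k, F n (k + 2 ^ n) = F n k) (p : ℕ)
    (q N : ℤ) : F p (q + N * 2 ^ p) = F p q := by
  induction N using Int.induction_on with
  | zero => simp
  | succ i ih =>
    have : q + ((i : ℤ) + 1) * 2 ^ p = (q + i * 2 ^ p) + 2 ^ p := by ring
    rw [this, hF, ih]
  | pred i ih =>
    have : q + (-(i : ℤ)) * 2 ^ p = (q + (-(i : ℤ) - 1) * 2 ^ p) + 2 ^ p := by ring
    rw [← ih, this, hF]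

/-- Lower bound for the real part near the arc. -/
lemma Gd_re_ge (hκ : 0 < κ) (m : ℕ → ℤ → ℕ) (hm : ∀ n k, m n (k + 2 ^ n) = m n k) (D n j : ℕ)
    (k : ℤ) (x : ℝ) (hj : j ≤ n) (h1 : (k : ℝ) * 2⁻¹ ^ n ≤ x)
    (h2 : x < ((k : ℝ) + 1) * 2⁻¹ ^ n) (s : ℤ) (hs : s = -1 ∨ s = 0 ∨ s = 1) :
    4 * lam κ m D (n - j) (k / 2 ^ j + s) ≤
      (Gd κ m D (((1 - 2⁻¹ ^ n : ℝ) : ℂ) * ex x)).re := by
  set z : ℂ := ((1 - 2⁻¹ ^ n : ℝ) : ℂ) * ex x with hz
  have hn0 := pow_half_pos n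
  have hn1 := pow_half_le_one n
  have hz1 : ‖z‖ < 1 := by
    rw [hz, norm_mul, norm_ex, mul_one, Complex.norm_real, Real.norm_of_nonneg (by linarith)]
    linarith
  rw [Gd_re]
  set n' := n - j with hn'
  set k1 : ℤ := k / 2 ^ j + s with hk1
  -- termwise
  have hterm : ∀ p ∈ Finset.range (n' + 1), 4 * (pair κ m (D - p) p (k1 / 2 ^ (n' - p))).1 ≤
      if p < D then ∑ q ∈ Finset.range (2 ^ p),
        576 * (pair κ m (D - p) p q).1 * (kern p q z).re else 0 := by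
    intro p hp
    have hp' : p ≤ n' := Nat.lt_succ_iff.1 (Finset.mem_range.1 hp)
    split_ifs with hpD
    · obtain ⟨q', hq', N, hN⟩ := exists_rep p (k1 / 2 ^ (n' - p))
      have e1 : (pair κ m (D - p) p (k1 / 2 ^ (n' - p))).1 = (pair κ m (D - p) p q').1 := by
        rw [hN]
        exact congrArg Prod.fst (periodic_int (F := fun n k => pair κ m (D - p) n k)
          (fun n k => pair_periodic hm (D - p) n k) p q' N)
      have e2 : kern p (k1 / 2 ^ (n' - p)) z = kern p q' z := by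
        rw [hN]
        exact periodic_int (F := fun n k => kern n k z) (fun n k => kern_periodic n k z) p q' N
      have hge : 1 / 144 ≤ (kern p (k1 / 2 ^ (n' - p)) z).re := by
        apply kern_re_ge p _ n (by omega) x 0
        obtain ⟨c1, c2⟩ := coarse_mem n j k x hj h1 h2
        rw [← hn'] at c1 c2
        set A : ℤ := k / 2 ^ j with hA
        set Q : ℤ := k1 / 2 ^ (n' - p) with hQ
        have hzp : (0 : ℤ) < 2 ^ (n' - p) := by positivity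
        have a1 : 2 ^ (n' - p) * Q ≤ k1 := Int.mul_ediv_self_le hzp.ne'
        have a2 : k1 + 1 ≤ 2 ^ (n' - p) * Q + 2 ^ (n' - p) := Int.lt_mul_ediv_self_add hzp
        have b1 : (2 : ℝ) ^ (n' - p) * (Q : ℝ) ≤ (k1 : ℝ) := by exact_mod_cast a1
        have b2 : (k1 : ℝ) + 1 ≤ 2 ^ (n' - p) * (Q : ℝ) + 2 ^ (n' - p) := by exact_mod_cast a2
        have hs' : (-1 : ℝ) ≤ s ∧ (s : ℝ) ≤ 1 := by
          rcases hs with h | h | h <;> rw [h] <;> norm_num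
        have hk1' : (k1 : ℝ) = A + s := by rw [hk1]; push_cast; ring
        have hpn : (2⁻¹ : ℝ) ^ n' = 2⁻¹ ^ p * 2⁻¹ ^ (n' - p) := by
          rw [← pow_add]; congr 1; omega
        have hcan : (2 : ℝ) ^ (n' - p) * 2⁻¹ ^ (n' - p) = 1 := by rw [← mul_pow]; norm_num
        have hpp := pow_half_pos p
        have hnp := pow_half_pos n'
        have hle : (2⁻¹ : ℝ) ^ n' ≤ 2⁻¹ ^ p :=
          pow_le_pow_of_le_one (by norm_num) (by norm_num) hp'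
        have b3 : (Q : ℝ) * 2⁻¹ ^ p ≤ k1 * 2⁻¹ ^ n' := by
          have := mul_le_mul_of_nonneg_right b1 hnp.le
          calc (Q : ℝ) * 2⁻¹ ^ p = 2 ^ (n' - p) * (Q : ℝ) * 2⁻¹ ^ n' := by
                rw [hpn]; linear_combination -(Q : ℝ) * 2⁻¹ ^ p * hcan
            _ ≤ _ := this
        have b4 : ((k1 : ℝ) + 1) * 2⁻¹ ^ n' ≤ ((Q : ℝ) + 1) * 2⁻¹ ^ p := by
          have := mul_le_mul_of_nonneg_right b2 hnp.le
          calc ((k1 : ℝ) + 1) * 2⁻¹ ^ n' ≤ (2 ^ (n' - p) * (Q : ℝ) + 2 ^ (n' - p)) * 2⁻¹ ^ n' :=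
                this
            _ = _ := by rw [hpn]; linear_combination ((Q : ℝ) + 1) * 2⁻¹ ^ p * hcan
        have hA1 : (A : ℝ) * 2⁻¹ ^ n' = k1 * 2⁻¹ ^ n' - s * 2⁻¹ ^ n' := by rw [hk1']; ring
        have hA2 : ((A : ℝ) + 1) * 2⁻¹ ^ n' = (k1 + 1) * 2⁻¹ ^ n' - s * 2⁻¹ ^ n' := by
          rw [hk1']; ring
        have s1 : (s : ℝ) * 2⁻¹ ^ n' ≤ 2⁻¹ ^ p := by nlinarith
        have s2 : -(2⁻¹ : ℝ) ^ p ≤ (s : ℝ) * 2⁻¹ ^ n' := by nlinarith
        rw [Int.cast_zero, sub_zero, abs_le]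
        constructor <;> nlinarith
      have ht := pair_fst_nonneg (m := m) hκ (D - p) p (k1 / 2 ^ (n' - p))
      have hsingle : 576 * (pair κ m (D - p) p q').1 * (kern p q' z).re ≤
          ∑ q ∈ Finset.range (2 ^ p), 576 * (pair κ m (D - p) p q).1 * (kern p q z).re := by
        apply Finset.single_le_sum (f := fun q : ℕ =>
          576 * (pair κ m (D - p) p q).1 * (kern p q z).re) _ (Finset.mem_range.2 hq')
        intro q _
        have u1 := pair_fst_nonneg (m := m) hκ (D - p) p q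
        have u2 := kern_re_nonneg p q hz1
        positivity
      refine le_trans ?_ hsingle
      rw [← e1, ← e2]
      nlinarith
    · have : D - p = 0 := by omega
      rw [this]
      simp [pair]
  have h3 : 4 * lam κ m D n' k1 ≤ ∑ p ∈ Finset.range (n' + 1),
      if p < D then ∑ q ∈ Finset.range (2 ^ p),
        576 * (pair κ m (D - p) p q).1 * (kern p q z).re else 0 := by
    rw [lam, Finset.mul_sum]
    exact Finset.sum_le_sum hterm
  refine h3.trans ?_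
  rw [← Finset.sum_filter]
  apply Finset.sum_le_sum_of_subset_of_nonneg
  · intro p hp
    exact Finset.mem_range.2 (Finset.mem_filter.1 hp).2
  · intro p _ _
    refine Finset.sum_nonneg fun q _ => ?_
    have u1 := pair_fst_nonneg (m := m) hκ (D - p) p q
    have u2 := kern_re_nonneg p q hz1
    positivity

lemma sum_biUnion_le {α : Type*} [DecidableEq ι] (s : Finset α) (t : α → Finset ι) (F : ι → ℝ)
    (hF : ∀ i, 0 ≤ F i) : ∑ i ∈ s.biUnion t, F i ≤ ∑ a ∈ s, ∑ i ∈ t a, F i := by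
  classical
  induction s using Finset.induction_on with
  | empty => simp
  | insert a s ha ih =>
    rw [Finset.biUnion_insert, Finset.sum_insert ha]
    have h1 := Finset.sum_union_inter (s₁ := t a) (s₂ := s.biUnion t) (f := F)
    have h2 : 0 ≤ ∑ i ∈ t a ∩ s.biUnion t, F i := Finset.sum_nonneg fun i _ => hF i
    linarith

open Classical in
/-- The indices of the points in the boxes of the generations below `D`. -/
noncomputable def Sd (z : ι → ℂ) (hfin : ∀ (n : ℕ) (k : ℤ), {i | z i ∈ box n k}.Finite) (D : ℕ) :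
    Finset ι :=
  (Finset.range D).biUnion fun p => (Finset.range (2 ^ p)).biUnion fun q : ℕ =>
    (hfin p q).toFinset

lemma mem_Sd {z : ι → ℂ} {hfin : ∀ (n : ℕ) (k : ℤ), {i | z i ∈ box n k}.Finite} {D : ℕ} {i : ι} :
    i ∈ Sd z hfin D ↔ ∃ p < D, ∃ q : ℕ, q < 2 ^ p ∧ z i ∈ box p q := by
  simp [Sd]

lemma cnt_eq (z : ι → ℂ) (hfin : ∀ (n : ℕ) (k : ℤ), {i | z i ∈ box n k}.Finite) (n : ℕ) (k : ℤ) :
    cnt z n k = (hfin n k).toFinset.card := by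
  rw [cnt, ← Nat.card_eq_card_finite_toFinset]
  rfl

lemma sum_Sd_le (z : ι → ℂ) (hfin : ∀ (n : ℕ) (k : ℤ), {i | z i ∈ box n k}.Finite) (D : ℕ)
    (F : ι → ℝ) (hF : ∀ i, 0 ≤ F i) (b : ℕ → ℕ → ℝ)
    (hb : ∀ p < D, ∀ q : ℕ, q < 2 ^ p → ∀ i, z i ∈ box p q → F i ≤ b p q) :
    ∑ i ∈ Sd z hfin D, F i ≤
      ∑ p ∈ Finset.range D, ∑ q ∈ Finset.range (2 ^ p), (cnt z p q : ℝ) * b p q := by
  classical
  unfold Sd
  refine (sum_biUnion_le _ _ F hF).trans (Finset.sum_le_sum fun p hp => ?_)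
  refine (sum_biUnion_le _ _ F hF).trans (Finset.sum_le_sum fun q hq => ?_)
  rw [cnt_eq z hfin, ← nsmul_eq_mul]
  apply Finset.sum_le_card_nsmul
  intro i hi
  exact hb p (Finset.mem_range.1 hp) q (Finset.mem_range.1 hq) i (by simpa using hi)

/-- The function of depth `D`. -/
noncomputable def fd (κ : ℝ) (z : ι → ℂ)
    (hfin : ∀ (n : ℕ) (k : ℤ), {i | z i ∈ box n k}.Finite) (D : ℕ) (w : ℂ) : ℂ :=
  (∏ i ∈ Sd z hfin D, bl (z i) w) * Complex.exp (-Gd κ (cnt z) D w)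

lemma norm_exp_neg_Gd_le (hκ : 0 < κ) (m : ℕ → ℤ → ℕ) (D : ℕ) {w : ℂ} (hw : ‖w‖ < 1) :
    ‖Complex.exp (-Gd κ m D w)‖ ≤ 1 := by
  rw [Complex.norm_exp, Complex.neg_re]
  have := Gd_re_nonneg hκ m D hw
  exact Real.exp_le_one_iff.2 (by linarith)

lemma norm_fd_le (hκ : 0 < κ) (z : ι → ℂ) (hz : ∀ i, ‖z i‖ < 1)
    (hfin : ∀ (n : ℕ) (k : ℤ), {i | z i ∈ box n k}.Finite) (D : ℕ) {w : ℂ} (hw : ‖w‖ < 1) :
    ‖fd κ z hfin D w‖ ≤ 1 := by
  rw [fd, norm_mul]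
  exact mul_le_one₀ (norm_prod_bl_le_one z hz _ (by simpa using hw)) (norm_nonneg _)
    (norm_exp_neg_Gd_le hκ _ D hw)

lemma differentiableAt_prod_bl (z : ι → ℂ) (hz : ∀ i, ‖z i‖ < 1) (s : Finset ι) {w : ℂ}
    (hw : ‖w‖ < 1) : DifferentiableAt ℂ (fun w => ∏ i ∈ s, bl (z i) w) w := by
  refine DifferentiableAt.fun_finsetProd fun i _ => differentiableAt_bl (hz i) hw

lemma differentiableOn_fd (z : ι → ℂ) (hz : ∀ i, ‖z i‖ < 1)
    (hfin : ∀ (n : ℕ) (k : ℤ), {i | z i ∈ box n k}.Finite) (D : ℕ) :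
    DifferentiableOn ℂ (fd κ z hfin D) (ball 0 1) := by
  intro w hw
  have hw' : ‖w‖ < 1 := by simpa using hw
  have h1 := differentiableAt_prod_bl z hz (Sd z hfin D) hw'
  have h2 : DifferentiableAt ℂ (fun w => Complex.exp (-Gd κ (cnt z) D w)) w :=
    (hasDerivAt_Gd κ (cnt z) D hw').differentiableAt.neg.cexp
  exact (h1.mul h2).differentiableWithinAt

lemma norm_deriv_fd_le_aux (hκ : 0 < κ) (z : ι → ℂ) (hz : ∀ i, ‖z i‖ < 1)
    (hfin : ∀ (n : ℕ) (k : ℤ), {i | z i ∈ box n k}.Finite) (D : ℕ) {w : ℂ} (hw : ‖w‖ < 1) :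
    ‖deriv (fd κ z hfin D) w‖ ≤ ((∑ i ∈ Sd z hfin D,
      (1 - ‖z i‖ ^ 2) / ‖1 - (starRingEnd ℂ) (z i) * w‖ ^ 2) +
      ∑ p ∈ Finset.range D, ∑ q ∈ Finset.range (2 ^ p), 576 * (pair κ (cnt z) (D - p) p q).1 *
        (2 * 2⁻¹ ^ p / ‖1 - (starRingEnd ℂ) (wv p q) * w‖ ^ 2)) *
      Real.exp (-(Gd κ (cnt z) D w).re) := by
  have h1 := (differentiableAt_prod_bl z hz (Sd z hfin D) hw).hasDerivAt
  have h2 := (hasDerivAt_Gd κ (cnt z) D hw)
  have h3 := h1.mul h2.neg.cexp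
  have h4 : deriv (fd κ z hfin D) w = _ := h3.deriv
  rw [h4]
  set B := ∏ i ∈ Sd z hfin D, bl (z i) w with hB
  set B' := deriv (fun w => ∏ i ∈ Sd z hfin D, bl (z i) w) w with hB'
  set E := Complex.exp (-Gd κ (cnt z) D w) with hE
  set G' := ∑ p ∈ Finset.range D, ∑ q ∈ Finset.range (2 ^ p),
      ((576 * (pair κ (cnt z) (D - p) p q).1 : ℝ) : ℂ) * deriv (kern p q) w with hG'
  have hB1 : ‖B‖ ≤ 1 := norm_prod_bl_le_one z hz _ (by simpa using hw)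
  have hB2 : ‖B'‖ ≤ ∑ i ∈ Sd z hfin D,
      (1 - ‖z i‖ ^ 2) / ‖1 - (starRingEnd ℂ) (z i) * w‖ ^ 2 :=
    norm_deriv_prod_bl_le z hz (Sd z hfin D) w (by simpa using hw)
  have hE1 : ‖E‖ = Real.exp (-(Gd κ (cnt z) D w).re) := by
    rw [hE, Complex.norm_exp, Complex.neg_re]
  have hG1 : ‖G'‖ ≤ ∑ p ∈ Finset.range D, ∑ q ∈ Finset.range (2 ^ p),
      576 * (pair κ (cnt z) (D - p) p q).1 *
        (2 * 2⁻¹ ^ p / ‖1 - (starRingEnd ℂ) (wv p q) * w‖ ^ 2) := by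
    refine (norm_sum_le _ _).trans (Finset.sum_le_sum fun p _ => ?_)
    refine (norm_sum_le _ _).trans (Finset.sum_le_sum fun q _ => ?_)
    have ht := pair_fst_nonneg (m := cnt z) hκ (D - p) p q
    rw [norm_mul, Complex.norm_real, Real.norm_of_nonneg (by positivity)]
    exact mul_le_mul_of_nonneg_left (norm_deriv_kern_le p q hw) (by positivity)
  calc ‖B' * E + B * (E * -G')‖ ≤ ‖B' * E‖ + ‖B * (E * -G')‖ := norm_add_le _ _
    _ = ‖B'‖ * ‖E‖ + ‖B‖ * (‖E‖ * ‖G'‖) := by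
        rw [norm_mul, norm_mul, norm_mul, norm_neg]
    _ ≤ ‖B'‖ * ‖E‖ + 1 * (‖E‖ * ‖G'‖) := by
        have : 0 ≤ ‖E‖ * ‖G'‖ := by positivity
        nlinarith
    _ = (‖B'‖ + ‖G'‖) * ‖E‖ := by ring
    _ ≤ _ := by
        rw [← hE1]
        exact mul_le_mul_of_nonneg_right (add_le_add hB2 hG1) (norm_nonneg _)

/-- **The derivative of the function of depth `D`** over the arc `(n, k)`. -/
theorem norm_deriv_fd_le (hκ : 0 < κ) (z : ι → ℂ) (hz : ∀ i, ‖z i‖ < 1)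
    (hfin : ∀ (n : ℕ) (k : ℤ), {i | z i ∈ box n k}.Finite) (D n : ℕ) (k : ℤ) (x : ℝ)
    (h1 : (k : ℝ) * 2⁻¹ ^ n ≤ x) (h2 : x < ((k : ℝ) + 1) * 2⁻¹ ^ n) :
    ‖deriv (fd κ z hfin D) (((1 - 2⁻¹ ^ n : ℝ) : ℂ) * ex x)‖ ≤
      4608 * 2 ^ n * ∑ j ∈ Finset.range (n + 1), (2⁻¹ : ℝ) ^ j *
        (psi κ (cnt z) D (n - j) (k / 2 ^ j - 1) + psi κ (cnt z) D (n - j) (k / 2 ^ j) +
          psi κ (cnt z) D (n - j) (k / 2 ^ j + 1)) := by
  have hm : ∀ n k, cnt z n (k + 2 ^ n) = cnt z n k := cnt_periodic z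
  set w : ℂ := ((1 - 2⁻¹ ^ n : ℝ) : ℂ) * ex x with hwdef
  have hn0 := pow_half_pos n
  have hn1 := pow_half_le_one n
  have hw : ‖w‖ < 1 := by
    rw [hwdef, norm_mul, norm_ex, mul_one, Complex.norm_real, Real.norm_of_nonneg (by linarith)]
    linarith
  -- the geometric constants
  have hgeom : ∀ p l : ℕ, ∃ K : ℝ, 0 ≤ K ∧ (l < 2 ^ p →
      (∃ j ≤ n, ∃ s : ℤ, (s = -1 ∨ s = 0 ∨ s = 1) ∧ n - j ≤ p ∧
        (∃ N : ℤ, (l : ℤ) / 2 ^ (p - (n - j)) = k / 2 ^ j + s + N * 2 ^ (n - j)) ∧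
        K ≤ 16 * 4 ^ (n - j)) ∧
      ∀ (ρ y : ℝ), (l : ℝ) * 2⁻¹ ^ p ≤ y → y < ((l : ℝ) + 1) * 2⁻¹ ^ p → 0 ≤ ρ →
        ρ ≤ 1 - 2⁻¹ ^ (p + 1) → 4 / ‖1 - (starRingEnd ℂ) ((ρ : ℂ) * ex y) * w‖ ^ 2 ≤ K) := by
    intro p l
    by_cases hl : l < 2 ^ p
    · obtain ⟨j, hj, s, hs, hp, hN, hb⟩ := key_geom n k x h1 h2 p l (by positivity)
        (by exact_mod_cast hl)
      refine ⟨16 * 4 ^ (n - j), by positivity, fun _ => ⟨⟨j, hj, s, hs, hp, hN, le_rfl⟩, ?_⟩⟩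
      intro ρ y hy1 hy2 hρ0 hρ1
      have h3 := hb ρ y (by exact_mod_cast hy1) (by exact_mod_cast hy2) hρ0 hρ1
      have h4 : (0 : ℝ) < 2⁻¹ ^ (n - j) / 2 := by positivity
      have h5 : (2⁻¹ ^ (n - j) / 2 : ℝ) ^ 2 ≤
          ‖1 - (starRingEnd ℂ) ((ρ : ℂ) * ex y) * w‖ ^ 2 := pow_le_pow_left₀ h4.le h3 2
      calc 4 / ‖1 - (starRingEnd ℂ) ((ρ : ℂ) * ex y) * w‖ ^ 2
          ≤ 4 / (2⁻¹ ^ (n - j) / 2) ^ 2 := by
            apply div_le_div_of_nonneg_left (by norm_num) (by positivity) h5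
        _ = 16 * 4 ^ (n - j) := by
            rw [div_pow, ← pow_mul, mul_comm (n - j) 2, pow_mul]
            rw [div_div_eq_mul_div]
            rw [inv_pow, inv_pow]
            rw [div_inv_eq_mul]
            norm_num
    · exact ⟨0, le_rfl, fun h => absurd h hl⟩
  choose K hK0 hK using hgeom
  have haux := norm_deriv_fd_le_aux hκ z hz hfin D hw
  -- the Blaschke part
  have hBl : ∑ i ∈ Sd z hfin D, (1 - ‖z i‖ ^ 2) / ‖1 - (starRingEnd ℂ) (z i) * w‖ ^ 2 ≤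
      ∑ p ∈ Finset.range D, ∑ q ∈ Finset.range (2 ^ p),
        (cnt z p q : ℝ) * (2⁻¹ ^ p * K p q) := by
    apply sum_Sd_le z hfin D
    · intro i
      have := hz i
      have := norm_nonneg (z i)
      have : 0 ≤ 1 - ‖z i‖ ^ 2 := by nlinarith
      positivity
    · intro p hp q hq i hi
      obtain ⟨b1, b2, y, hy1, hy2, hy3⟩ := hi
      have h3 := (hK p q hq).2 ‖z i‖ y (by exact_mod_cast hy1) (by exact_mod_cast hy2)
        (norm_nonneg _) b2.le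
      rw [← hy3] at h3
      have hpp := pow_half_pos p
      have h4 : 1 - ‖z i‖ ^ 2 ≤ 2 * 2⁻¹ ^ p := by nlinarith [norm_nonneg (z i), hz i]
      calc (1 - ‖z i‖ ^ 2) / ‖1 - (starRingEnd ℂ) (z i) * w‖ ^ 2
          ≤ (2 * 2⁻¹ ^ p) / ‖1 - (starRingEnd ℂ) (z i) * w‖ ^ 2 :=
            div_le_div_of_nonneg_right h4 (by positivity)
        _ = 2⁻¹ ^ p * (2 / ‖1 - (starRingEnd ℂ) (z i) * w‖ ^ 2) := by ring
        _ ≤ 2⁻¹ ^ p * (4 / ‖1 - (starRingEnd ℂ) (z i) * w‖ ^ 2) := by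
            apply mul_le_mul_of_nonneg_left _ hpp.le
            apply div_le_div_of_nonneg_right (by norm_num) (by positivity)
        _ ≤ 2⁻¹ ^ p * K p q := mul_le_mul_of_nonneg_left h3 hpp.le
  have hKer : ∑ p ∈ Finset.range D, ∑ q ∈ Finset.range (2 ^ p),
      576 * (pair κ (cnt z) (D - p) p q).1 *
        (2 * 2⁻¹ ^ p / ‖1 - (starRingEnd ℂ) (wv p q) * w‖ ^ 2) ≤
      ∑ p ∈ Finset.range D, ∑ q ∈ Finset.range (2 ^ p),
        288 * (pair κ (cnt z) (D - p) p q).1 * (2⁻¹ ^ p * K p q) := by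
    refine Finset.sum_le_sum fun p _ => Finset.sum_le_sum fun q hq => ?_
    have hq' := Finset.mem_range.1 hq
    have hpp := pow_half_pos p
    have h3 := (hK p q hq').2 (1 - 2⁻¹ ^ p) (((q : ℝ) + 1 / 2) * 2⁻¹ ^ p)
      (by nlinarith) (by nlinarith) (by linarith [pow_half_le_one p])
      (by rw [pow_succ]; linarith)
    have h4 : wv p (q : ℤ) = ((1 - 2⁻¹ ^ p : ℝ) : ℂ) * ex (((q : ℝ) + 1 / 2) * 2⁻¹ ^ p) := by
      rw [wv]; norm_cast
    rw [← h4] at h3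
    have ht := pair_fst_nonneg (m := cnt z) hκ (D - p) p q
    have h5 : 2 * 2⁻¹ ^ p / ‖1 - (starRingEnd ℂ) (wv p q) * w‖ ^ 2 =
        1 / 2 * (2⁻¹ ^ p * (4 / ‖1 - (starRingEnd ℂ) (wv p q) * w‖ ^ 2)) := by ring
    rw [h5]
    have h6 : 2⁻¹ ^ p * (4 / ‖1 - (starRingEnd ℂ) (wv p q) * w‖ ^ 2) ≤ 2⁻¹ ^ p * K p q :=
      mul_le_mul_of_nonneg_left h3 hpp.le
    nlinarith
  have hsum : (∑ i ∈ Sd z hfin D,
      (1 - ‖z i‖ ^ 2) / ‖1 - (starRingEnd ℂ) (z i) * w‖ ^ 2) +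
      ∑ p ∈ Finset.range D, ∑ q ∈ Finset.range (2 ^ p), 576 * (pair κ (cnt z) (D - p) p q).1 *
        (2 * 2⁻¹ ^ p / ‖1 - (starRingEnd ℂ) (wv p q) * w‖ ^ 2) ≤
      288 * ∑ p ∈ Finset.range D, ∑ q ∈ Finset.range (2 ^ p), wt κ (cnt z) D p q * K p q := by
    refine (add_le_add hBl hKer).trans ?_
    rw [← Finset.sum_add_distrib, Finset.mul_sum]
    refine Finset.sum_le_sum fun p _ => ?_
    rw [← Finset.sum_add_distrib, Finset.mul_sum]
    refine Finset.sum_le_sum fun q _ => ?_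
    rw [wt]
    have ht := pair_fst_nonneg (m := cnt z) hκ (D - p) p q
    have hpp := pow_half_pos p
    have hk := hK0 p q
    have hc : (0 : ℝ) ≤ (cnt z p q : ℝ) * (2⁻¹ ^ p * K p q) := by positivity
    nlinarith
  have hcover := cover_sum (wt κ (cnt z) D) (wt_nonneg hκ D)
    (fun n k => by rw [wt, wt, pair_periodic hm, hm]) D n k K 16 (by norm_num)
    (fun p _ l hl => by
      obtain ⟨j, hj, s, hs, hp, hN, hb⟩ := (hK p l hl).1
      exact ⟨j, hj, s, hs, hp, hN, hb⟩)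
  have hE0 := Real.exp_pos (-(Gd κ (cnt z) D w).re)
  -- each term
  have hterm : ∀ j ∈ Finset.range (n + 1), ∀ s : ℤ, (s = -1 ∨ s = 0 ∨ s = 1) →
      4 ^ (n - j) * ts (wt κ (cnt z) D) (D - (n - j)) (n - j) (k / 2 ^ j + s) *
        Real.exp (-(Gd κ (cnt z) D w).re) ≤
      2 ^ n * (2⁻¹ ^ j * psi κ (cnt z) D (n - j) (k / 2 ^ j + s)) := by
    intro j hj s hs
    have hj' : j ≤ n := Nat.lt_succ_iff.1 (Finset.mem_range.1 hj)
    have h3 := Gd_re_ge hκ (cnt z) hm D n j k x hj' h1 h2 s hs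
    rw [← hwdef] at h3
    have h4 : Real.exp (-(Gd κ (cnt z) D w).re) ≤
        Real.exp (-4 * lam κ (cnt z) D (n - j) (k / 2 ^ j + s)) :=
      Real.exp_le_exp.2 (by linarith)
    have h5 := ts_nonneg (wt_nonneg (m := cnt z) hκ D) (D - (n - j)) (n - j) (k / 2 ^ j + s)
    have h6 : (2 : ℝ) ^ n = 2 ^ (n - j) * 2 ^ j := by rw [← pow_add]; congr 1; omega
    have h7 : (2 : ℝ) ^ j * 2⁻¹ ^ j = 1 := by rw [← mul_pow]; norm_num
    have h8 : (4 : ℝ) ^ (n - j) = 2 ^ (n - j) * 2 ^ (n - j) := by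
      rw [← mul_pow]; norm_num
    calc 4 ^ (n - j) * ts (wt κ (cnt z) D) (D - (n - j)) (n - j) (k / 2 ^ j + s) *
        Real.exp (-(Gd κ (cnt z) D w).re)
        ≤ 4 ^ (n - j) * ts (wt κ (cnt z) D) (D - (n - j)) (n - j) (k / 2 ^ j + s) *
          Real.exp (-4 * lam κ (cnt z) D (n - j) (k / 2 ^ j + s)) :=
          mul_le_mul_of_nonneg_left h4 (by positivity)
      _ = 2 ^ n * (2⁻¹ ^ j * psi κ (cnt z) D (n - j) (k / 2 ^ j + s)) := by
          rw [psi, dens, h6, h8]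
          linear_combination (-(2 ^ (n - j) * ts (wt κ (cnt z) D) (D - (n - j)) (n - j)
            (k / 2 ^ j + s) * 2 ^ (n - j) *
            Real.exp (-4 * lam κ (cnt z) D (n - j) (k / 2 ^ j + s)))) * h7
  calc ‖deriv (fd κ z hfin D) w‖ ≤ _ := haux
    _ ≤ (288 * (16 * ∑ j ∈ Finset.range (n + 1), 4 ^ (n - j) *
        (ts (wt κ (cnt z) D) (D - (n - j)) (n - j) (k / 2 ^ j - 1) +
        ts (wt κ (cnt z) D) (D - (n - j)) (n - j) (k / 2 ^ j) +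
        ts (wt κ (cnt z) D) (D - (n - j)) (n - j) (k / 2 ^ j + 1)))) *
        Real.exp (-(Gd κ (cnt z) D w).re) := by
        apply mul_le_mul_of_nonneg_right _ hE0.le
        exact hsum.trans (mul_le_mul_of_nonneg_left hcover (by norm_num))
    _ = 4608 * ∑ j ∈ Finset.range (n + 1),
        (4 ^ (n - j) * ts (wt κ (cnt z) D) (D - (n - j)) (n - j) (k / 2 ^ j - 1) *
          Real.exp (-(Gd κ (cnt z) D w).re) +
        4 ^ (n - j) * ts (wt κ (cnt z) D) (D - (n - j)) (n - j) (k / 2 ^ j) *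
          Real.exp (-(Gd κ (cnt z) D w).re) +
        4 ^ (n - j) * ts (wt κ (cnt z) D) (D - (n - j)) (n - j) (k / 2 ^ j + 1) *
          Real.exp (-(Gd κ (cnt z) D w).re)) := by
        rw [← mul_assoc, mul_assoc _ _ (Real.exp _), Finset.sum_mul]
        congr 1
        · norm_num
        · apply Finset.sum_congr rfl
          intro j _
          ring
    _ ≤ 4608 * ∑ j ∈ Finset.range (n + 1), 2 ^ n * ((2⁻¹ : ℝ) ^ j *
        (psi κ (cnt z) D (n - j) (k / 2 ^ j - 1) + psi κ (cnt z) D (n - j) (k / 2 ^ j) +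
          psi κ (cnt z) D (n - j) (k / 2 ^ j + 1))) := by
        apply mul_le_mul_of_nonneg_left _ (by norm_num)
        refine Finset.sum_le_sum fun j hj => ?_
        have t1 := hterm j hj (-1) (by tauto)
        have t2 := hterm j hj 0 (by tauto)
        have t3 := hterm j hj 1 (by tauto)
        rw [add_zero] at t2
        rw [← sub_eq_add_neg] at t1
        linarith
    _ = _ := by rw [← Finset.mul_sum]; ring

end Pool.Agent.Lib_helper81.Dir
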