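import Pool.Agent.Lib_helper81.Dir.Geom

/-!
Zero sets of the Dirichlet space: the kernels attached to the dyadic arcs.
-/

namespace Pool.Agent.Lib_helper81.Dir

open Complex Metric Set

/-- The base point of the arc `(n, k)`. -/
noncomputable def wv (n : ℕ) (k : ℤ) : ℂ :=
  ((1 - 2⁻¹ ^ n : ℝ) : ℂ) * ex (((k : ℝ) + 1 / 2) * 2⁻¹ ^ n)

/-- The kernel of the arc `(n, k)`. -/
noncomputable def kern (n : ℕ) (k : ℤ) (w : ℂ) : ℂ :=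
  ((1 - ‖wv n k‖ ^ 2 : ℝ) : ℂ) / (1 - (starRingEnd ℂ) (wv n k) * w)

lemma pow_half_le_one (n : ℕ) : (2⁻¹ : ℝ) ^ n ≤ 1 := pow_le_one₀ (by norm_num) (by norm_num)

lemma pow_half_pos (n : ℕ) : (0 : ℝ) < 2⁻¹ ^ n := by positivity

lemma norm_wv (n : ℕ) (k : ℤ) : ‖wv n k‖ = 1 - 2⁻¹ ^ n := by
  rw [wv, norm_mul, norm_ex, mul_one, Complex.norm_real, Real.norm_of_nonneg]
  have := pow_half_le_one n
  linarith

lemma wv_periodic (n : ℕ) (k : ℤ) : wv n (k + 2 ^ n) = wv n k := by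
  have h1 : (2 : ℝ) ^ n * 2⁻¹ ^ n = 1 := by rw [← mul_pow]; norm_num
  have h : (((k + 2 ^ n : ℤ) : ℝ) + 1 / 2) * 2⁻¹ ^ n =
      ((k : ℝ) + 1 / 2) * 2⁻¹ ^ n + ((1 : ℤ) : ℝ) := by
    push_cast
    linear_combination h1
  rw [wv, wv, h, ex_add_int]

lemma kern_periodic (n : ℕ) (k : ℤ) (w : ℂ) : kern n (k + 2 ^ n) w = kern n k w := by
  rw [kern, kern, wv_periodic]

lemma norm_wv_lt (n : ℕ) (k : ℤ) : ‖wv n k‖ < 1 := by
  rw [norm_wv]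
  have := pow_half_pos n
  linarith

lemma one_sub_norm_sq_nonneg (n : ℕ) (k : ℤ) : 0 ≤ 1 - ‖wv n k‖ ^ 2 := by
  have := norm_wv_lt n k
  have := norm_nonneg (wv n k)
  nlinarith

lemma one_sub_norm_sq_le (n : ℕ) (k : ℤ) : 1 - ‖wv n k‖ ^ 2 ≤ 2 * 2⁻¹ ^ n := by
  rw [norm_wv]
  have := pow_half_pos n
  nlinarith

lemma le_one_sub_norm_sq (n : ℕ) (k : ℤ) : (2⁻¹ : ℝ) ^ n ≤ 1 - ‖wv n k‖ ^ 2 := by
  rw [norm_wv]
  have := pow_half_pos n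
  have := pow_half_le_one n
  nlinarith

lemma den_pos {a w : ℂ} (ha : ‖a‖ < 1) (hw : ‖w‖ < 1) :
    1 - ‖a‖ * ‖w‖ ≤ (1 - (starRingEnd ℂ) a * w).re ∧ 0 < 1 - ‖a‖ * ‖w‖ := by
  constructor
  · have h1 : ((starRingEnd ℂ) a * w).re ≤ ‖(starRingEnd ℂ) a * w‖ := Complex.re_le_norm _
    rw [norm_mul, RCLike.norm_conj] at h1
    rw [Complex.sub_re, Complex.one_re]
    linarith
  · nlinarith [norm_nonneg a, norm_nonneg w]

lemma den_ne {a w : ℂ} (ha : ‖a‖ < 1) (hw : ‖w‖ < 1) : 1 - (starRingEnd ℂ) a * w ≠ 0 := by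
  obtain ⟨h1, h2⟩ := den_pos ha hw
  intro h
  rw [h, Complex.zero_re] at h1
  linarith

lemma kern_re (n : ℕ) (k : ℤ) (w : ℂ) : (kern n k w).re =
    (1 - ‖wv n k‖ ^ 2) * ((1 - (starRingEnd ℂ) (wv n k) * w).re /
      ‖1 - (starRingEnd ℂ) (wv n k) * w‖ ^ 2) := by
  rw [kern, div_eq_mul_inv, Complex.re_ofReal_mul, Complex.inv_re, Complex.normSq_eq_norm_sq]

lemma kern_re_nonneg (n : ℕ) (k : ℤ) {w : ℂ} (hw : ‖w‖ < 1) : 0 ≤ (kern n k w).re := by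
  rw [kern_re]
  obtain ⟨h1, h2⟩ := den_pos (norm_wv_lt n k) hw
  have h3 := one_sub_norm_sq_nonneg n k
  have h4 : 0 ≤ (1 - (starRingEnd ℂ) (wv n k) * w).re := by linarith
  positivity

/-- The real part of the kernel is bounded below near the arc. -/
lemma kern_re_ge (p : ℕ) (q : ℤ) (n : ℕ) (hpn : p ≤ n) (x : ℝ) (N : ℤ)
    (hx : |x - (((q : ℝ) + 1 / 2) * 2⁻¹ ^ p) - N| ≤ 3 / 2 * 2⁻¹ ^ p) :
    1 / 144 ≤ (kern p q (((1 - 2⁻¹ ^ n : ℝ) : ℂ) * ex x)).re := by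
  have hn0 := pow_half_pos n
  have hn1 := pow_half_le_one n
  have hp0 := pow_half_pos p
  have hp1 := pow_half_le_one p
  have hnp : (2⁻¹ : ℝ) ^ n ≤ 2⁻¹ ^ p := pow_le_pow_of_le_one (by norm_num) (by norm_num) hpn
  have hz : ‖((1 - 2⁻¹ ^ n : ℝ) : ℂ) * ex x‖ = 1 - 2⁻¹ ^ n := by
    rw [norm_mul, norm_ex, mul_one, Complex.norm_real, Real.norm_of_nonneg (by linarith)]
  have hz1 : ‖((1 - 2⁻¹ ^ n : ℝ) : ℂ) * ex x‖ < 1 := by rw [hz]; linarith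
  rw [kern_re]
  obtain ⟨h1, h2⟩ := den_pos (norm_wv_lt p q) hz1
  have h3 := le_one_sub_norm_sq p q
  have hw := norm_wv p q
  set z : ℂ := ((1 - 2⁻¹ ^ n : ℝ) : ℂ) * ex x with hzdef
  have h4 : 2⁻¹ ^ p ≤ (1 - (starRingEnd ℂ) (wv p q) * z).re := by
    refine le_trans ?_ h1
    rw [hw, hz]
    nlinarith
  have h5 : ‖1 - (starRingEnd ℂ) (wv p q) * z‖ ≤ 12 * 2⁻¹ ^ p := by
    rw [hzdef, wv, one_sub_conj_mul]
    have h6 := norm_one_sub_mul_le ((1 - 2⁻¹ ^ p) * (1 - 2⁻¹ ^ n))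
      (x - ((q : ℝ) + 1 / 2) * 2⁻¹ ^ p) (by nlinarith) N
    refine h6.trans ?_
    have h7 : 2 * Real.pi * |x - ((q : ℝ) + 1 / 2) * 2⁻¹ ^ p - N| ≤
        2 * 3.15 * (3 / 2 * 2⁻¹ ^ p) := by
      apply mul_le_mul _ hx (abs_nonneg _) (by norm_num)
      have := Real.pi_lt_d2
      linarith
    nlinarith
  have h8 : 0 < ‖1 - (starRingEnd ℂ) (wv p q) * z‖ :=
    norm_pos_iff.2 (den_ne (norm_wv_lt p q) hz1)
  have h9 : ‖1 - (starRingEnd ℂ) (wv p q) * z‖ ^ 2 ≤ 144 * (2⁻¹ ^ p) ^ 2 := by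
    calc _ ≤ (12 * 2⁻¹ ^ p) ^ 2 := pow_le_pow_left₀ h8.le h5 2
      _ = _ := by ring
  rw [← mul_div_assoc, div_le_div_iff₀ (by norm_num) (by positivity)]
  have h10 : (2⁻¹ : ℝ) ^ p * 2⁻¹ ^ p ≤ (1 - ‖wv p q‖ ^ 2) *
      (1 - (starRingEnd ℂ) (wv p q) * z).re :=
    mul_le_mul h3 h4 hp0.le (one_sub_norm_sq_nonneg p q)
  nlinarith

lemma hasDerivAt_kern (n : ℕ) (k : ℤ) {w : ℂ} (hw : ‖w‖ < 1) :
    HasDerivAt (kern n k) (((1 - ‖wv n k‖ ^ 2 : ℝ) : ℂ) * (starRingEnd ℂ) (wv n k) /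
      (1 - (starRingEnd ℂ) (wv n k) * w) ^ 2) w := by
  have h1 : HasDerivAt (fun w : ℂ => 1 - (starRingEnd ℂ) (wv n k) * w)
      (-(starRingEnd ℂ) (wv n k)) w := by
    simpa using ((hasDerivAt_id w).const_mul ((starRingEnd ℂ) (wv n k))).const_sub 1
  have h2 := (hasDerivAt_const w ((1 - ‖wv n k‖ ^ 2 : ℝ) : ℂ)).div h1
    (den_ne (norm_wv_lt n k) hw)
  have h3 : (((1 - ‖wv n k‖ ^ 2 : ℝ) : ℂ) * (starRingEnd ℂ) (wv n k) /
      (1 - (starRingEnd ℂ) (wv n k) * w) ^ 2) = (0 * (1 - (starRingEnd ℂ) (wv n k) * w) -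
      ((1 - ‖wv n k‖ ^ 2 : ℝ) : ℂ) * -(starRingEnd ℂ) (wv n k)) /
      (1 - (starRingEnd ℂ) (wv n k) * w) ^ 2 := by ring
  rw [h3]
  exact h2

lemma norm_deriv_kern_le (n : ℕ) (k : ℤ) {w : ℂ} (hw : ‖w‖ < 1) :
    ‖deriv (kern n k) w‖ ≤ 2 * 2⁻¹ ^ n / ‖1 - (starRingEnd ℂ) (wv n k) * w‖ ^ 2 := by
  rw [(hasDerivAt_kern n k hw).deriv, norm_div, norm_pow, norm_mul, RCLike.norm_conj,
    Complex.norm_real, Real.norm_of_nonneg (one_sub_norm_sq_nonneg n k)]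
  apply div_le_div_of_nonneg_right _ (by positivity)
  calc (1 - ‖wv n k‖ ^ 2) * ‖wv n k‖ ≤ (2 * 2⁻¹ ^ n) * 1 :=
        mul_le_mul (one_sub_norm_sq_le n k) (norm_wv_lt n k).le (norm_nonneg _)
          (by positivity)
    _ = _ := mul_one _

lemma differentiableAt_kern (n : ℕ) (k : ℤ) {w : ℂ} (hw : ‖w‖ < 1) :
    DifferentiableAt ℂ (kern n k) w := (hasDerivAt_kern n k hw).differentiableAt

lemma norm_kern_le (n : ℕ) (k : ℤ) {w : ℂ} (hw : ‖w‖ < 1) :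
    ‖kern n k w‖ ≤ 2 * 2⁻¹ ^ n / (1 - ‖w‖) := by
  rw [kern, norm_div, Complex.norm_real, Real.norm_of_nonneg (one_sub_norm_sq_nonneg n k)]
  obtain ⟨h1, h2⟩ := den_pos (norm_wv_lt n k) hw
  have h3 : 1 - ‖w‖ ≤ ‖1 - (starRingEnd ℂ) (wv n k) * w‖ := by
    have h4 := Complex.re_le_norm (1 - (starRingEnd ℂ) (wv n k) * w)
    have := norm_wv_lt n k
    nlinarith [norm_nonneg w, norm_nonneg (wv n k)]
  have h5 : 0 < 1 - ‖w‖ := by linarith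
  exact div_le_div₀ (by positivity) (one_sub_norm_sq_le n k) h5 h3

/-- Boxes depend on `k` modulo `2 ^ n` only. -/
lemma box_periodic (n : ℕ) (k : ℤ) : box n (k + 2 ^ n) = box n k := by
  have h1 : (2 : ℝ) ^ n * 2⁻¹ ^ n = 1 := by rw [← mul_pow]; norm_num
  ext w
  simp only [box, Set.mem_ofPred_eq]
  refine and_congr_right fun _ => and_congr_right fun _ => ?_
  constructor
  · rintro ⟨x, hx1, hx2, hx3⟩
    push_cast at hx1 hx2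
    refine ⟨x - 1, ?_, ?_, ?_⟩
    · linarith [h1]
    · linarith [h1]
    · have h := ex_add_int (x - 1) 1
      rw [Int.cast_one, sub_add_cancel] at h
      rw [← h]; exact hx3
  · rintro ⟨x, hx1, hx2, hx3⟩
    push_cast
    refine ⟨x + 1, ?_, ?_, ?_⟩
    · linarith [h1]
    · linarith [h1]
    · have h := ex_add_int x 1
      rw [Int.cast_one] at h
      rw [h]; exact hx3

lemma cnt_periodic {ι : Type*} (z : ι → ℂ) (n : ℕ) (k : ℤ) :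
    cnt z n (k + 2 ^ n) = cnt z n k := by
  rw [cnt, cnt, box_periodic]

/-- Every point of the disc is in a box `(n, k)` with `0 ≤ k < 2 ^ n`. -/
lemma exists_box {w : ℂ} (hw : ‖w‖ < 1) : ∃ n : ℕ, ∃ k : ℕ, k < 2 ^ n ∧ w ∈ box n k := by
  classical
  obtain ⟨N, hN⟩ : ∃ N : ℕ, (2⁻¹ : ℝ) ^ N < 1 - ‖w‖ :=
    exists_pow_lt_of_lt_one (by linarith) (by norm_num)
  have hex : ∃ n : ℕ, (2⁻¹ : ℝ) ^ n < 1 - ‖w‖ := ⟨N, hN⟩
  set n := Nat.find hex with hn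
  have h1 : (2⁻¹ : ℝ) ^ n < 1 - ‖w‖ := Nat.find_spec hex
  have hn0 : n ≠ 0 := by
    intro h0
    rw [h0, pow_zero] at h1
    linarith [norm_nonneg w]
  obtain ⟨n', hn'⟩ := Nat.exists_eq_succ_of_ne_zero hn0
  have h2 : ¬ ((2⁻¹ : ℝ) ^ n' < 1 - ‖w‖) := Nat.find_min hex (by omega)
  rw [Nat.succ_eq_add_one] at hn'
  rw [hn'] at h1
  push Not at h2
  -- the angle
  set x : ℝ := Int.fract (Complex.arg w / (2 * Real.pi)) with hx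
  have hx0 : 0 ≤ x := Int.fract_nonneg _
  have hx1 : x < 1 := Int.fract_lt_one _
  have hw' : w = (‖w‖ : ℂ) * ex x := by
    have h3 : ex x = ex (Complex.arg w / (2 * Real.pi)) := by
      have h4 := ex_add_int x ⌊Complex.arg w / (2 * Real.pi)⌋
      rw [hx, Int.fract_add_floor] at h4
      rw [hx, h4]
    rw [h3, ex]
    have h5 : 2 * Real.pi * (Complex.arg w / (2 * Real.pi)) = Complex.arg w := by
      field_simp
    rw [h5]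
    exact (Complex.norm_mul_exp_arg_mul_I w).symm
  set k : ℕ := ⌊x * 2 ^ n'⌋₊ with hk
  have hp : (0 : ℝ) < 2 ^ n' := by positivity
  have hpp : (2 : ℝ) ^ n' * 2⁻¹ ^ n' = 1 := by rw [← mul_pow]; norm_num
  have hq : (0 : ℝ) < 2⁻¹ ^ n' := by positivity
  have k1 : (k : ℝ) ≤ x * 2 ^ n' := Nat.floor_le (by positivity)
  have k2 : x * 2 ^ n' < k + 1 := Nat.lt_floor_add_one _
  refine ⟨n', k, ?_, ?_⟩
  · have : (k : ℝ) < 2 ^ n' := by nlinarith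
    exact_mod_cast this
  · refine ⟨by linarith, by linarith, x, ?_, ?_, hw'⟩
    · calc ((k : ℤ) : ℝ) * 2⁻¹ ^ n' = (k : ℝ) * 2⁻¹ ^ n' := by norm_cast
        _ ≤ x * 2 ^ n' * 2⁻¹ ^ n' := mul_le_mul_of_nonneg_right k1 hq.le
        _ = x := by rw [mul_assoc, hpp, mul_one]
    · calc x = x * 2 ^ n' * 2⁻¹ ^ n' := by rw [mul_assoc, hpp, mul_one]
        _ < ((k : ℝ) + 1) * 2⁻¹ ^ n' := mul_lt_mul_of_pos_right k2 hq
        _ = (((k : ℤ) : ℝ) + 1) * 2⁻¹ ^ n' := by norm_cast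

end Pool.Agent.Lib_helper81.Dir
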