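import Mathlib
import Pool.Agent.Lib_helper81.Dir.Kern

/-!
The limit of the kernel sums (by helper95).
-/

namespace Pool.Agent.Lib_helper81.Dir

open Complex Metric Set Filter Topology

namespace Glim

theorem term_le (c : ℕ → ℝ) (hc : ∀ q, 0 ≤ c q) (p : ℕ) {w : ℂ} (hw : ‖w‖ < 1) :
    ‖∑ q ∈ Finset.range (2 ^ p), ((576 * c q : ℝ) : ℂ) * kern p q w‖ ≤
      1152 / (1 - ‖w‖) * ∑ q ∈ Finset.range (2 ^ p), c q * (2⁻¹ : ℝ) ^ p := by
  refine (norm_sum_le _ _).trans ?_
  rw [Finset.mul_sum]
  refine Finset.sum_le_sum fun q _ => ?_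
  rw [norm_mul, Complex.norm_real, Real.norm_of_nonneg (mul_nonneg (by norm_num) (hc q))]
  have h1 := norm_kern_le p q hw
  have h2 : 0 ≤ 576 * c q := mul_nonneg (by norm_num) (hc q)
  refine (mul_le_mul_of_nonneg_left h1 h2).trans (le_of_eq ?_)
  ring

end Glim

open Glim in
/-- Convergence of the kernel sums. -/
theorem exists_glim (t : ℕ → ℕ → ℕ → ℝ) (T : ℕ → ℕ → ℝ) (ht0 : ∀ D p q, 0 ≤ t D p q)
    (htT : ∀ D p q, t D p q ≤ T p q)
    (hlim : ∀ p q, Tendsto (fun D => t D p q) atTop (𝓝 (T p q))) (C : ℝ)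
    (hC : ∀ N : ℕ, ∑ p ∈ Finset.range N, ∑ q ∈ Finset.range (2 ^ p), T p q * (2⁻¹ : ℝ) ^ p ≤ C) :
    ∃ G : ℂ → ℂ, DifferentiableOn ℂ G (ball 0 1) ∧ ∀ w ∈ ball (0 : ℂ) 1,
      Tendsto (fun D : ℕ => ∑ p ∈ Finset.range D, ∑ q ∈ Finset.range (2 ^ p),
        ((576 * t D p q : ℝ) : ℂ) * kern p q w) atTop (𝓝 (G w)) := by
  have hT0 : ∀ p q, 0 ≤ T p q := fun p q => (ht0 0 p q).trans (htT 0 p q)
  set a : ℕ → ℝ := fun p => ∑ q ∈ Finset.range (2 ^ p), T p q * (2⁻¹ : ℝ) ^ p with ha
  have ha0 : ∀ p, 0 ≤ a p := fun p =>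
    Finset.sum_nonneg fun q _ => mul_nonneg (hT0 p q) (by positivity)
  have hsum : Summable a := summable_of_sum_range_le ha0 hC
  refine ⟨fun w => ∑' p, ∑ q ∈ Finset.range (2 ^ p), ((576 * T p q : ℝ) : ℂ) * kern p q w,
    ?_, ?_⟩
  · intro w hw
    have hw1 : ‖w‖ < 1 := by simpa using hw
    set r : ℝ := (1 + ‖w‖) / 2 with hr
    have hr1 : r < 1 := by linarith
    have hwr : ‖w‖ < r := by linarith
    have hd : DifferentiableOn ℂ (fun w => ∑' p, ∑ q ∈ Finset.range (2 ^ p),
        ((576 * T p q : ℝ) : ℂ) * kern p q w) (ball 0 r) := by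
      refine differentiableOn_tsum_of_summable_norm (u := fun p => 1152 / (1 - r) * a p)
        (hsum.mul_left _) (fun p => ?_) isOpen_ball fun p z hz => ?_
      · refine DifferentiableOn.fun_sum fun q _ => ?_
        intro z hz
        have hz1 : ‖z‖ < 1 := lt_trans (by simpa using hz) hr1
        exact ((differentiableAt_kern p q hz1).const_mul _).differentiableWithinAt
      · have hzr : ‖z‖ < r := by simpa using hz
        refine (term_le (T p) (hT0 p) p (hzr.trans hr1)).trans ?_
        refine mul_le_mul_of_nonneg_right ?_ (ha0 p)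
        have h1 : 0 < 1 - r := by linarith
        exact div_le_div_of_nonneg_left (by norm_num) h1 (by linarith)
    exact ((hd w (by simpa using hwr)).differentiableAt
      (isOpen_ball.mem_nhds (by simpa using hwr))).differentiableWithinAt
  · intro w hw
    have hw1 : ‖w‖ < 1 := by simpa using hw
    have key := tendsto_tsum_of_dominated_convergence (𝓕 := (atTop : Filter ℕ))
      (f := fun D p => if p < D then ∑ q ∈ Finset.range (2 ^ p),
        ((576 * t D p q : ℝ) : ℂ) * kern p q w else 0)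
      (g := fun p => ∑ q ∈ Finset.range (2 ^ p), ((576 * T p q : ℝ) : ℂ) * kern p q w)
      (bound := fun p => 1152 / (1 - ‖w‖) * a p) (hsum.mul_left _) (fun p => by
        have h1 : Tendsto (fun D => ∑ q ∈ Finset.range (2 ^ p),
            ((576 * t D p q : ℝ) : ℂ) * kern p q w) atTop
            (𝓝 (∑ q ∈ Finset.range (2 ^ p), ((576 * T p q : ℝ) : ℂ) * kern p q w)) := by
          refine tendsto_finsetSum _ fun q _ => ?_
          refine Tendsto.mul_const _ ?_
          exact (Complex.continuous_ofReal.tendsto _).comp ((hlim p q).const_mul _)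
        refine h1.congr' ?_
        filter_upwards [eventually_gt_atTop p] with D hD
        rw [if_pos hD]) (Eventually.of_forall fun D p => by
        have h0 : 0 < 1 - ‖w‖ := by linarith
        split_ifs with h
        · refine (term_le (t D p) (ht0 D p) p hw1).trans ?_
          refine mul_le_mul_of_nonneg_left ?_ (by positivity)
          exact Finset.sum_le_sum fun q _ =>
            mul_le_mul_of_nonneg_right (htT D p q) (by positivity)
        · rw [norm_zero]
          have := ha0 p
          positivity)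
    refine key.congr fun D => ?_
    rw [tsum_eq_sum (s := Finset.range D) (fun p hp => by
      rw [if_neg (by simpa using hp)])]
    refine Finset.sum_congr rfl fun p hp => ?_
    rw [if_pos (by simpa using hp)]

end Pool.Agent.Lib_helper81.Dir
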