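import Mathlib
import Pool.Agent.Lib_helper81.Dir.Defs

/-!
Limits of bounded functions with uniformly bounded Dirichlet-type sums are in the Dirichlet
space (module H4, by helper95).
-/

namespace Pool.Agent.Lib_helper81.Dir

open Complex Metric Set Filter Topology MeasureTheory

namespace Lim

/-- Taylor coefficients at `0`. -/
noncomputable def tc (h : ℂ → ℂ) (k : ℕ) : ℂ := (k.factorial : ℂ)⁻¹ * iteratedDeriv k h 0

theorem hasSum_tc {h : ℂ → ℂ} (hh : DifferentiableOn ℂ h (ball 0 1)) {w : ℂ}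
    (hw : w ∈ ball (0 : ℂ) 1) : HasSum (fun k : ℕ => tc h k * w ^ k) (h w) := by
  have := Complex.hasSum_taylorSeries_on_ball hh hw
  refine this.congr_fun ?_ |> fun x => x
  intro k
  unfold tc
  simp only [sub_zero, smul_eq_mul]
  ring

theorem norm_ex (x : ℝ) : ‖ex x‖ = 1 := by
  unfold ex
  exact Complex.norm_exp_ofReal_mul_I _

theorem continuous_ex : Continuous ex := by
  unfold ex
  fun_prop

theorem ex_eq_circleMap (x : ℝ) (ρ : ℝ) : (ρ : ℂ) * ex x = circleMap 0 ρ (2 * Real.pi * x) := by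
  unfold ex circleMap
  rw [zero_add]

/-- Cauchy's formula for the Taylor coefficients. -/
theorem tc_mul_pow {h : ℂ → ℂ} (hh : DifferentiableOn ℂ h (ball 0 1)) {ρ : ℝ} (h0 : 0 < ρ)
    (h1 : ρ < 1) (k : ℕ) :
    tc h k * (ρ : ℂ) ^ k = ∫ x in (0 : ℝ)..1, (ex x ^ k)⁻¹ * h (ρ * ex x) := by
  have hd : DifferentiableOn ℂ h (closedBall 0 ρ) := hh.mono (closedBall_subset_ball h1)
  have hC := hd.circleIntegral_one_div_sub_center_pow_smul h0 k
  have hpi : (2 * (Real.pi : ℂ) * I) ≠ 0 := two_pi_I_ne_zero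
  have hρ : (ρ : ℂ) ≠ 0 := by exact_mod_cast h0.ne'
  have e1 : (∮ z in C(0, ρ), (1 / (z - 0) ^ (k + 1)) • h z) =
      ∫ x in (0 : ℝ)..1, (2 * Real.pi : ℂ) * (I * ((ρ : ℂ) ^ k)⁻¹ *
        ((ex x ^ k)⁻¹ * h (ρ * ex x))) := by
    have hsub := intervalIntegral.smul_integral_comp_mul_left (a := (0 : ℝ)) (b := 1)
      (fun θ : ℝ => deriv (circleMap 0 ρ) θ • ((1 / (circleMap 0 ρ θ - 0) ^ (k + 1)) •
        h (circleMap 0 ρ θ))) (2 * Real.pi)
    rw [mul_zero, mul_one] at hsub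
    unfold circleIntegral
    rw [← hsub, ← intervalIntegral.integral_smul]
    refine intervalIntegral.integral_congr fun x _ => ?_
    simp only [deriv_circleMap, smul_eq_mul, sub_zero, Complex.real_smul]
    rw [← ex_eq_circleMap]
    have hex : ex x ≠ 0 := by
      intro hc
      have := norm_ex x
      rw [hc, norm_zero] at this
      exact zero_ne_one this
    push_cast
    rw [mul_pow, pow_succ, pow_succ]
    field_simp
  rw [e1, intervalIntegral.integral_const_mul, intervalIntegral.integral_const_mul] at hC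
  unfold tc
  rw [smul_eq_mul] at hC
  have hfac : (k.factorial : ℂ) ≠ 0 := by exact_mod_cast k.factorial_ne_zero
  have hpi' : (Real.pi : ℂ) ≠ 0 := by exact_mod_cast Real.pi_ne_zero
  have hI := I_ne_zero
  set J := ∫ x in (0 : ℝ)..1, (ex x ^ k)⁻¹ * h (ρ * ex x) with hJ
  have e2 : (2 * (Real.pi : ℂ) * I) * (((ρ : ℂ) ^ k)⁻¹ * J) =
      (2 * (Real.pi : ℂ) * I) * ((k.factorial : ℂ)⁻¹ * iteratedDeriv k h 0) := by
    rw [div_eq_mul_inv] at hC
    linear_combination hC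
  have e3 := mul_left_cancel₀ hpi e2
  rw [← e3]
  field_simp

theorem tc_deriv (h : ℂ → ℂ) (k : ℕ) : tc (deriv h) k = ((k : ℂ) + 1) * tc h (k + 1) := by
  unfold tc
  rw [← iteratedDeriv_succ', Nat.factorial_succ]
  have hfac : (k.factorial : ℂ) ≠ 0 := by exact_mod_cast k.factorial_ne_zero
  have hk : ((k : ℂ) + 1) ≠ 0 := by exact_mod_cast k.succ_ne_zero
  push_cast
  field_simp

/-- Bessel's inequality. -/
theorem bessel {f : ℝ → ℂ} (hf : Continuous f) (K : ℕ) :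
    ∑ k ∈ Finset.range K, ‖∫ x in (0 : ℝ)..1, (ex x ^ k)⁻¹ * f x‖ ^ 2 ≤
      ∫ x in (0 : ℝ)..1, ‖f x‖ ^ 2 := by
  have hL2 : MemLp f 2 (volume.restrict (Ioc (0 : ℝ) 1)) := by
    have h1 : MemLp f 2 (volume.restrict (Icc (0 : ℝ) 1)) := by
      obtain ⟨C, hC⟩ := (isCompact_Icc (a := (0 : ℝ)) (b := 1)).exists_bound_of_continuousOn
        hf.continuousOn
      refine MemLp.of_bound hf.aestronglyMeasurable C ?_
      rw [ae_restrict_iff' measurableSet_Icc]
      exact Eventually.of_forall hC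
    exact h1.mono_measure (Measure.restrict_mono Ioc_subset_Icc_self le_rfl)
  have hs := hasSum_sq_fourierCoeffOn (zero_lt_one : (0 : ℝ) < 1) hL2
  have hcoef : ∀ k : ℕ, fourierCoeffOn (zero_lt_one : (0 : ℝ) < 1) f (k : ℤ) =
      ∫ x in (0 : ℝ)..1, (ex x ^ k)⁻¹ * f x := by
    intro k
    rw [fourierCoeffOn_eq_integral]
    simp only [sub_zero, ne_eq, one_ne_zero, not_false_eq_true, div_self, one_smul]
    refine intervalIntegral.integral_congr fun x _ => ?_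
    simp only [smul_eq_mul]
    congr 1
    rw [fourier_coe_apply]
    unfold ex
    rw [← Complex.exp_nat_mul, ← Complex.exp_neg]
    congr 1
    push_cast
    ring
  rw [sub_zero, inv_one, one_smul] at hs
  have h2 := sum_le_hasSum ((Finset.range K).map Nat.castEmbedding) (fun i _ => by positivity) hs
  rw [Finset.sum_map] at h2
  refine le_trans (le_of_eq ?_) h2
  refine Finset.sum_congr rfl fun k _ => ?_
  rw [← hcoef]
  rfl

theorem differentiableOn_deriv {h : ℂ → ℂ} (hh : DifferentiableOn ℂ h (ball 0 1)) :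
    DifferentiableOn ℂ (deriv h) (ball 0 1) := hh.deriv isOpen_ball

theorem mul_ex_mem {ρ : ℝ} (h0 : 0 < ρ) (h1 : ρ < 1) (x : ℝ) : (ρ : ℂ) * ex x ∈ ball (0 : ℂ) 1 := by
  rw [mem_ball_zero_iff, norm_mul, norm_ex, mul_one, Complex.norm_real, Real.norm_of_nonneg h0.le]
  exact h1

theorem continuous_comp_ex {h : ℂ → ℂ} (hh : DifferentiableOn ℂ h (ball 0 1)) {ρ : ℝ}
    (h0 : 0 < ρ) (h1 : ρ < 1) : Continuous fun x : ℝ => h (ρ * ex x) :=
  hh.continuousOn.comp_continuous (continuous_const.mul continuous_ex) (mul_ex_mem h0 h1)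

theorem bessel_deriv {h : ℂ → ℂ} (hh : DifferentiableOn ℂ h (ball 0 1)) {ρ : ℝ} (h0 : 0 < ρ)
    (h1 : ρ < 1) (K : ℕ) :
    ∑ k ∈ Finset.range K, ((k : ℝ) + 1) ^ 2 * ‖tc h (k + 1)‖ ^ 2 * ρ ^ (2 * k) ≤
      ∫ x in (0 : ℝ)..1, ‖deriv h (ρ * ex x)‖ ^ 2 := by
  have hd := differentiableOn_deriv hh
  refine le_trans (le_of_eq ?_) (bessel (continuous_comp_ex hd h0 h1) K)
  refine Finset.sum_congr rfl fun k _ => ?_
  rw [← tc_mul_pow hd h0 h1, tc_deriv, norm_mul, norm_mul, norm_pow, Complex.norm_real,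
    Real.norm_of_nonneg h0.le]
  have : ‖(k : ℂ) + 1‖ = (k : ℝ) + 1 := by
    have : ((k : ℂ) + 1) = ((k + 1 : ℕ) : ℂ) := by push_cast; ring
    rw [this, Complex.norm_natCast]
    push_cast; ring
  rw [this]
  ring

/-- The weight of the `k`-th coefficient. -/
theorem weight (k : ℕ) : ∃ n : ℕ, 1 ≤ n ∧ n ≤ k + 1 ∧
    1 / (32 * ((k : ℝ) + 1)) ≤ (2⁻¹ : ℝ) ^ n * (1 - (2⁻¹ : ℝ) ^ n) ^ (2 * k) := by
  refine ⟨Nat.log 2 (k + 1) + 1, by omega, ?_, ?_⟩
  · have := Nat.log_lt_self 2 (x := k + 1) (by omega)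
    omega
  · set m := Nat.log 2 (k + 1) with hm
    have h1 : k + 1 < 2 ^ (m + 1) := Nat.lt_pow_succ_log_self (by norm_num) _
    have h2 : 2 ^ m ≤ k + 1 := Nat.pow_log_le_self 2 (by omega)
    have h1' : ((k : ℝ) + 1) ≤ 2 ^ (m + 1) := by exact_mod_cast h1.le
    have h2' : (2 : ℝ) ^ m ≤ (k : ℝ) + 1 := by exact_mod_cast h2
    have hpos : (0 : ℝ) < 2 ^ m := by positivity
    set q : ℝ := (2⁻¹ : ℝ) ^ (m + 1) with hq
    have hq0 : 0 < q := by positivity
    have hq1 : q ≤ 1 / 2 := by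
      rw [hq, pow_succ]
      have : (2⁻¹ : ℝ) ^ m ≤ 1 := pow_le_one₀ (by norm_num) (by norm_num)
      linarith
    have hq2 : q * 2 ^ (m + 1) = 1 := by
      rw [hq, ← mul_pow]; norm_num
    have hq3 : 1 / (2 * ((k : ℝ) + 1)) ≤ q := by
      rw [div_le_iff₀ (by positivity)]
      have : q * (2 * 2 ^ m) ≤ q * (2 * ((k : ℝ) + 1)) := by gcongr
      have e : q * (2 * 2 ^ m) = q * 2 ^ (m + 1) := by rw [pow_succ]; ring
      linarith
    have hb : 1 / 2 ≤ (1 - q) ^ (2 ^ m) := by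
      have := one_add_mul_le_pow (a := -q) (by linarith) (2 ^ m)
      have e : (1 : ℝ) + ((2 ^ m : ℕ) : ℝ) * -q = 1 / 2 := by
        push_cast
        have : q * 2 ^ m = 1 / 2 := by
          rw [pow_succ] at hq2; linarith
        linarith
      rw [e] at this
      exact this
    have hk : 2 * k ≤ 2 ^ m * 4 := by
      have : 2 ^ (m + 1) = 2 ^ m * 2 := pow_succ 2 m
      omega
    have hb2 : 1 / 16 ≤ (1 - q) ^ (2 * k) := by
      have e1 : (1 - q) ^ (2 ^ m * 4) ≤ (1 - q) ^ (2 * k) :=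
        pow_le_pow_of_le_one (by linarith) (by linarith) hk
      have e2 : (1 / 2 : ℝ) ^ 4 ≤ ((1 - q) ^ (2 ^ m)) ^ 4 := by gcongr
      rw [← pow_mul] at e2
      norm_num at e2 ⊢
      linarith
    calc 1 / (32 * ((k : ℝ) + 1)) = 1 / (2 * ((k : ℝ) + 1)) * (1 / 16) := by
          field_simp; norm_num
      _ ≤ q * (1 - q) ^ (2 * k) := by gcongr

theorem coeff_bound {h : ℂ → ℂ} (hh : DifferentiableOn ℂ h (ball 0 1))
    (hb : ∀ w ∈ ball (0 : ℂ) 1, ‖h w‖ ≤ 1) {C : ℝ}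
    (hC : ∀ N : ℕ, ∑ n ∈ Finset.range N, (2⁻¹ : ℝ) ^ n *
      ∫ x in (0 : ℝ)..1, ‖deriv h ((1 - (2⁻¹ : ℝ) ^ n : ℝ) * ex x)‖ ^ 2 ≤ C) (K : ℕ) :
    ∑ k ∈ Finset.range K, ((k : ℝ) + 1) * ‖tc h k‖ ^ 2 ≤ 1 + 64 * C := by
  have key : ∑ k ∈ Finset.range K, ((k : ℝ) + 1) * ‖tc h (k + 1)‖ ^ 2 ≤ 32 * C := by
    choose ν hν1 hν2 hν3 using weight
    set g : ℕ → ℕ → ℝ := fun n k => if n = 0 then 0 else
      (2⁻¹ : ℝ) ^ n * (((k : ℝ) + 1) ^ 2 * ‖tc h (k + 1)‖ ^ 2 * (1 - (2⁻¹ : ℝ) ^ n) ^ (2 * k))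
      with hg
    have hle1 : ∀ n : ℕ, (2⁻¹ : ℝ) ^ n ≤ 1 := fun n => pow_le_one₀ (by norm_num) (by norm_num)
    have hg0 : ∀ n k, 0 ≤ g n k := by
      intro n k
      rw [hg]
      simp only
      split_ifs
      · exact le_rfl
      · have := hle1 n
        have h1 : 0 ≤ 1 - (2⁻¹ : ℝ) ^ n := by linarith
        positivity
    have hsum : ∑ n ∈ Finset.range (K + 1), ∑ k ∈ Finset.range K, g n k ≤ C := by
      refine le_trans (Finset.sum_le_sum fun n _ => ?_) (hC (K + 1))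
      by_cases hn : n = 0
      · have : ∑ k ∈ Finset.range K, g n k = 0 := by
          refine Finset.sum_eq_zero fun k _ => ?_
          rw [hg]; simp only; rw [if_pos hn]
        rw [this]
        refine mul_nonneg (by positivity) (intervalIntegral.integral_nonneg (by norm_num)
          fun x _ => by positivity)
      · have h1 : (2⁻¹ : ℝ) ^ n < 1 := pow_lt_one₀ (by norm_num) (by norm_num) hn
        have h2 : 0 < (2⁻¹ : ℝ) ^ n := by positivity
        have h3 := bessel_deriv hh (ρ := 1 - (2⁻¹ : ℝ) ^ n) (by linarith) (by linarith) K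
        have h4 : ∑ k ∈ Finset.range K, g n k = (2⁻¹ : ℝ) ^ n *
            ∑ k ∈ Finset.range K, ((k : ℝ) + 1) ^ 2 * ‖tc h (k + 1)‖ ^ 2 *
              (1 - (2⁻¹ : ℝ) ^ n) ^ (2 * k) := by
          rw [Finset.mul_sum]
          refine Finset.sum_congr rfl fun k _ => ?_
          rw [hg]; simp only; rw [if_neg hn]
        rw [h4]
        exact mul_le_mul_of_nonneg_left h3 h2.le
    rw [Finset.sum_comm] at hsum
    have h5 : ∑ k ∈ Finset.range K, ((k : ℝ) + 1) * ‖tc h (k + 1)‖ ^ 2 / 32 ≤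
        ∑ k ∈ Finset.range K, ∑ n ∈ Finset.range (K + 1), g n k := by
      refine Finset.sum_le_sum fun k hk => ?_
      have hkK := Finset.mem_range.1 hk
      have hmem : ν k ∈ Finset.range (K + 1) := by
        rw [Finset.mem_range]
        have := hν2 k
        omega
      refine le_trans ?_ (Finset.single_le_sum (f := fun n => g n k) (fun n _ => hg0 n k) hmem)
      rw [hg]
      simp only
      rw [if_neg (by have := hν1 k; omega)]
      have h6 := hν3 k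
      have h7 : (0 : ℝ) ≤ ((k : ℝ) + 1) ^ 2 * ‖tc h (k + 1)‖ ^ 2 := by positivity
      have h8 := mul_le_mul_of_nonneg_left h6 h7
      have h9 : ((k : ℝ) + 1) ^ 2 * ‖tc h (k + 1)‖ ^ 2 * (1 / (32 * ((k : ℝ) + 1))) =
          ((k : ℝ) + 1) * ‖tc h (k + 1)‖ ^ 2 / 32 := by
        have : ((k : ℝ) + 1) ≠ 0 := by positivity
        field_simp
      rw [h9] at h8
      refine h8.trans (le_of_eq ?_)
      ring
    have h6 := h5.trans hsum
    rw [← Finset.sum_div] at h6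
    linarith
  have h00 : ‖tc h 0‖ ^ 2 ≤ 1 := by
    have e : tc h 0 = h 0 := by unfold tc; simp
    rw [e]
    have := hb 0 (mem_ball_self one_pos)
    have h1 : 0 ≤ ‖h 0‖ := norm_nonneg _
    nlinarith
  rcases K with _ | K
  · simp only [Finset.range_zero, Finset.sum_empty]
    have := hC 0
    simp at this
    linarith
  · rw [Finset.sum_range_succ']
    have h2 : ∑ k ∈ Finset.range K, (((k + 1 : ℕ) : ℝ) + 1) * ‖tc h (k + 1)‖ ^ 2 ≤ 2 * (32 * C) := by
      have hkey : ∑ k ∈ Finset.range K, ((k : ℝ) + 1) * ‖tc h (k + 1)‖ ^ 2 ≤ 32 * C := by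
        refine le_trans ?_ key
        refine Finset.sum_le_sum_of_subset_of_nonneg (Finset.range_mono (Nat.le_succ K))
          fun k _ _ => by positivity
      refine le_trans ?_ (mul_le_mul_of_nonneg_left hkey (by norm_num))
      rw [Finset.mul_sum]
      refine Finset.sum_le_sum fun k _ => ?_
      have h3 : (0 : ℝ) ≤ ‖tc h (k + 1)‖ ^ 2 := by positivity
      push_cast
      have h4 : (0 : ℝ) ≤ k := Nat.cast_nonneg k
      nlinarith
    have h5 : (((0 : ℕ) : ℝ) + 1) * ‖tc h 0‖ ^ 2 ≤ 1 := by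
      simpa using h00
    linarith

theorem tendsto_tc {f : ℂ → ℂ} {fd : ℕ → ℂ → ℂ} (hf : DifferentiableOn ℂ f (ball 0 1))
    (hfd : ∀ d, DifferentiableOn ℂ (fd d) (ball 0 1))
    (hb : ∀ d, ∀ w ∈ ball (0 : ℂ) 1, ‖fd d w‖ ≤ 1)
    (hlim : ∀ w ∈ ball (0 : ℂ) 1, Tendsto (fun d => fd d w) atTop (𝓝 (f w))) (k : ℕ) :
    Tendsto (fun d => tc (fd d) k) atTop (𝓝 (tc f k)) := by
  have h0 : (0 : ℝ) < 1 / 2 := by norm_num
  have h1 : (1 / 2 : ℝ) < 1 := by norm_num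
  have hρ : (((1 / 2 : ℝ) : ℂ) ^ k) ≠ 0 := pow_ne_zero _ (by norm_num)
  have hlim' : Tendsto (fun d => ∫ x in (0 : ℝ)..1, (ex x ^ k)⁻¹ * fd d (((1 / 2 : ℝ) : ℂ) * ex x))
      atTop (𝓝 (∫ x in (0 : ℝ)..1, (ex x ^ k)⁻¹ * f (((1 / 2 : ℝ) : ℂ) * ex x))) := by
    have hexne : ∀ x, ex x ^ k ≠ 0 := by
      intro x
      refine pow_ne_zero _ fun hc => ?_
      have := norm_ex x
      rw [hc, norm_zero] at this
      exact zero_ne_one this
    refine intervalIntegral.tendsto_integral_filter_of_dominated_convergence (fun _ => 1) ?_ ?_ ?_ ?_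
    · refine Eventually.of_forall fun d => ?_
      exact (((continuous_ex.pow k).inv₀ hexne).mul
        (continuous_comp_ex (hfd d) h0 h1)).aestronglyMeasurable
    · refine Eventually.of_forall fun d => Eventually.of_forall fun x _ => ?_
      rw [norm_mul, norm_inv, norm_pow, norm_ex, one_pow, inv_one, one_mul]
      exact hb d _ (mul_ex_mem h0 h1 x)
    · exact intervalIntegrable_const
    · refine Eventually.of_forall fun x _ => ?_
      exact (hlim _ (mul_ex_mem h0 h1 x)).const_mul _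
  have e : ∀ h : ℂ → ℂ, DifferentiableOn ℂ h (ball 0 1) → tc h k =
      (((1 / 2 : ℝ) : ℂ) ^ k)⁻¹ * ∫ x in (0 : ℝ)..1, (ex x ^ k)⁻¹ * h (((1 / 2 : ℝ) : ℂ) * ex x) := by
    intro h hh
    rw [← tc_mul_pow hh h0 h1 k, mul_comm (tc h k), ← mul_assoc, inv_mul_cancel₀ hρ, one_mul]
  have e2 : (fun d => tc (fd d) k) = fun d => (((1 / 2 : ℝ) : ℂ) ^ k)⁻¹ *
      ∫ x in (0 : ℝ)..1, (ex x ^ k)⁻¹ * fd d (((1 / 2 : ℝ) : ℂ) * ex x) :=
    funext fun d => e _ (hfd d)
  rw [e2, e f hf]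
  exact hlim'.const_mul _

end Lim

open Lim in
/-- Module H4. -/
theorem inDirichlet_of_bound (f : ℂ → ℂ) (fd : ℕ → ℂ → ℂ)
    (hf : DifferentiableOn ℂ f (ball 0 1)) (hfd : ∀ d, DifferentiableOn ℂ (fd d) (ball 0 1))
    (hb : ∀ d, ∀ w ∈ ball (0 : ℂ) 1, ‖fd d w‖ ≤ 1)
    (hlim : ∀ w ∈ ball (0 : ℂ) 1, Tendsto (fun d => fd d w) atTop (𝓝 (f w))) (C : ℝ)
    (hC : ∀ d N : ℕ, ∑ n ∈ Finset.range N, (2⁻¹ : ℝ) ^ n *
      ∫ x in (0 : ℝ)..1, ‖deriv (fd d) ((1 - (2⁻¹ : ℝ) ^ n : ℝ) * ex x)‖ ^ 2 ≤ C) :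
    InDirichlet f := by
  refine ⟨tc f, ?_, fun w hw => hasSum_tc hf hw⟩
  refine summable_of_sum_range_le (c := 1 + 64 * C) (fun k => by positivity) fun K => ?_
  have h1 : Tendsto (fun d => ∑ k ∈ Finset.range K, ((k : ℝ) + 1) * ‖tc (fd d) k‖ ^ 2) atTop
      (𝓝 (∑ k ∈ Finset.range K, ((k : ℝ) + 1) * ‖tc f k‖ ^ 2)) := by
    refine tendsto_finsetSum _ fun k _ => ?_
    exact ((tendsto_tc hf hfd hb hlim k).norm.pow 2).const_mul _
  exact le_of_tendsto h1 (Eventually.of_forall fun d => coeff_bound (hfd d) (hb d) (hC d) K)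

end Pool.Agent.Lib_helper81.Dir
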