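import Pool.Agent.Lib_helper81.Dir.Geom

/-!
Division by zeros and a Markov inequality on dyadic arcs (necessity, analytic part).
-/

namespace Pool.Agent.Lib_helper81.Dir

open Complex Metric Set MeasureTheory

namespace Zer

lemma norm_sub_pos {w : ℂ} (hw : ‖w‖ < 1) (x : ℝ) : 0 < ‖ex x - w‖ := by
  have h1 := norm_sub_norm_le (ex x) w
  rw [norm_ex] at h1
  linarith

lemma continuous_pk {w : ℂ} (hw : ‖w‖ < 1) :
    Continuous fun x : ℝ => (1 - ‖w‖ ^ 2) / ‖ex x - w‖ ^ 2 := by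
  refine continuous_const.div ((continuous_ex.sub continuous_const).norm.pow 2) (fun x => ?_)
  have := norm_sub_pos hw x
  positivity

lemma pk_nonneg {w : ℂ} (hw : ‖w‖ < 1) (x : ℝ) : 0 ≤ (1 - ‖w‖ ^ 2) / ‖ex x - w‖ ^ 2 := by
  have h1 : ‖w‖ ^ 2 ≤ 1 := pow_le_one₀ (norm_nonneg _) hw.le
  have h2 : (0:ℝ) ≤ 1 - ‖w‖ ^ 2 := by linarith
  positivity

lemma poisson {G : ℂ → ℂ} (hG : AnalyticOnNhd ℂ G (closedBall 0 1)) {w : ℂ} (hw : ‖w‖ < 1) :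
    ∫ x in (0:ℝ)..1, ((1 - ‖w‖ ^ 2) / ‖ex x - w‖ ^ 2 : ℝ) • G (ex x) = G w := by
  have hcl : DiffContOnCl ℂ G (ball 0 1) := by
    apply DifferentiableOn.diffContOnCl
    rw [closure_ball _ one_ne_zero]
    exact hG.differentiableOn
  have hwb : w ∈ ball (0:ℂ) 1 := by rwa [mem_ball_zero_iff]
  have h := hcl.circleAverage_poissonKernel_smul' hwb
  rw [Real.circleAverage_def] at h
  rw [← h]
  have e1 : ∀ x : ℝ, circleMap 0 1 (2 * Real.pi * x) = ex x := by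
    intro x
    simp [circleMap, ex]
  have h2 := intervalIntegral.integral_comp_mul_left (a := 0) (b := 1)
    (fun θ => ((‖circleMap 0 1 θ - 0‖ ^ 2 - ‖w - 0‖ ^ 2) /
      ‖(circleMap 0 1 θ - 0) - (w - 0)‖ ^ 2) • G (circleMap 0 1 θ))
    (c := 2 * Real.pi) (by positivity)
  rw [mul_zero, mul_one] at h2
  rw [← h2]
  congr 1
  ext x
  rw [e1, sub_zero, sub_zero, norm_ex, one_pow]

lemma integral_pk {w : ℂ} (hw : ‖w‖ < 1) :
    ∫ x in (0:ℝ)..1, (1 - ‖w‖ ^ 2) / ‖ex x - w‖ ^ 2 = 1 := by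
  have h := poisson (G := fun _ => (1:ℂ)) analyticOnNhd_const hw
  have e : ∀ x : ℝ, ((1 - ‖w‖ ^ 2) / ‖ex x - w‖ ^ 2 : ℝ) • (1:ℂ)
      = (((1 - ‖w‖ ^ 2) / ‖ex x - w‖ ^ 2 : ℝ) : ℂ) := by
    intro x; rw [Complex.real_smul, mul_one]
  simp_rw [e] at h
  rw [intervalIntegral.integral_ofReal] at h
  exact_mod_cast h

lemma norm_sq_le_integral {G : ℂ → ℂ} (hG : AnalyticOnNhd ℂ G (closedBall 0 1)) {w : ℂ}
    (hw : ‖w‖ < 1) :
    ‖G w‖ ^ 2 ≤ ∫ x in (0:ℝ)..1, (1 - ‖w‖ ^ 2) / ‖ex x - w‖ ^ 2 * ‖G (ex x)‖ ^ 2 := by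
  have hP := continuous_pk hw
  have hGc : Continuous fun x : ℝ => G (ex x) := by
    rw [← continuousOn_univ]
    exact hG.continuousOn.comp continuous_ex.continuousOn
      (fun x _ => by rw [mem_closedBall_zero_iff, norm_ex])
  set c := ∫ x in (0:ℝ)..1, (1 - ‖w‖ ^ 2) / ‖ex x - w‖ ^ 2 * ‖G (ex x)‖ with hc
  have h1 : ‖G w‖ ≤ c := by
    rw [← poisson hG hw]
    refine (intervalIntegral.norm_integral_le_integral_norm zero_le_one).trans (le_of_eq ?_)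
    rw [hc]
    congr 1
    ext x
    rw [norm_smul, Real.norm_of_nonneg (pk_nonneg hw x)]
  have h2 : 0 ≤ ∫ x in (0:ℝ)..1, (1 - ‖w‖ ^ 2) / ‖ex x - w‖ ^ 2 * (‖G (ex x)‖ - c) ^ 2 := by
    apply intervalIntegral.integral_nonneg zero_le_one
    intro x _
    exact mul_nonneg (pk_nonneg hw x) (sq_nonneg _)
  have h3 : ∫ x in (0:ℝ)..1, (1 - ‖w‖ ^ 2) / ‖ex x - w‖ ^ 2 * (‖G (ex x)‖ - c) ^ 2
      = (∫ x in (0:ℝ)..1, (1 - ‖w‖ ^ 2) / ‖ex x - w‖ ^ 2 * ‖G (ex x)‖ ^ 2) - 2 * c * c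
        + c ^ 2 * 1 := by
    have i1 : IntervalIntegrable
        (fun x : ℝ => (1 - ‖w‖ ^ 2) / ‖ex x - w‖ ^ 2 * ‖G (ex x)‖ ^ 2) volume 0 1 :=
      (hP.mul (hGc.norm.pow 2)).intervalIntegrable _ _
    have i2 : IntervalIntegrable
        (fun x : ℝ => 2 * c * ((1 - ‖w‖ ^ 2) / ‖ex x - w‖ ^ 2 * ‖G (ex x)‖)) volume 0 1 :=
      (continuous_const.mul (hP.mul hGc.norm)).intervalIntegrable _ _
    have i3 : IntervalIntegrable
        (fun x : ℝ => c ^ 2 * ((1 - ‖w‖ ^ 2) / ‖ex x - w‖ ^ 2)) volume 0 1 :=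
      (continuous_const.mul hP).intervalIntegrable _ _
    have e : ∀ x : ℝ, (1 - ‖w‖ ^ 2) / ‖ex x - w‖ ^ 2 * (‖G (ex x)‖ - c) ^ 2
        = (1 - ‖w‖ ^ 2) / ‖ex x - w‖ ^ 2 * ‖G (ex x)‖ ^ 2
          - 2 * c * ((1 - ‖w‖ ^ 2) / ‖ex x - w‖ ^ 2 * ‖G (ex x)‖)
          + c ^ 2 * ((1 - ‖w‖ ^ 2) / ‖ex x - w‖ ^ 2) := by
      intro x; ring
    simp_rw [e]
    rw [intervalIntegral.integral_add (i1.sub i2) i3, intervalIntegral.integral_sub i1 i2,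
      intervalIntegral.integral_const_mul, intervalIntegral.integral_const_mul, integral_pk hw]
  have h4 : ‖G w‖ ^ 2 ≤ c ^ 2 := pow_le_pow_left₀ (norm_nonneg _) h1 2
  nlinarith

lemma norm_one_sub_conj_mul_ex (p : ℂ) (y : ℝ) :
    ‖1 - (starRingEnd ℂ) p * ex y‖ = ‖ex y - p‖ := by
  have h1 : (starRingEnd ℂ) (ex y - p) * ex y = 1 - (starRingEnd ℂ) p * ex y := by
    rw [map_sub, sub_mul]
    congr 1
    rw [conj_ex, ← ex_add]
    simp [ex_zero]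
  rw [← h1, norm_mul, norm_ex, mul_one, Complex.norm_conj]

/-- the identity `|w - p|² = |1 - conj p w|² - (1 - |p|²)(1 - |w|²)` -/
lemma norm_sub_sq (p w : ℂ) : ‖w - p‖ ^ 2
    = ‖1 - (starRingEnd ℂ) p * w‖ ^ 2 - (1 - ‖p‖ ^ 2) * (1 - ‖w‖ ^ 2) := by
  rw [← Complex.normSq_eq_norm_sq, ← Complex.normSq_eq_norm_sq, ← Complex.normSq_eq_norm_sq,
    ← Complex.normSq_eq_norm_sq]
  simp only [Complex.normSq_apply, Complex.sub_re, Complex.sub_im, Complex.mul_re, Complex.mul_im,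
    Complex.conj_re, Complex.conj_im, Complex.one_re, Complex.one_im]
  ring

lemma norm_one_sub_pos {p w : ℂ} (hp : ‖p‖ < 1) (hw : ‖w‖ < 1) :
    0 < ‖1 - (starRingEnd ℂ) p * w‖ := by
  have h1 := norm_sub_norm_le (1:ℂ) ((starRingEnd ℂ) p * w)
  rw [norm_mul, Complex.norm_conj, norm_one] at h1
  have h2 : ‖p‖ * ‖w‖ < 1 := by nlinarith [norm_nonneg p, norm_nonneg w]
  linarith

lemma factor_le {p w : ℂ} (hp : ‖p‖ < 1) (hw : ‖w‖ < 1) :
    ‖w - p‖ ^ 2 ≤ Real.exp (-((1 - ‖p‖ ^ 2) * (1 - ‖w‖ ^ 2) / ‖1 - (starRingEnd ℂ) p * w‖ ^ 2))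
      * ‖1 - (starRingEnd ℂ) p * w‖ ^ 2 := by
  have hpos := norm_one_sub_pos hp hw
  set t := (1 - ‖p‖ ^ 2) * (1 - ‖w‖ ^ 2) / ‖1 - (starRingEnd ℂ) p * w‖ ^ 2 with ht
  have h1 : ‖w - p‖ ^ 2 = (1 - t) * ‖1 - (starRingEnd ℂ) p * w‖ ^ 2 := by
    rw [norm_sub_sq, ht]
    field_simp
  rw [h1]
  apply mul_le_mul_of_nonneg_right _ (by positivity)
  have := Real.add_one_le_exp (-t)
  linarith

end Zer

theorem norm_sq_le_of_zeros {ι : Type*} (F h : ℂ → ℂ)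
    (_hF : AnalyticOnNhd ℂ F (closedBall 0 1))
    (hh : AnalyticOnNhd ℂ h (closedBall 0 1)) (s : Finset ι) (p : ι → ℂ)
    (hp : ∀ i ∈ s, ‖p i‖ < 1)
    (hfac : ∀ u ∈ closedBall (0:ℂ) 1, F u = (∏ i ∈ s, (u - p i)) * h u) (w : ℂ) (hw : ‖w‖ < 1) :
    ‖F w‖ ^ 2 ≤ Real.exp (-∑ i ∈ s, (1 - ‖p i‖ ^ 2) * (1 - ‖w‖ ^ 2) /
        ‖1 - (starRingEnd ℂ) (p i) * w‖ ^ 2) *
      ∫ y in (0:ℝ)..1, (1 - ‖w‖ ^ 2) / ‖ex y - w‖ ^ 2 * ‖F (ex y)‖ ^ 2 := by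
  set G : ℂ → ℂ := fun u => (∏ i ∈ s, (1 - (starRingEnd ℂ) (p i) * u)) * h u with hG
  have hGa : AnalyticOnNhd ℂ G (closedBall 0 1) := by
    rw [hG]
    apply AnalyticOnNhd.mul _ hh
    have : (fun u : ℂ => ∏ i ∈ s, (1 - (starRingEnd ℂ) (p i) * u))
        = ∏ i ∈ s, fun u : ℂ => (1 - (starRingEnd ℂ) (p i) * u) := by
      ext u; simp
    rw [this]
    apply Finset.analyticOnNhd_prod
    intro i _
    exact analyticOnNhd_const.sub (analyticOnNhd_const.mul analyticOnNhd_id)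
  have hcirc : ∀ y : ℝ, ‖F (ex y)‖ = ‖G (ex y)‖ := by
    intro y
    rw [hfac _ (by rw [mem_closedBall_zero_iff, norm_ex]), hG]
    simp only [norm_mul, norm_prod]
    congr 1
    refine Finset.prod_congr rfl fun i _ => ?_
    rw [Zer.norm_one_sub_conj_mul_ex]
  have hFw : ‖F w‖ ^ 2 ≤ Real.exp (-∑ i ∈ s, (1 - ‖p i‖ ^ 2) * (1 - ‖w‖ ^ 2) /
        ‖1 - (starRingEnd ℂ) (p i) * w‖ ^ 2) * ‖G w‖ ^ 2 := by
    rw [hfac _ (by rw [mem_closedBall_zero_iff]; exact hw.le), hG]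
    simp only [norm_mul, norm_prod, mul_pow, ← Finset.prod_pow]
    rw [← Finset.sum_neg_distrib, Real.exp_sum, ← mul_assoc, ← Finset.prod_mul_distrib]
    apply mul_le_mul_of_nonneg_right _ (by positivity)
    apply Finset.prod_le_prod
    · intro i _; positivity
    · intro i hi
      exact Zer.factor_le (hp i hi) hw
  refine hFw.trans ?_
  apply mul_le_mul_of_nonneg_left _ (Real.exp_pos _).le
  simp_rw [hcirc]
  exact Zer.norm_sq_le_integral hGa hw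

namespace Zer

lemma half_le {g : ℝ → ℂ} (hg : Continuous g) {a b c : ℝ} (hab : a < b) (hc : 0 < c)
    (h : ∫ x in a..b, ‖g x‖ < c * (b - a)) :
    (b - a) / 2 ≤ volume.real {x | x ∈ Ioc a b ∧ ‖g x‖ < 2 * c} := by
  have hint : Integrable (fun x => ‖g x‖) (volume.restrict (Ioc a b)) :=
    (hg.norm.integrableOn_Icc (a := a) (b := b)).mono_set Ioc_subset_Icc_self
  have h1 := mul_meas_ge_le_integral_of_nonneg (μ := volume.restrict (Ioc a b))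
    (f := fun x => ‖g x‖) (Filter.Eventually.of_forall fun x => norm_nonneg _) hint (2 * c)
  rw [intervalIntegral.integral_of_le hab.le] at h
  have h2 : (volume.restrict (Ioc a b)).real {x | 2 * c ≤ ‖g x‖} ≤ (b - a) / 2 := by
    have h3 : 2 * c * (volume.restrict (Ioc a b)).real {x | 2 * c ≤ ‖g x‖} < c * (b - a) :=
      lt_of_le_of_lt h1 h
    have h4 : c * (2 * (volume.restrict (Ioc a b)).real {x | 2 * c ≤ ‖g x‖}) < c * (b - a) := by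
      linarith
    have h5 := lt_of_mul_lt_mul_left h4 hc.le
    linarith
  have hm : MeasurableSet {x | 2 * c ≤ ‖g x‖} :=
    measurableSet_le measurable_const hg.norm.measurable
  have h6 : (volume.restrict (Ioc a b)).real {x | 2 * c ≤ ‖g x‖}ᶜ
      = (volume.restrict (Ioc a b)).real univ
        - (volume.restrict (Ioc a b)).real {x | 2 * c ≤ ‖g x‖} :=
    measureReal_compl hm
  have h7 : (volume.restrict (Ioc a b)).real univ = b - a := by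
    rw [measureReal_restrict_apply MeasurableSet.univ, univ_inter, Real.volume_real_Ioc_of_le hab.le]
  have h8 : (volume.restrict (Ioc a b)).real {x | 2 * c ≤ ‖g x‖}ᶜ
      = volume.real {x | x ∈ Ioc a b ∧ ‖g x‖ < 2 * c} := by
    rw [measureReal_restrict_apply hm.compl]
    congr 1
    ext x
    simp only [mem_inter_iff, mem_compl_iff, mem_ofPred_eq, not_le]
    tauto
  rw [← h8, h6, h7]
  linarith

end Zer

theorem markov_level (g : ℝ → ℂ) (hg : Continuous g) (n i : ℕ) (k : ℤ) (c : ℝ) (hc : 0 < c)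
    (s : Finset ℕ) (hs : s ⊆ Finset.range (2 ^ i))
    (h : ∀ l ∈ s, 2 ^ (n + i) * ∫ x in (((2 ^ i * k + l : ℤ) : ℝ) * 2⁻¹ ^ (n + i))..((((2 ^ i * k + l : ℤ) : ℝ) + 1) * 2⁻¹ ^ (n + i)), ‖g x‖ < c) :
    (s.card : ℝ) * 2⁻¹ ^ (n + i) ≤ 2 * volume.real
      {x | x ∈ Icc ((k:ℝ) * 2⁻¹ ^ n) (((k:ℝ) + 1) * 2⁻¹ ^ n) ∧ ‖g x‖ < 2 * c} := by
  set δ : ℝ := 2⁻¹ ^ (n + i) with hδ
  have hδ0 : 0 < δ := by positivity
  have h2δ : (2:ℝ) ^ (n + i) * δ = 1 := by rw [hδ, ← mul_pow]; norm_num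
  set A : ℕ → ℝ := fun l => ((2 ^ i * k + l : ℤ) : ℝ) * δ with hA
  have hA' : ∀ l : ℕ, (((2 ^ i * k + l : ℤ) : ℝ) + 1) * δ = A l + δ := fun l => by
    rw [hA]; ring
  set E : ℕ → Set ℝ := fun l => {x | x ∈ Ioc (A l) (A l + δ) ∧ ‖g x‖ < 2 * c} with hE
  have hEm : ∀ l, MeasurableSet (E l) := by
    intro l
    have : E l = Ioc (A l) (A l + δ) ∩ {x | ‖g x‖ < 2 * c} := rfl
    rw [this]
    exact measurableSet_Ioc.inter (measurableSet_lt hg.norm.measurable measurable_const)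
  have hEhalf : ∀ l ∈ s, δ / 2 ≤ volume.real (E l) := by
    intro l hl
    have h1 := h l hl
    rw [hA'] at h1
    have h2 : ∫ x in (A l)..(A l + δ), ‖g x‖ < c * (A l + δ - A l) := by
      have h3 : 2 ^ (n + i) * (∫ x in (A l)..(A l + δ), ‖g x‖) * δ < c * δ :=
        mul_lt_mul_of_pos_right h1 hδ0
      have h4 : 2 ^ (n + i) * (∫ x in (A l)..(A l + δ), ‖g x‖) * δ
          = ∫ x in (A l)..(A l + δ), ‖g x‖ := by
        linear_combination (∫ x in (A l)..(A l + δ), ‖g x‖) * h2δ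
      rw [h4] at h3
      have h5 : A l + δ - A l = δ := by ring
      rw [h5]
      exact h3
    have h6 := Zer.half_le hg (by linarith) hc h2
    have h7 : A l + δ - A l = δ := by ring
    rwa [h7] at h6
  have hdisj : Set.PairwiseDisjoint (↑s : Set ℕ) E := by
    intro l _ l' _ hne
    rw [Function.onFun, Set.disjoint_left]
    rintro x ⟨hx, _⟩ ⟨hx', _⟩
    rcases lt_or_gt_of_ne hne with hlt | hlt
    · have h1 : (l : ℝ) + 1 ≤ l' := by exact_mod_cast hlt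
      have h2 : A l + δ ≤ A l' := by
        rw [hA]
        push_cast
        nlinarith
      linarith [hx.2, hx'.1]
    · have h1 : (l' : ℝ) + 1 ≤ l := by exact_mod_cast hlt
      have h2 : A l' + δ ≤ A l := by
        rw [hA]
        push_cast
        nlinarith
      linarith [hx'.2, hx.1]
  have hpow : (2⁻¹ : ℝ) ^ n = 2 ^ i * δ := by
    rw [hδ, pow_add, mul_left_comm, ← mul_pow]; norm_num
  have hsub : (⋃ l ∈ s, E l) ⊆
      {x | x ∈ Icc ((k:ℝ) * 2⁻¹ ^ n) (((k:ℝ) + 1) * 2⁻¹ ^ n) ∧ ‖g x‖ < 2 * c} := by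
    intro x hx
    rw [mem_iUnion₂] at hx
    obtain ⟨l, hl, hxl, hgx⟩ := hx
    have hl2 : l < 2 ^ i := Finset.mem_range.mp (hs hl)
    have hl3 : (l : ℝ) + 1 ≤ 2 ^ i := by exact_mod_cast hl2
    have hl4 : (0:ℝ) ≤ l := Nat.cast_nonneg l
    refine ⟨⟨?_, ?_⟩, hgx⟩
    · have : (k:ℝ) * 2⁻¹ ^ n ≤ A l := by
        rw [hpow, hA]
        push_cast
        nlinarith
      linarith [hxl.1]
    · have : A l + δ ≤ ((k:ℝ) + 1) * 2⁻¹ ^ n := by
        rw [hpow, hA]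
        push_cast
        nlinarith
      linarith [hxl.2]
  have hfin : volume {x | x ∈ Icc ((k:ℝ) * 2⁻¹ ^ n) (((k:ℝ) + 1) * 2⁻¹ ^ n) ∧ ‖g x‖ < 2 * c}
      ≠ ⊤ := by
    refine ne_top_of_le_ne_top ?_ (measure_mono (t := Icc ((k:ℝ) * 2⁻¹ ^ n)
      (((k:ℝ) + 1) * 2⁻¹ ^ n)) fun x hx => hx.1)
    rw [Real.volume_Icc]
    exact ENNReal.ofReal_ne_top
  have h1 : volume.real (⋃ l ∈ s, E l) ≤ volume.real
      {x | x ∈ Icc ((k:ℝ) * 2⁻¹ ^ n) (((k:ℝ) + 1) * 2⁻¹ ^ n) ∧ ‖g x‖ < 2 * c} :=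
    measureReal_mono hsub hfin
  have h2 : volume.real (⋃ l ∈ s, E l) = ∑ l ∈ s, volume.real (E l) := by
    refine measureReal_biUnion_finset hdisj (fun l _ => hEm l) (fun l _ => ?_)
    refine ne_top_of_le_ne_top ?_ (measure_mono (t := Ioc (A l) (A l + δ)) fun x hx => hx.1)
    rw [Real.volume_Ioc]
    exact ENNReal.ofReal_ne_top
  have h3 : (s.card : ℝ) * (δ / 2) ≤ ∑ l ∈ s, volume.real (E l) := by
    rw [← nsmul_eq_mul, ← Finset.sum_const]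
    exact Finset.sum_le_sum hEhalf
  rw [h2] at h1
  linarith

end Pool.Agent.Lib_helper81.Dir
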