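import Pool.Agent.Lib_helper81.Dir.Kern
import Pool.Agent.Lib_helper81.Dir.Blaschke
import Pool.Agent.Lib_helper81.Dir.Phi
import Pool.Agent.Lib_helper81.Dir.Zeros

/-!
Mass of zeros in boxes and the size of a function (necessity).
-/

namespace Pool.Agent.Lib_helper81.Dir

open Complex Metric Set Filter Topology

namespace Mass

lemma ex_inj {x y : ℝ} (h : ex x = ex y) : ∃ N : ℤ, x = y + N := by
  unfold ex at h
  rw [Complex.exp_eq_exp_iff_exists_int] at h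
  obtain ⟨N, hN⟩ := h
  refine ⟨N, ?_⟩
  have hpi : (Real.pi : ℂ) ≠ 0 := by exact_mod_cast Real.pi_ne_zero
  have h2 : (2 * (Real.pi : ℂ) * Complex.I) * (x : ℂ) = (2 * (Real.pi : ℂ) * Complex.I) *
      ((y : ℂ) + N) := by
    push_cast at hN
    linear_combination hN
  have h3 : (2 * (Real.pi : ℂ) * Complex.I) ≠ 0 :=
    mul_ne_zero (mul_ne_zero two_ne_zero hpi) Complex.I_ne_zero
  have h4 := mul_left_cancel₀ h3 h2
  exact_mod_cast h4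

lemma half_pow_le {a b : ℕ} (h : a ≤ b) : (2⁻¹ : ℝ) ^ b ≤ 2⁻¹ ^ a :=
  pow_le_pow_of_le_one (by norm_num) (by norm_num) h

lemma box_gen_le {w : ℂ} {n n' : ℕ} {k k' : ℤ} (h : w ∈ box n k) (h' : w ∈ box n' k') :
    n' ≤ n := by
  by_contra hcon
  push Not at hcon
  have h1 := h.2.1
  have h2 := h'.1
  have h3 := half_pow_le (show n + 1 ≤ n' from hcon)
  linarith

end Mass

open Mass

theorem box_unique {w : ℂ} {n n' : ℕ} {k k' : ℤ} (h : w ∈ box n k) (h' : w ∈ box n' k')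
    (hk : 0 ≤ k) (hk1 : k < 2 ^ n) (hk' : 0 ≤ k') (hk1' : k' < 2 ^ n') : n = n' ∧ k = k' := by
  have hn : n = n' := le_antisymm (box_gen_le h' h) (box_gen_le h h')
  subst hn
  refine ⟨rfl, ?_⟩
  rcases Nat.eq_zero_or_pos n with h0 | hpos
  · subst h0
    simp only [pow_zero] at hk1 hk1'
    omega
  · obtain ⟨a1, _, x, hx1, hx2, hx3⟩ := h
    obtain ⟨_, _, y, hy1, hy2, hy3⟩ := h'
    have hn1 := half_pow_le hpos
    rw [pow_one] at hn1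
    have hw : (0 : ℝ) < ‖w‖ := by linarith
    have hwC : (‖w‖ : ℂ) ≠ 0 := by exact_mod_cast hw.ne'
    have hex : ex x = ex y := by
      have : (‖w‖ : ℂ) * ex x = (‖w‖ : ℂ) * ex y := by rw [← hx3, ← hy3]
      exact mul_left_cancel₀ hwC this
    obtain ⟨N, hN⟩ := ex_inj hex
    have hq : (0 : ℝ) < 2⁻¹ ^ n := by positivity
    have hpp : (2 : ℝ) ^ n * 2⁻¹ ^ n = 1 := by rw [← mul_pow]; norm_num
    have b0 : (0 : ℝ) ≤ k := by exact_mod_cast hk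
    have b1 : (k : ℝ) + 1 ≤ 2 ^ n := by exact_mod_cast hk1
    have b0' : (0 : ℝ) ≤ k' := by exact_mod_cast hk'
    have b1' : (k' : ℝ) + 1 ≤ 2 ^ n := by exact_mod_cast hk1'
    have x0 : 0 ≤ x := le_trans (by positivity) hx1
    have y0 : 0 ≤ y := le_trans (by positivity) hy1
    have x1 : x < 1 := lt_of_lt_of_le hx2
      ((mul_le_mul_of_nonneg_right b1 hq.le).trans_eq hpp)
    have y1 : y < 1 := lt_of_lt_of_le hy2
      ((mul_le_mul_of_nonneg_right b1' hq.le).trans_eq hpp)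
    have hN0 : N = 0 := by
      have c1 : (N : ℝ) < 1 := by linarith
      have c2 : (-1 : ℝ) < N := by linarith
      have d1 : N < 1 := by exact_mod_cast c1
      have d2 : -1 < N := by exact_mod_cast c2
      omega
    rw [hN0, Int.cast_zero, add_zero] at hN
    subst hN
    have e1 : (k : ℝ) < k' + 1 := by
      have : (k : ℝ) * 2⁻¹ ^ n < ((k' : ℝ) + 1) * 2⁻¹ ^ n := lt_of_le_of_lt hx1 hy2
      exact lt_of_mul_lt_mul_right this hq.le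
    have e2 : (k' : ℝ) < k + 1 := by
      have : (k' : ℝ) * 2⁻¹ ^ n < ((k : ℝ) + 1) * 2⁻¹ ^ n := lt_of_le_of_lt hy1 hx2
      exact lt_of_mul_lt_mul_right this hq.le
    have f1 : k < k' + 1 := by exact_mod_cast e1
    have f2 : k' < k + 1 := by exact_mod_cast e2
    omega

namespace Mass

variable {ι : Type*}

lemma analyticOnNhd_of_diff {f : ℂ → ℂ} (hf : DifferentiableOn ℂ f (ball 0 1)) :
    AnalyticOnNhd ℂ f (ball 0 1) := hf.analyticOnNhd isOpen_ball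

lemma zeros_finite {f : ℂ → ℂ} (hf : DifferentiableOn ℂ f (ball 0 1))
    (hne : ∃ w ∈ ball (0:ℂ) 1, f w ≠ 0) {ρ : ℝ} (hρ : ρ < 1) :
    {w | w ∈ closedBall (0:ℂ) ρ ∧ f w = 0}.Finite := by
  by_contra hinf
  have hK : IsCompact (closedBall (0:ℂ) ρ) := isCompact_closedBall 0 ρ
  obtain ⟨x, hx, hacc⟩ := Set.Infinite.exists_accPt_of_subset_isCompact hinf hK
    (fun w hw => hw.1)
  have hxb : x ∈ ball (0:ℂ) 1 := by
    rw [mem_ball_zero_iff]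
    rw [mem_closedBall_zero_iff] at hx
    linarith
  have hfreq : ∃ᶠ w in 𝓝[≠] x, f w = 0 :=
    (accPt_iff_frequently_nhdsNE.1 hacc).mono fun w hw => hw.2
  have h0 := (analyticOnNhd_of_diff hf).eqOn_zero_of_preconnected_of_frequently_eq_zero
    (convex_ball (0:ℂ) 1).isPreconnected hxb hfreq
  obtain ⟨w, hw, hw2⟩ := hne
  exact hw2 (h0 hw)

lemma fibre_finite {z : ι → ℂ} {f : ℂ → ℂ} (hf : DifferentiableOn ℂ f (ball 0 1))
    (hne : ∃ w ∈ ball (0:ℂ) 1, f w ≠ 0)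
    (hord : ∀ w ∈ ball (0:ℂ) 1, analyticOrderAt f w = {i | z i = w}.encard) {w : ℂ}
    (hw : w ∈ ball (0:ℂ) 1) : {i | z i = w}.Finite := by
  rw [← Set.encard_ne_top_iff, ← hord w hw]
  intro htop
  rw [analyticOrderAt_eq_top] at htop
  have h0 := (analyticOnNhd_of_diff hf).eqOn_zero_of_preconnected_of_eventuallyEq_zero
    (convex_ball (0:ℂ) 1).isPreconnected hw htop
  obtain ⟨u, hu, hu2⟩ := hne
  exact hu2 (h0 hu)

lemma zero_at {z : ι → ℂ} (hz : ∀ i, ‖z i‖ < 1) {f : ℂ → ℂ}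
    (hord : ∀ w ∈ ball (0:ℂ) 1, analyticOrderAt f w = {i | z i = w}.encard) (i : ι) :
    f (z i) = 0 := by
  have hb : z i ∈ ball (0:ℂ) 1 := by
    rw [mem_ball_zero_iff]
    exact hz i
  apply apply_eq_zero_of_analyticOrderAt_ne_zero
  rw [hord _ hb]
  intro h
  rw [Set.encard_eq_zero] at h
  have : i ∈ ({j | z j = z i} : Set ι) := rfl
  rw [h] at this
  exact this

end Mass

theorem box_finite {ι : Type*} (z : ι → ℂ) (hz : ∀ i, ‖z i‖ < 1) (f : ℂ → ℂ)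
    (hf : DifferentiableOn ℂ f (ball 0 1)) (hne : ∃ w ∈ ball (0:ℂ) 1, f w ≠ 0)
    (hord : ∀ w ∈ ball (0:ℂ) 1, analyticOrderAt f w = {i | z i = w}.encard) (n : ℕ) (k : ℤ) :
    {i | z i ∈ box n k}.Finite := by
  have hρ : 1 - (2⁻¹ : ℝ) ^ (n + 1) < 1 := by
    have : (0 : ℝ) < 2⁻¹ ^ (n + 1) := by positivity
    linarith
  refine ((zeros_finite hf hne hρ).preimage' (f := z) ?_).subset ?_
  · intro w hw
    refine fibre_finite hf hne hord ?_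
    have := hw.1
    rw [mem_closedBall_zero_iff] at this
    rw [mem_ball_zero_iff]
    linarith
  · intro i hi
    refine ⟨?_, zero_at hz hord i⟩
    rw [mem_closedBall_zero_iff]
    exact hi.2.1.le

theorem dilate_factor {ι : Type*} (z : ι → ℂ) (hz : ∀ i, ‖z i‖ < 1) (f : ℂ → ℂ)
    (hf : DifferentiableOn ℂ f (ball 0 1))
    (hord : ∀ w ∈ ball (0:ℂ) 1, analyticOrderAt f w = {i | z i = w}.encard)
    (s : Finset ι) (r : ℝ) (hr0 : 0 < r) (hr1 : r < 1) :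
    ∃ h : ℂ → ℂ, AnalyticOnNhd ℂ h (closedBall 0 1) ∧
      ∀ u ∈ closedBall (0:ℂ) 1, f (r * u) = (∏ i ∈ s, (u - z i / r)) * h u := by
  classical
  obtain ⟨h0, hh0, hfac⟩ := exists_quotient z hz f hf s fun w hw => by
    rw [hord w hw, ← Set.encard_coe_eq_coe_finsetCard]
    exact Set.encard_le_encard fun i hi => (Finset.mem_filter.1 hi).2
  have hrC : (r : ℂ) ≠ 0 := by exact_mod_cast hr0.ne'
  have hmem : ∀ u ∈ closedBall (0:ℂ) 1, (r : ℂ) * u ∈ ball (0:ℂ) 1 := by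
    intro u hu
    rw [mem_closedBall_zero_iff] at hu
    rw [mem_ball_zero_iff, norm_mul, Complex.norm_real, Real.norm_of_nonneg hr0.le]
    nlinarith [norm_nonneg u]
  refine ⟨fun u => (r : ℂ) ^ s.card * h0 (r * u), ?_, ?_⟩
  · intro u hu
    have h1 : AnalyticAt ℂ h0 (r * u) := hh0.analyticAt (isOpen_ball.mem_nhds (hmem u hu))
    have h2 : AnalyticAt ℂ (fun u : ℂ => (r : ℂ) * u) u := by fun_prop
    exact analyticAt_const.mul (h1.fun_comp h2)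
  · intro u hu
    rw [hfac _ (hmem u hu), ← mul_assoc]
    congr 1
    rw [← Finset.prod_const, ← Finset.prod_mul_distrib]
    refine Finset.prod_congr rfl fun i _ => ?_
    field_simp

namespace Mass

variable {ι : Type*}

lemma analyticOnNhd_dilate {f : ℂ → ℂ} (hf : DifferentiableOn ℂ f (ball 0 1)) {r : ℝ}
    (hr0 : 0 < r) (hr1 : r < 1) : AnalyticOnNhd ℂ (fun u : ℂ => f (r * u)) (closedBall 0 1) := by
  intro u hu
  have hm : (r : ℂ) * u ∈ ball (0:ℂ) 1 := by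
    rw [mem_closedBall_zero_iff] at hu
    rw [mem_ball_zero_iff, norm_mul, Complex.norm_real, Real.norm_of_nonneg hr0.le]
    nlinarith [norm_nonneg u]
  have h1 : AnalyticAt ℂ f (r * u) := hf.analyticAt (isOpen_ball.mem_nhds hm)
  have h2 : AnalyticAt ℂ (fun u : ℂ => (r : ℂ) * u) u := by fun_prop
  exact h1.fun_comp h2

/-- Points of a box of generation `n < D`, divided by `r = 1 - 2⁻⁽ᴰ⁺¹⁾`. -/
lemma box_div {n D : ℕ} (hn : n < D) {k : ℤ} {u : ℂ} (hu : u ∈ box n k) :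
    2⁻¹ ^ n / 4 ≤ 1 - ‖u / ((1 - 2⁻¹ ^ (D + 1) : ℝ) : ℂ)‖ ∧
      1 - ‖u / ((1 - 2⁻¹ ^ (D + 1) : ℝ) : ℂ)‖ ≤ 2⁻¹ ^ n := by
  have h1 : (2⁻¹ : ℝ) ^ (D + 1) ≤ 2⁻¹ ^ (n + 2) := half_pow_le (by omega)
  have h2 : (2⁻¹ : ℝ) ^ (n + 2) = 2⁻¹ ^ n / 4 := by rw [pow_add]; norm_num; ring
  have h3 : (2⁻¹ : ℝ) ^ (n + 1) = 2⁻¹ ^ n / 2 := by rw [pow_succ]; ring
  have h4 : (2⁻¹ : ℝ) ^ n ≤ 1 := pow_le_one₀ (by norm_num) (by norm_num)
  have h5 : (0 : ℝ) < 2⁻¹ ^ (D + 1) := by positivity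
  have h6 : (0 : ℝ) < 2⁻¹ ^ n := by positivity
  obtain ⟨a1, a2, -⟩ := hu
  set r : ℝ := 1 - 2⁻¹ ^ (D + 1) with hr
  have hr0 : 0 < r := by linarith
  rw [norm_div, Complex.norm_real, Real.norm_of_nonneg hr0.le]
  have e1 : 1 - ‖u‖ / r = (r - ‖u‖) / r := by field_simp
  rw [e1]
  constructor
  · rw [le_div_iff₀ hr0]
    have : 2⁻¹ ^ n / 4 * r ≤ 2⁻¹ ^ n / 4 := by nlinarith
    linarith
  · rw [div_le_iff₀ hr0]
    nlinarith [norm_nonneg u]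

lemma cnt_eq {z : ι → ℂ} {n : ℕ} {k : ℤ} (h : {i | z i ∈ box n k}.Finite) :
    cnt z n k = h.toFinset.card := by
  unfold cnt
  exact Nat.card_eq_card_finite_toFinset h

/-- The common core of the two mass estimates. -/
lemma core {κ : Type*} (z : ι → ℂ) (hz : ∀ i, ‖z i‖ < 1) (f : ℂ → ℂ)
    (hf : DifferentiableOn ℂ f (ball 0 1))
    (hord : ∀ w ∈ ball (0:ℂ) 1, analyticOrderAt f w = {i | z i = w}.encard)
    (hfin : ∀ n k, {i | z i ∈ box n k}.Finite) (D : ℕ) (P : Finset κ) (a : κ → ℕ) (b : κ → ℤ)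
    (hP : ∀ q ∈ P, a q < D ∧ 0 ≤ b q ∧ b q < 2 ^ a q)
    (hinj : ∀ q ∈ P, ∀ q' ∈ P, a q = a q' → b q = b q' → q = q')
    (w : ℂ) (hw : ‖w‖ < 1) (c : ℝ)
    (hc : ∀ q ∈ P, ∀ u ∈ box (a q) (b q), c * 2⁻¹ ^ a q ≤
      (1 - ‖u / ((1 - 2⁻¹ ^ (D + 1) : ℝ) : ℂ)‖ ^ 2) * (1 - ‖w‖ ^ 2) /
        ‖1 - (starRingEnd ℂ) (u / ((1 - 2⁻¹ ^ (D + 1) : ℝ) : ℂ)) * w‖ ^ 2) :
    ‖f (((1 - 2⁻¹ ^ (D + 1) : ℝ) : ℂ) * w)‖ ^ 2 ≤
      Real.exp (-(c * ∑ q ∈ P, (cnt z (a q) (b q) : ℝ) * 2⁻¹ ^ a q)) *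
        ∫ y in (0:ℝ)..1, pk w y * ‖f (((1 - 2⁻¹ ^ (D + 1) : ℝ) : ℂ) * ex y)‖ ^ 2 := by
  classical
  set r : ℝ := 1 - 2⁻¹ ^ (D + 1) with hr
  have h5 : (0 : ℝ) < 2⁻¹ ^ (D + 1) := by positivity
  have h6 : (2⁻¹ : ℝ) ^ (D + 1) ≤ 2⁻¹ ^ 1 := half_pow_le (by omega)
  rw [pow_one] at h6
  have hr0 : 0 < r := by rw [hr]; linarith
  have hr1 : r < 1 := by rw [hr]; linarith
  set T : κ → Finset ι := fun q => (hfin (a q) (b q)).toFinset with hT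
  have hTm : ∀ q i, i ∈ T q ↔ z i ∈ box (a q) (b q) := by
    intro q i; simp [hT]
  set s : Finset ι := P.biUnion T with hs
  obtain ⟨h, hh, hfac⟩ := dilate_factor z hz f hf hord s r hr0 hr1
  have hp : ∀ i ∈ s, ‖z i / (r : ℂ)‖ < 1 := by
    intro i hi
    rw [hs, Finset.mem_biUnion] at hi
    obtain ⟨q, hq, hiq⟩ := hi
    have h8 := (box_div (hP q hq).1 ((hTm q i).1 hiq)).1
    rw [← hr] at h8
    have h7 : (0 : ℝ) < 2⁻¹ ^ a q := by positivity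
    linarith
  have hmain := norm_sq_le_of_zeros (fun u : ℂ => f (r * u)) h (analyticOnNhd_dilate hf hr0 hr1)
    hh s (fun i => z i / (r : ℂ)) hp hfac w hw
  have hdisj : (P : Set κ).PairwiseDisjoint T := by
    intro q hq q' hq' hne
    rw [Function.onFun, Finset.disjoint_left]
    intro i hi hi'
    rw [hTm] at hi hi'
    obtain ⟨e1, e2⟩ := box_unique hi hi' (hP q hq).2.1 (hP q hq).2.2 (hP q' hq').2.1
      (hP q' hq').2.2
    exact hne (hinj q hq q' hq' e1 e2)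
  have hsum : c * ∑ q ∈ P, (cnt z (a q) (b q) : ℝ) * 2⁻¹ ^ a q ≤
      ∑ i ∈ s, (1 - ‖z i / (r : ℂ)‖ ^ 2) * (1 - ‖w‖ ^ 2) /
        ‖1 - (starRingEnd ℂ) (z i / (r : ℂ)) * w‖ ^ 2 := by
    rw [hs, Finset.sum_biUnion hdisj, Finset.mul_sum]
    refine Finset.sum_le_sum fun q hq => ?_
    have h8 : c * ((cnt z (a q) (b q) : ℝ) * 2⁻¹ ^ a q) = ∑ _i ∈ T q, c * 2⁻¹ ^ a q := by
      rw [Finset.sum_const, nsmul_eq_mul, cnt_eq (hfin (a q) (b q))]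
      ring
    rw [h8]
    exact Finset.sum_le_sum fun i hi => hc q hq (z i) ((hTm q i).1 hi)
  have hint : 0 ≤ ∫ y in (0:ℝ)..1, pk w y * ‖f ((r : ℂ) * ex y)‖ ^ 2 :=
    intervalIntegral.integral_nonneg zero_le_one fun y _ =>
      mul_nonneg (pk_nonneg hw y) (by positivity)
  refine hmain.trans ?_
  exact mul_le_mul_of_nonneg_right (Real.exp_le_exp.2 (neg_le_neg hsum)) hint

end Mass

theorem blaschke_box {ι : Type*} (z : ι → ℂ) (hz : ∀ i, ‖z i‖ < 1) (f : ℂ → ℂ)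
    (hf : DifferentiableOn ℂ f (ball 0 1))
    (hord : ∀ w ∈ ball (0:ℂ) 1, analyticOrderAt f w = {i | z i = w}.encard)
    (hfin : ∀ n k, {i | z i ∈ box n k}.Finite) (D n : ℕ) (hn : n < D) (k : ℤ) (hk0 : 0 ≤ k)
    (hk1 : k < 2 ^ n) :
    ‖f (((1 - 2⁻¹ ^ (D + 1) : ℝ) : ℂ) * wv n k)‖ ^ 2 ≤
      Real.exp (-(2 ^ n * (∑ i ∈ Finset.range (D - n), ∑ l ∈ Finset.range (2 ^ i),
        (cnt z (n + i) (2 ^ i * k + l) : ℝ) * (2⁻¹:ℝ) ^ (n + i)) / 106)) *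
        ∫ y in (0:ℝ)..1, pk (wv n k) y * ‖f (((1 - 2⁻¹ ^ (D + 1) : ℝ) : ℂ) * ex y)‖ ^ 2 := by
  have hcore := core z hz f hf hord hfin D
    ((Finset.range (D - n)).sigma fun i => Finset.range (2 ^ i))
    (fun q : (Σ _ : ℕ, ℕ) => n + q.1) (fun q => 2 ^ q.1 * k + q.2) ?_ ?_ (wv n k)
    (norm_wv_lt n k) (2 ^ n / 106) ?_
  · rw [Finset.sum_sigma'] 
    refine hcore.trans_eq ?_
    congr 3
    ring
  · rintro ⟨i, l⟩ hq
    rw [Finset.mem_sigma, Finset.mem_range, Finset.mem_range] at hq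
    simp only at hq ⊢
    have h1 : (l : ℤ) < 2 ^ i := by exact_mod_cast hq.2
    have h2 : (0 : ℤ) < 2 ^ i := by positivity
    refine ⟨by omega, by positivity, ?_⟩
    rw [pow_add]
    nlinarith
  · rintro ⟨i, l⟩ hq ⟨i', l'⟩ hq' h1 h2
    simp only at h1 h2
    have h3 : i = i' := by omega
    subst h3
    have h4 : l = l' := by
      have : (l : ℤ) = l' := by linarith
      exact_mod_cast this
    subst h4
    rfl
  · rintro ⟨i, l⟩ hq u hu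
    rw [Finset.mem_sigma, Finset.mem_range, Finset.mem_range] at hq
    simp only at hq hu ⊢
    obtain ⟨d1, d2⟩ := box_div (show n + i < D by omega) hu
    obtain ⟨_, _, y, hy1, hy2, hy3⟩ := hu
    set r : ℝ := 1 - 2⁻¹ ^ (D + 1) with hr
    have h5 : (0 : ℝ) < 2⁻¹ ^ (D + 1) := by positivity
    have h6 : (2⁻¹ : ℝ) ^ (D + 1) ≤ 2⁻¹ ^ 1 := half_pow_le (by omega)
    rw [pow_one] at h6
    have hr0 : 0 < r := by rw [hr]; linarith
    set ρ : ℝ := ‖u / (r : ℂ)‖ with hρ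
    have hρ0 : 0 ≤ ρ := norm_nonneg _
    have hu2 : u / (r : ℂ) = (ρ : ℂ) * ex y := by
      rw [hρ, norm_div, Complex.norm_real, Real.norm_of_nonneg hr0.le]
      nth_rw 1 [hy3]
      push_cast
      ring
    have ht0 : (0 : ℝ) < 2⁻¹ ^ n := by positivity
    have ht1 : (2⁻¹ : ℝ) ^ n ≤ 1 := pow_le_one₀ (by norm_num) (by norm_num)
    have hti : (0 : ℝ) < 2⁻¹ ^ (n + i) := by positivity
    have hti2 : (2⁻¹ : ℝ) ^ (n + i) ≤ 2⁻¹ ^ n := half_pow_le (by omega)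
    have h2i : (2 : ℝ) ^ i * 2⁻¹ ^ (n + i) = 2⁻¹ ^ n := by
      rw [pow_add, mul_left_comm, ← mul_pow]; norm_num
    have h2n : (2 : ℝ) ^ n * 2⁻¹ ^ n = 1 := by rw [← mul_pow]; norm_num
    have hl : (l : ℝ) + 1 ≤ 2 ^ i := by exact_mod_cast hq.2
    push_cast at hy1 hy2
    have y1 : (k : ℝ) * 2⁻¹ ^ n ≤ y := by
      refine le_trans ?_ hy1
      rw [← h2i]
      have : 0 ≤ (l : ℝ) * 2⁻¹ ^ (n + i) := by positivity
      nlinarith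
    have y2 : y ≤ ((k : ℝ) + 1) * 2⁻¹ ^ n := by
      refine le_trans hy2.le ?_
      rw [← h2i]
      have : ((l : ℝ) + 1) * 2⁻¹ ^ (n + i) ≤ 2 ^ i * 2⁻¹ ^ (n + i) :=
        mul_le_mul_of_nonneg_right hl hti.le
      nlinarith
    have hden : ‖1 - (starRingEnd ℂ) (u / (r : ℂ)) * wv n k‖ ≤ (2 + Real.pi) * 2⁻¹ ^ n := by
      rw [hu2, wv, one_sub_conj_mul]
      have hb := half_arc (⟨y1, y2⟩ : y ∈ Icc ((k:ℝ) * 2⁻¹ ^ n) (((k:ℝ) + 1) * 2⁻¹ ^ n))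
      have hle : ρ * (1 - 2⁻¹ ^ n) ≤ 1 := by nlinarith
      refine (norm_one_sub_mul_le (ρ * (1 - 2⁻¹ ^ n)) _ hle 0).trans ?_
      rw [Int.cast_zero, sub_zero, abs_sub_comm]
      have h7 : 2 * Real.pi * |y - ((k:ℝ) + 1 / 2) * 2⁻¹ ^ n| ≤ 2 * Real.pi * (2⁻¹ ^ n / 2) :=
        mul_le_mul_of_nonneg_left hb (by positivity)
      nlinarith
    have hpi := Real.pi_lt_d4
    have hpi0 := Real.pi_pos
    have hden2 : ‖1 - (starRingEnd ℂ) (u / (r : ℂ)) * wv n k‖ ^ 2 ≤ 26.5 * (2⁻¹ ^ n) ^ 2 := by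
      have h8 := pow_le_pow_left₀ (norm_nonneg _) hden 2
      rw [mul_pow] at h8
      have h9 : (2 + Real.pi) ^ 2 ≤ 26.5 := by nlinarith
      exact h8.trans (mul_le_mul_of_nonneg_right h9 (by positivity))
    have hden0 : 0 < ‖1 - (starRingEnd ℂ) (u / (r : ℂ)) * wv n k‖ := by
      rw [norm_pos_iff]
      exact den_ne (by linarith) (norm_wv_lt n k)
    have hnum1 : 2⁻¹ ^ (n + i) / 4 ≤ 1 - ρ ^ 2 := by nlinarith
    have hnum2 := le_one_sub_norm_sq n k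
    rw [le_div_iff₀ (by positivity)]
    calc 2 ^ n / 106 * 2⁻¹ ^ (n + i) * ‖1 - (starRingEnd ℂ) (u / (r : ℂ)) * wv n k‖ ^ 2
        ≤ 2 ^ n / 106 * 2⁻¹ ^ (n + i) * (26.5 * (2⁻¹ ^ n) ^ 2) :=
          mul_le_mul_of_nonneg_left hden2 (by positivity)
      _ = (2⁻¹ ^ (n + i) / 4) * 2⁻¹ ^ n * (2 ^ n * 2⁻¹ ^ n) := by ring
      _ = (2⁻¹ ^ (n + i) / 4) * 2⁻¹ ^ n := by rw [h2n, mul_one]
      _ ≤ (1 - ρ ^ 2) * (1 - ‖wv n k‖ ^ 2) :=
          mul_le_mul hnum1 hnum2 ht0.le (by linarith)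

theorem blaschke_root {ι : Type*} (z : ι → ℂ) (hz : ∀ i, ‖z i‖ < 1) (f : ℂ → ℂ)
    (hf : DifferentiableOn ℂ f (ball 0 1))
    (hord : ∀ w ∈ ball (0:ℂ) 1, analyticOrderAt f w = {i | z i = w}.encard)
    (hfin : ∀ n k, {i | z i ∈ box n k}.Finite) (D : ℕ) (w : ℂ) (hw : ‖w‖ < 1) :
    ‖f (((1 - 2⁻¹ ^ (D + 1) : ℝ) : ℂ) * w)‖ ^ 2 ≤
      Real.exp (-((1 - ‖w‖) / 16 * ∑ i ∈ Finset.range D, ∑ l ∈ Finset.range (2 ^ i),
        (cnt z i l : ℝ) * (2⁻¹:ℝ) ^ i)) *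
        ∫ y in (0:ℝ)..1, pk w y * ‖f (((1 - 2⁻¹ ^ (D + 1) : ℝ) : ℂ) * ex y)‖ ^ 2 := by
  have hw0 := norm_nonneg w
  have hcore := core z hz f hf hord hfin D
    ((Finset.range D).sigma fun i => Finset.range (2 ^ i))
    (fun q : (Σ _ : ℕ, ℕ) => q.1) (fun q => (q.2 : ℤ)) ?_ ?_ w hw ((1 - ‖w‖) / 16) ?_
  · rw [Finset.sum_sigma']
    exact hcore
  · rintro ⟨i, l⟩ hq
    rw [Finset.mem_sigma, Finset.mem_range, Finset.mem_range] at hq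
    simp only at hq ⊢
    exact ⟨hq.1, by positivity, by exact_mod_cast hq.2⟩
  · rintro ⟨i, l⟩ hq ⟨i', l'⟩ hq' h1 h2
    simp only at h1 h2
    subst h1
    have h4 : l = l' := by exact_mod_cast h2
    subst h4
    rfl
  · rintro ⟨i, l⟩ hq u hu
    rw [Finset.mem_sigma, Finset.mem_range, Finset.mem_range] at hq
    simp only at hq hu ⊢
    obtain ⟨d1, d2⟩ := box_div hq.1 hu
    set p : ℂ := u / ((1 - 2⁻¹ ^ (D + 1) : ℝ) : ℂ) with hp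
    have hti : (0 : ℝ) < 2⁻¹ ^ i := by positivity
    have hp0 := norm_nonneg p
    have hp1 : ‖p‖ < 1 := by linarith
    have hden0 : 0 < ‖1 - (starRingEnd ℂ) p * w‖ := by
      rw [norm_pos_iff]
      exact den_ne hp1 hw
    have hden : ‖1 - (starRingEnd ℂ) p * w‖ ≤ 2 := by
      have h1 := norm_sub_le (1 : ℂ) ((starRingEnd ℂ) p * w)
      rw [norm_one, norm_mul, RCLike.norm_conj] at h1
      nlinarith
    have hden2 : ‖1 - (starRingEnd ℂ) p * w‖ ^ 2 ≤ 4 := by nlinarith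
    have hnum1 : 2⁻¹ ^ i / 4 ≤ 1 - ‖p‖ ^ 2 := by nlinarith
    have hnum2 : 1 - ‖w‖ ≤ 1 - ‖w‖ ^ 2 := by nlinarith
    have hw1 : 0 < 1 - ‖w‖ := by linarith
    rw [le_div_iff₀ (by positivity)]
    calc (1 - ‖w‖) / 16 * 2⁻¹ ^ i * ‖1 - (starRingEnd ℂ) p * w‖ ^ 2
        ≤ (1 - ‖w‖) / 16 * 2⁻¹ ^ i * 4 := mul_le_mul_of_nonneg_left hden2 (by positivity)
      _ = (2⁻¹ ^ i / 4) * (1 - ‖w‖) := by ring
      _ ≤ (1 - ‖p‖ ^ 2) * (1 - ‖w‖ ^ 2) := mul_le_mul hnum1 hnum2 hw1.le (by linarith)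

theorem zero_in_box {ι : Type*} (z : ι → ℂ) (hz : ∀ i, ‖z i‖ < 1) (f : ℂ → ℂ)
    (hord : ∀ w ∈ ball (0:ℂ) 1, analyticOrderAt f w = {i | z i = w}.encard)
    (D n : ℕ) (hn : n < D) (k : ℤ) (hcnt : cnt z n k ≠ 0) :
    ∃ ρ y : ℝ, 0 ≤ ρ ∧ 2⁻¹ ^ n / 4 ≤ 1 - ρ ∧ 1 - ρ ≤ 2⁻¹ ^ n ∧ (k:ℝ) * 2⁻¹ ^ n ≤ y ∧
      y ≤ ((k:ℝ) + 1) * 2⁻¹ ^ n ∧
      f (((1 - 2⁻¹ ^ (D + 1) : ℝ) : ℂ) * ((ρ : ℂ) * ex y)) = 0 := by
  obtain ⟨⟨i, hi⟩⟩ : Nonempty {i // z i ∈ box n k} := by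
    by_contra hcon
    rw [not_nonempty_iff] at hcon
    exact hcnt (by unfold cnt; exact Nat.card_of_isEmpty)
  obtain ⟨d1, d2⟩ := box_div hn hi
  obtain ⟨_, _, y, hy1, hy2, hy3⟩ := hi
  set r : ℝ := 1 - 2⁻¹ ^ (D + 1) with hr
  have h6 : (2⁻¹ : ℝ) ^ (D + 1) ≤ 2⁻¹ ^ 1 := half_pow_le (by omega)
  rw [pow_one] at h6
  have hr0 : 0 < r := by rw [hr]; linarith
  have hrC : (r : ℂ) ≠ 0 := by exact_mod_cast hr0.ne'
  refine ⟨‖z i / (r : ℂ)‖, y, norm_nonneg _, d1, d2, hy1, hy2.le, ?_⟩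
  have : (r : ℂ) * (((‖z i / (r : ℂ)‖ : ℝ) : ℂ) * ex y) = z i := by
    rw [norm_div, Complex.norm_real, Real.norm_of_nonneg hr0.le]
    nth_rw 2 [hy3]
    push_cast
    field_simp
  rw [this]
  exact zero_at hz hord i

end Pool.Agent.Lib_helper81.Dir
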