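import Pool.Agent.Lib_helper81.Dir.Tree2
import Pool.Agent.Lib_helper81.Dir.Cover

/-!
Zero sets of the Dirichlet space: the induction of the necessity part (helper84).
-/

namespace Pool.Agent.Lib_helper81.Dir

open Finset

namespace NecOne

variable {κ : ℝ} {m : ℕ → ℤ → ℕ}

theorem ts_congr {F G : ℕ → ℤ → ℝ} (d : ℕ) : ∀ (n : ℕ) (k : ℤ),
    (∀ n', n ≤ n' → ∀ k', F n' k' = G n' k') → ts F d n k = ts G d n k := by
  induction d with
  | zero => intro n k _; simp [ts]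
  | succ d ih =>
    intro n k h
    rw [ts, ts, h n le_rfl k, ih (n + 1) (2 * k) (fun n' hn' => h n' (by omega)),
      ih (n + 1) (2 * k + 1) (fun n' hn' => h n' (by omega))]

/-- minimum over `b` of `(a - b) ^ 2 + c * b ^ 2` -/
theorem min_sq (a b c : ℝ) (hc : 0 ≤ c) : a ^ 2 * (c / (1 + c)) ≤ (a - b) ^ 2 + c * b ^ 2 := by
  rw [mul_div_assoc', div_le_iff₀ (by positivity)]
  nlinarith [sq_nonneg (a - b - c * b)]

end NecOne

open NecOne

variable {κ : ℝ} {m : ℕ → ℤ → ℕ}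

theorem snd_eq (_hκ : 0 < κ) (D d n : ℕ) (k : ℤ) (h : n + d = D) :
    (pair κ m d n k).2 = ts (fun n' k' => (if (pair κ m (D - n') n' k').1 = 1
      then (2⁻¹ : ℝ) ^ n' else 0) + m n' k' * (2⁻¹ : ℝ) ^ n') d n k := by
  induction d generalizing n k with
  | zero => simp [ts, pair]
  | succ d ih =>
    have hd : D - n = d + 1 := by omega
    rw [ts, ← ih (n + 1) (2 * k) (by omega), ← ih (n + 1) (2 * k + 1) (by omega), hd]
    rcases pair_cases κ m d n k with ⟨-, h1, h2⟩ | ⟨h0, -, h1, h2, -⟩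
    · rw [h2, if_pos h1]
      ring
    · rw [h2, if_neg h1.ne, h0]
      simp

theorem level_sum (ε H : ℕ → ℤ → ℝ)
    (hsup : ∀ n k, ε (n + 1) (2 * k) + ε (n + 1) (2 * k + 1) + (H n k - H (n + 1) (2 * k)) ^ 2 +
      (H n k - H (n + 1) (2 * k + 1)) ^ 2 ≤ ε n k) (n i : ℕ) (k : ℤ) :
    ∑ l ∈ Finset.range (2 ^ i), ε (n + i) (2 ^ i * k + l) ≤ ε n k := by
  induction i generalizing n k with
  | zero => simp
  | succ i ih =>
    have h2 : (2 : ℕ) ^ (i + 1) = 2 ^ i + 2 ^ i := by ring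
    rw [h2, sum_range_add]
    have e1 : ∑ l ∈ range (2 ^ i), ε (n + (i + 1)) (2 ^ (i + 1) * k + l)
        = ∑ l ∈ range (2 ^ i), ε (n + 1 + i) (2 ^ i * (2 * k) + l) := by
      refine sum_congr rfl fun l _ => ?_
      rw [show n + 1 + i = n + (i + 1) by ring,
        show (2 : ℤ) ^ i * (2 * k) + l = 2 ^ (i + 1) * k + l by ring]
    have e2 : ∑ l ∈ range (2 ^ i), ε (n + (i + 1)) (2 ^ (i + 1) * k + ((2 ^ i + l : ℕ) : ℤ))
        = ∑ l ∈ range (2 ^ i), ε (n + 1 + i) (2 ^ i * (2 * k + 1) + l) := by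
      refine sum_congr rfl fun l _ => ?_
      rw [show n + 1 + i = n + (i + 1) by ring,
        show (2 : ℤ) ^ i * (2 * k + 1) + l = 2 ^ (i + 1) * k + ((2 ^ i + l : ℕ) : ℤ) by
          push_cast; ring]
    rw [e1, e2]
    have a1 := ih (n + 1) (2 * k)
    have a2 := ih (n + 1) (2 * k + 1)
    have a3 := hsup n k
    nlinarith [sq_nonneg (H n k - H (n + 1) (2 * k)), sq_nonneg (H n k - H (n + 1) (2 * k + 1))]

namespace NecOne

theorem mass_eq (hκ : 0 < κ) (D d n : ℕ) (k : ℤ) (h : n + (d + 1) = D) :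
    (pair κ m d (n + 1) (2 * k)).2 + (pair κ m d (n + 1) (2 * k + 1)).2 + m n k * (2⁻¹ : ℝ) ^ n =
      (∑ i ∈ Finset.range (D - n), ∑ l ∈ Finset.range (2 ^ i),
        (if 0 < i ∧ (pair κ m (D - (n + i)) (n + i) (2 ^ i * k + l)).1 = 1
          then (2⁻¹ : ℝ) ^ (n + i) else 0)) +
      ∑ i ∈ Finset.range (D - n), ∑ l ∈ Finset.range (2 ^ i),
        (m (n + i) (2 ^ i * k + l) : ℝ) * (2⁻¹ : ℝ) ^ (n + i) := by
  classical
  set G0 : ℕ → ℤ → ℝ := fun n' k' => (if n < n' ∧ (pair κ m (D - n') n' k').1 = 1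
      then (2⁻¹ : ℝ) ^ n' else 0) + m n' k' * (2⁻¹ : ℝ) ^ n' with hG0
  set G : ℕ → ℤ → ℝ := fun n' k' => (if (pair κ m (D - n') n' k').1 = 1
      then (2⁻¹ : ℝ) ^ n' else 0) + m n' k' * (2⁻¹ : ℝ) ^ n' with hG
  have hc : ∀ n', n + 1 ≤ n' → ∀ k', G0 n' k' = G n' k' := by
    intro n' hn' k'
    have : n < n' := by omega
    simp only [hG0, hG, this, true_and]
  have h1 : ts G0 (d + 1) n k = (pair κ m d (n + 1) (2 * k)).2 +
      (pair κ m d (n + 1) (2 * k + 1)).2 + m n k * (2⁻¹ : ℝ) ^ n := by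
    rw [ts, ts_congr d (n + 1) (2 * k) hc, ts_congr d (n + 1) (2 * k + 1) hc,
      ← snd_eq hκ D d (n + 1) (2 * k) (by omega), ← snd_eq hκ D d (n + 1) (2 * k + 1) (by omega)]
    simp only [hG0, lt_irrefl, false_and, if_false, zero_add]
    ring
  rw [← h1, ts_eq, ← sum_add_distrib]
  have hd : D - n = d + 1 := by omega
  rw [hd]
  refine sum_congr rfl fun i _ => ?_
  rw [← sum_add_distrib]
  refine sum_congr rfl fun l _ => ?_
  simp only [hG0]
  have e : (n < n + i) ↔ (0 < i) := by omega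
  simp only [e]

/-- the step at an unmarked arc -/
theorem step (κ t1 t2 h h1 h2 e e1 e2 : ℝ) (hκ : 0 < κ) (ht1 : 0 ≤ t1) (ht2 : 0 ≤ t2)
    (i1 : κ * t1 * h1 ^ 2 ≤ e1) (i2 : κ * t2 * h2 ^ 2 ≤ e2)
    (hs : e1 + e2 + (h - h1) ^ 2 + (h - h2) ^ 2 ≤ e) :
    κ * (t1 / (1 + κ * t1) + t2 / (1 + κ * t2)) * h ^ 2 ≤ e := by
  have a1 := min_sq h h1 (κ * t1) (by positivity)
  have a2 := min_sq h h2 (κ * t2) (by positivity)
  have e3 : κ * (t1 / (1 + κ * t1) + t2 / (1 + κ * t2)) * h ^ 2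
      = h ^ 2 * (κ * t1 / (1 + κ * t1)) + h ^ 2 * (κ * t2 / (1 + κ * t2)) := by ring
  rw [e3]
  linarith

end NecOne

theorem nec_induction (hκ : 0 < κ) (D : ℕ) (ε H : ℕ → ℤ → ℝ) (_hε : ∀ n k, 0 ≤ ε n k)
    (hsup : ∀ n k, ε (n + 1) (2 * k) + ε (n + 1) (2 * k + 1) + (H n k - H (n + 1) (2 * k)) ^ 2 +
      (H n k - H (n + 1) (2 * k + 1)) ^ 2 ≤ ε n k)
    (hZ : ∀ n < D, ∀ k : ℤ, 0 ≤ k → k < 2 ^ n → m n k ≠ 0 → κ * H n k ^ 2 ≤ ε n k)
    (hMass : ∀ n < D, ∀ k : ℤ, 0 ≤ k → k < 2 ^ n →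
      (∀ i : ℕ, 0 < i → n + i < D → ∀ l : ℕ, l < 2 ^ i →
        (pair κ m (D - (n + i)) (n + i) (2 ^ i * k + l)).1 = 1 →
        κ * H (n + i) (2 ^ i * k + l) ^ 2 ≤ ε (n + i) (2 ^ i * k + l)) →
      (2⁻¹ : ℝ) ^ n ≤ κ * ((∑ i ∈ Finset.range (D - n), ∑ l ∈ Finset.range (2 ^ i),
        (if 0 < i ∧ (pair κ m (D - (n + i)) (n + i) (2 ^ i * k + l)).1 = 1
          then (2⁻¹ : ℝ) ^ (n + i) else 0)) +
        ∑ i ∈ Finset.range (D - n), ∑ l ∈ Finset.range (2 ^ i),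
          (m (n + i) (2 ^ i * k + l) : ℝ) * (2⁻¹ : ℝ) ^ (n + i)) →
      κ * H n k ^ 2 ≤ ε n k) :
    ∀ n ≤ D, ∀ k : ℤ, 0 ≤ k → k < 2 ^ n → κ * (pair κ m (D - n) n k).1 * H n k ^ 2 ≤ ε n k := by
  suffices hmain : ∀ d n : ℕ, n + d = D → ∀ k : ℤ, 0 ≤ k → k < 2 ^ n →
      κ * (pair κ m d n k).1 * H n k ^ 2 ≤ ε n k by
    intro n hn k hk0 hk1
    exact hmain (D - n) n (by omega) k hk0 hk1
  intro d
  induction d using Nat.strong_induction_on with
  | _ d ih =>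
    intro n hn k hk0 hk1
    rcases d with _ | d
    · have := _hε n k
      simpa [pair] using this
    · have hp : (2 : ℤ) ^ (n + 1) = 2 * 2 ^ n := by ring
      have c1 := ih d (by omega) (n + 1) (by omega) (2 * k) (by omega) (by omega)
      have c2 := ih d (by omega) (n + 1) (by omega) (2 * k + 1) (by omega) (by omega)
      have hst := step κ (pair κ m d (n + 1) (2 * k)).1 (pair κ m d (n + 1) (2 * k + 1)).1
        (H n k) (H (n + 1) (2 * k)) (H (n + 1) (2 * k + 1)) (ε n k) (ε (n + 1) (2 * k))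
        (ε (n + 1) (2 * k + 1)) hκ (pair_fst_nonneg hκ _ _ _) (pair_fst_nonneg hκ _ _ _)
        c1 c2 (hsup n k)
      rcases pair_cases κ m d n k with ⟨hor, h1, -⟩ | ⟨-, h1, -, -, -⟩
      · rw [h1, mul_one]
        rcases hor with h | h | h
        · exact hZ n (by omega) k hk0 hk1 h
        · refine le_trans ?_ hst
          have : κ * 1 * H n k ^ 2 ≤ κ * ((pair κ m d (n + 1) (2 * k)).1 /
              (1 + κ * (pair κ m d (n + 1) (2 * k)).1) + (pair κ m d (n + 1) (2 * k + 1)).1 /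
              (1 + κ * (pair κ m d (n + 1) (2 * k + 1)).1)) * H n k ^ 2 :=
            mul_le_mul_of_nonneg_right (mul_le_mul_of_nonneg_left h hκ.le) (sq_nonneg _)
          linarith
        · refine hMass n (by omega) k hk0 hk1 ?_ ?_
          · intro i hi hni l hl hmk
            have hl' : (l : ℤ) < 2 ^ i := by exact_mod_cast hl
            have hpi : (0 : ℤ) < 2 ^ i := by positivity
            have b0 : 0 ≤ (2 : ℤ) ^ i * k + l := by positivity
            have b1 : (2 : ℤ) ^ i * k + l < 2 ^ (n + i) := by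
              have : (2 : ℤ) ^ (n + i) = 2 ^ i * 2 ^ n := by rw [pow_add]; ring
              rw [this]
              nlinarith
            have := ih (D - (n + i)) (by omega) (n + i) (by omega) (2 ^ i * k + l) b0 b1
            rwa [hmk, mul_one] at this
          · rw [← mass_eq hκ D d n k hn]
            exact h
      · rw [h1]
        exact hst

open scoped Classical in
theorem level_count (ε H : ℕ → ℤ → ℝ) (hε : ∀ n k, 0 ≤ ε n k)
    (hsup : ∀ n k, ε (n + 1) (2 * k) + ε (n + 1) (2 * k + 1) + (H n k - H (n + 1) (2 * k)) ^ 2 +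
      (H n k - H (n + 1) (2 * k + 1)) ^ 2 ≤ ε n k) (hκ : 0 < κ) (a : ℝ) (ha : 0 < a) (n : ℕ)
    (k : ℤ) (N : ℕ) (P : ℕ → ℕ → Prop)
    (hP : ∀ i l : ℕ, i < N → l < 2 ^ i → P i l →
      κ * H (n + i) (2 ^ i * k + l) ^ 2 ≤ ε (n + i) (2 ^ i * k + l)) :
    ∑ i ∈ Finset.range N, ∑ l ∈ Finset.range (2 ^ i), (if P i l then (2⁻¹ : ℝ) ^ (n + i) else 0) ≤
      (∑ i ∈ Finset.range N, (((Finset.range (2 ^ i)).filter
        (fun l : ℕ => H (n + i) (2 ^ i * k + l) < a * (3 / 4) ^ i)).card : ℝ) *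
          (2⁻¹ : ℝ) ^ (n + i)) + (2⁻¹ : ℝ) ^ n * 9 * (ε n k / (κ * a ^ 2)) := by
  have hlev : ∀ i ∈ range N, ∑ l ∈ range (2 ^ i), (if P i l then (2⁻¹ : ℝ) ^ (n + i) else 0) ≤
      (((range (2 ^ i)).filter (fun l : ℕ => H (n + i) (2 ^ i * k + l) < a * (3 / 4) ^ i)).card : ℝ)
        * (2⁻¹ : ℝ) ^ (n + i) + (8 / 9 : ℝ) ^ i * ((2⁻¹ : ℝ) ^ n * (ε n k / (κ * a ^ 2))) := by
    intro i hi
    rw [mem_range] at hi
    set c : ℝ := a * (3 / 4) ^ i with hc
    have hc0 : 0 < c := by positivity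
    have hpt : ∀ l ∈ range (2 ^ i), (if P i l then (2⁻¹ : ℝ) ^ (n + i) else 0) ≤
        (if H (n + i) (2 ^ i * k + l) < c then (2⁻¹ : ℝ) ^ (n + i) else 0) +
          (2⁻¹ : ℝ) ^ (n + i) / (κ * c ^ 2) * ε (n + i) (2 ^ i * k + l) := by
      intro l hl
      rw [mem_range] at hl
      have he := hε (n + i) (2 ^ i * k + l)
      have hq : 0 ≤ (2⁻¹ : ℝ) ^ (n + i) / (κ * c ^ 2) * ε (n + i) (2 ^ i * k + l) := by
        positivity
      by_cases h1 : P i l
      · rw [if_pos h1]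
        by_cases h2 : H (n + i) (2 ^ i * k + l) < c
        · rw [if_pos h2]
          linarith
        · rw [if_neg h2, zero_add]
          push Not at h2
          have h3 := hP i l hi hl h1
          have h4 : c ^ 2 ≤ H (n + i) (2 ^ i * k + l) ^ 2 := pow_le_pow_left₀ hc0.le h2 2
          have h5 : κ * c ^ 2 ≤ ε (n + i) (2 ^ i * k + l) :=
            (mul_le_mul_of_nonneg_left h4 hκ.le).trans h3
          rw [div_mul_eq_mul_div, le_div_iff₀ (by positivity)]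
          exact mul_le_mul_of_nonneg_left h5 (by positivity)
      · rw [if_neg h1]
        split_ifs
        · positivity
        · linarith
    refine (sum_le_sum hpt).trans ?_
    rw [sum_add_distrib, ← sum_filter, sum_const, nsmul_eq_mul, ← mul_sum]
    refine add_le_add le_rfl ?_
    have h6 := level_sum ε H hsup n i k
    have h7 : 0 ≤ (2⁻¹ : ℝ) ^ (n + i) / (κ * c ^ 2) := by positivity
    refine (mul_le_mul_of_nonneg_left h6 h7).trans (le_of_eq ?_)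
    have h8 : c ^ 2 = a ^ 2 * (9 / 16) ^ i := by
      rw [hc, mul_pow, ← pow_mul, mul_comm i 2, pow_mul]
      norm_num
    have h9 : (2⁻¹ : ℝ) ^ (n + i) = 2⁻¹ ^ n * ((8 / 9) ^ i * (9 / 16) ^ i) := by
      rw [pow_add, ← mul_pow]
      norm_num
    rw [h8, h9]
    have h10 : (0 : ℝ) < (9 / 16) ^ i := by positivity
    field_simp
  refine (sum_le_sum hlev).trans ?_
  rw [sum_add_distrib, ← sum_mul]
  refine add_le_add le_rfl ?_
  have hg := Cover.geom_le (8 / 9) (by norm_num) (by norm_num) N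
  have h9 : ∑ j ∈ range N, (8 / 9 : ℝ) ^ j ≤ 9 := hg.trans (by norm_num)
  have hnn : 0 ≤ (2⁻¹ : ℝ) ^ n * (ε n k / (κ * a ^ 2)) := by
    have := hε n k
    positivity
  refine (mul_le_mul_of_nonneg_right h9 hnn).trans (le_of_eq ?_)
  ring

end Pool.Agent.Lib_helper81.Dir
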