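import Pool.Agent.Lib_helper81.Dir.Fd

/-!
Zero sets of the Dirichlet space: monotonicity in the depth, and the Blaschke condition.
-/

namespace Pool.Agent.Lib_helper81.Dir

open Complex Metric Set Filter Topology

variable {ι : Type*} {κ : ℝ} {m : ℕ → ℤ → ℕ}

lemma frac_mono (hκ : 0 < κ) {a b : ℝ} (ha : 0 ≤ a) (hab : a ≤ b) :
    a / (1 + κ * a) ≤ b / (1 + κ * b) := by
  have h1 : 0 < 1 + κ * a := by positivity
  have h2 : 0 < 1 + κ * b := by nlinarith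
  rw [div_le_div_iff₀ h1 h2]
  nlinarith

lemma join_mono (hκ : 0 < κ) {len : ℝ} (hlen : 0 ≤ len) (mm : ℕ) {p q p' q' : ℝ × ℝ}
    (hp : 0 ≤ p.1) (hq : 0 ≤ q.1) (hpp : p.1 ≤ p'.1 ∧ p.2 ≤ p'.2) (hqq : q.1 ≤ q'.1 ∧ q.2 ≤ q'.2) :
    (join κ len mm p q).1 ≤ (join κ len mm p' q').1 ∧
      (join κ len mm p q).2 ≤ (join κ len mm p' q').2 := by
  have h1 := frac_mono hκ hp hpp.1
  have h2 := frac_mono hκ hq hqq.1
  have h3 : p.2 + q.2 + mm * len ≤ p'.2 + q'.2 + mm * len := by linarith [hpp.2, hqq.2]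
  rw [join, join]
  split_ifs with a b b
  · exact ⟨le_rfl, by simpa using h3⟩
  · exfalso
    apply b
    rcases a with a | a | a
    · exact Or.inl a
    · exact Or.inr (Or.inl (a.trans (add_le_add h1 h2)))
    · exact Or.inr (Or.inr (a.trans (mul_le_mul_of_nonneg_left h3 hκ.le)))
  · push Not at a
    refine ⟨a.2.1.le, ?_⟩
    change _ ≤ p'.2 + q'.2 + mm * len + len
    change p.2 + q.2 + mm * len ≤ _
    linarith
  · exact ⟨add_le_add h1 h2, h3⟩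

/-- The pairs increase with the depth. -/
lemma pair_mono (hκ : 0 < κ) (d : ℕ) : ∀ (n : ℕ) (k : ℤ),
    (pair κ m d n k).1 ≤ (pair κ m (d + 1) n k).1 ∧
      (pair κ m d n k).2 ≤ (pair κ m (d + 1) n k).2 := by
  induction d with
  | zero =>
    intro n k
    have h1 := pair_fst_nonneg (m := m) hκ (0 + 1) n k
    have h2 := pair_snd_nonneg (m := m) hκ (0 + 1) n k
    exact ⟨by simpa [pair] using h1, by simpa [pair] using h2⟩
  | succ d ih =>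
    intro n k
    rw [pair_succ, pair_succ κ m (d + 1)]
    exact join_mono hκ (by positivity) _ (pair_fst_nonneg hκ _ _ _) (pair_fst_nonneg hκ _ _ _)
      (ih _ _) (ih _ _)

lemma pair_fst_mono (hκ : 0 < κ) (n : ℕ) (k : ℤ) : Monotone fun d => (pair κ m d n k).1 :=
  monotone_nat_of_le_succ fun d => (pair_mono hκ d n k).1

lemma pair_snd_mono (hκ : 0 < κ) (n : ℕ) (k : ℤ) : Monotone fun d => (pair κ m d n k).2 :=
  monotone_nat_of_le_succ fun d => (pair_mono hκ d n k).2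

/-- The limit of the first components. -/
noncomputable def tinf (κ : ℝ) (m : ℕ → ℤ → ℕ) (n : ℕ) (k : ℤ) : ℝ := ⨆ d, (pair κ m d n k).1

lemma bdd_fst (hκ : 0 < κ) (m : ℕ → ℤ → ℕ) (n : ℕ) (k : ℤ) :
    BddAbove (Set.range fun d => (pair κ m d n k).1) := by
  refine ⟨1, ?_⟩
  rintro _ ⟨d, rfl⟩
  exact pair_fst_le_one hκ d n k

lemma le_tinf (hκ : 0 < κ) (m : ℕ → ℤ → ℕ) (d n : ℕ) (k : ℤ) :
    (pair κ m d n k).1 ≤ tinf κ m n k :=
  le_ciSup (bdd_fst hκ m n k) d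

lemma tendsto_tinf (hκ : 0 < κ) (m : ℕ → ℤ → ℕ) (n : ℕ) (k : ℤ) :
    Tendsto (fun d => (pair κ m d n k).1) atTop (𝓝 (tinf κ m n k)) :=
  tendsto_atTop_ciSup (pair_fst_mono hκ n k) (bdd_fst hκ m n k)

lemma tendsto_tinf_sub (hκ : 0 < κ) (m : ℕ → ℤ → ℕ) (n p : ℕ) (k : ℤ) :
    Tendsto (fun D => (pair κ m (D - p) n k).1) atTop (𝓝 (tinf κ m n k)) :=
  (tendsto_tinf hκ m n k).comp (tendsto_sub_atTop_nat p)

/-- The total weight is bounded. -/
lemma sum_wt_le (hκ : 0 < κ) (hκ1 : κ ≤ 2 / 5) {C : ℝ} (hC : ∀ d, (pair κ m d 0 0).2 ≤ C)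
    (D : ℕ) : ∑ p ∈ Finset.range D, ∑ q ∈ Finset.range (2 ^ p),
      ((pair κ m (D - p) p q).1 + m p q) * (2⁻¹ : ℝ) ^ p ≤ 4 + 6 * C := by
  have h1 := ts_wt_le (m := m) hκ hκ1 D D 0 0 (by omega)
  have h2 := pair_fst_le_one (m := m) hκ D 0 0
  have h3 := hC D
  rw [ts_eq] at h1
  simp only [zero_add, mul_zero, pow_zero, mul_one, wt] at h1
  linarith

lemma sum_tinf_le (hκ : 0 < κ) (hκ1 : κ ≤ 2 / 5) {C : ℝ} (hC : ∀ d, (pair κ m d 0 0).2 ≤ C)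
    (N : ℕ) : ∑ p ∈ Finset.range N, ∑ q ∈ Finset.range (2 ^ p),
      tinf κ m p q * (2⁻¹ : ℝ) ^ p ≤ 4 + 6 * C := by
  have hlim : Tendsto (fun D : ℕ => ∑ p ∈ Finset.range N, ∑ q ∈ Finset.range (2 ^ p),
      (pair κ m (D - p) p q).1 * (2⁻¹ : ℝ) ^ p) atTop
      (𝓝 (∑ p ∈ Finset.range N, ∑ q ∈ Finset.range (2 ^ p), tinf κ m p q * (2⁻¹ : ℝ) ^ p)) := by
    refine tendsto_finsetSum _ fun p _ => tendsto_finsetSum _ fun q _ => ?_
    exact (tendsto_tinf_sub hκ m p p q).mul_const _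
  refine le_of_tendsto hlim (eventually_atTop.2 ⟨N, fun D hD => ?_⟩)
  refine le_trans ?_ (sum_wt_le (m := m) hκ hκ1 hC D)
  calc ∑ p ∈ Finset.range N, ∑ q ∈ Finset.range (2 ^ p),
      (pair κ m (D - p) p q).1 * (2⁻¹ : ℝ) ^ p
      ≤ ∑ p ∈ Finset.range N, ∑ q ∈ Finset.range (2 ^ p),
        ((pair κ m (D - p) p q).1 + m p q) * (2⁻¹ : ℝ) ^ p := by
        refine Finset.sum_le_sum fun p _ => Finset.sum_le_sum fun q _ => ?_
        apply mul_le_mul_of_nonneg_right _ (by positivity)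
        have : (0 : ℝ) ≤ m p q := by positivity
        linarith
    _ ≤ _ := by
        apply Finset.sum_le_sum_of_subset_of_nonneg (Finset.range_mono hD)
        intro p _ _
        refine Finset.sum_nonneg fun q _ => ?_
        have := pair_fst_nonneg (m := m) hκ (D - p) p q
        positivity

lemma Sd_mono (z : ι → ℂ) (hfin : ∀ (n : ℕ) (k : ℤ), {i | z i ∈ box n k}.Finite) :
    Monotone (Sd z hfin) := by
  intro D D' h i hi
  rw [mem_Sd] at hi ⊢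
  obtain ⟨p, hp, r⟩ := hi
  exact ⟨p, lt_of_lt_of_le hp h, r⟩

lemma exists_mem_Sd (z : ι → ℂ) (hz : ∀ i, ‖z i‖ < 1)
    (hfin : ∀ (n : ℕ) (k : ℤ), {i | z i ∈ box n k}.Finite) (i : ι) : ∃ D, i ∈ Sd z hfin D := by
  obtain ⟨n, k, hk, hb⟩ := exists_box (hz i)
  exact ⟨n + 1, mem_Sd.2 ⟨n, Nat.lt_succ_self n, k, hk, hb⟩⟩

lemma tendsto_Sd (z : ι → ℂ) (hz : ∀ i, ‖z i‖ < 1)
    (hfin : ∀ (n : ℕ) (k : ℤ), {i | z i ∈ box n k}.Finite) :
    Tendsto (Sd z hfin) atTop atTop :=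
  tendsto_atTop_finset_of_monotone (Sd_mono z hfin) (exists_mem_Sd z hz hfin)

/-- The Blaschke condition. -/
lemma summable_of_criterion (hκ : 0 < κ) (hκ1 : κ ≤ 2 / 5) (z : ι → ℂ) (hz : ∀ i, ‖z i‖ < 1)
    (hfin : ∀ (n : ℕ) (k : ℤ), {i | z i ∈ box n k}.Finite) {C : ℝ}
    (hC : ∀ d, (pair κ (cnt z) d 0 0).2 ≤ C) : Summable fun i => 1 - ‖z i‖ := by
  have h0 : ∀ i, 0 ≤ 1 - ‖z i‖ := fun i => by linarith [hz i]
  have hD : ∀ D, ∑ i ∈ Sd z hfin D, (1 - ‖z i‖) ≤ 4 + 6 * C := by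
    intro D
    refine (sum_Sd_le z hfin D (fun i => 1 - ‖z i‖) h0 (fun p _ => 2⁻¹ ^ p) ?_).trans ?_
    · intro p _ q _ i hi
      obtain ⟨b1, -, -⟩ := hi
      linarith
    · refine le_trans ?_ (sum_wt_le (m := cnt z) hκ hκ1 hC D)
      refine Finset.sum_le_sum fun p _ => Finset.sum_le_sum fun q _ => ?_
      apply mul_le_mul_of_nonneg_right _ (by positivity)
      have := pair_fst_nonneg (m := cnt z) hκ (D - p) p q
      linarith
  refine summable_of_sum_le h0 (c := 4 + 6 * C) fun u => ?_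
  obtain ⟨D, hDu⟩ := ((tendsto_Sd z hz hfin).eventually (eventually_ge_atTop u)).exists
  exact (Finset.sum_le_sum_of_subset_of_nonneg hDu fun i _ _ => h0 i).trans (hD D)

end Pool.Agent.Lib_helper81.Dir
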