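import Pool.Agent.Lib_helper81.Dir.Nec1
import Pool.Agent.Lib_helper81.Dir.Phi
import Pool.Agent.Lib_helper81.Dir.Count
import Pool.Agent.Lib_helper81.Dir.Zeros
import Pool.Agent.Lib_helper81.Dir.Mass
import Pool.Agent.Lib_helper81.Dir.Suff1
import Pool.Agent.Lib_helper81.Dir.Dilate

/-!
Zero sets of the Dirichlet space: necessity of the criterion (helper84).
-/

namespace Pool.Agent.Lib_helper81.Dir

open Complex Metric Set MeasureTheory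

namespace NecTwo

theorem integral_pk {w : ℂ} (hw : ‖w‖ < 1) : ∫ y in (0:ℝ)..1, pk w y = 1 := Cnt.integral_P hw

theorem poisson_pk (F : ℂ → ℂ) (hF : AnalyticOnNhd ℂ F (closedBall 0 1)) {w : ℂ} (hw : ‖w‖ < 1) :
    ∫ y in (0:ℝ)..1, (pk w y : ℂ) * F (ex y) = F w := by
  have h := poisson_formula F hF w (by simpa using hw)
  refine Eq.trans (intervalIntegral.integral_congr fun y _ => ?_) h
  simp only [pk, Complex.real_smul]

theorem arc_bounds {n : ℕ} {k : ℤ} (hk0 : 0 ≤ k) (hk1 : k < 2 ^ n) :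
    0 ≤ (k:ℝ) * 2⁻¹ ^ n ∧ (k:ℝ) * 2⁻¹ ^ n < ((k:ℝ) + 1) * 2⁻¹ ^ n ∧
      ((k:ℝ) + 1) * 2⁻¹ ^ n ≤ 1 := by
  have h0 : (0 : ℝ) < 2⁻¹ ^ n := by positivity
  have hk0' : (0 : ℝ) ≤ k := by exact_mod_cast hk0
  have hk1' : (k : ℝ) + 1 ≤ 2 ^ n := by exact_mod_cast hk1
  have h1 : (2 : ℝ) ^ n * 2⁻¹ ^ n = 1 := by rw [← mul_pow]; norm_num
  refine ⟨by positivity, by nlinarith, ?_⟩
  calc ((k:ℝ) + 1) * 2⁻¹ ^ n ≤ 2 ^ n * 2⁻¹ ^ n := mul_le_mul_of_nonneg_right hk1' h0.le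
    _ = 1 := h1

/-- total length of marked arcs -/
theorem marked_sum_le (F : ℂ → ℂ) (hF : AnalyticOnNhd ℂ F (closedBall 0 1)) (L : ℝ)
    (hg : Continuous fun x => F (ex x))
    (hL : ∀ x y, ‖F (ex x) - F (ex y)‖ ≤ L * ‖ex x - ex y‖) {κ : ℝ} (hκ : 0 < κ)
    (n : ℕ) (k : ℤ) (hk0 : 0 ≤ k) (hk1 : k < 2 ^ n) (N : ℕ) (w : ℂ) (hw : ‖w‖ < 1)
    (hFw : F w ≠ 0) (c0 A : ℝ) (hc0 : 0 < c0) (hA : 0 < A)
    (hpk : ∀ x ∈ Icc ((k:ℝ) * 2⁻¹ ^ n) (((k:ℝ) + 1) * 2⁻¹ ^ n), 1 / (c0 * 2⁻¹ ^ n) ≤ pk w x)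
    (P : ℕ → ℕ → Prop) [∀ i l, Decidable (P i l)]
    (hP : ∀ i l : ℕ, i < N → l < 2 ^ i → P i l →
      κ * Hm (fun x => F (ex x)) (n + i) (2 ^ i * k + l) ^ 2 ≤
        ep (fun x => F (ex x)) (n + i) (2 ^ i * k + l)) :
    ∑ i ∈ Finset.range N, ∑ l ∈ Finset.range (2 ^ i), (if P i l then (2⁻¹ : ℝ) ^ (n + i) else 0) ≤
      2 * (2⁻¹ ^ n * (1 + 7 / 2 * c0 * (Real.log (A / ‖F w‖) +
        (∫ y in (0:ℝ)..1, pk w y * ‖F (ex y)‖) / A))) +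
      (2⁻¹ : ℝ) ^ n * 9 * (ep (fun x => F (ex x)) n k / (κ * (A / 2) ^ 2)) := by
  classical
  set g : ℝ → ℂ := fun x => F (ex x) with hgdef
  have h0 : (0 : ℝ) < 2⁻¹ ^ n := by positivity
  obtain ⟨hα, hαβ, hβ⟩ := arc_bounds hk0 hk1
  have hlc := level_count (ep g) (Hm g) (ep_nonneg g) (ep_super hg hL) hκ (A / 2) (by positivity)
    n k N P hP
  have e1 : ∑ i ∈ Finset.range N, ∑ l ∈ Finset.range (2 ^ i),
      (if P i l then (2⁻¹ : ℝ) ^ (n + i) else 0) ≤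
      (∑ i ∈ Finset.range N, (((Finset.range (2 ^ i)).filter
        (fun l : ℕ => Hm g (n + i) (2 ^ i * k + l) < (A / 2) * (3 / 4) ^ i)).card : ℝ) *
          (2⁻¹ : ℝ) ^ (n + i)) + (2⁻¹ : ℝ) ^ n * 9 * (ep g n k / (κ * (A / 2) ^ 2)) := by
    refine le_trans (le_of_eq ?_) (hlc.trans (le_of_eq ?_))
    · refine Finset.sum_congr rfl fun i _ => Finset.sum_congr rfl fun l _ => ?_
      by_cases h : P i l <;> simp [h]
    · congr!
  refine e1.trans (add_le_add ?_ le_rfl)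
  have e2 : ∀ i ∈ Finset.range N, (((Finset.range (2 ^ i)).filter
        (fun l : ℕ => Hm g (n + i) (2 ^ i * k + l) < (A / 2) * (3 / 4) ^ i)).card : ℝ) *
          (2⁻¹ : ℝ) ^ (n + i) ≤ 2 * MeasureTheory.volume.real
          {x | x ∈ Icc ((k:ℝ) * 2⁻¹ ^ n) (((k:ℝ) + 1) * 2⁻¹ ^ n) ∧
            ‖F (ex x)‖ < A * (3 / 4) ^ i} := by
    intro i _
    have h1 := markov_level g hg n i k ((A / 2) * (3 / 4) ^ i) (by positivity)
      ((Finset.range (2 ^ i)).filter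
        (fun l : ℕ => Hm g (n + i) (2 ^ i * k + l) < (A / 2) * (3 / 4) ^ i))
      (Finset.filter_subset _ _) (by
        intro l hl
        rw [Finset.mem_filter] at hl
        exact hl.2)
    have h2 : 2 * (A / 2 * (3 / 4) ^ i) = A * (3 / 4) ^ i := by ring
    rw [h2] at h1
    exact h1
  refine (Finset.sum_le_sum e2).trans ?_
  rw [← Finset.mul_sum]
  refine mul_le_mul_of_nonneg_left ?_ (by norm_num)
  have hlen : ((k:ℝ) + 1) * 2⁻¹ ^ n - (k:ℝ) * 2⁻¹ ^ n = 2⁻¹ ^ n := by ring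
  have h3 := count_le F hF w hw hFw ((k:ℝ) * 2⁻¹ ^ n) (((k:ℝ) + 1) * 2⁻¹ ^ n) c0 A hα hαβ hβ hc0
    hA (by
      intro x hx
      rw [hlen]
      exact hpk x hx) N
  rw [hlen] at h3
  exact h3

/-- the mean of `‖g‖` against the Poisson kernel -/
theorem int_pk_norm_le (F : ℂ → ℂ) (hg : Continuous fun x => F (ex x)) {w : ℂ} (hw : ‖w‖ < 1)
    (A : ℝ) (hA : 0 < A) :
    (∫ y in (0:ℝ)..1, pk w y * ‖F (ex y)‖) ≤
      (A + (∫ y in (0:ℝ)..1, pk w y * ‖F (ex y)‖ ^ 2) / A) / 2 := by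
  have hcp := continuous_pk hw
  have h1 : ∀ y, pk w y * ‖F (ex y)‖ ≤ A / 2 * pk w y + (2 * A)⁻¹ * (pk w y * ‖F (ex y)‖ ^ 2) := by
    intro y
    have h2 := pk_nonneg hw y
    have h3 : ‖F (ex y)‖ ≤ A / 2 + (2 * A)⁻¹ * ‖F (ex y)‖ ^ 2 := by
      have h4 : A / 2 + (2 * A)⁻¹ * ‖F (ex y)‖ ^ 2 - ‖F (ex y)‖ =
          (2 * A)⁻¹ * (‖F (ex y)‖ - A) ^ 2 := by
        field_simp
        ring
      have h5 : 0 ≤ (2 * A)⁻¹ * (‖F (ex y)‖ - A) ^ 2 := by positivity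
      linarith
    calc pk w y * ‖F (ex y)‖ ≤ pk w y * (A / 2 + (2 * A)⁻¹ * ‖F (ex y)‖ ^ 2) :=
          mul_le_mul_of_nonneg_left h3 h2
      _ = _ := by ring
  have hi1 : IntervalIntegrable (fun y => pk w y * ‖F (ex y)‖) volume 0 1 :=
    (hcp.mul hg.norm).intervalIntegrable _ _
  have hi2 : IntervalIntegrable (fun y => A / 2 * pk w y) volume 0 1 :=
    (continuous_const.mul hcp).intervalIntegrable _ _
  have hi3 : IntervalIntegrable (fun y => (2 * A)⁻¹ * (pk w y * ‖F (ex y)‖ ^ 2)) volume 0 1 :=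
    (continuous_const.mul (hcp.mul (hg.norm.pow 2))).intervalIntegrable _ _
  have h6 := intervalIntegral.integral_mono_on (a := (0:ℝ)) (b := 1) zero_le_one hi1
    (hi2.add hi3) (fun y _ => h1 y)
  rw [intervalIntegral.integral_add hi2 hi3, intervalIntegral.integral_const_mul,
    intervalIntegral.integral_const_mul, integral_pk hw] at h6
  refine h6.trans (le_of_eq ?_)
  field_simp

/-- the mass rule -/
theorem mass_step (F : ℂ → ℂ) (hF : AnalyticOnNhd ℂ F (closedBall 0 1)) (L : ℝ)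
    (hg : Continuous fun x => F (ex x))
    (hL : ∀ x y, ‖F (ex x) - F (ex y)‖ ≤ L * ‖ex x - ex y‖) {κ : ℝ} (hκ : 0 < κ)
    (hκ1 : κ ≤ 1 / 10 ^ 4) (m : ℕ → ℤ → ℕ) (D n : ℕ) (_hn : n < D) (k : ℤ) (hk0 : 0 ≤ k)
    (hk1 : k < 2 ^ n)
    (hbl : ‖F (wv n k)‖ ^ 2 ≤ Real.exp (-(2 ^ n * (∑ i ∈ Finset.range (D - n),
      ∑ l ∈ Finset.range (2 ^ i), (m (n + i) (2 ^ i * k + l) : ℝ) * (2⁻¹:ℝ) ^ (n + i)) / 106)) *
        ∫ y in (0:ℝ)..1, pk (wv n k) y * ‖F (ex y)‖ ^ 2)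
    (hmk : ∀ i : ℕ, 0 < i → n + i < D → ∀ l : ℕ, l < 2 ^ i →
        (pair κ m (D - (n + i)) (n + i) (2 ^ i * k + l)).1 = 1 →
        κ * Hm (fun x => F (ex x)) (n + i) (2 ^ i * k + l) ^ 2 ≤
          ep (fun x => F (ex x)) (n + i) (2 ^ i * k + l))
    (hmass : (2⁻¹ : ℝ) ^ n ≤ κ * ((∑ i ∈ Finset.range (D - n), ∑ l ∈ Finset.range (2 ^ i),
        (if 0 < i ∧ (pair κ m (D - (n + i)) (n + i) (2 ^ i * k + l)).1 = 1
          then (2⁻¹ : ℝ) ^ (n + i) else 0)) +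
        ∑ i ∈ Finset.range (D - n), ∑ l ∈ Finset.range (2 ^ i),
          (m (n + i) (2 ^ i * k + l) : ℝ) * (2⁻¹ : ℝ) ^ (n + i))) :
    κ * Hm (fun x => F (ex x)) n k ^ 2 ≤ ep (fun x => F (ex x)) n k := by
  classical
  set g : ℝ → ℂ := fun x => F (ex x) with hgdef
  set t : ℝ := 2⁻¹ ^ n with ht
  have ht0 : 0 < t := by positivity
  have ht2 : (2 : ℝ) ^ n * t = 1 := by rw [ht, ← mul_pow]; norm_num
  set w : ℂ := wv n k with hwdef
  have hw : ‖w‖ < 1 := norm_wv_lt n k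
  set A2 : ℝ := ∫ y in (0:ℝ)..1, pk w y * ‖F (ex y)‖ ^ 2 with hA2
  set S1 : ℝ := ∑ i ∈ Finset.range (D - n), ∑ l ∈ Finset.range (2 ^ i),
        (if 0 < i ∧ (pair κ m (D - (n + i)) (n + i) (2 ^ i * k + l)).1 = 1
          then (2⁻¹ : ℝ) ^ (n + i) else 0) with hS1
  set S2 : ℝ := ∑ i ∈ Finset.range (D - n), ∑ l ∈ Finset.range (2 ^ i),
          (m (n + i) (2 ^ i * k + l) : ℝ) * (2⁻¹ : ℝ) ^ (n + i) with hS2
  by_contra hcon
  push Not at hcon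
  have hHm : Hm g n k ^ 2 ≤ 18 * A2 := Hm_sq_le hg n k hk0 hk1
  have hep0 : 0 ≤ ep g n k := ep_nonneg g n k
  have hep1 : ep g n k < 18 * κ * A2 := by
    calc ep g n k < κ * Hm g n k ^ 2 := hcon
      _ ≤ κ * (18 * A2) := mul_le_mul_of_nonneg_left hHm hκ.le
      _ = 18 * κ * A2 := by ring
  have hA2pos : 0 < A2 := by
    by_contra h
    push Not at h
    have : 18 * κ * A2 ≤ 0 := mul_nonpos_of_nonneg_of_nonpos (by positivity) h
    linarith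
  -- the value at the centre
  have hmv : A2 - ‖F w‖ ^ 2 ≤ 54 * ∫ x in ((k:ℝ) * 2⁻¹ ^ n)..(((k:ℝ) + 1) * 2⁻¹ ^ n), Phi g x :=
    mean_variance hg hL n k (F w) (integral_pk hw) (poisson_pk F hF hw)
  have hPe := Phi_le_ep g n k
  have hb : A2 / 2 < ‖F w‖ ^ 2 := by
    by_contra h
    push Not at h
    have h1 : A2 / 2 ≤ 54 * ep g n k := by linarith
    have h2 : 18 * κ * A2 ≤ 18 * (1 / 10 ^ 4) * A2 := by
      have := mul_le_mul_of_nonneg_right hκ1 hA2pos.le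
      nlinarith
    norm_num at h2
    linarith
  have hFw : F w ≠ 0 := by
    intro h
    rw [h, norm_zero] at hb
    norm_num at hb
    linarith
  have hFw0 : 0 < ‖F w‖ := norm_pos_iff.2 hFw
  -- the Blaschke mass is small
  have hκt : 0 < t / κ := by positivity
  have hκ2 : (10000 : ℝ) ≤ 1 / κ := by
    rw [le_div_iff₀ hκ]
    have := hκ1
    norm_num at this
    linarith
  have hsum : t / κ ≤ S1 + S2 := by
    rw [div_le_iff₀ hκ]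
    linarith
  have hS2small : S2 < t / (2 * κ) := by
    by_contra h
    push Not at h
    have h1 : 47 ≤ 2 ^ n * S2 / 106 := by
      have h2 : 2 ^ n * (t / (2 * κ)) ≤ 2 ^ n * S2 := mul_le_mul_of_nonneg_left h (by positivity)
      have h3 : (2 : ℝ) ^ n * (t / (2 * κ)) = 1 / κ / 2 := by
        rw [mul_div_assoc', ht2]
        field_simp
      rw [h3] at h2
      rw [le_div_iff₀ (by norm_num)]
      linarith
    have h4 : Real.exp (-(2 ^ n * S2 / 106)) ≤ 1 / 2 := by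
      have h5 := exp_neg_le (2 ^ n * S2 / 106) (by linarith)
      refine h5.trans ?_
      rw [div_le_div_iff₀ (by linarith) (by norm_num)]
      linarith
    have h6 : ‖F w‖ ^ 2 ≤ 1 / 2 * A2 :=
      hbl.trans (mul_le_mul_of_nonneg_right h4 hA2pos.le)
    linarith
  have hS1big : t / (2 * κ) < S1 := by
    have : t / κ = t / (2 * κ) + t / (2 * κ) := by field_simp; ring
    linarith
  -- bound of the marked arcs
  set A : ℝ := Real.sqrt A2 with hAdef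
  have hA : 0 < A := Real.sqrt_pos.2 hA2pos
  have hAsq : A ^ 2 = A2 := Real.sq_sqrt hA2pos.le
  have hms := marked_sum_le F hF L hg hL hκ n k hk0 hk1 (D - n) w hw hFw 18 A (by norm_num) hA
    (by
      intro x hx
      refine le_trans (le_of_eq ?_) (pk_ge hx)
      rw [← ht]
      field_simp)
    (fun i l => 0 < i ∧ (pair κ m (D - (n + i)) (n + i) (2 ^ i * k + l)).1 = 1)
    (by
      intro i l hi hl hP
      exact hmk i hP.1 (by omega) l hl hP.2)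
  have hS1le : S1 ≤ 2 * (t * (1 + 7 / 2 * 18 * (Real.log (A / ‖F w‖) +
        (∫ y in (0:ℝ)..1, pk w y * ‖F (ex y)‖) / A))) +
      t * 9 * (ep g n k / (κ * (A / 2) ^ 2)) := hms
  have hint : (∫ y in (0:ℝ)..1, pk w y * ‖F (ex y)‖) / A ≤ 1 := by
    rw [div_le_one hA]
    refine (int_pk_norm_le F hg hw A hA).trans (le_of_eq ?_)
    rw [← hA2, ← hAsq]
    field_simp
    ring
  have hlog : Real.log (A / ‖F w‖) ≤ 7 / 20 := by
    have h1 : (A / ‖F w‖) ^ 2 ≤ 2 := by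
      rw [div_pow, hAsq, div_le_iff₀ (by positivity)]
      linarith
    have h2 : 2 * Real.log (A / ‖F w‖) ≤ Real.log 2 := by
      have h3 : Real.log ((A / ‖F w‖) ^ 2) ≤ Real.log 2 :=
        Real.log_le_log (by positivity) h1
      rw [Real.log_pow] at h3
      push_cast at h3
      exact h3
    have h4 := Real.log_two_lt_d9
    linarith
  have hepA : ep g n k / (κ * (A / 2) ^ 2) ≤ 72 := by
    rw [div_le_iff₀ (by positivity), div_pow, hAsq]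
    linarith
  have hfin : S1 ≤ 821 * t := by
    have h1 : 2 * (t * (1 + 7 / 2 * 18 * (Real.log (A / ‖F w‖) +
        (∫ y in (0:ℝ)..1, pk w y * ‖F (ex y)‖) / A))) ≤ 2 * (t * (1 + 7 / 2 * 18 * (7 / 20 + 1))) :=
      mul_le_mul_of_nonneg_left (mul_le_mul_of_nonneg_left (by linarith) ht0.le) (by norm_num)
    have h2 : t * 9 * (ep g n k / (κ * (A / 2) ^ 2)) ≤ t * 9 * 72 :=
      mul_le_mul_of_nonneg_left hepA (by positivity)
    linarith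
  have hbig : 5000 * t ≤ t / (2 * κ) := by
    have h3 : t / (2 * κ) = t / 2 * (1 / κ) := by field_simp
    rw [h3]
    have h4 := mul_le_mul_of_nonneg_left hκ2 (show 0 ≤ t / 2 by positivity)
    linarith
  linarith

/-- the fundamental inequality -/
theorem claim (F : ℂ → ℂ) (hF : AnalyticOnNhd ℂ F (closedBall 0 1)) (L : ℝ)
    (hg : Continuous fun x => F (ex x))
    (hL : ∀ x y, ‖F (ex x) - F (ex y)‖ ≤ L * ‖ex x - ex y‖) {κ : ℝ} (hκ : 0 < κ)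
    (hκ1 : κ ≤ 1 / 10 ^ 4) (m : ℕ → ℤ → ℕ) (D : ℕ)
    (hzero : ∀ n < D, ∀ k : ℤ, 0 ≤ k → k < 2 ^ n → m n k ≠ 0 →
      ∃ ρ y : ℝ, 0 ≤ ρ ∧ 2⁻¹ ^ n / 4 ≤ 1 - ρ ∧ 1 - ρ ≤ 2⁻¹ ^ n ∧ (k:ℝ) * 2⁻¹ ^ n ≤ y ∧
        y ≤ ((k:ℝ) + 1) * 2⁻¹ ^ n ∧ F ((ρ : ℂ) * ex y) = 0)
    (hbl : ∀ n < D, ∀ k : ℤ, 0 ≤ k → k < 2 ^ n →
      ‖F (wv n k)‖ ^ 2 ≤ Real.exp (-(2 ^ n * (∑ i ∈ Finset.range (D - n),
      ∑ l ∈ Finset.range (2 ^ i), (m (n + i) (2 ^ i * k + l) : ℝ) * (2⁻¹:ℝ) ^ (n + i)) / 106)) *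
        ∫ y in (0:ℝ)..1, pk (wv n k) y * ‖F (ex y)‖ ^ 2) :
    ∀ n ≤ D, ∀ k : ℤ, 0 ≤ k → k < 2 ^ n →
      κ * (pair κ m (D - n) n k).1 * Hm (fun x => F (ex x)) n k ^ 2 ≤
        ep (fun x => F (ex x)) n k := by
  refine nec_induction hκ D (ep fun x => F (ex x)) (Hm fun x => F (ex x)) (ep_nonneg _)
    (ep_super hg hL) ?_ ?_
  · intro n hn k hk0 hk1 hm
    obtain ⟨ρ, y, hρ0, hρ1, hρ2, hy1, hy2, hz⟩ := hzero n hn k hk0 hk1 hm
    have ht0 : (0:ℝ) < 2⁻¹ ^ n := by positivity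
    have hw : ‖(ρ : ℂ) * ex y‖ < 1 := by
      rw [norm_mul, norm_ex, mul_one, Complex.norm_real, Real.norm_of_nonneg hρ0]
      linarith
    have h1 := Hm_sq_le_of_zero hg hL n k ρ y hρ0 hρ1 hρ2 ⟨hy1, hy2⟩ (integral_pk hw)
      ((poisson_pk F hF hw).trans hz)
    have h2 := Phi_le_ep (fun x => F (ex x)) n k
    have h3 : Hm (fun x => F (ex x)) n k ^ 2 ≤ 1825 * ep (fun x => F (ex x)) n k := by linarith
    have h4 := ep_nonneg (fun x => F (ex x)) n k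
    calc κ * Hm (fun x => F (ex x)) n k ^ 2 ≤ κ * (1825 * ep (fun x => F (ex x)) n k) :=
          mul_le_mul_of_nonneg_left h3 hκ.le
      _ ≤ (1 / 10 ^ 4) * (1825 * ep (fun x => F (ex x)) n k) :=
          mul_le_mul_of_nonneg_right hκ1 (by positivity)
      _ ≤ ep (fun x => F (ex x)) n k := by
          norm_num
          linarith
  · intro n hn k hk0 hk1 hmk hmass
    exact mass_step F hF L hg hL hκ hκ1 m D n hn k hk0 hk1 (hbl n hn k hk0 hk1) hmk hmass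

/-- upper bound of the Poisson kernel -/
theorem pk_le {w : ℂ} {ρ0 : ℝ} (hw : ‖w‖ ≤ ρ0) (hρ : ρ0 < 1) (y : ℝ) : pk w y ≤ 2 / (1 - ρ0) := by
  have h1 := pk_den_pos w y
  have hw0 := norm_nonneg w
  have h2 : 0 < 1 - ‖w‖ := by linarith
  have h3 : 0 < ‖ex y - w‖ := by linarith
  have h4 : 0 < 1 - ρ0 := by linarith
  unfold pk
  rw [div_le_div_iff₀ (by positivity) h4]
  have h5 : (1 - ‖w‖) ^ 2 ≤ ‖ex y - w‖ ^ 2 := pow_le_pow_left₀ h2.le h1 2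
  have h6 : (1 - ‖w‖ ^ 2) * (1 - ρ0) ≤ 2 * (1 - ‖w‖) ^ 2 := by
    have h7 : (1 - ‖w‖ ^ 2) * (1 - ρ0) ≤ (1 - ‖w‖ ^ 2) * (1 - ‖w‖) := by
      apply mul_le_mul_of_nonneg_left (by linarith)
      nlinarith
    nlinarith [mul_nonneg h2.le (mul_nonneg h2.le h2.le)]
  linarith

/-- lower bound of the Poisson kernel -/
theorem le_pk {w : ℂ} {ρ0 : ℝ} (hw : ‖w‖ ≤ ρ0) (hρ : ρ0 < 1) (y : ℝ) : (1 - ρ0) / 2 ≤ pk w y := by
  have hw0 := norm_nonneg w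
  have h1 := pk_den_pos w y
  have h2 : 0 < 1 - ‖w‖ := by linarith
  have h3 : 0 < ‖ex y - w‖ := by linarith
  have h4 : ‖ex y - w‖ ≤ 1 + ‖w‖ := by
    have := norm_sub_le (ex y) w
    rwa [norm_ex] at this
  unfold pk
  rw [div_le_div_iff₀ (by norm_num) (by positivity)]
  have h5 : ‖ex y - w‖ ^ 2 ≤ (1 + ‖w‖) ^ 2 := pow_le_pow_left₀ h3.le h4 2
  have h6 : (1 - ρ0) * ‖ex y - w‖ ^ 2 ≤ (1 - ‖w‖) * (1 + ‖w‖) ^ 2 :=
    mul_le_mul (by linarith) h5 (by positivity) h2.le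
  nlinarith [mul_nonneg h2.le hw0]

/-- bound of the mass of the root -/
theorem root_bound (F : ℂ → ℂ) (hF : AnalyticOnNhd ℂ F (closedBall 0 1)) (L : ℝ)
    (hg : Continuous fun x => F (ex x))
    (hL : ∀ x y, ‖F (ex x) - F (ex y)‖ ≤ L * ‖ex x - ex y‖) {κ : ℝ} (hκ : 0 < κ)
    (hκ1 : κ ≤ 1 / 10 ^ 4) (m : ℕ → ℤ → ℕ) (D : ℕ)
    (hzero : ∀ n < D, ∀ k : ℤ, 0 ≤ k → k < 2 ^ n → m n k ≠ 0 →
      ∃ ρ y : ℝ, 0 ≤ ρ ∧ 2⁻¹ ^ n / 4 ≤ 1 - ρ ∧ 1 - ρ ≤ 2⁻¹ ^ n ∧ (k:ℝ) * 2⁻¹ ^ n ≤ y ∧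
        y ≤ ((k:ℝ) + 1) * 2⁻¹ ^ n ∧ F ((ρ : ℂ) * ex y) = 0)
    (hbl : ∀ n < D, ∀ k : ℤ, 0 ≤ k → k < 2 ^ n →
      ‖F (wv n k)‖ ^ 2 ≤ Real.exp (-(2 ^ n * (∑ i ∈ Finset.range (D - n),
      ∑ l ∈ Finset.range (2 ^ i), (m (n + i) (2 ^ i * k + l) : ℝ) * (2⁻¹:ℝ) ^ (n + i)) / 106)) *
        ∫ y in (0:ℝ)..1, pk (wv n k) y * ‖F (ex y)‖ ^ 2)
    (w : ℂ) (ρ0 : ℝ) (hw : ‖w‖ ≤ ρ0) (hρ : ρ0 < 1) (hFw : F w ≠ 0)
    (hroot : ‖F w‖ ^ 2 ≤ Real.exp (-((1 - ‖w‖) / 16 * ∑ i ∈ Finset.range D,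
      ∑ l ∈ Finset.range (2 ^ i), (m i l : ℝ) * (2⁻¹:ℝ) ^ i)) *
        ∫ y in (0:ℝ)..1, pk w y * ‖F (ex y)‖ ^ 2)
    (E : ℝ) (hE1 : (∫ x in (0:ℝ)..1, Phi (fun x => F (ex x)) x) ≤ E)
    (hE2 : (∫ x in (0:ℝ)..1, ‖F (ex x)‖ ^ 2) ≤ E) :
    (pair κ m D 0 0).2 ≤
      2 * (1 + 7 / 2 * (2 / (1 - ρ0)) * (Real.log (1 / ‖F w‖) + (1 + 2 / (1 - ρ0) * E) / 2)) +
        9 * (41 * E / (κ * (1 / 2) ^ 2)) +
      16 / (1 - ρ0) * Real.log (2 / (1 - ρ0) * E / ‖F w‖ ^ 2) := by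
  classical
  set g : ℝ → ℂ := fun x => F (ex x) with hgdef
  have hw1 : ‖w‖ < 1 := by linarith
  have hw0 := norm_nonneg w
  have hρ1 : 0 < 1 - ρ0 := by linarith
  have hFw0 : 0 < ‖F w‖ := norm_pos_iff.2 hFw
  have hcp := continuous_pk hw1
  have hcl := claim F hF L hg hL hκ hκ1 m D hzero hbl
  set S1 : ℝ := ∑ i ∈ Finset.range D, ∑ l ∈ Finset.range (2 ^ i),
    (if (pair κ m (D - i) i (l : ℤ)).1 = 1 then (2⁻¹ : ℝ) ^ i else 0) with hS1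
  set S2 : ℝ := ∑ i ∈ Finset.range D, ∑ l ∈ Finset.range (2 ^ i), (m i l : ℝ) * (2⁻¹:ℝ) ^ i
    with hS2
  have hsum : (pair κ m D 0 0).2 = S1 + S2 := by
    rw [snd_eq hκ D D 0 0 (by omega), ts_eq, hS1, hS2, ← Finset.sum_add_distrib]
    refine Finset.sum_congr rfl fun i _ => ?_
    rw [← Finset.sum_add_distrib]
    refine Finset.sum_congr rfl fun l _ => ?_
    simp
  -- the integral of `‖g‖ ^ 2` against the kernel
  have hA2 : (∫ y in (0:ℝ)..1, pk w y * ‖F (ex y)‖ ^ 2) ≤ 2 / (1 - ρ0) * E := by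
    have h1 := intervalIntegral.integral_mono_on (a := (0:ℝ)) (b := 1) (μ := volume)
      (f := fun y => pk w y * ‖F (ex y)‖ ^ 2) (g := fun y => 2 / (1 - ρ0) * ‖F (ex y)‖ ^ 2)
      zero_le_one ((hcp.mul (hg.norm.pow 2)).intervalIntegrable _ _)
      ((continuous_const.mul (hg.norm.pow 2)).intervalIntegrable _ _)
      (fun y _ => mul_le_mul_of_nonneg_right (pk_le hw hρ y) (sq_nonneg _))
    rw [intervalIntegral.integral_const_mul] at h1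
    exact h1.trans (mul_le_mul_of_nonneg_left hE2 (by positivity))
  have hA2pos : 0 < ∫ y in (0:ℝ)..1, pk w y * ‖F (ex y)‖ ^ 2 := by
    by_contra h
    push Not at h
    have h1 : ‖F w‖ ^ 2 ≤ 0 :=
      hroot.trans (mul_nonpos_of_nonneg_of_nonpos (Real.exp_pos _).le h)
    have h2 : 0 < ‖F w‖ ^ 2 := by positivity
    linarith
  have hEpos : 0 < 2 / (1 - ρ0) * E := lt_of_lt_of_le hA2pos hA2
  have hE0 : 0 < E := by
    by_contra h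
    push Not at h
    have : 2 / (1 - ρ0) * E ≤ 0 := mul_nonpos_of_nonneg_of_nonpos (by positivity) h
    linarith
  have hS2nn : 0 ≤ S2 := Finset.sum_nonneg fun i _ => Finset.sum_nonneg fun l _ => by positivity
  -- Blaschke part
  have hS2le : S2 ≤ 16 / (1 - ρ0) * Real.log (2 / (1 - ρ0) * E / ‖F w‖ ^ 2) := by
    have h1 : ‖F w‖ ^ 2 ≤ Real.exp (-((1 - ‖w‖) / 16 * S2)) * (2 / (1 - ρ0) * E) :=
      hroot.trans (mul_le_mul_of_nonneg_left hA2 (Real.exp_pos _).le)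
    have h2 : Real.exp ((1 - ‖w‖) / 16 * S2) ≤ 2 / (1 - ρ0) * E / ‖F w‖ ^ 2 := by
      rw [le_div_iff₀ (by positivity)]
      have h3 := mul_le_mul_of_nonneg_left h1 (Real.exp_pos ((1 - ‖w‖) / 16 * S2)).le
      rw [← mul_assoc, ← Real.exp_add, add_neg_cancel, Real.exp_zero, one_mul] at h3
      exact h3
    have h4 : (1 - ‖w‖) / 16 * S2 ≤ Real.log (2 / (1 - ρ0) * E / ‖F w‖ ^ 2) := by
      rw [Real.le_log_iff_exp_le (by positivity)]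
      exact h2
    have h5 : (1 - ρ0) / 16 * S2 ≤ (1 - ‖w‖) / 16 * S2 :=
      mul_le_mul_of_nonneg_right (by linarith) hS2nn
    have h6 : S2 = 16 / (1 - ρ0) * ((1 - ρ0) / 16 * S2) := by field_simp
    rw [h6]
    exact mul_le_mul_of_nonneg_left (h5.trans h4) (by positivity)
  -- marked arcs
  have hms := marked_sum_le F hF L hg hL hκ 0 0 le_rfl (by norm_num) D w hw1 hFw (2 / (1 - ρ0)) 1
    (by positivity) one_pos
    (by
      intro x _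
      refine le_trans (le_of_eq ?_) (le_pk hw hρ x)
      field_simp)
    (fun i l => (pair κ m (D - i) i (l : ℤ)).1 = 1)
    (by
      intro i l hi hl hP
      have hl' : (l : ℤ) < 2 ^ i := by exact_mod_cast hl
      have h1 := hcl i hi.le (l : ℤ) (by positivity) hl'
      rw [hP, mul_one] at h1
      simpa using h1)
  simp only [pow_zero, zero_add, one_mul, div_one] at hms
  have hS1le : S1 ≤ 2 * (1 + 7 / 2 * (2 / (1 - ρ0)) * (Real.log (1 / ‖F w‖) +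
        ∫ y in (0:ℝ)..1, pk w y * ‖F (ex y)‖)) + 9 * (ep g 0 0 / (κ * (1 / 2) ^ 2)) := hms
  have hint : (∫ y in (0:ℝ)..1, pk w y * ‖F (ex y)‖) ≤ (1 + 2 / (1 - ρ0) * E) / 2 := by
    have := int_pk_norm_le F hg hw1 1 one_pos
    rw [div_one] at this
    linarith
  have hep : ep g 0 0 ≤ 41 * E := by
    have := ep_zero_le g
    linarith
  rw [hsum]
  refine add_le_add (hS1le.trans ?_) hS2le
  refine add_le_add ?_ ?_
  · refine mul_le_mul_of_nonneg_left (add_le_add le_rfl ?_) (by norm_num)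
    exact mul_le_mul_of_nonneg_left (add_le_add le_rfl hint) (by positivity)
  · refine mul_le_mul_of_nonneg_left ?_ (by norm_num)
    exact div_le_div_of_nonneg_right hep (by positivity)

end NecTwo

open NecTwo in
/-- Every zero set of the Dirichlet space satisfies the criterion. -/
theorem criterion_of_isZeroSet {ι : Type*} (z : ι → ℂ) (hz : ∀ i, ‖z i‖ < 1) {κ : ℝ} (hκ : 0 < κ)
    (hκ1 : κ ≤ 1 / 10 ^ 4) (h : IsZeroSet z) : Criterion κ z := by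
  obtain ⟨f, ⟨c, hc, hcf⟩, ⟨w0, hw0, hfw0⟩, hord⟩ := h
  have hfd : DifferentiableOn ℂ f (ball 0 1) :=
    (dilate f c hc hcf (1 / 2) (by norm_num) (by norm_num)).1
  have hfin : ∀ n k, {i | z i ∈ box n k}.Finite := box_finite z hz f hfd ⟨w0, hw0, hfw0⟩ hord
  refine ⟨hfin, ?_⟩
  have hw0n : ‖w0‖ < 1 := by simpa using hw0
  have hw00 := norm_nonneg w0
  set ρ0 : ℝ := (1 + ‖w0‖) / 2 with hρ0
  have hρ1 : ρ0 < 1 := by rw [hρ0]; linarith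
  have hρpos : 0 < ρ0 := by rw [hρ0]; linarith
  set E : ℝ := ∑' k : ℕ, ((k : ℝ) + 1) * ‖c k‖ ^ 2 with hE
  set C : ℝ := 2 * (1 + 7 / 2 * (2 / (1 - ρ0)) *
      (Real.log (1 / ‖f w0‖) + (1 + 2 / (1 - ρ0) * E) / 2)) +
        9 * (41 * E / (κ * (1 / 2) ^ 2)) +
      16 / (1 - ρ0) * Real.log (2 / (1 - ρ0) * E / ‖f w0‖ ^ 2) with hC
  -- a depth beyond which the dilated point stays inside
  obtain ⟨D0, hD0⟩ : ∃ D0 : ℕ, ∀ D ≥ D0, ‖w0‖ ≤ ρ0 * (1 - 2⁻¹ ^ (D + 1)) := by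
    have h1 : ‖w0‖ < ρ0 := by rw [hρ0]; linarith
    obtain ⟨D0, hD0⟩ := exists_pow_lt_of_lt_one (show 0 < (ρ0 - ‖w0‖) by linarith)
      (show (2⁻¹ : ℝ) < 1 by norm_num)
    refine ⟨D0, fun D hD => ?_⟩
    have h2 : (2⁻¹ : ℝ) ^ (D + 1) ≤ 2⁻¹ ^ D0 :=
      pow_le_pow_of_le_one (by norm_num) (by norm_num) (by omega)
    have h3 : (0 : ℝ) < 2⁻¹ ^ (D + 1) := by positivity
    nlinarith
  have hmain : ∀ D ≥ D0, (pair κ (cnt z) D 0 0).2 ≤ C := by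
    intro D hD
    set r : ℝ := 1 - 2⁻¹ ^ (D + 1) with hr
    have hp0 : (0 : ℝ) < 2⁻¹ ^ (D + 1) := by positivity
    have hp1 : (2⁻¹ : ℝ) ^ (D + 1) ≤ 2⁻¹ := by
      have := pow_le_pow_of_le_one (show (0:ℝ) ≤ 2⁻¹ by norm_num) (by norm_num)
        (show 1 ≤ D + 1 by omega)
      simpa using this
    have hr0 : 0 < r := by rw [hr]; norm_num at hp1 ⊢; linarith
    have hr1 : r < 1 := by rw [hr]; linarith
    obtain ⟨-, hFa, hgc, ⟨L, hL⟩, hE1, hE2⟩ := dilate f c hc hcf r hr0 hr1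
    set w : ℂ := w0 / r with hw
    have hrC : (r : ℂ) ≠ 0 := by exact_mod_cast hr0.ne'
    have hrw : (r : ℂ) * w = w0 := by rw [hw]; field_simp
    have hwn : ‖w‖ ≤ ρ0 := by
      rw [hw, norm_div, Complex.norm_real, Real.norm_of_nonneg hr0.le, div_le_iff₀ hr0]
      exact hD0 D hD
    have hwn1 : ‖w‖ < 1 := by linarith
    have hbl : ∀ n < D, ∀ k : ℤ, 0 ≤ k → k < 2 ^ n →
      ‖f ((r : ℂ) * wv n k)‖ ^ 2 ≤ Real.exp (-(2 ^ n * (∑ i ∈ Finset.range (D - n),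
      ∑ l ∈ Finset.range (2 ^ i), (cnt z (n + i) (2 ^ i * k + l) : ℝ) * (2⁻¹:ℝ) ^ (n + i)) / 106))
        * ∫ y in (0:ℝ)..1, pk (wv n k) y * ‖f ((r : ℂ) * ex y)‖ ^ 2 :=
      fun n hn k hk0 hk1 => blaschke_box z hz f hfd hord hfin D n hn k hk0 hk1
    have hroot := blaschke_root z hz f hfd hord hfin D w hwn1
    have hb := root_bound (fun u => f ((r : ℂ) * u)) hFa L hgc hL hκ hκ1 (cnt z) D
      (fun n hn k _ _ hm => zero_in_box z hz f hord D n hn k hm) hbl w ρ0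
      hwn hρ1 (by
        simp only [hrw]
        exact hfw0) hroot E hE1 hE2
    simp only [hrw] at hb
    exact hb
  refine ⟨C, fun d => ?_⟩
  exact (pair_snd_mono hκ 0 0 (le_max_left d D0)).trans (hmain _ (le_max_right d D0))

end Pool.Agent.Lib_helper81.Dir
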