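import Pool.Agent.Lib_helper81.Dir.Defs

/-!
Parseval's formula and Douglas' formula for absolutely convergent power series on the unit circle.
-/

namespace Pool.Agent.Lib_helper81.Dir

open Complex MeasureTheory Set
open scoped ComplexConjugate

namespace Par

lemma norm_ex (x : ℝ) : ‖ex x‖ = 1 := by
  unfold ex; exact Complex.norm_exp_ofReal_mul_I _

lemma ex_add (x y : ℝ) : ex (x + y) = ex x * ex y := by
  unfold ex; rw [← Complex.exp_add]; congr 1; push_cast; ring

lemma ex_zero : ex 0 = 1 := by simp [ex]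

lemma ex_one : ex 1 = 1 := by
  unfold ex
  have : ((2 * Real.pi * 1 : ℝ) : ℂ) * Complex.I = 2 * Real.pi * Complex.I := by push_cast; ring
  rw [this, Complex.exp_two_pi_mul_I]

lemma ex_periodic : Function.Periodic ex 1 := fun x => by rw [ex_add, ex_one, mul_one]

lemma continuous_ex : Continuous ex := by
  unfold ex
  fun_prop

lemma ex_ne_zero (x : ℝ) : ex x ≠ 0 := by
  unfold ex; exact Complex.exp_ne_zero _

lemma ex_pow (x : ℝ) (k : ℕ) : ex x ^ k = ex (k * x) := by
  unfold ex; rw [← Complex.exp_nat_mul]; congr 1; push_cast; ring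

lemma conj_ex (x : ℝ) : conj (ex x) = ex (-x) := by
  unfold ex; rw [← Complex.exp_conj]; congr 1
  rw [map_mul, Complex.conj_ofReal, Complex.conj_I]; push_cast; ring

lemma integral_ex_int (n : ℤ) : ∫ x in (0:ℝ)..1, ex (n * x) = if n = 0 then 1 else 0 := by
  split_ifs with h
  · subst h; simp [ex_zero]
  · have hc : (2 * Real.pi * n * Complex.I : ℂ) ≠ 0 := by
      have h1 : (n : ℂ) ≠ 0 := by exact_mod_cast h
      have h2 : (Real.pi : ℂ) ≠ 0 := by exact_mod_cast Real.pi_ne_zero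
      simp [h1, h2]
    have he : ∀ x : ℝ, ex (n * x) = Complex.exp ((2 * Real.pi * n * Complex.I : ℂ) * (x : ℂ)) := by
      intro x; unfold ex; congr 1; push_cast; ring
    simp_rw [he]
    rw [integral_exp_mul_complex hc]
    have h1 : Complex.exp ((2 * Real.pi * n * Complex.I : ℂ) * ((1 : ℝ) : ℂ)) = 1 := by
      have := Complex.exp_int_mul_two_pi_mul_I n
      rw [← this]; congr 1; push_cast; ring
    rw [h1]; simp

lemma integral_ex_pow (j k : ℕ) :
    ∫ x in (0:ℝ)..1, ex x ^ j * conj (ex x ^ k) = if j = k then 1 else 0 := by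
  have h : ∀ x : ℝ, ex x ^ j * conj (ex x ^ k) = ex (((j : ℤ) - k : ℤ) * x) := by
    intro x
    rw [ex_pow, ex_pow, conj_ex, ← ex_add]; congr 1; push_cast; ring
  simp_rw [h]
  rw [integral_ex_int]
  simp [sub_eq_zero]

/-- the boundary function -/
noncomputable def g (a : ℕ → ℂ) (x : ℝ) : ℂ := ∑' k, a k * ex x ^ k

variable {a : ℕ → ℂ}

lemma summable_term (ha : Summable fun k => ‖a k‖) (x : ℝ) : Summable fun k => a k * ex x ^ k := by
  refine Summable.of_norm ?_
  simpa [norm_ex] using ha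

lemma continuous_g (ha : Summable fun k => ‖a k‖) : Continuous (g a) := by
  unfold g
  refine continuous_tsum (u := fun k => ‖a k‖) (fun k => ?_) ha (fun k x => ?_)
  · exact continuous_const.mul (continuous_ex.pow k)
  · simp [norm_ex]

lemma g_periodic (a : ℕ → ℂ) : Function.Periodic (g a) 1 := by
  intro x; unfold g; simp_rw [ex_periodic x]

lemma norm_g_le (ha : Summable fun k => ‖a k‖) (x : ℝ) : ‖g a x‖ ≤ ∑' k, ‖a k‖ := by
  unfold g
  refine (norm_tsum_le_tsum_norm ?_).trans (le_of_eq ?_)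
  · simpa [norm_ex] using ha
  · simp [norm_ex]

lemma integrable_cont {E : Type*} [NormedAddCommGroup E] {f : ℝ → E} (hf : Continuous f) :
    Integrable f (volume.restrict (Ioc (0:ℝ) 1)) :=
  (hf.integrableOn_Icc (a := 0) (b := 1)).mono_set Ioc_subset_Icc_self

/-- interchange of the sum with an integral against a bounded continuous function -/
lemma hasSum_integral (ha : Summable fun k => ‖a k‖) {h : ℝ → ℂ} (hh : Continuous h)
    {M : ℝ} (hM : ∀ x, ‖h x‖ ≤ M) :
    HasSum (fun k => a k * ∫ x in (0:ℝ)..1, ex x ^ k * h x) (∫ x in (0:ℝ)..1, g a x * h x) := by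
  have hM0 : 0 ≤ M := (norm_nonneg _).trans (hM 0)
  have key := hasSum_integral_of_summable_integral_norm
    (F := fun k (x : ℝ) => a k * ex x ^ k * h x) (μ := volume.restrict (Ioc (0:ℝ) 1)) ?_ ?_
  · simp only [intervalIntegral.integral_of_le zero_le_one]
    have e1 : (fun k => a k * ∫ x in Ioc (0:ℝ) 1, ex x ^ k * h x)
        = fun k => ∫ x in Ioc (0:ℝ) 1, a k * ex x ^ k * h x := by
      ext k
      rw [← integral_const_mul]
      congr 1; ext x; ring
    have e2 : (fun x => g a x * h x) = fun x => ∑' k, a k * ex x ^ k * h x := by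
      ext x; unfold g; rw [tsum_mul_right]
    rw [e1, e2]
    exact key
  · intro k
    exact integrable_cont ((continuous_const.mul (continuous_ex.pow k)).mul hh)
  · refine Summable.of_nonneg_of_le (fun k => integral_nonneg fun x => norm_nonneg _)
      (fun k => ?_) (ha.mul_right M)
    have h1 : ∫ x, ‖a k * ex x ^ k * h x‖ ∂(volume.restrict (Ioc (0:ℝ) 1))
        ≤ ∫ x, ‖a k‖ * M ∂(volume.restrict (Ioc (0:ℝ) 1)) := by
      refine integral_mono ?_ ?_ ?_
      · exact (integrable_cont ((continuous_const.mul (continuous_ex.pow k)).mul hh)).norm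
      · exact integrable_cont continuous_const
      · intro x
        simp only [norm_mul, norm_pow, norm_ex, one_pow, mul_one]
        exact mul_le_mul_of_nonneg_left (hM x) (norm_nonneg _)
    refine h1.trans (le_of_eq ?_)
    simp

lemma integral_mul_conj (ha : Summable fun k => ‖a k‖) :
    HasSum (fun k => a k * conj (a k)) (∫ x in (0:ℝ)..1, g a x * conj (g a x)) := by
  have hc : Continuous fun x => conj (g a x) := Complex.continuous_conj.comp (continuous_g ha)
  have h1 := hasSum_integral ha hc (M := ∑' k, ‖a k‖) (fun x => by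
    rw [Complex.norm_conj]; exact norm_g_le ha x)
  convert h1 using 2 with k
  congr 1
  have h2 := hasSum_integral ha (h := fun x => conj (ex x ^ k))
    (Complex.continuous_conj.comp (continuous_ex.pow k)) (M := 1) (fun x => by
      simp [norm_ex])
  simp_rw [integral_ex_pow] at h2
  have h3 : HasSum (fun j => a j * if j = k then (1 : ℂ) else 0) (a k) := by
    convert hasSum_ite_eq k (a k) using 2 with j
    split_ifs with hjk
    · rw [hjk, mul_one]
    · rw [mul_zero]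
  have h4 := h2.unique h3
  rw [← h4, intervalIntegral.integral_of_le zero_le_one, intervalIntegral.integral_of_le zero_le_one,
    ← integral_conj]
  congr 1; ext x
  simp [mul_comm]

lemma parseval_g (ha : Summable fun k => ‖a k‖) :
    HasSum (fun k => ‖a k‖ ^ 2) (∫ x in (0:ℝ)..1, ‖g a x‖ ^ 2) := by
  have h := integral_mul_conj ha
  have e1 : (fun k => a k * conj (a k)) = fun k => ((‖a k‖ ^ 2 : ℝ) : ℂ) := by
    ext k; rw [Complex.mul_conj, Complex.normSq_eq_norm_sq]
  have e2 : ∫ x in (0:ℝ)..1, g a x * conj (g a x) = ((∫ x in (0:ℝ)..1, ‖g a x‖ ^ 2 : ℝ) : ℂ) := by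
    rw [← intervalIntegral.integral_ofReal]
    congr 1; ext x
    rw [Complex.mul_conj, Complex.normSq_eq_norm_sq]
  rw [e1, e2] at h
  exact_mod_cast h

end Par

namespace Par

lemma norm_pow_sub_le (x y : ℝ) (k : ℕ) : ‖ex x ^ k - ex y ^ k‖ ≤ k * ‖ex x - ex y‖ := by
  induction k with
  | zero => simp
  | succ k ih =>
    have h : ex x ^ (k + 1) - ex y ^ (k + 1)
        = ex x ^ k * (ex x - ex y) + (ex x ^ k - ex y ^ k) * ex y := by ring
    rw [h]
    refine (norm_add_le _ _).trans ?_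
    rw [norm_mul, norm_mul, norm_pow, norm_ex, norm_ex, one_pow, one_mul, mul_one]
    push_cast
    linarith

variable {a : ℕ → ℂ}

lemma summable_of (ha : Summable fun k : ℕ => ((k:ℝ) + 1) * ‖a k‖) : Summable fun k => ‖a k‖ := by
  refine Summable.of_nonneg_of_le (fun k => norm_nonneg _) (fun k => ?_) ha
  have : (0:ℝ) ≤ (k:ℝ) * ‖a k‖ := by positivity
  nlinarith

lemma summable_mul (ha : Summable fun k : ℕ => ((k:ℝ) + 1) * ‖a k‖) :
    Summable fun k : ℕ => (k:ℝ) * ‖a k‖ := by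
  refine Summable.of_nonneg_of_le (fun k => by positivity) (fun k => ?_) ha
  have := norm_nonneg (a k)
  nlinarith

lemma summable_mul_sq (ha : Summable fun k : ℕ => ((k:ℝ) + 1) * ‖a k‖) :
    Summable fun k : ℕ => (k:ℝ) * ‖a k‖ ^ 2 := by
  have h1 := summable_of ha
  have h2 := summable_mul ha
  have h3 : ∀ k, ‖a k‖ ≤ ∑' j, ‖a j‖ := fun k => h1.le_tsum k (fun j _ => norm_nonneg _)
  refine Summable.of_nonneg_of_le (fun k => by positivity) (fun k => ?_)
    (h2.mul_right (∑' j, ‖a j‖))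
  have h4 := h3 k
  have h5 : (0:ℝ) ≤ (k:ℝ) * ‖a k‖ := by positivity
  calc (k:ℝ) * ‖a k‖ ^ 2 = ((k:ℝ) * ‖a k‖) * ‖a k‖ := by ring
    _ ≤ _ := mul_le_mul_of_nonneg_left h4 h5

lemma lipschitz_g (ha : Summable fun k : ℕ => ((k:ℝ) + 1) * ‖a k‖) (x y : ℝ) :
    ‖g a x - g a y‖ ≤ (∑' k : ℕ, (k:ℝ) * ‖a k‖) * ‖ex x - ex y‖ := by
  have h1 := summable_of ha
  have h2 := summable_mul ha
  have e : g a x - g a y = ∑' k, a k * (ex x ^ k - ex y ^ k) := by
    unfold g
    rw [← (summable_term h1 x).tsum_sub (summable_term h1 y)]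
    congr 1; ext k; ring
  have hb : ∀ k, ‖a k * (ex x ^ k - ex y ^ k)‖ ≤ (k:ℝ) * ‖a k‖ * ‖ex x - ex y‖ := by
    intro k
    rw [norm_mul]
    have := mul_le_mul_of_nonneg_left (norm_pow_sub_le x y k) (norm_nonneg (a k))
    calc _ ≤ _ := this
      _ = _ := by ring
  have hs : Summable fun k : ℕ => (k:ℝ) * ‖a k‖ * ‖ex x - ex y‖ := h2.mul_right _
  rw [e]
  refine (tsum_of_norm_bounded hs.hasSum hb).trans (le_of_eq ?_)
  rw [tsum_mul_right]

/-- the kernel ratio -/
noncomputable def rk (k : ℕ) (s : ℝ) : ℝ := ‖ex s ^ k - 1‖ ^ 2 / ‖ex s - 1‖ ^ 2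

lemma rk_nonneg (k : ℕ) (s : ℝ) : 0 ≤ rk k s := by unfold rk; positivity

lemma rk_le (k : ℕ) (s : ℝ) : rk k s ≤ (k:ℝ) ^ 2 := by
  unfold rk
  have h := norm_pow_sub_le s 0 k
  rw [ex_zero, one_pow] at h
  by_cases h0 : ‖ex s - 1‖ = 0
  · rw [h0]; simp
  · have hpos : 0 < ‖ex s - 1‖ := lt_of_le_of_ne (norm_nonneg _) (Ne.symm h0)
    rw [div_le_iff₀ (by positivity)]
    rw [← mul_pow]
    exact pow_le_pow_left₀ (norm_nonneg _) h 2

lemma measurable_rk (k : ℕ) : Measurable (rk k) := by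
  unfold rk
  have h := continuous_ex
  exact ((((h.pow k).sub continuous_const).norm.pow 2).measurable).div
    (((h.sub continuous_const).norm.pow 2).measurable)

lemma ex_ne_one {s : ℝ} (h0 : 0 < s) (h1 : s < 1) : ex s ≠ 1 := by
  unfold ex
  intro h
  rw [Complex.exp_eq_one_iff] at h
  obtain ⟨n, hn⟩ := h
  have hpi : (Real.pi : ℂ) ≠ 0 := by exact_mod_cast Real.pi_ne_zero
  have h2 : (s : ℂ) = n := by
    have h3 : (2 * Real.pi * Complex.I : ℂ) ≠ 0 := by simp [hpi]
    have h4 : (2 * Real.pi * Complex.I : ℂ) * s = (2 * Real.pi * Complex.I : ℂ) * n := by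
      have := hn
      push_cast at this
      linear_combination this
    exact mul_left_cancel₀ h3 h4
  have h5 : s = n := by exact_mod_cast h2
  rw [h5] at h0 h1
  have h6 : (0:ℤ) < n := by exact_mod_cast h0
  have h7 : n < (1:ℤ) := by exact_mod_cast h1
  omega

lemma integral_rk (k : ℕ) : ∫ s in (0:ℝ)..1, rk k s = k := by
  have ha : Summable fun j : ℕ => ‖(if j < k then (1:ℂ) else 0)‖ := by
    refine summable_of_ne_finset_zero (s := Finset.range k) (fun j hj => ?_)
    rw [Finset.mem_range] at hj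
    simp [hj]
  have h1 := (parseval_g ha)
  have h2 : HasSum (fun j : ℕ => ‖(if j < k then (1:ℂ) else 0)‖ ^ 2) (k:ℝ) := by
    have h3 : HasSum (fun j : ℕ => ‖(if j < k then (1:ℂ) else 0)‖ ^ 2)
        (∑ j ∈ Finset.range k, ‖(if j < k then (1:ℂ) else 0)‖ ^ 2) :=
      hasSum_sum_of_ne_finset_zero (fun j hj => by
        rw [Finset.mem_range] at hj; simp [hj])
    have h4 : ∑ j ∈ Finset.range k, ‖(if j < k then (1:ℂ) else 0)‖ ^ 2 = k := by
      rw [Finset.sum_congr rfl (g := fun _ => (1:ℝ))]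
      · simp
      · intro j hj
        rw [Finset.mem_range] at hj
        simp [hj]
    rwa [h4] at h3
  rw [← h1.unique h2]
  rw [intervalIntegral.integral_of_le zero_le_one, intervalIntegral.integral_of_le zero_le_one,
    MeasureTheory.integral_Ioc_eq_integral_Ioo, MeasureTheory.integral_Ioc_eq_integral_Ioo]
  refine setIntegral_congr_fun measurableSet_Ioo (fun s hs => ?_)
  have hne : ex s - 1 ≠ 0 := sub_ne_zero.mpr (ex_ne_one hs.1 hs.2)
  have hg : g (fun j : ℕ => if j < k then (1:ℂ) else 0) s = ∑ j ∈ Finset.range k, ex s ^ j := by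
    unfold g
    rw [tsum_eq_sum (s := Finset.range k)]
    · refine Finset.sum_congr rfl (fun j hj => ?_)
      rw [Finset.mem_range] at hj
      simp [hj]
    · intro j hj
      rw [Finset.mem_range] at hj
      simp [hj]
  show rk k s = ‖g (fun j : ℕ => if j < k then (1:ℂ) else 0) s‖ ^ 2
  rw [hg, geom_sum_eq (sub_ne_zero.mp hne), norm_div, div_pow]
  rfl

lemma integrable_bdd {f : ℝ → ℝ} (hf : Measurable f) {C : ℝ} (hC : ∀ x, ‖f x‖ ≤ C) :
    Integrable f (volume.restrict (Ioc (0:ℝ) 1)) :=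
  Integrable.mono' (g := fun _ => C) (integrable_cont continuous_const) hf.aestronglyMeasurable
    (Filter.Eventually.of_forall hC)

lemma hasSum_rk (ha : Summable fun k : ℕ => ((k:ℝ) + 1) * ‖a k‖) :
    HasSum (fun k : ℕ => (k:ℝ) * ‖a k‖ ^ 2) (∫ s in (0:ℝ)..1, ∑' k, ‖a k‖ ^ 2 * rk k s) := by
  have key := hasSum_integral_of_summable_integral_norm
    (F := fun k (s : ℝ) => ‖a k‖ ^ 2 * rk k s) (μ := volume.restrict (Ioc (0:ℝ) 1)) ?_ ?_
  · rw [intervalIntegral.integral_of_le zero_le_one]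
    have e1 : (fun k : ℕ => (k:ℝ) * ‖a k‖ ^ 2)
        = fun k => ∫ s in Ioc (0:ℝ) 1, ‖a k‖ ^ 2 * rk k s := by
      ext k
      rw [integral_const_mul, ← intervalIntegral.integral_of_le zero_le_one, integral_rk]
      ring
    rw [e1]
    exact key
  · intro k
    refine integrable_bdd (C := ‖a k‖ ^ 2 * (k:ℝ) ^ 2) ((measurable_rk k).const_mul _) (fun x => ?_)
    rw [Real.norm_of_nonneg (mul_nonneg (by positivity) (rk_nonneg k x))]
    exact mul_le_mul_of_nonneg_left (rk_le k x) (by positivity)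
  · refine (summable_mul_sq ha).congr (fun k => ?_)
    have h1 : ∀ s, ‖‖a k‖ ^ 2 * rk k s‖ = ‖a k‖ ^ 2 * rk k s := fun s =>
      Real.norm_of_nonneg (mul_nonneg (by positivity) (rk_nonneg k s))
    simp_rw [h1]
    rw [integral_const_mul, ← intervalIntegral.integral_of_le zero_le_one, integral_rk]
    ring

lemma parseval_shift (ha : Summable fun k => ‖a k‖) (s : ℝ) :
    ∫ x in (0:ℝ)..1, ‖g a x - g a (x + s)‖ ^ 2 = ∑' k, ‖a k‖ ^ 2 * ‖ex s ^ k - 1‖ ^ 2 := by
  have hb : Summable fun k => ‖a k * (1 - ex s ^ k)‖ := by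
    refine Summable.of_nonneg_of_le (fun k => norm_nonneg _) (fun k => ?_) (ha.mul_right 2)
    rw [norm_mul]
    refine mul_le_mul_of_nonneg_left ?_ (norm_nonneg _)
    refine (norm_sub_le _ _).trans ?_
    rw [norm_pow, norm_ex]; norm_num
  have h := (parseval_g hb).tsum_eq
  have e1 : ∀ x, g (fun k => a k * (1 - ex s ^ k)) x = g a x - g a (x + s) := by
    intro x
    unfold g
    rw [← (summable_term ha x).tsum_sub (summable_term ha (x + s))]
    congr 1; ext k; rw [ex_add]; ring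
  simp_rw [e1] at h
  rw [← h]
  congr 1; ext k
  rw [norm_mul, mul_pow, norm_sub_rev]

lemma change_var (a : ℕ → ℂ) (x : ℝ) :
    ∫ y in (0:ℝ)..1, ‖g a x - g a y‖ ^ 2 / ‖ex x - ex y‖ ^ 2
      = ∫ s in (0:ℝ)..1, ‖g a x - g a (x + s)‖ ^ 2 / ‖ex s - 1‖ ^ 2 := by
  have hper : Function.Periodic (fun y => ‖g a x - g a y‖ ^ 2 / ‖ex x - ex y‖ ^ 2) 1 := by
    intro y
    show ‖g a x - g a (y + 1)‖ ^ 2 / ‖ex x - ex (y + 1)‖ ^ 2 = _
    rw [g_periodic a y, ex_periodic y]
  have h1 := hper.intervalIntegral_add_eq 0 x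
  rw [zero_add] at h1
  rw [h1]
  have h2 := intervalIntegral.integral_comp_add_left (a := 0) (b := 1)
    (fun y => ‖g a x - g a y‖ ^ 2 / ‖ex x - ex y‖ ^ 2) x
  rw [add_zero] at h2
  rw [← h2]
  congr 1; ext s
  have : ex x - ex (x + s) = ex x * (1 - ex s) := by rw [ex_add]; ring
  rw [this, norm_mul, norm_ex, one_mul, norm_sub_rev 1]

theorem douglas_eq (ha : Summable fun k : ℕ => ((k:ℝ) + 1) * ‖a k‖) :
    ∫ x in (0:ℝ)..1, ∫ y in (0:ℝ)..1, ‖g a x - g a y‖ ^ 2 / ‖ex x - ex y‖ ^ 2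
      = ∑' k : ℕ, (k:ℝ) * ‖a k‖ ^ 2 := by
  have h1 := summable_of ha
  simp_rw [change_var]
  set L := ∑' k : ℕ, (k:ℝ) * ‖a k‖ with hL
  have hL0 : 0 ≤ L := tsum_nonneg fun k => by positivity
  have hbd : ∀ x s : ℝ, ‖‖g a x - g a (x + s)‖ ^ 2 / ‖ex s - 1‖ ^ 2‖ ≤ L ^ 2 := by
    intro x s
    rw [Real.norm_of_nonneg (by positivity)]
    have h2 := lipschitz_g ha x (x + s)
    have h3 : ex x - ex (x + s) = ex x * (1 - ex s) := by rw [ex_add]; ring
    rw [h3, norm_mul, norm_ex, one_mul, norm_sub_rev 1] at h2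
    by_cases h0 : ‖ex s - 1‖ = 0
    · rw [h0]; simp; positivity
    · have hpos : 0 < ‖ex s - 1‖ := lt_of_le_of_ne (norm_nonneg _) (Ne.symm h0)
      rw [div_le_iff₀ (by positivity), ← mul_pow]
      exact pow_le_pow_left₀ (norm_nonneg _) h2 2
  have hg := continuous_g h1
  have hmeas : Measurable (Function.uncurry fun x s : ℝ =>
      ‖g a x - g a (x + s)‖ ^ 2 / ‖ex s - 1‖ ^ 2) := by
    refine Measurable.div ?_ ?_
    · exact (((hg.comp continuous_fst).sub
        (hg.comp (continuous_fst.add continuous_snd))).norm.pow 2).measurable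
    · exact (((continuous_ex.comp continuous_snd).sub continuous_const).norm.pow 2).measurable
  have hint : Integrable (Function.uncurry fun x s : ℝ =>
      ‖g a x - g a (x + s)‖ ^ 2 / ‖ex s - 1‖ ^ 2)
      ((volume.restrict (Ioc (0:ℝ) 1)).prod (volume.restrict (Ioc (0:ℝ) 1))) := by
    refine Integrable.mono' (g := fun _ => L ^ 2) (integrable_const _) hmeas.aestronglyMeasurable
      (Filter.Eventually.of_forall fun p => hbd p.1 p.2)
  simp_rw [intervalIntegral.integral_of_le (zero_le_one (α := ℝ))]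
  rw [integral_integral_swap hint]
  have h5 : ∀ s : ℝ, ∫ x in Ioc (0:ℝ) 1, ‖g a x - g a (x + s)‖ ^ 2 / ‖ex s - 1‖ ^ 2
      = ∑' k, ‖a k‖ ^ 2 * rk k s := by
    intro s
    rw [integral_div, ← intervalIntegral.integral_of_le (zero_le_one (α := ℝ)), parseval_shift h1 s,
      ← tsum_div_const]
    congr 1; ext k; unfold rk; ring
  simp_rw [h5]
  rw [← intervalIntegral.integral_of_le (zero_le_one (α := ℝ))]
  exact (hasSum_rk ha).tsum_eq.symm

end Par

/-- Parseval's formula. -/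
theorem parseval (a : ℕ → ℂ) (ha : Summable fun k => ‖a k‖) :
    ∫ x in (0:ℝ)..1, ‖∑' k, a k * ex x ^ k‖ ^ 2 = ∑' k, ‖a k‖ ^ 2 :=
  (Par.parseval_g ha).tsum_eq.symm

/-- Douglas' formula. -/
theorem douglas (a : ℕ → ℂ) (ha : Summable fun k : ℕ => ((k:ℝ) + 1) * ‖a k‖) :
    ∫ x in (0:ℝ)..1, ∫ y in (0:ℝ)..1,
      ‖(∑' k, a k * ex x ^ k) - ∑' k, a k * ex y ^ k‖ ^ 2 / ‖ex x - ex y‖ ^ 2
      ≤ ∑' k : ℕ, (k:ℝ) * ‖a k‖ ^ 2 :=
  (Par.douglas_eq ha).le

/-- Continuity of the boundary function. -/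
theorem continuous_bd (a : ℕ → ℂ) (ha : Summable fun k => ‖a k‖) :
    Continuous fun x : ℝ => ∑' k, a k * ex x ^ k := Par.continuous_g ha

/-- Lipschitz estimate for the boundary function. -/
theorem lipschitz_bd (a : ℕ → ℂ) (ha : Summable fun k : ℕ => ((k:ℝ) + 1) * ‖a k‖) (x y : ℝ) :
    ‖(∑' k, a k * ex x ^ k) - ∑' k, a k * ex y ^ k‖
      ≤ (∑' k : ℕ, (k:ℝ) * ‖a k‖) * ‖ex x - ex y‖ := Par.lipschitz_g ha x y

/-- The Douglas quotient is bounded. -/
theorem quot_le (a : ℕ → ℂ) (ha : Summable fun k : ℕ => ((k:ℝ) + 1) * ‖a k‖) (x y : ℝ) :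
    ‖(∑' k, a k * ex x ^ k) - ∑' k, a k * ex y ^ k‖ ^ 2 / ‖ex x - ex y‖ ^ 2
      ≤ (∑' k : ℕ, (k:ℝ) * ‖a k‖) ^ 2 := by
  have h2 := lipschitz_bd a ha x y
  have hL0 : (0:ℝ) ≤ ∑' k : ℕ, (k:ℝ) * ‖a k‖ := tsum_nonneg fun k => by positivity
  by_cases h0 : ‖ex x - ex y‖ = 0
  · rw [h0]; simp; positivity
  · have hpos : 0 < ‖ex x - ex y‖ := lt_of_le_of_ne (norm_nonneg _) (Ne.symm h0)
    rw [div_le_iff₀ (by positivity), ← mul_pow]
    exact pow_le_pow_left₀ (norm_nonneg _) h2 2

/-- The Douglas quotient is integrable over products of sets of finite measure. -/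
theorem integrable_quot (a : ℕ → ℂ) (ha : Summable fun k : ℕ => ((k:ℝ) + 1) * ‖a k‖)
    (μ ν : Measure ℝ) [IsFiniteMeasure μ] [IsFiniteMeasure ν] :
    Integrable (Function.uncurry fun x y : ℝ =>
      ‖(∑' k, a k * ex x ^ k) - ∑' k, a k * ex y ^ k‖ ^ 2 / ‖ex x - ex y‖ ^ 2) (μ.prod ν) := by
  have h1 := Par.summable_of ha
  have hg := Par.continuous_g h1
  have he := Par.continuous_ex
  have hmeas : Measurable (Function.uncurry fun x y : ℝ =>
      ‖(∑' k, a k * ex x ^ k) - ∑' k, a k * ex y ^ k‖ ^ 2 / ‖ex x - ex y‖ ^ 2) := by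
    refine Measurable.div ?_ ?_
    · exact (((hg.comp continuous_fst).sub (hg.comp continuous_snd)).norm.pow 2).measurable
    · exact (((he.comp continuous_fst).sub (he.comp continuous_snd)).norm.pow 2).measurable
  refine Integrable.mono' (g := fun _ => (∑' k : ℕ, (k:ℝ) * ‖a k‖) ^ 2) (integrable_const _)
    hmeas.aestronglyMeasurable (Filter.Eventually.of_forall fun p => ?_)
  rw [Real.norm_of_nonneg (by unfold Function.uncurry; positivity)]
  exact quot_le a ha p.1 p.2

end Pool.Agent.Lib_helper81.Dir
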