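import Pool.Agent.Lib_helper81.Dir.Energy
import Pool.Agent.Lib_helper81.Dir.Suff1
import Pool.Agent.Lib_helper81.Dir.Limit
import Pool.Agent.Lib_helper81.Dir.Glim

/-!
Zero sets of the Dirichlet space: sufficiency of the criterion.
-/

namespace Pool.Agent.Lib_helper81.Dir

open Complex Metric Set Filter Topology

variable {ι : Type*} {κ : ℝ}

/-- **Sufficiency.** -/
theorem isZeroSet_of_criterion (hκ : 0 < κ) (hκ1 : κ ≤ 2 / 5) (z : ι → ℂ) (hz : ∀ i, ‖z i‖ < 1)
    (h : Criterion κ z) : IsZeroSet z := by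
  obtain ⟨hfin, C, hC⟩ := h
  have hsum := summable_of_criterion hκ hκ1 z hz hfin hC
  obtain ⟨B, hB1, hB2, hB3, hB4⟩ := exists_blaschke z hz hsum
  obtain ⟨G, hG1, hG2⟩ := exists_glim (fun D p q => (pair κ (cnt z) (D - p) p q).1)
    (fun p q => tinf κ (cnt z) p q)
    (fun D p q => pair_fst_nonneg hκ (D - p) p q)
    (fun D p q => le_tinf hκ (cnt z) (D - p) p q)
    (fun p q => tendsto_tinf_sub hκ (cnt z) p p q)
    (4 + 6 * C) (sum_tinf_le hκ hκ1 hC)
  have hf1 : DifferentiableOn ℂ (fun w => B w * Complex.exp (-G w)) (ball 0 1) :=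
    hB1.mul hG1.neg.cexp
  have hlim : ∀ w ∈ ball (0 : ℂ) 1, Tendsto (fun d => fd κ z hfin d w) atTop
      (𝓝 (B w * Complex.exp (-G w))) := by
    intro w hw
    have h1 : Tendsto (fun d => ∏ i ∈ Sd z hfin d, bl (z i) w) atTop (𝓝 (B w)) :=
      (hB4 w hw).comp (tendsto_Sd z hz hfin)
    have h2 : Tendsto (fun d => Gd κ (cnt z) d w) atTop (𝓝 (G w)) := hG2 w hw
    exact h1.mul ((Complex.continuous_exp.tendsto _).comp h2.neg)
  refine ⟨fun w => B w * Complex.exp (-G w), ?_, ?_, ?_⟩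
  · exact inDirichlet_of_bound _ (fd κ z hfin) hf1 (fun d => differentiableOn_fd z hz hfin d)
      (fun d w hw => norm_fd_le hκ z hz hfin d (by simpa using hw)) hlim _
      (fun d N => energy_fd_le hκ hκ1 z hz hfin hC d N)
  · have h0 : (0 : ℂ) ∈ ball (0 : ℂ) 1 := by simp
    have h1 : analyticOrderAt B 0 ≠ ⊤ := by
      rw [hB3 0 h0, Set.encard_ne_top_iff]
      exact finite_eq z hsum (by simp)
    rw [Ne, analyticOrderAt_eq_top] at h1
    have h2 : ∃ᶠ w in 𝓝 (0 : ℂ), B w ≠ 0 := not_eventually.1 h1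
    have h3 : ∀ᶠ w in 𝓝 (0 : ℂ), w ∈ ball (0 : ℂ) 1 := isOpen_ball.mem_nhds h0
    obtain ⟨w, hw1, hw2⟩ := (h2.and_eventually h3).exists
    exact ⟨w, hw2, mul_ne_zero hw1 (Complex.exp_ne_zero _)⟩
  · intro w hw
    have a1 : AnalyticAt ℂ B w := hB1.analyticAt (isOpen_ball.mem_nhds hw)
    have a2 : AnalyticAt ℂ (fun w => Complex.exp (-G w)) w :=
      (DifferentiableOn.cexp hG1.neg).analyticAt (isOpen_ball.mem_nhds hw)
    have h1 : analyticOrderAt (fun w => Complex.exp (-G w)) w = 0 := by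
      rw [a2.analyticOrderAt_eq_zero]
      exact Complex.exp_ne_zero _
    have h2 := analyticOrderAt_mul a1 a2
    rw [h1, add_zero, hB3 w hw] at h2
    exact h2

end Pool.Agent.Lib_helper81.Dir
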