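import Pool.Agent.Lib_helper81.Dir.Defs

/-!
Zero sets of the Dirichlet space: combinatorics of the recursion on the dyadic tree.
-/

namespace Pool.Agent.Lib_helper81.Dir

open Finset

/-- Sum of `F` over the descendants of `(n, k)` of the generations `n, …, n + d - 1`. -/
noncomputable def ts (F : ℕ → ℤ → ℝ) : ℕ → ℕ → ℤ → ℝ
  | 0, _, _ => 0
  | d + 1, n, k => F n k + ts F d (n + 1) (2 * k) + ts F d (n + 1) (2 * k + 1)

variable {κ : ℝ} {m : ℕ → ℤ → ℕ}

lemma pair_succ (κ : ℝ) (m : ℕ → ℤ → ℕ) (d n : ℕ) (k : ℤ) :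
    pair κ m (d + 1) n k =
      join κ (2⁻¹ ^ n) (m n k) (pair κ m d (n + 1) (2 * k)) (pair κ m d (n + 1) (2 * k + 1)) := rfl

/-- The basic bounds. -/
lemma pair_bounds (hκ : 0 < κ) (d : ℕ) : ∀ (n : ℕ) (k : ℤ),
    0 ≤ (pair κ m d n k).1 ∧ (pair κ m d n k).1 ≤ 1 ∧ 0 ≤ (pair κ m d n k).2 := by
  induction d with
  | zero => intro n k; simp [pair]
  | succ d ih =>
    intro n k
    obtain ⟨a1, a2, a3⟩ := ih (n + 1) (2 * k)
    obtain ⟨b1, b2, b3⟩ := ih (n + 1) (2 * k + 1)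
    rw [pair_succ, join]
    split_ifs with h
    · refine ⟨zero_le_one, le_rfl, by positivity⟩
    · push Not at h
      exact ⟨by positivity, h.2.1.le, by positivity⟩

lemma pair_fst_nonneg (hκ : 0 < κ) (d n : ℕ) (k : ℤ) : 0 ≤ (pair κ m d n k).1 :=
  (pair_bounds hκ d n k).1

lemma pair_fst_le_one (hκ : 0 < κ) (d n : ℕ) (k : ℤ) : (pair κ m d n k).1 ≤ 1 :=
  (pair_bounds hκ d n k).2.1

lemma pair_snd_nonneg (hκ : 0 < κ) (d n : ℕ) (k : ℤ) : 0 ≤ (pair κ m d n k).2 :=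
  (pair_bounds hκ d n k).2.2

/-- The two cases of the recursion: marked or unmarked. -/
lemma pair_cases (κ : ℝ) (m : ℕ → ℤ → ℕ) (d n : ℕ) (k : ℤ) :
    ((m n k ≠ 0 ∨ 1 ≤ (pair κ m d (n + 1) (2 * k)).1 / (1 + κ * (pair κ m d (n + 1) (2 * k)).1) +
        (pair κ m d (n + 1) (2 * k + 1)).1 / (1 + κ * (pair κ m d (n + 1) (2 * k + 1)).1) ∨
        (2⁻¹ : ℝ) ^ n ≤ κ * ((pair κ m d (n + 1) (2 * k)).2 + (pair κ m d (n + 1) (2 * k + 1)).2 +
          m n k * 2⁻¹ ^ n)) ∧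
      (pair κ m (d + 1) n k).1 = 1 ∧
      (pair κ m (d + 1) n k).2 = (pair κ m d (n + 1) (2 * k)).2 +
        (pair κ m d (n + 1) (2 * k + 1)).2 + m n k * 2⁻¹ ^ n + 2⁻¹ ^ n) ∨
    (m n k = 0 ∧
      (pair κ m (d + 1) n k).1 = (pair κ m d (n + 1) (2 * k)).1 /
        (1 + κ * (pair κ m d (n + 1) (2 * k)).1) +
        (pair κ m d (n + 1) (2 * k + 1)).1 / (1 + κ * (pair κ m d (n + 1) (2 * k + 1)).1) ∧
      (pair κ m (d + 1) n k).1 < 1 ∧
      (pair κ m (d + 1) n k).2 = (pair κ m d (n + 1) (2 * k)).2 +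
        (pair κ m d (n + 1) (2 * k + 1)).2 ∧
      κ * (pair κ m (d + 1) n k).2 < 2⁻¹ ^ n) := by
  rw [pair_succ, join]
  split_ifs with h
  · exact Or.inl ⟨h, rfl, rfl⟩
  · push Not at h
    obtain ⟨h1, h2, h3⟩ := h
    right
    simp only [h1, Nat.cast_zero, zero_mul, add_zero] at h3 ⊢
    exact ⟨trivial, trivial, h2, trivial, h3⟩

/-- Periodicity. -/
lemma pair_periodic (hm : ∀ n k, m n (k + 2 ^ n) = m n k) (d : ℕ) : ∀ (n : ℕ) (k : ℤ),
    pair κ m d n (k + 2 ^ n) = pair κ m d n k := by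
  induction d with
  | zero => intro n k; simp [pair]
  | succ d ih =>
    intro n k
    rw [pair_succ, pair_succ, hm]
    have h1 : 2 * (k + 2 ^ n) = 2 * k + 2 ^ (n + 1) := by ring
    have h2 : 2 * (k + 2 ^ n) + 1 = (2 * k + 1) + 2 ^ (n + 1) := by ring
    rw [h2, ih, h1, ih]

/-- Children are bounded by `t ^ 2`: the mass of an unmarked arc, or of a marked arc below an
unmarked one. -/
lemma mass_le (hκ : 0 < κ) (hκ1 : κ ≤ 2 / 5) (d : ℕ) : ∀ (n : ℕ) (k : ℤ),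
    κ * (pair κ m d n k).2 ≤ 2 * (pair κ m d n k).1 ^ 2 * 2⁻¹ ^ n ∨ (pair κ m d n k).1 = 1 := by
  induction d with
  | zero => intro n k; left; simp [pair]
  | succ d ih =>
    intro n k
    rcases pair_cases κ m d n k with ⟨-, h, -⟩ | ⟨h0, h1, h2, h3, h4⟩
    · exact Or.inr h
    left
    set t1 := (pair κ m d (n + 1) (2 * k)).1 with ht1
    set t2 := (pair κ m d (n + 1) (2 * k + 1)).1 with ht2
    set M1 := (pair κ m d (n + 1) (2 * k)).2 with hM1
    set M2 := (pair κ m d (n + 1) (2 * k + 1)).2 with hM2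
    have a1 : 0 ≤ t1 := pair_fst_nonneg hκ _ _ _
    have a2 : 0 ≤ t2 := pair_fst_nonneg hκ _ _ _
    have a3 : t1 ≤ 1 := pair_fst_le_one hκ _ _ _
    have a4 : t2 ≤ 1 := pair_fst_le_one hκ _ _ _
    have b1 : 0 ≤ M1 := pair_snd_nonneg hκ _ _ _
    have b2 : 0 ≤ M2 := pair_snd_nonneg hκ _ _ _
    set len : ℝ := (2⁻¹ : ℝ) ^ n with hlen
    have hlen0 : 0 < len := by positivity
    have hs : (2⁻¹ : ℝ) ^ (n + 1) = len / 2 := by rw [pow_succ, hlen]; ring
    rw [h3] at h4 ⊢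
    have c1 : κ * M1 ≤ t1 ^ 2 * len := by
      rcases ih (n + 1) (2 * k) with h | h
      · rw [hs] at h; change κ * M1 ≤ 2 * t1 ^ 2 * (len / 2) at h; linarith
      · change t1 = 1 at h
        have : κ * M1 ≤ κ * (M1 + M2) := mul_le_mul_of_nonneg_left (by linarith) hκ.le
        rw [h]; linarith
    have c2 : κ * M2 ≤ t2 ^ 2 * len := by
      rcases ih (n + 1) (2 * k + 1) with h | h
      · rw [hs] at h; change κ * M2 ≤ 2 * t2 ^ 2 * (len / 2) at h; linarith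
      · change t2 = 1 at h
        have : κ * M2 ≤ κ * (M1 + M2) := mul_le_mul_of_nonneg_left (by linarith) hκ.le
        rw [h]; linarith
    have d1 : t1 / (1 + κ) ≤ t1 / (1 + κ * t1) := by
      apply div_le_div_of_nonneg_left a1 (by positivity)
      nlinarith
    have d2 : t2 / (1 + κ) ≤ t2 / (1 + κ * t2) := by
      apply div_le_div_of_nonneg_left a2 (by positivity)
      nlinarith
    have e1 : (t1 + t2) / (1 + κ) ≤ (pair κ m (d + 1) n k).1 := by
      rw [h1, add_div]; linarith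
    have e2 : ((t1 + t2) / (1 + κ)) ^ 2 ≤ (pair κ m (d + 1) n k).1 ^ 2 :=
      pow_le_pow_left₀ (by positivity) e1 2
    have e3 : t1 ^ 2 + t2 ^ 2 ≤ 2 * ((t1 + t2) / (1 + κ)) ^ 2 := by
      rw [div_pow, ← mul_div_assoc, le_div_iff₀ (by positivity)]
      have : (1 + κ) ^ 2 ≤ 2 := by nlinarith
      have h12 : 0 ≤ t1 * t2 := mul_nonneg a1 a2
      nlinarith [sq_nonneg t1, sq_nonneg t2]
    nlinarith

/-- In an unmarked arc the two children are controlled by the arc. -/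
lemma sum_le_of_unmarked (hκ : 0 < κ) (d n : ℕ) (k : ℤ)
    (h : (pair κ m (d + 1) n k).1 = (pair κ m d (n + 1) (2 * k)).1 /
        (1 + κ * (pair κ m d (n + 1) (2 * k)).1) +
        (pair κ m d (n + 1) (2 * k + 1)).1 / (1 + κ * (pair κ m d (n + 1) (2 * k + 1)).1)) :
    (pair κ m d (n + 1) (2 * k)).1 + (pair κ m d (n + 1) (2 * k + 1)).1 ≤
      (1 + κ) * (pair κ m (d + 1) n k).1 := by
  rw [h]
  set t1 := (pair κ m d (n + 1) (2 * k)).1 with ht1
  set t2 := (pair κ m d (n + 1) (2 * k + 1)).1 with ht2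
  have a1 : 0 ≤ t1 := pair_fst_nonneg hκ _ _ _
  have a2 : 0 ≤ t2 := pair_fst_nonneg hκ _ _ _
  have a3 : t1 ≤ 1 := pair_fst_le_one hκ _ _ _
  have a4 : t2 ≤ 1 := pair_fst_le_one hκ _ _ _
  have d1 : t1 / (1 + κ) ≤ t1 / (1 + κ * t1) := by
    apply div_le_div_of_nonneg_left a1 (by positivity)
    nlinarith
  have d2 : t2 / (1 + κ) ≤ t2 / (1 + κ * t2) := by
    apply div_le_div_of_nonneg_left a2 (by positivity)
    nlinarith
  have : (t1 + t2) / (1 + κ) ≤ t1 / (1 + κ * t1) + t2 / (1 + κ * t2) := by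
    rw [add_div]; linarith
  rw [div_le_iff₀ (by positivity)] at this
  linarith

/-- The weight `x = (t + m) / 2 ^ n` of the arc `(n, k)`, for the tree of total depth `D`. -/
noncomputable def wt (κ : ℝ) (m : ℕ → ℤ → ℕ) (D n : ℕ) (k : ℤ) : ℝ :=
  ((pair κ m (D - n) n k).1 + m n k) * 2⁻¹ ^ n

/-- The total weight below `(n, k)`. -/
lemma ts_wt_le (hκ : 0 < κ) (hκ1 : κ ≤ 2 / 5) (D : ℕ) : ∀ (d n : ℕ) (k : ℤ), n + d = D →
    ts (wt κ m D) d n k ≤ 4 * (pair κ m d n k).1 * 2⁻¹ ^ n + 6 * (pair κ m d n k).2 := by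
  intro d
  induction d with
  | zero => intro n k _; simp [pair, ts]
  | succ d ih =>
    intro n k hD
    have hd : D - n = d + 1 := by omega
    have i1 := ih (n + 1) (2 * k) (by omega)
    have i2 := ih (n + 1) (2 * k + 1) (by omega)
    rw [ts, wt, hd]
    set len : ℝ := (2⁻¹ : ℝ) ^ n with hlen
    have hlen0 : 0 < len := by positivity
    have hs : (2⁻¹ : ℝ) ^ (n + 1) = len / 2 := by rw [pow_succ, hlen]; ring
    rw [hs] at i1 i2
    have a1 := pair_fst_le_one (m := m) hκ d (n + 1) (2 * k)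
    have a2 := pair_fst_le_one (m := m) hκ d (n + 1) (2 * k + 1)
    have b1 := pair_fst_nonneg (m := m) hκ d (n + 1) (2 * k)
    have b2 := pair_fst_nonneg (m := m) hκ d (n + 1) (2 * k + 1)
    rcases pair_cases κ m d n k with ⟨-, h1, h2⟩ | ⟨h0, h1, -, h3, -⟩
    · rw [h1, h2]
      have hm : (0 : ℝ) ≤ m n k * len := by positivity
      nlinarith
    · have h5 := sum_le_of_unmarked hκ d n k h1
      rw [h0, h3]
      have h6 : 0 ≤ (pair κ m (d + 1) n k).1 := pair_fst_nonneg hκ _ _ _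
      push_cast
      nlinarith [mul_le_mul_of_nonneg_right h5 hlen0.le, mul_nonneg h6 hlen0.le]

end Pool.Agent.Lib_helper81.Dir
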