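import Pool.Agent.Lib_helper81.Dir.Tree

/-!
Zero sets of the Dirichlet space: the weighted energy sum over the tree.
-/

namespace Pool.Agent.Lib_helper81.Dir

open Finset

variable {κ : ℝ} {m : ℕ → ℤ → ℕ}

lemma ts_nonneg {F : ℕ → ℤ → ℝ} (hF : ∀ n k, 0 ≤ F n k) (d : ℕ) : ∀ (n : ℕ) (k : ℤ),
    0 ≤ ts F d n k := by
  induction d with
  | zero => intro n k; simp [ts]
  | succ d ih =>
    intro n k
    rw [ts]
    have h1 := ih (n + 1) (2 * k)
    have h2 := ih (n + 1) (2 * k + 1)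
    have h3 := hF n k
    positivity

lemma ts_mono {F G : ℕ → ℤ → ℝ} (hF : ∀ n k, F n k ≤ G n k) (d : ℕ) : ∀ (n : ℕ) (k : ℤ),
    ts F d n k ≤ ts G d n k := by
  induction d with
  | zero => intro n k; simp [ts]
  | succ d ih =>
    intro n k
    rw [ts, ts]
    have h1 := ih (n + 1) (2 * k)
    have h2 := ih (n + 1) (2 * k + 1)
    have h3 := hF n k
    linarith

lemma ts_periodic {F : ℕ → ℤ → ℝ} (hF : ∀ n k, F n (k + 2 ^ n) = F n k) (d : ℕ) :
    ∀ (n : ℕ) (k : ℤ), ts F d n (k + 2 ^ n) = ts F d n k := by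
  induction d with
  | zero => intro n k; simp [ts]
  | succ d ih =>
    intro n k
    rw [ts, ts, hF]
    have h1 : 2 * (k + 2 ^ n) = 2 * k + 2 ^ (n + 1) := by ring
    have h2 : 2 * (k + 2 ^ n) + 1 = (2 * k + 1) + 2 ^ (n + 1) := by ring
    rw [h2, ih, h1, ih]

lemma half_or (k : ℤ) : k = 2 * (k / 2) ∨ k = 2 * (k / 2) + 1 := by omega

/-- A child has at most the sum of its parent. -/
lemma ts_child_le {F : ℕ → ℤ → ℝ} (hF : ∀ n k, 0 ≤ F n k) (d n : ℕ) (k : ℤ) :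
    ts F d (n + 1) k ≤ ts F (d + 1) n (k / 2) := by
  rw [ts]
  have h1 := ts_nonneg hF d (n + 1) (2 * (k / 2))
  have h2 := ts_nonneg hF d (n + 1) (2 * (k / 2) + 1)
  have h3 := hF n (k / 2)
  rcases half_or k with h | h
  · have h4 : ts F d (n + 1) k = ts F d (n + 1) (2 * (k / 2)) := by rw [← h]
    linarith
  · have h4 : ts F d (n + 1) k = ts F d (n + 1) (2 * (k / 2) + 1) := by rw [← h]
    linarith

lemma wt_nonneg (hκ : 0 < κ) (D n : ℕ) (k : ℤ) : 0 ≤ wt κ m D n k := by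
  have := pair_fst_nonneg (m := m) hκ (D - n) n k
  rw [wt]; positivity

/-- The density `P` of the weights below `(n, k)`. -/
noncomputable def dens (κ : ℝ) (m : ℕ → ℤ → ℕ) (D n : ℕ) (k : ℤ) : ℝ :=
  ts (wt κ m D) (D - n) n k * 2 ^ n

lemma dens_nonneg (hκ : 0 < κ) (D n : ℕ) (k : ℤ) : 0 ≤ dens κ m D n k := by
  have := ts_nonneg (wt_nonneg (m := m) hκ D) (D - n) n k
  rw [dens]; positivity

/-- The sum `Λ` of `t` over the ancestors of `(n, k)`, itself included. -/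
noncomputable def lam (κ : ℝ) (m : ℕ → ℤ → ℕ) (D n : ℕ) (k : ℤ) : ℝ :=
  ∑ p ∈ range (n + 1), (pair κ m (D - p) p (k / 2 ^ (n - p))).1

lemma lam_zero (κ : ℝ) (m : ℕ → ℤ → ℕ) (D : ℕ) (k : ℤ) :
    lam κ m D 0 k = (pair κ m D 0 k).1 := by
  simp [lam]

lemma lam_succ (κ : ℝ) (m : ℕ → ℤ → ℕ) (D n : ℕ) (k : ℤ) :
    lam κ m D (n + 1) k = lam κ m D n (k / 2) + (pair κ m (D - (n + 1)) (n + 1) k).1 := by
  rw [lam, sum_range_succ, lam]
  congr 1
  · apply sum_congr rfl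
    intro p hp
    have hp' : p ≤ n := Nat.lt_succ_iff.1 (mem_range.1 hp)
    have h1 : n + 1 - p = (n - p) + 1 := by omega
    rw [h1, pow_succ, mul_comm, ← Int.ediv_ediv_of_nonneg (by norm_num)]
  · simp

lemma lam_nonneg (hκ : 0 < κ) (D n : ℕ) (k : ℤ) : 0 ≤ lam κ m D n k :=
  sum_nonneg fun _ _ => pair_fst_nonneg hκ _ _ _

/-- Density at an unmarked arc. -/
lemma dens_le_of_unmarked (hκ : 0 < κ) (hκ1 : κ ≤ 2 / 5) (D n : ℕ) (k : ℤ) (hn : n ≤ D)
    (h : (pair κ m (D - n) n k).1 ≠ 1) :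
    dens κ m D n k ≤ (4 + 12 / κ) * (pair κ m (D - n) n k).1 := by
  have h1 := ts_wt_le (m := m) hκ hκ1 D (D - n) n k (by omega)
  have h2 : κ * (pair κ m (D - n) n k).2 ≤ 2 * (pair κ m (D - n) n k).1 ^ 2 * 2⁻¹ ^ n :=
    (mass_le hκ hκ1 (D - n) n k).resolve_right h
  set t := (pair κ m (D - n) n k).1 with ht
  set M := (pair κ m (D - n) n k).2 with hM
  have a1 : 0 ≤ t := pair_fst_nonneg hκ _ _ _
  have a2 : t ≤ 1 := pair_fst_le_one hκ _ _ _
  have hp : (2⁻¹ : ℝ) ^ n * 2 ^ n = 1 := by rw [← mul_pow]; norm_num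
  have hp0 : (0 : ℝ) < 2 ^ n := by positivity
  have h3 : M ≤ 2 * t ^ 2 * 2⁻¹ ^ n / κ := by
    rw [le_div_iff₀ hκ]; linarith
  have h4 : M * 2 ^ n ≤ 2 * t ^ 2 / κ := by
    calc M * 2 ^ n ≤ 2 * t ^ 2 * 2⁻¹ ^ n / κ * 2 ^ n :=
          mul_le_mul_of_nonneg_right h3 hp0.le
      _ = 2 * t ^ 2 / κ * (2⁻¹ ^ n * 2 ^ n) := by ring
      _ = 2 * t ^ 2 / κ := by rw [hp, mul_one]
  have h5 : t ^ 2 / κ ≤ t / κ := by
    apply div_le_div_of_nonneg_right _ hκ.le
    nlinarith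
  calc dens κ m D n k = ts (wt κ m D) (D - n) n k * 2 ^ n := rfl
    _ ≤ (4 * t * 2⁻¹ ^ n + 6 * M) * 2 ^ n := mul_le_mul_of_nonneg_right h1 hp0.le
    _ = 4 * t * (2⁻¹ ^ n * 2 ^ n) + 6 * (M * 2 ^ n) := by ring
    _ ≤ 4 * t + 6 * (2 * t ^ 2 / κ) := by rw [hp, mul_one]; linarith
    _ = 4 * t + 12 * (t ^ 2 / κ) := by ring
    _ ≤ 4 * t + 12 * (t / κ) := by linarith
    _ = (4 + 12 / κ) * t := by ring

/-- Density at a general arc. -/
lemma dens_le (hκ : 0 < κ) (hκ1 : κ ≤ 2 / 5) (D : ℕ) (C : ℝ) (hC1 : 4 + 12 / κ ≤ C)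
    (hC2 : ∀ k, dens κ m D 0 k ≤ C) : ∀ (n : ℕ) (k : ℤ), n ≤ D →
    dens κ m D n k ≤ C * (2 : ℝ) ^ (lam κ m D n k) := by
  have hC0 : 0 < C := lt_of_lt_of_le (by positivity) hC1
  have hone : ∀ n k, 1 ≤ (2 : ℝ) ^ (lam κ m D n k) := fun n k =>
    Real.one_le_rpow (by norm_num) (lam_nonneg hκ D n k)
  intro n
  induction n with
  | zero =>
    intro k _
    calc dens κ m D 0 k ≤ C := hC2 k
      _ = C * 1 := (mul_one C).symm
      _ ≤ _ := mul_le_mul_of_nonneg_left (hone 0 k) hC0.le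
  | succ n ih =>
    intro k hn
    by_cases h : (pair κ m (D - (n + 1)) (n + 1) k).1 = 1
    · have h1 := ih (k / 2) (by omega)
      rw [lam_succ, h, Real.rpow_add (by norm_num), Real.rpow_one]
      have h2 : dens κ m D (n + 1) k ≤ 2 * dens κ m D n (k / 2) := by
        have h3 := ts_child_le (wt_nonneg (m := m) hκ D) (D - (n + 1)) n k
        have h4 : D - (n + 1) + 1 = D - n := by omega
        rw [h4] at h3
        rw [dens, dens, pow_succ]
        have : (0 : ℝ) < 2 ^ n := by positivity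
        nlinarith
      linarith
    · have h1 := dens_le_of_unmarked hκ hκ1 D (n + 1) k hn h
      have a1 : 0 ≤ (pair κ m (D - (n + 1)) (n + 1) k).1 := pair_fst_nonneg hκ _ _ _
      have a2 : (pair κ m (D - (n + 1)) (n + 1) k).1 ≤ 1 := pair_fst_le_one hκ _ _ _
      have h2 : (4 + 12 / κ) * (pair κ m (D - (n + 1)) (n + 1) k).1 ≤ C := by
        have : 0 ≤ 4 + 12 / κ := by positivity
        nlinarith
      calc _ ≤ C := h1.trans h2
        _ = C * 1 := (mul_one C).symm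
        _ ≤ _ := mul_le_mul_of_nonneg_left (hone _ k) hC0.le

/-- The bottom-up energy. -/
noncomputable def ysum (κ : ℝ) (m : ℕ → ℤ → ℕ) (a : ℝ) : ℕ → ℕ → ℤ → ℝ
  | 0, _, _ => 0
  | d + 1, n, k => (pair κ m (d + 1) n k).1 ^ 2 +
      Real.exp (-a * (pair κ m d (n + 1) (2 * k)).1) * ysum κ m a d (n + 1) (2 * k) +
      Real.exp (-a * (pair κ m d (n + 1) (2 * k + 1)).1) * ysum κ m a d (n + 1) (2 * k + 1)

lemma exp_neg_le (x : ℝ) (hx : 0 ≤ x) : Real.exp (-x) ≤ 1 / (1 + x) := by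
  rw [Real.exp_neg, ← one_div]
  apply one_div_le_one_div_of_le (by positivity)
  have := Real.add_one_le_exp x
  linarith

lemma ysum_child (hκ : 0 < κ) (hκ1 : κ ≤ 2 / 5) (t y : ℝ) (ht0 : 0 ≤ t) (ht1 : t ≤ 1)
    (hy : y ≤ 8 * t) (hy2 : t = 1 → y ≤ 2) (hy0 : 0 ≤ y) :
    Real.exp (-6 * t) * y ≤ 1 / 2 ∧
      Real.exp (-6 * t) * y + 2 * t ^ 2 ≤ 8 * (t / (1 + κ * t)) := by
  have h1 : Real.exp (-6 * t) ≤ 1 / (1 + 6 * t) := by
    have := exp_neg_le (6 * t) (by positivity)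
    rwa [neg_mul]
  have hsq : Real.exp (-6 * t) ≤ (1 / (1 + 3 * t)) ^ 2 := by
    have := exp_neg_le (3 * t) (by positivity)
    have h2 : Real.exp (-6 * t) = Real.exp (-(3 * t)) ^ 2 := by
      rw [← Real.exp_nat_mul]; congr 1; push_cast; ring
    rw [h2]
    exact pow_le_pow_left₀ (Real.exp_pos _).le this 2
  have he : 0 < Real.exp (-6 * t) := Real.exp_pos _
  rcases eq_or_lt_of_le ht1 with h | h
  · have hy3 := hy2 h
    subst h
    have h3 : Real.exp (-6 * 1) ≤ 1 / 16 := by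
      have : (1 / (1 + 3 * (1:ℝ))) ^ 2 = 1 / 16 := by norm_num
      rw [← this]; exact hsq
    constructor
    · calc _ ≤ 1 / 16 * 2 := mul_le_mul h3 hy3 hy0 (by norm_num)
        _ ≤ 1 / 2 := by norm_num
    · have h4 : Real.exp (-6 * 1) * y ≤ 1 / 8 := by
        calc _ ≤ 1 / 16 * 2 := mul_le_mul h3 hy3 hy0 (by norm_num)
          _ = 1 / 8 := by norm_num
      have h5 : (5 : ℝ) / 7 ≤ 1 / (1 + κ * 1) := by
        rw [div_le_div_iff₀ (by norm_num) (by positivity)]; linarith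
      linarith
  · constructor
    · -- 8 t / (1 + 3 t)^2 ... use a sharper bound
      have h2 : Real.exp (-6 * t) * y ≤ Real.exp (-6 * t) * (8 * t) :=
        mul_le_mul_of_nonneg_left hy he.le
      -- t exp(-6t) ≤ 1/(6e) ≤ 1/16
      have h3 : t * Real.exp (-6 * t) ≤ 1 / 16 := by
        have h4 := Real.add_one_le_exp (6 * t - 1)
        have h5 : Real.exp (6 * t - 1) = Real.exp (6 * t) / Real.exp 1 := by
          rw [Real.exp_sub]
        have h6 : (2.7 : ℝ) ≤ Real.exp 1 := by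
          have := Real.exp_one_gt_d9; linarith
        have h7 : 6 * t * Real.exp 1 ≤ Real.exp (6 * t) := by
          rw [h5] at h4
          have h8 : 6 * t ≤ Real.exp (6 * t) / Real.exp 1 := by linarith
          rwa [le_div_iff₀ (Real.exp_pos _)] at h8
        have h9 : 16 * t ≤ Real.exp (6 * t) := by nlinarith
        have h10 : Real.exp (-6 * t) = (Real.exp (6 * t))⁻¹ := by
          rw [← Real.exp_neg]; congr 1; ring
        rw [h10, ← div_eq_mul_inv, div_le_div_iff₀ (Real.exp_pos _) (by norm_num)]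
        linarith
      linarith
    · have h2 : Real.exp (-6 * t) * y ≤ 1 / (1 + 6 * t) * (8 * t) :=
        mul_le_mul h1 hy hy0 (by positivity)
      refine (add_le_add_left h2 _).trans ?_
      have h3 : 1 / (1 + 6 * t) * (8 * t) + 2 * t ^ 2 = (8 * t + 2 * t ^ 2 * (1 + 6 * t)) /
          (1 + 6 * t) := by field_simp
      rw [h3, ← mul_div_assoc, div_le_div_iff₀ (by positivity) (by positivity)]
      have hk : 0 ≤ κ * t := by positivity
      have hk2 : κ * t ≤ 2 / 5 * t := mul_le_mul_of_nonneg_right hκ1 ht0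
      nlinarith [mul_nonneg ht0 hk, mul_nonneg (mul_nonneg ht0 ht0) hk, mul_nonneg ht0 ht0,
        mul_nonneg (mul_nonneg ht0 ht0) ht0, mul_le_mul_of_nonneg_left hk2 ht0,
        mul_le_mul_of_nonneg_left hk2 (mul_nonneg ht0 ht0),
        mul_le_mul_of_nonneg_left hk2 (mul_nonneg (mul_nonneg ht0 ht0) ht0),
        mul_nonneg (mul_nonneg ht0 ht0) (sub_nonneg.2 ht1),
        mul_nonneg ht0 (sub_nonneg.2 ht1),
        mul_nonneg (mul_nonneg (mul_nonneg ht0 ht0) ht0) (sub_nonneg.2 ht1)]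

lemma ysum_bounds (hκ : 0 < κ) (hκ1 : κ ≤ 2 / 5) (d : ℕ) : ∀ (n : ℕ) (k : ℤ),
    0 ≤ ysum κ m 6 d n k ∧ ysum κ m 6 d n k ≤ 8 * (pair κ m d n k).1 ∧
      ((pair κ m d n k).1 = 1 → ysum κ m 6 d n k ≤ 2) := by
  induction d with
  | zero => intro n k; simp [ysum, pair]
  | succ d ih =>
    intro n k
    obtain ⟨a1, a2, a3⟩ := ih (n + 1) (2 * k)
    obtain ⟨b1, b2, b3⟩ := ih (n + 1) (2 * k + 1)
    have c1 := ysum_child hκ hκ1 _ _ (pair_fst_nonneg hκ d (n + 1) (2 * k))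
      (pair_fst_le_one hκ d (n + 1) (2 * k)) a2 a3 a1
    have c2 := ysum_child hκ hκ1 _ _ (pair_fst_nonneg hκ d (n + 1) (2 * k + 1))
      (pair_fst_le_one hκ d (n + 1) (2 * k + 1)) b2 b3 b1
    rw [ysum]
    refine ⟨by positivity, ?_, ?_⟩
    · rcases pair_cases κ m d n k with ⟨-, h1, h2⟩ | ⟨h0, h1, -, h3, -⟩
      · rw [h1]; linarith [c1.1, c2.1]
      · have h4 := pair_fst_nonneg (m := m) hκ d (n + 1) (2 * k)
        have h5 := pair_fst_nonneg (m := m) hκ d (n + 1) (2 * k + 1)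
        have h6 : (pair κ m (d + 1) n k).1 ≤ (pair κ m d (n + 1) (2 * k)).1 +
            (pair κ m d (n + 1) (2 * k + 1)).1 := by
          rw [h1]
          exact add_le_add
            (div_le_self h4 (le_add_of_nonneg_right (mul_nonneg hκ.le h4)))
            (div_le_self h5 (le_add_of_nonneg_right (mul_nonneg hκ.le h5)))
        have h7 : (pair κ m (d + 1) n k).1 ^ 2 ≤ 2 * (pair κ m d (n + 1) (2 * k)).1 ^ 2 +
            2 * (pair κ m d (n + 1) (2 * k + 1)).1 ^ 2 := by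
          have h8 : (pair κ m (d + 1) n k).1 ^ 2 ≤ ((pair κ m d (n + 1) (2 * k)).1 +
            (pair κ m d (n + 1) (2 * k + 1)).1) ^ 2 :=
            pow_le_pow_left₀ (pair_fst_nonneg hκ _ _ _) h6 2
          nlinarith [sq_nonneg ((pair κ m d (n + 1) (2 * k)).1 -
            (pair κ m d (n + 1) (2 * k + 1)).1)]
        have h9 := c1.2
        have h10 := c2.2
        rw [h1] at h7 ⊢
        linarith
    · intro h
      rw [h]; linarith [c1.1, c2.1]

/-- The energy sum is `ysum` times the factor of the top arc. -/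
lemma ts_exp_eq (κ : ℝ) (m : ℕ → ℤ → ℕ) (a : ℝ) (D : ℕ) : ∀ (d n : ℕ) (k : ℤ), n + d = D →
    ts (fun n k => (pair κ m (D - n) n k).1 ^ 2 * Real.exp (-a * lam κ m D n k)) d n k =
      Real.exp (-a * lam κ m D n k) * ysum κ m a d n k := by
  intro d
  induction d with
  | zero => intro n k _; simp [ts, ysum]
  | succ d ih =>
    intro n k hD
    have hd : D - n = d + 1 := by omega
    have hd' : D - (n + 1) = d := by omega
    rw [ts, ih (n + 1) (2 * k) (by omega), ih (n + 1) (2 * k + 1) (by omega), ysum, hd,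
      lam_succ, lam_succ, hd']
    have e1 : 2 * k / 2 = k := by omega
    have e2 : (2 * k + 1) / 2 = k := by omega
    rw [e1, e2, mul_add, mul_add, Real.exp_add, Real.exp_add]
    ring

/-- The function whose squares are summed. -/
noncomputable def psi (κ : ℝ) (m : ℕ → ℤ → ℕ) (D n : ℕ) (k : ℤ) : ℝ :=
  dens κ m D n k * Real.exp (-4 * lam κ m D n k)

lemma psi_sq_le (hκ : 0 < κ) (hκ1 : κ ≤ 2 / 5) (D : ℕ) (C : ℝ) (hC1 : 4 + 12 / κ ≤ C)
    (hC2 : ∀ k, dens κ m D 0 k ≤ C) (n : ℕ) (k : ℤ) (hn : n ≤ D) :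
    psi κ m D n k ^ 2 ≤
      C ^ 2 * ((pair κ m (D - n) n k).1 ^ 2 * Real.exp (-6 * lam κ m D n k)) := by
  have hL := lam_nonneg (m := m) hκ D n k
  have hC0 : 0 < C := lt_of_lt_of_le (by positivity) hC1
  have hd0 := dens_nonneg (m := m) hκ D n k
  have key : dens κ m D n k ≤
      C * (pair κ m (D - n) n k).1 * Real.exp (lam κ m D n k) := by
    by_cases h : (pair κ m (D - n) n k).1 = 1
    · have h1 := dens_le hκ hκ1 D C hC1 hC2 n k hn
      rw [h, mul_one]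
      refine h1.trans (mul_le_mul_of_nonneg_left ?_ hC0.le)
      rw [Real.rpow_def_of_pos (by norm_num), Real.exp_le_exp]
      have : Real.log 2 ≤ 1 := by
        have := Real.log_two_lt_d9; linarith
      nlinarith
    · have h1 := dens_le_of_unmarked hκ hκ1 D n k hn h
      have a1 : 0 ≤ (pair κ m (D - n) n k).1 := pair_fst_nonneg hκ _ _ _
      have h2 : 1 ≤ Real.exp (lam κ m D n k) := Real.one_le_exp hL
      have h3 : 0 ≤ C * (pair κ m (D - n) n k).1 := by positivity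
      calc _ ≤ (4 + 12 / κ) * (pair κ m (D - n) n k).1 := h1
        _ ≤ C * (pair κ m (D - n) n k).1 := mul_le_mul_of_nonneg_right hC1 a1
        _ = C * (pair κ m (D - n) n k).1 * 1 := (mul_one _).symm
        _ ≤ _ := mul_le_mul_of_nonneg_left h2 h3
  have h4 : dens κ m D n k ^ 2 ≤ (C * (pair κ m (D - n) n k).1 * Real.exp (lam κ m D n k)) ^ 2 :=
    pow_le_pow_left₀ hd0 key 2
  calc psi κ m D n k ^ 2 = dens κ m D n k ^ 2 * Real.exp (-4 * lam κ m D n k) ^ 2 := by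
        rw [psi, mul_pow]
    _ ≤ (C * (pair κ m (D - n) n k).1 * Real.exp (lam κ m D n k)) ^ 2 *
        Real.exp (-4 * lam κ m D n k) ^ 2 :=
        mul_le_mul_of_nonneg_right h4 (by positivity)
    _ = C ^ 2 * ((pair κ m (D - n) n k).1 ^ 2 *
        (Real.exp (lam κ m D n k) * Real.exp (-4 * lam κ m D n k)) ^ 2) := by ring
    _ = C ^ 2 * ((pair κ m (D - n) n k).1 ^ 2 * Real.exp (-6 * lam κ m D n k)) := by
        rw [← Real.exp_add, ← Real.exp_nat_mul]
        congr 3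
        push_cast; ring

lemma ts_const_mul (c : ℝ) (F : ℕ → ℤ → ℝ) (d : ℕ) : ∀ (n : ℕ) (k : ℤ),
    ts (fun n k => c * F n k) d n k = c * ts F d n k := by
  induction d with
  | zero => intro n k; simp [ts]
  | succ d ih => intro n k; rw [ts, ts, ih, ih]; ring

lemma ts_mono' {F G : ℕ → ℤ → ℝ} (D : ℕ) (hF : ∀ n k, n ≤ D → F n k ≤ G n k) (d : ℕ) :
    ∀ (n : ℕ) (k : ℤ), n + d = D → ts F d n k ≤ ts G d n k := by
  induction d with
  | zero => intro n k _; simp [ts]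
  | succ d ih =>
    intro n k hD
    rw [ts, ts]
    have h1 := ih (n + 1) (2 * k) (by omega)
    have h2 := ih (n + 1) (2 * k + 1) (by omega)
    have h3 := hF n k (by omega)
    linarith

/-- The weighted energy of the tree. -/
theorem ts_psi_sq_le (hκ : 0 < κ) (hκ1 : κ ≤ 2 / 5) (D : ℕ) (C : ℝ) (hC1 : 4 + 12 / κ ≤ C)
    (hC2 : ∀ k, dens κ m D 0 k ≤ C) :
    ts (fun n k => psi κ m D n k ^ 2) D 0 0 ≤ 8 * C ^ 2 := by
  have h1 := ts_mono' D (fun n k hn => psi_sq_le (m := m) hκ hκ1 D C hC1 hC2 n k hn) D 0 0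
    (by omega)
  refine h1.trans ?_
  rw [ts_const_mul, ts_exp_eq κ m 6 D D 0 0 (by omega)]
  obtain ⟨a1, a2, -⟩ := ysum_bounds (m := m) hκ hκ1 D 0 0
  have a3 := pair_fst_le_one (m := m) hκ D 0 0
  have h2 : Real.exp (-6 * lam κ m D 0 0) ≤ 1 := by
    rw [Real.exp_le_one_iff]
    have := lam_nonneg (m := m) hκ D 0 0
    linarith
  have h3 : Real.exp (-6 * lam κ m D 0 0) * ysum κ m 6 D 0 0 ≤ 8 := by
    calc _ ≤ 1 * ysum κ m 6 D 0 0 := mul_le_mul_of_nonneg_right h2 a1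
      _ ≤ 8 := by linarith
  nlinarith [sq_nonneg C]

end Pool.Agent.Lib_helper81.Dir
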